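import Pool.Agent.Lib.MP_aa337a_pr.Energy

set_option autoImplicit false

namespace Pool.Agent.Lib.MP_aa337a_pr

open Finset

variable {β : ℝ} {d : ℕ}

/-- The cube of radius `r`. -/
noncomputable def box (d r : ℕ) : Finset (Fin d → ℤ) :=
  Fintype.piFinset fun _ => Icc (-(r : ℤ)) r

theorem card_icc (r : ℕ) : (Icc (-(r : ℤ)) r).card = 2 * r + 1 := by
  rw [Int.card_Icc]
  omega

theorem card_box (r : ℕ) : (box d r).card = (2 * r + 1) ^ d := by
  simp only [box, Fintype.card_piFinset, card_icc, prod_const, card_univ, Fintype.card_fin]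

theorem sum_line_le (i : Fin d) (e : Fin d → ℤ) (he : e i = 1) (r L : ℕ)
    (g : (Fin d → ℤ) → ℝ) (hg : ∀ y, 0 ≤ g y) :
    ∃ S : Finset (Fin d → ℤ), ∑ x ∈ box d r, ∑ j ∈ range L, g (x + j • e) ≤
      (2 * r + 1) * ∑ y ∈ S, g y := by
  refine ⟨(box d r ×ˢ range L).image fun p => p.1 + p.2 • e, ?_⟩
  rw [← sum_product' (box d r) (range L) (fun x (j : ℕ) => g (x + j • e)),
    sum_comp g fun p : (Fin d → ℤ) × ℕ => p.1 + p.2 • e, mul_sum]
  refine sum_le_sum fun y _ => ?_
  rw [nsmul_eq_mul]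
  refine mul_le_mul_of_nonneg_right ?_ (hg y)
  have h : ((box d r ×ˢ range L).filter fun p : (Fin d → ℤ) × ℕ =>
      p.1 + p.2 • e = y).card ≤ (Icc (-(r : ℤ)) r).card := by
    refine card_le_card_of_injOn (fun p => p.1 i) (fun p hp => ?_) (fun p hp q hq hpq => ?_)
    · have := (mem_product.1 (mem_filter.1 hp).1).1
      exact Fintype.mem_piFinset.1 this i
    · have h1 := (mem_filter.1 hp).2
      have h2 := (mem_filter.1 hq).2
      have h3 := congrFun (h1.trans h2.symm) i
      rw [Pi.add_apply, Pi.add_apply, Pi.smul_apply, Pi.smul_apply, he, nsmul_eq_mul, nsmul_eq_mul,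
        mul_one, mul_one] at h3
      have h4 : p.2 = q.2 := by
        have : p.1 i = q.1 i := hpq
        omega
      refine Prod.ext ?_ h4
      rw [h4] at h1
      exact add_right_cancel (h1.trans h2.symm)
  rw [card_icc] at h
  exact_mod_cast h

theorem sum_count_eq (S : Finset (Fin d → ℤ)) (w : List (Fin d → ℤ)) :
    ∑ y ∈ S, (w.count y : ℝ) = (w.map fun y => if y ∈ S then (1 : ℝ) else 0).sum := by
  induction w with
  | nil => simp
  | cons y w ih =>
    simp only [List.count_cons, beq_iff_eq, Nat.cast_add, Nat.cast_ite, Nat.cast_one,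
      Nat.cast_zero, sum_add_distrib, sum_ite_eq, ih, List.map_cons, List.sum_cons]
    ring

theorem sum_count_le (S : Finset (Fin d → ℤ)) (w : List (Fin d → ℤ)) :
    ∑ y ∈ S, (w.count y : ℝ) ≤ (w.map fun _ => (1 : ℝ)).sum := by
  rw [sum_count_eq]
  refine List.sum_le_sum fun y _ => ?_
  split_ifs <;> norm_num

theorem tele_le (f : ℕ → ℝ) (L j : ℕ) (hj : j ≤ L) :
    f 0 ≤ f j + ∑ i ∈ range L, |f (i + 1) - f i| := by
  have h1 : ∑ i ∈ range j, (f i - f (i + 1)) = f 0 - f j := sum_range_sub' f j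
  have h2 : ∑ i ∈ range j, (f i - f (i + 1)) ≤ ∑ i ∈ range j, |f (i + 1) - f i| :=
    sum_le_sum fun i _ => by
      rw [abs_sub_comm]
      exact le_abs_self _
  have h3 : ∑ i ∈ range j, |f (i + 1) - f i| ≤ ∑ i ∈ range L, |f (i + 1) - f i| :=
    sum_le_sum_of_subset_of_nonneg (range_subset_range.2 hj) fun _ _ _ => abs_nonneg _
  linarith

theorem box_count_le (i : Fin d) (r L : ℕ) (hL : 0 < L) {lam : ℝ} (hl : 0 < lam)
    (w : List (Fin d → ℤ)) :
    ∑ x ∈ box d r, (w.count x : ℝ) ≤ (2 * r + 1) / L * (w.map fun _ => (1 : ℝ)).sum +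
      (2 * r + 1) ^ d * L * lam / 2 + (2 * r + 1) / (2 * lam) * den (Pi.single i 1) w := by
  have hL' : (0 : ℝ) < L := by exact_mod_cast hL
  set e : Fin d → ℤ := Pi.single i 1 with he
  obtain ⟨S₁, h₁⟩ := sum_line_le i e (Pi.single_eq_same ..) r L (fun y => (w.count y : ℝ))
    fun _ => by positivity
  obtain ⟨S₂, h₂⟩ := sum_line_le i e (Pi.single_eq_same ..) r L
    (fun y => ((w.count (y + e) : ℝ) - w.count y) ^ 2)
    fun _ => sq_nonneg _
  have h₃ := sum_count_le S₁ w
  have h₄ := sum_sq_le_den (single_ne i) S₂ w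
  have hr : (0 : ℝ) ≤ 2 * r + 1 := by positivity
  have h₅ : ∀ x, (w.count x : ℝ) ≤ (∑ j ∈ range L, (w.count (x + j • e) : ℝ)) / L +
      (L * lam / 2 + (∑ j ∈ range L,
        ((w.count (x + j • e + e) : ℝ) - w.count (x + j • e)) ^ 2) / (2 * lam)) := by
    intro x
    have h6 : ∑ j ∈ range L, |(w.count (x + (j + 1) • e) : ℝ) - w.count (x + j • e)| ≤
        L * lam / 2 + (∑ j ∈ range L,
          ((w.count (x + j • e + e) : ℝ) - w.count (x + j • e)) ^ 2) / (2 * lam) := by
      rw [sum_div]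
      have : (L : ℝ) * lam / 2 = ∑ _j ∈ range L, lam / 2 := by
        rw [sum_const, card_range, nsmul_eq_mul]
        ring
      rw [this, ← sum_add_distrib]
      refine sum_le_sum fun j _ => ?_
      rw [succ_nsmul, ← add_assoc]
      generalize (w.count (x + j • e + e) : ℝ) - w.count (x + j • e) = g
      rw [← sq_abs, ← sub_nonneg]
      have : lam / 2 + |g| ^ 2 / (2 * lam) - |g| = (|g| - lam) ^ 2 / (2 * lam) := by
        field_simp
        ring
      rw [this]
      positivity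
    have h7 : ∀ j ∈ range L, (w.count x : ℝ) ≤ (w.count (x + j • e) : ℝ) +
        ∑ j ∈ range L, |(w.count (x + (j + 1) • e) : ℝ) - w.count (x + j • e)| := fun j hj => by
      simpa using tele_le (fun j => (w.count (x + j • e) : ℝ)) L j (mem_range.1 hj).le
    have h8 := sum_le_sum h7
    rw [sum_add_distrib, sum_const, sum_const, card_range, nsmul_eq_mul, nsmul_eq_mul] at h8
    have h9 : (w.count x : ℝ) ≤ (∑ j ∈ range L, (w.count (x + j • e) : ℝ)) / L +
        ∑ j ∈ range L, |(w.count (x + (j + 1) • e) : ℝ) - w.count (x + j • e)| := by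
      rw [div_add' _ _ _ hL'.ne', le_div_iff₀ hL']
      linarith
    linarith
  refine (sum_le_sum fun x _ => h₅ x).trans ?_
  rw [sum_add_distrib, sum_add_distrib, ← sum_div, ← sum_div (a := 2 * lam), sum_const, card_box,
    nsmul_eq_mul]
  have h10 : (∑ x ∈ box d r, ∑ j ∈ range L, (w.count (x + j • e) : ℝ)) / L ≤
      (2 * r + 1) / L * (w.map fun _ => (1 : ℝ)).sum := by
    rw [div_mul_eq_mul_div]
    exact div_le_div_of_nonneg_right (h₁.trans (mul_le_mul_of_nonneg_left h₃ hr)) hL'.le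
  have h11 : (∑ x ∈ box d r, ∑ j ∈ range L,
      ((w.count (x + j • e + e) : ℝ) - w.count (x + j • e)) ^ 2) / (2 * lam) ≤
        (2 * r + 1) / (2 * lam) * den e w := by
    rw [div_mul_eq_mul_div]
    exact div_le_div_of_nonneg_right (h₂.trans (mul_le_mul_of_nonneg_left h₄ hr)) (by positivity)
  push_cast
  linarith

/-- Expected time spent in a cube. -/
theorem time_in_box (hd : 0 < d) (hβ : 0 ≤ β) (r m n : ℕ) (hm : 0 < m)
    (h : (2 * r + 1) ^ (d + 2) * (d * m ^ 3) ≤ 2 * (n + 1)) :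
    ∑ k ∈ range (n + 1), expect β d k (fun x _ => if x ∈ box d r then (1 : ℝ) else 0) ≤
      3 * (n + 1) / m := by
  have hm' : (0 : ℝ) < m := by exact_mod_cast hm
  have hd' : (0 : ℝ) < d := by exact_mod_cast hd
  have hr : (0 : ℝ) < 2 * r + 1 := by positivity
  have hl : (0 : ℝ) < d * (2 * r + 1) * m := by positivity
  rw [← expect_path hd]
  refine (expect_mono n (g := fun x w =>
    (2 * r + 1) / (m * (2 * r + 1) : ℕ) * (w.map fun _ => (1 : ℝ)).sum +
      (2 * r + 1) ^ d * (m * (2 * r + 1) : ℕ) * (d * (2 * r + 1) * m) / 2 +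
        (2 * r + 1) / (2 * (d * (2 * r + 1) * m)) * lyap x w) fun x w => ?_).trans ?_
  · rw [← sum_count_eq]
    refine (box_count_le ⟨0, hd⟩ r (m * (2 * r + 1)) (by positivity) hl w).trans ?_
    have := mul_le_mul_of_nonneg_left (den_le_lyap ⟨0, hd⟩ x w)
      (show (0 : ℝ) ≤ (2 * r + 1) / (2 * (d * (2 * r + 1) * m)) by positivity)
    linarith
  · rw [expect_add, expect_add, expect_mul, expect_mul, expect_const hd, expect_path hd]
    simp only [expect_const hd, sum_const, card_range, nsmul_eq_mul, mul_one]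
    have h1 := mul_le_mul_of_nonneg_left (expect_lyap hd hβ n)
      (show (0 : ℝ) ≤ (2 * r + 1) / (2 * (d * (2 * r + 1) * m)) by positivity)
    have h2 : (2 * r + 1 : ℝ) / (2 * (d * (2 * r + 1) * m)) * (2 * d * (n + 1)) = (n + 1) / m := by
      field_simp
    have h3 : (2 * r + 1 : ℝ) / (m * (2 * r + 1) : ℕ) * (n + 1 : ℕ) = (n + 1) / m := by
      push_cast
      field_simp
    have h4 : ((2 * r + 1) ^ (d + 2) * (d * m ^ 3) : ℝ) ≤ 2 * (n + 1) := by exact_mod_cast h
    have h5 : (2 * r + 1 : ℝ) ^ d * (m * (2 * r + 1) : ℕ) * (d * (2 * r + 1) * m) / 2 ≤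
        (n + 1) / m := by
      rw [div_le_div_iff₀ two_pos hm']
      push_cast
      calc _ = ((2 * r + 1) ^ (d + 2) * (d * m ^ 3) : ℝ) := by ring
        _ ≤ _ := by linarith
    have h6 : (3 * (n + 1) / m : ℝ) = (n + 1) / m + (n + 1) / m + (n + 1) / m := by ring
    rw [h3]
    linarith

theorem msd_ge (hd : 0 < d) (r k : ℕ) :
    ((r : ℝ) + 1) ^ 2 * (1 - expect β d k fun x _ => if x ∈ box d r then (1 : ℝ) else 0) ≤
      msd β d k := by
  have h : ((r : ℝ) + 1) ^ 2 * (1 - expect β d k fun x _ => if x ∈ box d r then (1 : ℝ) else 0) =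
      expect β d k fun x _ => ((r : ℝ) + 1) ^ 2 +
        -((r : ℝ) + 1) ^ 2 * if x ∈ box d r then (1 : ℝ) else 0 := by
    rw [expect_add, expect_mul, expect_const hd]
    ring
  rw [h]
  refine expect_mono k fun x _ => ?_
  by_cases hx : x ∈ box d r
  · rw [if_pos hx, mul_one, add_neg_cancel]
    positivity
  · rw [if_neg hx, mul_zero, add_zero]
    obtain ⟨i, hi⟩ : ∃ i, x i ∉ Icc (-(r : ℤ)) r := by
      by_contra hc
      push Not at hc
      exact hx (Fintype.mem_piFinset.2 hc)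
    refine le_trans ?_ (single_le_sum (f := fun i => (x i : ℝ) ^ 2) (fun _ _ => sq_nonneg _)
      (mem_univ i))
    have h1 : (r : ℤ) + 1 ≤ |x i| := by
      rw [mem_Icc] at hi
      rcases abs_cases (x i) with h | h <;> omega
    have h2 : (r : ℝ) + 1 ≤ |(x i : ℝ)| := by exact_mod_cast h1
    rw [← sq_abs (x i : ℝ)]
    gcongr

end Pool.Agent.Lib.MP_aa337a_pr
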