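import Mathlib

/-! The true (myopic) self-avoiding walk on the lattice, as explicit finite sums. -/

set_option autoImplicit false

namespace Pool.Agent.Lib.MP_aa337a_pr

/-- The `2 d` unit steps `± e i`. -/
def step {d : ℕ} (s : Fin d × Bool) : Fin d → ℤ :=
  if s.2 then Pi.single s.1 1 else -Pi.single s.1 1

/-- Probability of the step `s` from the position `x` when `w` lists all positions so far:
proportional to `exp (-β V)`, where `V` is the number of visits to the target. -/
noncomputable def trans (β : ℝ) {d : ℕ} (x : Fin d → ℤ) (w : List (Fin d → ℤ))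
    (s : Fin d × Bool) : ℝ :=
  Real.exp (-β * (w.count (x + step s) : ℝ)) /
    ∑ s' : Fin d × Bool, Real.exp (-β * (w.count (x + step s') : ℝ))

/-- `expect β d n f` is the expectation of `f (X n) [X n, …, X 0]` for the walk started at `0`. -/
noncomputable def expect (β : ℝ) (d : ℕ) :
    ℕ → ((Fin d → ℤ) → List (Fin d → ℤ) → ℝ) → ℝ
  | 0, f => f 0 [0]
  | n + 1, f => expect β d n fun x w =>
      ∑ s : Fin d × Bool, trans β x w s * f (x + step s) ((x + step s) :: w)

/-- The mean square displacement `E |X n| ^ 2`. -/
noncomputable def msd (β : ℝ) (d n : ℕ) : ℝ :=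
  expect β d n fun x _ => ∑ i, (x i : ℝ) ^ 2

end Pool.Agent.Lib.MP_aa337a_pr
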