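import Pool.Agent.Lib.MP_aa337a_pr.Defs
import Pool.Agent.Lib.MP_aa337a_pr.DefsEq

set_option autoImplicit false

namespace Pool.Agent.Lib.MP_aa337a_pr

open Finset

variable {β : ℝ} {d : ℕ}

theorem trans_nonneg (x : Fin d → ℤ) (w : List (Fin d → ℤ)) (s : Fin d × Bool) :
    0 ≤ trans β x w s :=
  div_nonneg (Real.exp_pos _).le (sum_nonneg fun _ _ => (Real.exp_pos _).le)

theorem z_pos (hd : 0 < d) (x : Fin d → ℤ) (w : List (Fin d → ℤ)) :
    0 < ∑ s' : Fin d × Bool, Real.exp (-β * (w.count (x + step s') : ℝ)) :=
  sum_pos (fun _ _ => Real.exp_pos _) ⟨(⟨0, hd⟩, true), mem_univ _⟩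

theorem sum_trans (hd : 0 < d) (x : Fin d → ℤ) (w : List (Fin d → ℤ)) :
    ∑ s, trans β x w s = 1 := by
  unfold trans
  rw [← sum_div, div_self (z_pos hd x w).ne']

theorem expect_mono (n : ℕ) : ∀ {f g : (Fin d → ℤ) → List (Fin d → ℤ) → ℝ},
    (∀ x w, f x w ≤ g x w) → expect β d n f ≤ expect β d n g := by
  induction n with
  | zero => intro f g h; exact h _ _
  | succ n ih =>
    intro f g h
    exact ih fun x w => sum_le_sum fun s _ =>
      mul_le_mul_of_nonneg_left (h _ _) (trans_nonneg x w s)

theorem expect_add (n : ℕ) : ∀ (f g : (Fin d → ℤ) → List (Fin d → ℤ) → ℝ),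
    expect β d n (fun x w => f x w + g x w) = expect β d n f + expect β d n g := by
  induction n with
  | zero => intro f g; rfl
  | succ n ih =>
    intro f g
    simp only [expect, mul_add, sum_add_distrib]
    exact ih _ _

theorem expect_mul (n : ℕ) (c : ℝ) : ∀ (f : (Fin d → ℤ) → List (Fin d → ℤ) → ℝ),
    expect β d n (fun x w => c * f x w) = c * expect β d n f := by
  induction n with
  | zero => intro f; rfl
  | succ n ih =>
    intro f
    simp only [expect]
    rw [← ih]
    congr 1
    ext x w
    rw [mul_sum]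
    exact sum_congr rfl fun s _ => by ring

theorem expect_const (hd : 0 < d) (n : ℕ) (c : ℝ) : expect β d n (fun _ _ => c) = c := by
  induction n with
  | zero => rfl
  | succ n ih =>
    simp only [expect, ← sum_mul, sum_trans hd, one_mul]
    exact ih

/-- Additive functionals of the path. -/
theorem expect_path (hd : 0 < d) (g : (Fin d → ℤ) → ℝ) (n : ℕ) :
    expect β d n (fun _ w => (w.map g).sum) =
      ∑ k ∈ range (n + 1), expect β d k fun x _ => g x := by
  induction n with
  | zero => simp [expect]
  | succ n ih =>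
    rw [sum_range_succ, ← ih]
    have h : (fun (x : Fin d → ℤ) (w : List (Fin d → ℤ)) => ∑ s : Fin d × Bool,
        trans β x w s * (((x + step s) :: w).map g).sum) = fun x w => (w.map g).sum +
          ∑ s : Fin d × Bool, trans β x w s * g (x + step s) := by
      ext x w
      simp only [List.map_cons, List.sum_cons, mul_add, sum_add_distrib, ← sum_mul, sum_trans hd,
        one_mul]
      ring
    conv_lhs => rw [expect, h, expect_add]
    rfl

/-- Dirichlet energy of the local time in the direction `e`, computed recursively. -/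
noncomputable def den (e : Fin d → ℤ) : List (Fin d → ℤ) → ℝ
  | [] => 0
  | y :: w => den e w + 2 + 4 * (w.count y : ℝ) - 2 * (w.count (y + e) : ℝ) -
      2 * (w.count (y + -e) : ℝ)

theorem den_eq {e : Fin d → ℤ} (he : e ≠ 0) (S : Finset (Fin d → ℤ)) (w : List (Fin d → ℤ))
    (hS : ∀ y ∈ w, y ∈ S ∧ y + -e ∈ S) :
    ∑ x ∈ S, ((w.count (x + e) : ℝ) - w.count x) ^ 2 = den e w := by
  induction w with
  | nil => simp [den]
  | cons y w ih =>
    have hy := hS y (List.mem_cons_self ..)
    rw [den, ← ih fun z hz => hS z (List.mem_cons_of_mem _ hz)]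
    have h1 : ∀ x, ((List.count (x + e) (y :: w) : ℝ) - List.count x (y :: w)) ^ 2 =
        ((w.count (x + e) : ℝ) - w.count x) ^ 2 +
          (if x = y + -e then 2 * ((w.count (x + e) : ℝ) - w.count x) + 1 else 0) +
          (if x = y then 1 - 2 * ((w.count (x + e) : ℝ) - w.count x) else 0) := by
      intro x
      have h2 : (y = x + e) ↔ x = y + -e := by
        constructor
        · rintro rfl
          simp
        · rintro rfl
          simp
      simp only [List.count_cons, beq_iff_eq, h2, @eq_comm _ y x]
      by_cases h3 : x = y + -e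
      · have h4 : x ≠ y := by
          rintro rfl
          exact he (by simpa using h3)
        simp only [if_pos h3, if_neg h4]
        push_cast
        ring
      · by_cases h4 : x = y
        · simp only [if_neg h3, if_pos h4]
          push_cast
          ring
        · simp only [if_neg h3, if_neg h4]
          push_cast
          ring
    simp only [h1, sum_add_distrib, sum_ite_eq', if_pos hy.1, if_pos hy.2, neg_add_cancel_right]
    ring

theorem sum_sq_le_den {e : Fin d → ℤ} (he : e ≠ 0) (S : Finset (Fin d → ℤ))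
    (w : List (Fin d → ℤ)) :
    ∑ x ∈ S, ((w.count (x + e) : ℝ) - w.count x) ^ 2 ≤ den e w := by
  rw [← den_eq he (S ∪ (w.toFinset ∪ (w.map fun y => y + -e).toFinset)) w fun y hy =>
    ⟨mem_union_right _ (mem_union_left _ (List.mem_toFinset.2 hy)),
      mem_union_right _ (mem_union_right _ (List.mem_toFinset.2 (List.mem_map_of_mem hy)))⟩]
  exact sum_le_sum_of_subset_of_nonneg subset_union_left fun _ _ _ => sq_nonneg _

theorem single_ne (i : Fin d) : (Pi.single i 1 : Fin d → ℤ) ≠ 0 := fun h => by
  simpa using congrFun h i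

theorem step_ne (s : Fin d × Bool) : step s ≠ 0 := by
  unfold step
  split_ifs
  · exact single_ne _
  · exact neg_ne_zero.2 (single_ne _)

theorem sum_step (f : (Fin d → ℤ) → ℝ) :
    ∑ s : Fin d × Bool, f (step s) = ∑ i : Fin d, (f (Pi.single i 1) + f (-Pi.single i 1)) := by
  rw [Fintype.sum_prod_type]
  refine sum_congr rfl fun i _ => ?_
  simp [step]

/-- The Lyapunov function. -/
noncomputable def lyap (x : Fin d → ℤ) (w : List (Fin d → ℤ)) : ℝ :=
  ∑ i : Fin d, den (Pi.single i 1) w + 2 * ∑ s : Fin d × Bool, (w.count (x + step s) : ℝ)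

theorem lyap_cons (y : Fin d → ℤ) (w : List (Fin d → ℤ)) :
    lyap y (y :: w) = ∑ i : Fin d, den (Pi.single i 1) w + 2 * d + 4 * d * (w.count y : ℝ) := by
  have h1 : ∀ s : Fin d × Bool, List.count (y + step s) (y :: w) = w.count (y + step s) :=
    fun s => List.count_cons_of_ne (by simpa using step_ne s)
  simp only [lyap, h1, den]
  rw [sum_step fun e => (w.count (y + e) : ℝ)]
  simp only [sum_add_distrib, sum_sub_distrib, ← mul_sum, sum_const, card_univ, Fintype.card_fin,
    nsmul_eq_mul]
  ring

theorem tilt_le (hd : 0 < d) (hβ : 0 ≤ β) (x : Fin d → ℤ) (w : List (Fin d → ℤ)) :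
    2 * d * ∑ s, trans β x w s * (w.count (x + step s) : ℝ) ≤
      ∑ s : Fin d × Bool, (w.count (x + step s) : ℝ) := by
  have h : Antivary (fun s : Fin d × Bool => Real.exp (-β * (w.count (x + step s) : ℝ)))
      fun s => (w.count (x + step s) : ℝ) := fun s t hst =>
    Real.exp_le_exp.2 (by nlinarith [hst.le])
  have h1 := h.card_mul_sum_le_sum_mul_sum
  have hz := z_pos (β := β) hd x w
  unfold trans
  simp only [div_mul_eq_mul_div, ← sum_div]
  rw [← mul_div_assoc, div_le_iff₀ hz, mul_comm (∑ s : Fin d × Bool, (w.count (x + step s) : ℝ))]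
  simpa [mul_comm] using h1

theorem expect_lyap (hd : 0 < d) (hβ : 0 ≤ β) (n : ℕ) :
    expect β d n lyap ≤ 2 * d * (n + 1) := by
  induction n with
  | zero =>
    rw [expect, lyap_cons]
    simp [den]
  | succ n ih =>
    rw [expect]
    refine (expect_mono n (g := fun x w => lyap x w + 2 * d) fun x w => ?_).trans ?_
    · simp only [lyap_cons, mul_add, sum_add_distrib, ← sum_mul, sum_trans hd, one_mul]
      have h := tilt_le hd hβ x w
      have h2 : ∑ s, trans β x w s * (4 * d * (w.count (x + step s) : ℝ)) =
          2 * (2 * d * ∑ s, trans β x w s * (w.count (x + step s) : ℝ)) := by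
        rw [mul_sum, mul_sum]
        exact sum_congr rfl fun s _ => by ring
      rw [h2, lyap]
      linarith
    · rw [expect_add, expect_const hd]
      push_cast
      linarith

theorem den_le_lyap (i : Fin d) (x : Fin d → ℤ) (w : List (Fin d → ℤ)) :
    den (Pi.single i 1) w ≤ lyap x w := by
  have h0 : ∀ j : Fin d, 0 ≤ den (Pi.single j 1) w := fun j => by
    simpa using sum_sq_le_den (single_ne j) ∅ w
  have h1 := single_le_sum (f := fun j : Fin d => den (Pi.single j 1) w) (fun j _ => h0 j)
    (mem_univ i)
  have h2 : (0 : ℝ) ≤ ∑ s : Fin d × Bool, (w.count (x + step s) : ℝ) := by positivity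
  unfold lyap
  linarith

end Pool.Agent.Lib.MP_aa337a_pr
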