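import Pool.Agent.Lib.MP_aa337a_pr.HdSlot

/-! Anticoncentration of the block-local process in the projection to `ℤ ^ D`.
Let `N0 = (ρ + 1) ^ 2 y ^ 2`, `M = 16 D N0`. For `g < D` let `X g` be the flip data with
`F = grp d D g`, `π = ng d`, `pl σ = (σ.2 = true)`, used on the slots `Ico (g M) (g M + M)`.
By `few_act` with `p = 1 / (4 D)` (`card_grp`) the batch `g` has at most `N0` active slots with
probability at most `2 ^ N0 exp (-2 N0) ≤ exp (-y ^ 2)`. Let `C g` be the event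
`|prj D g (W + zd)| ≤ ρ ∧ N0 < card (actS (X g))`. Show `P (∀ g < G, C g) ≤ (1 / y) ^ G` by
induction on `G`: the event `∀ g < G, C g` is invariant under the flips of the batch `G`
(`zd_flipS`, `prj_step`, `actS_flipS`), and
`prj D G (W + zd) = prj D G (W + rest) + 2 K - N` with `K = card posS`, `N = card actS`; apply
`slot_bin` and `bin_window`. -/

set_option autoImplicit false

noncomputable section

namespace Pool.Agent.Lib.MP_aa337a_pr.HD

open MeasureTheory Finset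
open scoped Classical

namespace Sys

variable {d : ℕ} (Y : Sys d)

/-- The flip data of the coordinate class `g`. -/
def HdAC_X (D g b : ℕ) : Y.FlipData b where
  F _ := grp d D g
  π _ := ng d
  pl _ σ := σ.2 = true
  F_dep _ _ _ := rfl
  π_dep _ _ _ := rfl
  pl_dep _ _ _ := rfl
  invol _ := ng_mul_ng
  mem _ _ h := ng_mem_grp h
  sign _ σ _ := by simp [ng]

/-- The event of the batch `g`. -/
def HdAC_C (D l ρ b e N0 M : ℕ) (W : Y.Ω → Pt d) (g : ℕ) (ω : Y.Ω) : Prop :=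
  (prj D g (W ω + Y.zd l b e ω)).natAbs ≤ ρ ∧ N0 < (Y.actS l (Y.HdAC_X D g b) (g * M) M ω).card

theorem HdAC_locA {l b : ℕ} (hl : 1 ≤ l) (X : Y.FlipData b) (j0 M : ℕ) :
    Loc (Y.actS l X j0 M) := ⟨_, Y.actS_dep hl X j0 M⟩

theorem HdAC_locC {D l ρ b e N0 M : ℕ} (hl : 1 ≤ l) {W : Y.Ω → Pt d} (hW : Loc W) (g : ℕ) :
    Loc (Y.HdAC_C D l ρ b e N0 M W g) :=
  ((hW.add (Y.loc_zd l b e)).comp fun x => (prj D g x).natAbs ≤ ρ).and
    ((Y.HdAC_locA hl _ _ _).comp fun s => N0 < s.card)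

theorem HdAC_prj {D l b e G j0 M : ℕ} (W : Pt d) (ω : Y.Ω) :
    prj D G (W + Y.zd l b e ω) = 2 * ((Y.posS l (Y.HdAC_X D G b) j0 M ω).card : ℤ) +
      (prj D G (W + Y.rest l (Y.HdAC_X D G b) j0 M b e ω) -
        (Y.actS l (Y.HdAC_X D G b) j0 M ω).card) := by
  have h1 : ∀ j ∈ Y.actS l (Y.HdAC_X D G b) j0 M ω, prj D G (step (Y.first (ω (slot l b j)))) =
      2 * (if (Y.HdAC_X D G b).pl ω (Y.first (ω (slot l b j))) then 1 else 0) - 1 := by
    intro j hj
    have h2 : Y.first (ω (slot l b j)) ∈ grp d D G := (mem_filter.1 hj).2.1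
    rw [prj_step, if_pos h2]
    by_cases h3 : (Y.first (ω (slot l b j))).2 = true
    · rw [if_pos h3, if_pos (show (Y.HdAC_X D G b).pl ω _ from h3)]
      norm_num
    · rw [if_neg h3, if_neg (show ¬ (Y.HdAC_X D G b).pl ω _ from h3)]
      norm_num
  rw [rest, prj_add, prj_add, prj_sub, prj_sum, sum_congr rfl h1, sum_sub_distrib, ← mul_sum,
    posS, card_filter]
  push_cast
  simp only [sum_const, nsmul_eq_mul, mul_one]
  ring

theorem HdAC_inv {D l ρ b e N0 M G g j : ℕ} (hl : 1 ≤ l) {W : Y.Ω → Pt d}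
    (hW : DependsOn W (Set.Iio b)) (hg : g < G) (hj : j ∈ Ico (G * M) (G * M + M))
    (he : b + 3 * (G * M + M) * l ≤ e) (ω : Y.Ω) :
    Y.HdAC_C D l ρ b e N0 M W g (Y.flipS l (Y.HdAC_X D G b) j ω) ↔
      Y.HdAC_C D l ρ b e N0 M W g ω := by
  have h1 := slot_ge hl b j
  have h2 := slot_le l b j
  have h3 := mem_Ico.1 hj
  have h4 : slot l b j < e := by
    have : 3 * (j + 1) * l ≤ 3 * (G * M + M) * l :=
      Nat.mul_le_mul_right l (Nat.mul_le_mul_left 3 h3.2)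
    nlinarith
  have h5 : j ∉ Ico (g * M) (g * M + M) := fun h => by
    have h6 := (mem_Ico.1 h).2
    have : (g + 1) * M ≤ G * M := Nat.mul_le_mul_right M hg
    nlinarith
  have h6 : ∀ s ∈ grp d D G, prj D g (step s) = 0 := fun s hs => by
    rw [prj_step, if_neg]
    intro h
    have := (mem_filter.1 hs).2
    have := (mem_filter.1 h).2
    omega
  unfold HdAC_C
  rw [Y.actS_flipS hl _ _ h5, Y.flipS_dep _ j hW (by simp; omega),
    Y.zd_flipS hl _ j (by omega) h4, prj_add, prj_add, prj_add]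
  split_ifs with h
  · rw [prj_sub, h6 _ h.1, h6 _ ((Y.HdAC_X D G b).mem ω _ h.1), sub_zero, add_zero]
  · rw [prj_zero, add_zero]

theorem HdAC_step {D l ρ b e y M G : ℕ} (hl : 1 ≤ l) (hy : 1 ≤ y) {W : Y.Ω → Pt d}
    (hW : DependsOn W (Set.Iio b)) (he : b + 3 * (G * M + M) * l ≤ e) :
    Y.P (fun ω => ∀ g ∈ range (G + 1), Y.HdAC_C D l ρ b e ((ρ + 1) ^ 2 * y ^ 2) M W g ω) ≤
      1 / (y : ℝ) *
        Y.P fun ω => ∀ g ∈ range G, Y.HdAC_C D l ρ b e ((ρ + 1) ^ 2 * y ^ 2) M W g ω := by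
  set N0 := (ρ + 1) ^ 2 * y ^ 2 with hN0
  set X := Y.HdAC_X D G b with hX
  have lW : Loc W := ⟨b, hW⟩
  have lA : ∀ G', Loc fun ω => ∀ g ∈ range G', Y.HdAC_C D l ρ b e N0 M W g ω := fun G' =>
    Loc.forall_mem _ fun g _ => Y.HdAC_locC hl lW g
  have lN := Y.HdAC_locA hl X (G * M) M
  let Gf : Y.Ω → ℕ → ℝ := fun ω k =>
    ind ((∀ g ∈ range G, Y.HdAC_C D l ρ b e N0 M W g ω) ∧ N0 < (Y.actS l X (G * M) M ω).card) *
      ind ((2 * (k : ℤ) + (prj D G (W ω + Y.rest l X (G * M) M b e ω) -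
        (Y.actS l X (G * M) M ω).card)).natAbs ≤ ρ)
  have lG : Loc Gf := by
    have l1 := (lA G).and (lN.comp fun s => N0 < s.card)
    have l2 := (lW.add (Y.loc_rest hl X (G * M) M b e)).comp₂ lN
      fun x s => prj D G x - (s.card : ℤ)
    exact l1.comp₂ l2 fun a c (k : ℕ) => ind a * ind ((2 * (k : ℤ) + c).natAbs ≤ ρ)
  have hG : ∀ j ∈ Ico (G * M) (G * M + M), ∀ ω, Gf (Y.flipS l X j ω) = Gf ω := by
    intro j hj ω
    funext k
    have h1 := slot_ge hl b j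
    simp only [Gf]
    rw [Y.actS_flipS_self hl, Y.rest_flipS hl X hj le_rfl he, Y.flipS_dep X j hW (by simp; omega),
      forall₂_congr fun g hg => Y.HdAC_inv hl hW (mem_range.1 hg) hj he ω]
  have h1 := Y.slot_bin hl X (G * M) M Gf lG hG
  have h2 : ∀ ω, ind (∀ g ∈ range (G + 1), Y.HdAC_C D l ρ b e N0 M W g ω) =
      Gf ω (Y.posS l X (G * M) M ω).card := by
    intro ω
    simp only [Gf]
    rw [← ind_and, ← Y.HdAC_prj]
    refine ind_congr ?_
    rw [range_add_one, forall_mem_insert]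
    exact ⟨fun h => ⟨⟨h.2, h.1.2⟩, h.1.1⟩, fun h => ⟨⟨h.2, h.1.2⟩, h.1.1⟩⟩
  have hy' : (0 : ℝ) < y := by exact_mod_cast hy
  have h3 : ((ρ : ℝ) + 1) / Real.sqrt N0 = 1 / y := by
    have : (N0 : ℝ) = (((ρ : ℝ) + 1) * y) ^ 2 := by
      rw [hN0]
      push_cast
      ring
    rw [this, Real.sqrt_sq (by positivity)]
    field_simp
  rw [← Y.Ex_ind (lA _), ← Y.Ex_ind (lA _), Y.Ex_congr h2, h1, ← Y.Ex_const_mul]
  refine Y.Ex_mono (lN.comp₂ lG fun s f => ∑ k ∈ range (s.card + 1), bin s.card k * f k)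
    ((lA G).ind.comp fun t => 1 / (y : ℝ) * t) fun ω => ?_
  simp only [Gf]
  by_cases h4 : (∀ g ∈ range G, Y.HdAC_C D l ρ b e N0 M W g ω) ∧
      N0 < (Y.actS l X (G * M) M ω).card
  · simp only [ind_of_true h4, ind_of_true h4.1, one_mul, mul_one]
    rw [← h3]
    exact bin_window (Nat.succ_le_of_lt (by positivity)) h4.2.le _ ρ
  · simp only [ind_of_false h4, zero_mul, mul_zero, sum_const_zero]
    exact mul_nonneg (by positivity) (ind_nonneg _)

theorem anticonc {α n : ℕ} {η : ℝ} (H : Y.HK α η n) (hα : 3 ≤ α) (hη : 0 ≤ η) (hη1 : η ≤ 1 / 48)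
    {D l y ρ b e : ℕ} (hD : 1 ≤ D) (hDd : D ≤ d) (hl : 1 ≤ l) (hn : 2 * l ≤ n) (hy : 1 ≤ y)
    (he : b + 48 * l * D ^ 2 * (ρ + 1) ^ 2 * y ^ 2 ≤ e) {W : Y.Ω → Pt d}
    (hW : DependsOn W (Set.Iio b)) :
    Y.P (fun ω => nrm D (W ω + Y.zd l b e ω) ≤ ρ) ≤ acb D y := by
  set N0 := (ρ + 1) ^ 2 * y ^ 2 with hN0
  set M := 16 * D * N0 with hM
  have hy' : (0 : ℝ) < y := by exact_mod_cast hy
  have hD' : (0 : ℝ) < D := by exact_mod_cast hD
  have hd' : (0 : ℝ) < d := by exact_mod_cast hD.trans hDd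
  have h1 : ∀ G, G ≤ D → Y.P (fun ω => ∀ g ∈ range G, Y.HdAC_C D l ρ b e N0 M W g ω) ≤
      1 / (y : ℝ) ^ G := by
    intro G
    induction G with
    | zero => intro _; simpa using Y.P_le_one _
    | succ G ih =>
      intro hG
      have h2 : b + 3 * (G * M + M) * l ≤ e := by
        refine le_trans ?_ he
        have h3 : G * M + M ≤ D * M := by nlinarith
        have h4 : 3 * (D * M) * l = 48 * l * D ^ 2 * (ρ + 1) ^ 2 * y ^ 2 := by
          rw [hM, hN0]; ring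
        rw [← h4]
        gcongr
      refine (Y.HdAC_step hl hy hW h2).trans ?_
      refine (mul_le_mul_of_nonneg_left (ih (by omega)) (by positivity)).trans (le_of_eq ?_)
      rw [pow_succ', div_mul_div_comm, one_mul]
  have h2 : ∀ g ∈ range D, Y.P (fun ω => (Y.actS l (Y.HdAC_X D g b) (g * M) M ω).card ≤ N0) ≤
      Real.exp (-(y : ℝ) ^ 2) := by
    intro g hg
    have h3 : ∀ ω, 1 / (4 * (D : ℝ)) ≤ (((Y.HdAC_X D g b).F ω).card : ℝ) / (4 * d) := by
      intro ω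
      have h4 := card_grp (mem_range.1 hg) hDd
      refine le_trans (le_of_eq ?_) (div_le_div_of_nonneg_right h4 (by positivity))
      field_simp
    refine (Y.few_act H hα hη hη1 hl hn _ (g * M) M h3 N0).trans ?_
    have h4 : (2 : ℝ) ^ N0 ≤ Real.exp N0 := by
      rw [← mul_one (N0 : ℝ), Real.exp_nat_mul]
      exact pow_le_pow_left₀ (by norm_num) (by linarith [Real.add_one_le_exp 1]) _
    refine (mul_le_mul_of_nonneg_right h4 (Real.exp_pos _).le).trans ?_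
    rw [← Real.exp_add, Real.exp_le_exp]
    have h5 : -((M : ℝ) * (1 / (4 * (D : ℝ)))) / 2 = -(2 * N0) := by
      rw [hM]
      push_cast
      field_simp
      ring
    have h6 : (y : ℝ) ^ 2 ≤ N0 := by
      have : y ^ 2 ≤ N0 := Nat.le_mul_of_pos_left _ (by positivity)
      exact_mod_cast this
    rw [h5]
    linarith
  refine (Y.P_le_add (q := fun ω => ∀ g ∈ range D, Y.HdAC_C D l ρ b e N0 M W g ω)
    (r := fun ω => ∃ g ∈ range D, (Y.actS l (Y.HdAC_X D g b) (g * M) M ω).card ≤ N0)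
    fun ω hω => ?_).trans (add_le_add (h1 D le_rfl) ((Y.P_exists _ _).trans ?_))
  · by_contra hc
    rw [not_or] at hc
    refine hc.1 fun g hg => ⟨nrm_le_iff.1 hω g (mem_range.1 hg), ?_⟩
    exact not_le.1 fun h => hc.2 ⟨g, hg, h⟩
  · refine (sum_le_sum h2).trans (le_of_eq ?_)
    simp

end Sys

end Pool.Agent.Lib.MP_aa337a_pr.HD
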