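import Pool.Agent.Lib.MP_aa337a_pr.HdWalk

/-! Propagation of the alive state, and counting of transitions and successes. -/

set_option autoImplicit false

noncomputable section

namespace Pool.Agent.Lib.MP_aa337a_pr.HD

open MeasureTheory Finset
open scoped Classical

theorem HdAlive_trans (al : ℕ → Prop) {x y : ℕ} (hxy : x ≤ y) (hx : al x) (hy : ¬ al y) :
    ∃ u, x ≤ u ∧ u < y ∧ al u ∧ ¬ al (u + 1) := by
  induction y, hxy using Nat.le_induction with
  | base => exact absurd hx hy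
  | succ y hxy ih =>
    by_cases h : al y
    · exact ⟨y, hxy, Nat.lt_succ_self y, h, hy⟩
    · obtain ⟨u, h1, h2, h3⟩ := ih h
      exact ⟨u, h1, h2.trans (Nat.lt_succ_self y), h3⟩

theorem HdAlive_count (al : ℕ → Prop) (a n : ℕ) (t : ℕ → ℕ) (ht : Monotone t) (G : Finset ℕ)
    (hG : ∀ j ∈ G, a ≤ t j ∧ t j ≤ n ∧ ¬ al (t j) ∧ al (t (j + 1))) :
    G.card ≤ (transT al a n).card + 1 := by
  have key : ∀ j ∈ G, ∀ j' ∈ G, j < j' →
      ((transT al a n).filter (· < t j)).card < ((transT al a n).filter (· < t j')).card := by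
    intro j hj j' hj' hlt
    obtain ⟨h1, -, -, h4⟩ := hG j hj
    obtain ⟨-, h2', h3', -⟩ := hG j' hj'
    obtain ⟨u, u1, u2, u3⟩ := HdAlive_trans al (ht (Nat.succ_le_of_lt hlt)) h4 h3'
    have u0 : t j ≤ u := (ht (Nat.le_succ j)).trans u1
    refine card_lt_card ((ssubset_iff_of_subset fun v hv => ?_).2 ⟨u, ?_, ?_⟩)
    · exact mem_filter.2 ⟨(mem_filter.1 hv).1, (mem_filter.1 hv).2.trans_le (ht hlt.le)⟩
    · exact mem_filter.2 ⟨mem_filter.2 ⟨mem_Ico.2 ⟨h1.trans u0, u2.trans_le h2'⟩, u3⟩, u2⟩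
    · exact fun h => absurd (mem_filter.1 h).2 (not_lt.2 u0)
  rw [← card_range ((transT al a n).card + 1)]
  refine card_le_card_of_injOn (fun j => ((transT al a n).filter (· < t j)).card)
    (fun j _ => ?_) fun j hj j' hj' e => ?_
  · exact mem_coe.2 (mem_range.2 (Nat.lt_succ_of_le (card_filter_le _ _)))
  · rcases lt_trichotomy j j' with h | h | h
    · exact absurd e (key j hj j' hj' h).ne
    · exact h
    · exact absurd e (key j' hj' j hj h).ne'

theorem HdAlive_adj {d D ρ : ℕ} (hρ : 1 ≤ ρ) {x y : Pt d} (h : ρ < nrm D (x - y)) (σ : St d) :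
    x + step σ ≠ y := by
  rintro rfl
  rw [sub_add_cancel_left, nrm_neg] at h
  have := nrm_step_le D σ
  omega

namespace Sys

variable {d : ℕ} (Y : Sys d) {D l m ρ0 a n : ℕ} {ω : Y.Ω}

/-- `locality` for the walks from `a` and from `t = u - 2 m` with `c = u - m`; `Far` and
`nrm_step_le` exclude adjacency. -/
theorem alive_succ (hF : Y.Far D l ρ0 m n ω) (hρ : 1 ≤ ρ0) {u : ℕ} (h1 : 2 * m ≤ u) (h2 : u ≤ n)
    (hal : Y.alive l m a u ω) (hg : Y.good l m (u - 2 * m) ω) : Y.alive l m a (u + 1) ω := by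
  obtain ⟨ha, hal⟩ := hal
  refine ⟨by omega, fun i hi hi' => ?_⟩
  rcases (Nat.lt_succ_iff.1 hi').lt_or_eq with h | rfl
  · exact hal i (by omega) h
  · have hg' : ∀ j, i ≤ j + m → j < i → Y.xi (i - 2 * m) j ω = Y.zeta l j ω :=
      fun j h3 h4 => hg j (by omega) (by omega)
    rw [← hg i (by omega) (by omega)]
    refine Y.locality (c := i - m) (by omega) (by omega) (by omega) (fun j h3 h4 => ?_)
      (fun s σ h3 h4 => ?_) (fun s σ h3 h4 => ?_)
    · rw [hal j (by omega) h4, hg' j (by omega) h4]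
    · exact HdAlive_adj hρ (hF a i s h3 (by omega) h2 hal) σ
    · exact HdAlive_adj hρ (hF _ i s h3 (by omega) h2 hg') σ

/-- A transition time `u` is less than `2 m` or `u - 2 m` is bad. -/
theorem card_trans_le (hF : Y.Far D l ρ0 m n ω) (hρ : 1 ≤ ρ0) {τ : ℕ} (hτ : τ ≤ n) :
    (transT (fun t => Y.alive l m a t ω) a τ).card ≤ 2 * m + (Y.badT l m n ω).card := by
  have hsub : transT (fun t => Y.alive l m a t ω) a τ ⊆
      range (2 * m) ∪ (Y.badT l m n ω).image (· + 2 * m) := by
    intro u hu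
    obtain ⟨h1, h2, h3⟩ := mem_filter.1 hu
    have h4 := (mem_Ico.1 h1).2
    rcases lt_or_ge u (2 * m) with h | h
    · exact mem_union_left _ (mem_range.2 h)
    · refine mem_union_right _ (mem_image.2 ⟨u - 2 * m, ?_, by omega⟩)
      exact mem_filter.2 ⟨mem_range.2 (by omega),
        fun hg => h3 (Y.alive_succ hF hρ h (by omega) h2 hg)⟩
  refine (card_le_card hsub).trans ((card_union_le _ _).trans ?_)
  rw [card_range]
  exact Nat.add_le_add_left card_image_le _

/-- `dom` with `2 m + 1` steps. -/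
theorem alive_of_succ {t : ℕ} (hat : a ≤ t) (hs : Y.Succ m a t ω) (hg : Y.good l m t ω) :
    Y.alive l m a (t + (2 * m + 1)) ω := by
  have hd := Y.dom (n := 2 * m + 1) (ω := ω) hat fun i s h1 h2 h3 h4 => by
    have := hs (i - t) s (by omega) (by omega) h3 h4
    rwa [Nat.add_sub_cancel' h1.le] at this
  refine ⟨by omega, fun i h1 h2 => ?_⟩
  rw [hd i (by omega) h2, hg i (by omega) (by omega)]

/-- Let `t j = a + c + (2 m + 1) j`. Successes at bad times are at most `card badT`. A success at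
a good time makes `t (j + 1)` alive, so if it is not the last success there is a transition in
`[t (j + 1), t j')`, where `j'` is the next success; these intervals are disjoint. -/
theorem card_succ_le (c : ℕ) :
    (Y.succT l m a n c ω).card ≤
      (Y.badT l m n ω).card + (transT (fun t => Y.alive l m a t ω) a n).card + 1 := by
  have h1 : ((Y.succT l m a n c ω).filter
      fun j => ¬ Y.good l m (a + c + (2 * m + 1) * j) ω).card ≤ (Y.badT l m n ω).card := by
    refine card_le_card_of_injOn (fun j => a + c + (2 * m + 1) * j) (fun j hj => ?_)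
      fun j _ j' _ e => ?_
    · obtain ⟨h2, h3⟩ := mem_filter.1 (mem_coe.1 hj)
      exact mem_coe.2 (mem_filter.2 ⟨mem_range.2 (Nat.lt_succ_of_le (mem_filter.1 h2).2.1), h3⟩)
    · exact Nat.eq_of_mul_eq_mul_left (Nat.succ_pos _) (Nat.add_left_cancel e)
  have h2 := HdAlive_count (fun t => Y.alive l m a t ω) a n (fun j => a + c + (2 * m + 1) * j)
    (fun j j' h => Nat.add_le_add_left (Nat.mul_le_mul_left _ h) _)
    ((Y.succT l m a n c ω).filter fun j => Y.good l m (a + c + (2 * m + 1) * j) ω) fun j hj => by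
      obtain ⟨h2, h3⟩ := mem_filter.1 hj
      obtain ⟨-, h4, h5, h6⟩ := mem_filter.1 h2
      have h7 : a ≤ a + c + (2 * m + 1) * j := by omega
      refine ⟨h7, h4, h5, ?_⟩
      have := Y.alive_of_succ h7 h6 h3
      rwa [add_assoc (a + c), ← Nat.mul_succ] at this
  have h3 := card_filter_add_card_filter_not (s := Y.succT l m a n c ω)
    fun j => Y.good l m (a + c + (2 * m + 1) * j) ω
  omega

theorem farP_of_far {ρ ℓ τ : ℕ} (hF : Y.Far D l ρ ℓ n ω) (hℓ : ℓ ≤ m) (hτ : τ ≤ n) :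
    FarP D (fun i => Y.pos a i ω) (fun t => Y.alive l m a t ω) a τ ρ ℓ := by
  intro s s' h1 h2 h3 hal
  exact hF a s' s h1 h2 (h3.trans hτ) fun i hi hi' => hal.2 i (by omega) hi'

/-- On alive stretches the walk follows the block-local process (`pos_sub`, `dsp_congr`). -/
theorem isCut_of_cutz {r1 m0 b τ : ℕ} (h : Y.cutz D l r1 m0 b ω) (hm : m0 ≤ m) :
    IsCut D (fun i => Y.pos a i ω) (fun t => Y.alive l m a t ω) a τ r1 m0
      (b + 2 * l + 2 * m0) := by
  intro s n r h1 _ hal h3 h4 h5 h6 h7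
  have e : Y.pos a (s + n) ω - Y.pos a s ω = Y.zd l s (s + n) ω := by
    rw [Y.pos_sub h1 (Nat.le_add_right s n)]
    exact dsp_congr fun i hi hi' => hal.2 i (by omega) hi'
  show 4 * r < nrm D (Y.pos a (s + n) ω - Y.pos a s ω)
  rw [e]
  exact h s n r h3 h4 h5 h6 h7

/-- For each dead site choose a dead time; `esc_anti`. -/
theorem sum_esc_le_qq {τ : ℕ} (hτ : τ ≤ n) :
    ∑ x ∈ (deadT (fun t => Y.alive l m a t ω) a τ).image (fun i => Y.pos a i ω),
        Y.esc ((Icc a τ).image fun i => Y.pos a i ω) (2 * m + 1) x ≤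
      ∑ t ∈ Icc a n, Y.qq l m a t ω := by
  have h0 : ∀ t, 0 ≤ Y.qq l m a t ω := fun t => by
    unfold qq
    split_ifs
    · exact le_rfl
    · exact Y.esc_nonneg _ _ _
  refine (sum_image_le_of_nonneg fun x _ => Y.esc_nonneg _ _ x).trans ?_
  refine le_trans (sum_le_sum fun t ht => ?_)
    (sum_le_sum_of_subset_of_nonneg (s := deadT (fun t => Y.alive l m a t ω) a τ)
      ((filter_subset _ _).trans (Icc_subset_Icc_right hτ)) fun t _ _ => h0 t)
  obtain ⟨h1, h2⟩ := mem_filter.1 ht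
  rw [qq, if_neg h2]
  refine Y.esc_anti (image_subset_image fun i hi => ?_) le_rfl _
  exact mem_Icc.2 ⟨(mem_Ico.1 hi).1, (mem_Ico.1 hi).2.le.trans (mem_Icc.1 h1).2⟩

end Sys

end Pool.Agent.Lib.MP_aa337a_pr.HD
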