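import Pool.Agent.Lib.MP_aa337a_pr.HdDefs

/-! Existence of the constants. -/

set_option autoImplicit false

noncomputable section

namespace Pool.Agent.Lib.MP_aa337a_pr.HD

open MeasureTheory Finset
open scoped Classical

theorem HdArith_exp (k : ℕ) {b : ℝ} (hb : 0 < b) (C : ℝ) :
    ∀ᶠ r : ℕ in Filter.atTop, C * (r : ℝ) ^ k ≤ Real.exp (b * r) := by
  have h1 := (isLittleO_pow_exp_pos_mul_atTop k hb).const_mul_left C
  have h2 := (tendsto_natCast_atTop_atTop (R := ℝ)).eventually (h1.bound one_pos)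
  filter_upwards [h2] with r hr
  rw [one_mul, Real.norm_eq_abs, Real.norm_eq_abs, abs_of_pos (Real.exp_pos _)] at hr
  exact (le_abs_self _).trans hr

/-- All conditions hold eventually: compare powers of `r`, use `r + 1 ≤ 2 r`, and that
`r ^ k * exp (-r ^ 2)` and `r ^ k / 2 ^ r` tend to zero. -/
theorem exists_R1 {D γ α : ℕ} (κ : ℕ) (hγ : 6 * α + 14 ≤ γ) (hD : 6 * α + 8 ≤ D) :
    ∃ r1, R1 D γ α κ r1 := by
  have e1 := HdArith_exp (4 * κ) (Real.log_pos one_lt_two) 2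
  have e2 := HdArith_exp (6 * (α + 1)) one_pos (3 * D * 2 ^ (6 * (α + 1)))
  have e3 := Filter.eventually_ge_atTop (100 + 1202 * D ^ 2 + 6 * 2 ^ (6 * α + 12))
  obtain ⟨r1, h⟩ := Filter.eventually_atTop.1 (e1.and (e2.and e3))
  refine ⟨r1, fun r hr => ?_⟩
  obtain ⟨h1, h2, h3⟩ := h r hr
  have hr100 : 100 ≤ r := by omega
  have hD1 : 1 ≤ D := by omega
  refine ⟨hr100, ?_, ?_, ?_⟩
  · have a1 : (4 * r + 1) ^ 2 ≤ (5 * r) ^ 2 := Nat.pow_le_pow_left (by omega) 2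
    have a2 : 48 * r * D ^ 2 * (4 * r + 1) ^ 2 * r ^ 2 ≤ 48 * r * D ^ 2 * (5 * r) ^ 2 * r ^ 2 := by
      gcongr
    have a3 : 48 * r * D ^ 2 * (5 * r) ^ 2 * r ^ 2 = 1200 * D ^ 2 * r ^ 5 := by ring
    have a4 : r ≤ r ^ 5 := Nat.le_self_pow (by norm_num) r
    have a5 : r ^ 5 ≤ D ^ 2 * r ^ 5 := Nat.le_mul_of_pos_left _ (by positivity)
    have a6 : 1202 * D ^ 2 * r ^ 5 ≤ r * r ^ 5 := Nat.mul_le_mul_right _ (by omega)
    have a7 : r * r ^ 5 = r ^ 6 := by ring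
    nlinarith
  · rw [mul_comm (Real.log 2), Real.exp_nat_mul, Real.exp_log two_pos] at h1
    exact_mod_cast h1
  · have hr1 : (1 : ℝ) ≤ r := by exact_mod_cast (by omega : 1 ≤ r)
    have hr0 : (0 : ℝ) < r := by linarith
    have b0 : (6 : ℝ) * 2 ^ (6 * α + 12) ≤ r := by
      have : 6 * 2 ^ (6 * α + 12) ≤ r := by omega
      exact_mod_cast this
    have b1 : (r : ℝ) + 1 ≤ 2 * r := by linarith
    set X : ℝ := (((r : ℝ) + 1) ^ 6) ^ (α + 1) with hX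
    have hXle : X ≤ 2 ^ (6 * (α + 1)) * (r : ℝ) ^ (6 * (α + 1)) := by
      rw [hX, ← pow_mul, ← mul_pow]; gcongr
    have hX0 : 0 < X := by positivity
    have c1 : 2 * ((r : ℝ) + 1) ^ 6 / (r : ℝ) ^ γ ≤ 1 / (3 * X) := by
      rw [div_le_div_iff₀ (by positivity) (by positivity), one_mul]
      calc 2 * ((r : ℝ) + 1) ^ 6 * (3 * X) ≤
            2 * (2 * (r : ℝ)) ^ 6 * (3 * (2 ^ (6 * (α + 1)) * (r : ℝ) ^ (6 * (α + 1)))) := by gcongr
        _ = 6 * 2 ^ (6 * α + 12) * (r : ℝ) ^ (6 * α + 12) := by ring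
        _ ≤ r * (r : ℝ) ^ (6 * α + 12) := by gcongr
        _ = (r : ℝ) ^ (6 * α + 13) := by ring
        _ ≤ (r : ℝ) ^ γ := pow_le_pow_right₀ hr1 (by omega)
    have c2 : 1 / (r : ℝ) ^ D ≤ 1 / (3 * X) := by
      refine one_div_le_one_div_of_le (by positivity) ?_
      have : (3 : ℝ) * 2 ^ (6 * (α + 1)) ≤ 6 * 2 ^ (6 * α + 12) := by
        have : (2 : ℝ) ^ (6 * (α + 1)) ≤ 2 ^ (6 * α + 12) := pow_le_pow_right₀ one_le_two (by omega)
        have : (0 : ℝ) < 2 ^ (6 * α + 12) := by positivity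
        linarith
      calc 3 * X ≤ 3 * (2 ^ (6 * (α + 1)) * (r : ℝ) ^ (6 * (α + 1))) := by gcongr
        _ = 3 * 2 ^ (6 * (α + 1)) * (r : ℝ) ^ (6 * (α + 1)) := by ring
        _ ≤ r * (r : ℝ) ^ (6 * (α + 1)) := by gcongr; linarith
        _ = (r : ℝ) ^ (6 * α + 7) := by ring
        _ ≤ (r : ℝ) ^ D := pow_le_pow_right₀ hr1 (by omega)
    have c3 : D * Real.exp (-(r : ℝ) ^ 2) ≤ 1 / (3 * X) := by
      rw [Real.exp_neg, ← div_eq_mul_inv, div_le_div_iff₀ (by positivity) (by positivity), one_mul]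
      calc D * (3 * X) ≤ D * (3 * (2 ^ (6 * (α + 1)) * (r : ℝ) ^ (6 * (α + 1)))) := by gcongr
        _ = 3 * D * 2 ^ (6 * (α + 1)) * (r : ℝ) ^ (6 * (α + 1)) := by ring
        _ ≤ Real.exp (1 * r) := h2
        _ ≤ Real.exp ((r : ℝ) ^ 2) := Real.exp_le_exp.2 (by nlinarith)
    have c4 : 1 / X = 1 / (3 * X) + 1 / (3 * X) + 1 / (3 * X) := by field_simp; norm_num
    unfold acb
    linarith

theorem exists_Dbig : ∃ d0, ∀ d, d0 ≤ d → Dbig d := by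
  have e1 := HdArith_exp 66 (b := 1 / 1152) (by norm_num) 2
  obtain ⟨d0, h⟩ := Filter.eventually_atTop.1 (e1.and (Filter.eventually_ge_atTop 100))
  refine ⟨d0, fun d hd n hn => ?_⟩
  obtain ⟨h1, h2⟩ := h n (hd.trans hn)
  refine ⟨h2, ?_⟩
  have hn0 : (0 : ℝ) < n := by exact_mod_cast (by omega : 0 < n)
  rw [neg_div, Real.exp_neg, ← div_eq_mul_inv, div_le_div_iff₀ (by positivity) (by positivity), one_mul]
  push_cast
  calc 2 * ((n : ℝ) ^ 6) ^ 11 = 2 * (n : ℝ) ^ 66 := by ring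
    _ ≤ Real.exp (1 / 1152 * n) := h1
    _ = Real.exp (n / 1152) := by congr 1; ring

end Pool.Agent.Lib.MP_aa337a_pr.HD
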