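import Pool.Agent.Lib.MP_aa337a_pr.HdDefs

/-! Existence of the scales. Let `z` be the largest integer with `z ^ 91217 ≤ L`; then
`L < (z + 1) ^ 91217 ≤ z ^ 182434` and `3 L + 1 ≤ z ^ 182435` for `z ≥ 4`. Take
`ρ' = z ^ 4`, `ρt = z ^ 17`, `m0 = z ^ 38`, `g = z ^ 40`, `g2 = z ^ 41`, `ρ0 = z ^ 165`,
`m = z ^ 334`, `k = γ + 1`, `R = z ^ 7600`, `b = z ^ 15202`, `ℓ = z ^ 60812`. For `z` large (in
terms of `D`, `γ`, `r1`): `K0 ≤ z ^ 335`, `y0 ≤ 3 z ^ 335`, `x0 ≤ 8 z ^ 335`, `S0 ≤ 24 z ^ 669`,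
`acb D z ≤ 2 / z ^ D`, `2 ^ y0 * exp (-x0 / 2) ≤ exp (-z)`. Every inequality has the form
`constant * z ^ i ≤ z ^ (i + 1)` after bounding lower powers by the top one; in `total` each of the
six terms is at most `1 / (6 z ^ (182434 γ))`. Never evaluate the powers: introduce
`hp : ∀ i j, i ≤ j → z ^ i ≤ z ^ j` and `pow_succ`, `pow_add`, `← pow_mul`. -/

set_option autoImplicit false

noncomputable section

namespace Pool.Agent.Lib.MP_aa337a_pr.HD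

open MeasureTheory Finset
open scoped Classical

lemma HdArith2_root {N C L : ℕ} (hN : N ≠ 0) (hC : 2 ≤ C) (h : C ^ N ≤ L) :
    ∃ z, C ≤ z ∧ z ^ N ≤ L ∧ L < z ^ (2 * N) := by
  have h1 := (Nat.le_nthRoot_iff hN).2 h
  refine ⟨_, h1, Nat.pow_nthRoot_le_iff.2 (Or.inl hN),
    (Nat.lt_pow_nthRoot_add_one hN L).trans_le ?_⟩
  rw [pow_mul]
  exact Nat.pow_le_pow_left (by nlinarith) N

lemma HdArith2_exp {D z : ℕ} (h : 4 ^ (D + 1) * (D + 1).factorial ≤ z) :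
    Real.exp (-(z : ℝ) / 4) ≤ ((z : ℝ) ^ D)⁻¹ := by
  have h0 : (0 : ℝ) < z := by exact_mod_cast lt_of_lt_of_le (by positivity) h
  rw [neg_div, Real.exp_neg]
  refine inv_anti₀ (by positivity)
    (le_trans ?_ (Real.pow_div_factorial_le_exp _ (by positivity) (D + 1)))
  rw [div_pow, div_div, le_div_iff₀ (by positivity), pow_succ (z : ℝ)]
  exact mul_le_mul_of_nonneg_left (by exact_mod_cast h) (by positivity)

lemma HdArith2_div {x : ℝ} (hx : 1 ≤ x) (c : ℝ) (i j k : ℕ) (hc : c ≤ x) (h : i + k < j) :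
    c * x ^ i * (x ^ j)⁻¹ ≤ (x ^ k)⁻¹ := by
  rw [← div_eq_mul_inv, ← one_div, div_le_div_iff₀ (by positivity) (by positivity), one_mul,
    mul_assoc, ← pow_add]
  calc _ ≤ x * x ^ (i + k) := by gcongr
    _ ≤ _ := by rw [← pow_succ']; exact pow_le_pow_right₀ hx h

lemma HdArith2_acb {D z : ℕ} (hD : D ≤ z) (h1 : 1 ≤ D)
    (hE : Real.exp (-(z : ℝ) / 4) ≤ ((z : ℝ) ^ D)⁻¹) : acb D z ≤ 2 * ((z : ℝ) ^ D)⁻¹ := by
  have hx : (1 : ℝ) ≤ z := by exact_mod_cast h1.trans hD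
  have h2 : Real.exp (-(z : ℝ) ^ 2) ≤ ((z : ℝ) ^ D)⁻¹ * ((z : ℝ) ^ D)⁻¹ := by
    refine le_trans ?_ (mul_le_mul hE hE (Real.exp_pos _).le (by positivity))
    rw [← Real.exp_add]
    exact Real.exp_le_exp.2 (by nlinarith)
  have h3 : (D : ℝ) * ((z : ℝ) ^ D)⁻¹ ≤ 1 := by
    rw [← div_eq_mul_inv, div_le_one (by positivity)]
    exact le_trans (by exact_mod_cast hD) (le_self_pow₀ hx (by omega))
  rw [acb, one_div, two_mul]
  refine add_le_add le_rfl ((mul_le_mul_of_nonneg_left h2 (Nat.cast_nonneg D)).trans ?_)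
  rw [← mul_assoc]
  exact mul_le_of_le_one_left (by positivity) h3

lemma HdArith2_two {x u : ℝ} (y : ℕ) (hx : 0 ≤ x) (hE : Real.exp (-x / 4) ≤ u) :
    2 ^ y * Real.exp (-(2 * y + 2 * x) / 2) ≤ u := by
  have h1 : (2 : ℝ) ^ y ≤ Real.exp y := by
    rw [← Real.exp_one_pow]
    exact pow_le_pow_left₀ zero_le_two (by linarith [Real.add_one_le_exp 1]) y
  refine (mul_le_mul_of_nonneg_right h1 (Real.exp_pos _).le).trans (le_trans ?_ hE)
  rw [← Real.exp_add]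
  exact Real.exp_le_exp.2 (by linarith)

lemma HdArith2_total {x L a e1 e2 e3 : ℝ} {D γ : ℕ} (hγ : 365204 ≤ γ)
    (hD : 182434 * γ + 547310 ≤ D) (hx : 2400 ≤ x) (hL0 : 0 < L) (hL : L ≤ x ^ 182434)
    (hL' : 3 * L + 1 ≤ x ^ 182435) (ha0 : 0 ≤ a) (ha : a ≤ 2 * (x ^ D)⁻¹) (h1 : e1 ≤ (x ^ D)⁻¹)
    (h2 : e2 ≤ (x ^ D)⁻¹) (h3 : e3 ≤ (x ^ D)⁻¹) :
    2 * (3 * L + 1) ^ 3 * a + (3 * L + 1) ^ 2 * a +
      (2 * x ^ 334 + 1) * ((3 * L + 1) * ((x ^ 334 + 1) * (2 / x ^ γ))) ^ (γ + 1) +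
      (3 * L + 1) * e1 + 2 * (3 * L + 1) ^ 2 * e2 + 2 * ((2 * x ^ 334 + 1) * e3) ≤ 1 / L ^ γ := by
  have hx1 : 1 ≤ x := by linarith
  have hp : ∀ i j : ℕ, i ≤ j → x ^ i ≤ x ^ j := fun i j h => pow_le_pow_right₀ hx1 h
  have hu : 0 ≤ (x ^ D)⁻¹ := by positivity
  have hm : 1 ≤ x ^ 334 := one_le_pow₀ hx1
  have b3 : (3 * L + 1) ^ 3 ≤ x ^ 547305 :=
    (pow_le_pow_left₀ (by positivity) hL' 3).trans_eq (pow_mul x 182435 3).symm
  have b2 : (3 * L + 1) ^ 2 ≤ x ^ 547305 := (pow_le_pow_right₀ (by linarith) (by norm_num)).trans b3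
  have b1 : 3 * L + 1 ≤ x ^ 547305 := hL'.trans (hp _ _ (by norm_num))
  have b0 : 2 * x ^ 334 + 1 ≤ 3 * x ^ 547305 := by linarith [hp 334 547305 (by norm_num)]
  have t1 : (3 * L + 1) ^ 3 * a ≤ x ^ 547305 * (2 * (x ^ D)⁻¹) := by gcongr
  have t2 : (3 * L + 1) ^ 2 * a ≤ x ^ 547305 * (2 * (x ^ D)⁻¹) := by gcongr
  have t4 : (3 * L + 1) * e1 ≤ x ^ 547305 * (x ^ D)⁻¹ :=
    (mul_le_mul_of_nonneg_left h1 (by positivity)).trans (by gcongr)
  have t5 : (3 * L + 1) ^ 2 * e2 ≤ x ^ 547305 * (x ^ D)⁻¹ :=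
    (mul_le_mul_of_nonneg_left h2 (by positivity)).trans (by gcongr)
  have t6 : (2 * x ^ 334 + 1) * e3 ≤ 3 * x ^ 547305 * (x ^ D)⁻¹ :=
    (mul_le_mul_of_nonneg_left h3 (by positivity)).trans (by gcongr)
  have t7 := HdArith2_div hx1 30 547305 D (182434 * γ) (by linarith) (by omega)
  have t8 : (3 * L + 1) * ((x ^ 334 + 1) * (2 / x ^ γ)) ≤ (x ^ 182434)⁻¹ :=
    calc _ ≤ x ^ 182435 * ((2 * x ^ 334) * (2 / x ^ γ)) := by gcongr; linarith
      _ = 4 * x ^ 182769 * (x ^ γ)⁻¹ := by ring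
      _ ≤ _ := HdArith2_div hx1 4 _ _ _ (by linarith) (by omega)
  have t9 := HdArith2_div hx1 6 334 182434 0 (by linarith) (by norm_num)
  have t3 : (2 * x ^ 334 + 1) * ((3 * L + 1) * ((x ^ 334 + 1) * (2 / x ^ γ))) ^ (γ + 1) ≤
      1 / 2 * (x ^ (182434 * γ))⁻¹ :=
    calc _ ≤ (3 * x ^ 334) * (x ^ 182434)⁻¹ ^ (γ + 1) := by gcongr; linarith
      _ = 3 * x ^ 334 * (x ^ 182434)⁻¹ * (x ^ (182434 * γ))⁻¹ := by
        rw [pow_succ' _ γ, inv_pow, ← pow_mul, mul_assoc (3 * x ^ 334)]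
      _ ≤ _ := by
        rw [pow_zero, inv_one] at t9
        exact mul_le_mul_of_nonneg_right (by linarith) (by positivity)
  have t0 : (x ^ (182434 * γ))⁻¹ ≤ 1 / L ^ γ := by
    rw [one_div, pow_mul]
    exact inv_anti₀ (by positivity) (by gcongr)
  generalize (2 * x ^ 334 + 1) * ((3 * L + 1) * ((x ^ 334 + 1) * (2 / x ^ γ))) ^ (γ + 1) = T
    at t3 ⊢
  have t10 : 0 ≤ x ^ 547305 * (x ^ D)⁻¹ := by positivity
  linarith

lemma HdArith2_tb {x L a : ℝ} {D γ : ℕ} (hγ : 365204 ≤ γ) (hD : 547310 ≤ D) (hx : 2400 ≤ x)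
    (hL0 : 0 < L) (hL' : 3 * L + 1 ≤ x ^ 182435) (ha0 : 0 ≤ a) (ha : a ≤ 2 * (x ^ D)⁻¹) :
    (2 * x ^ 334 + 1) * (2 / x ^ γ) + (2 * x ^ 334 + 1) * (3 * L + 1) * a ≤ 1 / (200 * x ^ 41) := by
  have hx1 : 1 ≤ x := by linarith
  have hm : 2 * x ^ 334 + 1 ≤ 3 * x ^ 334 := by linarith [one_le_pow₀ (n := 334) hx1]
  have t1 := HdArith2_div hx1 2400 334 γ 41 hx (by omega)
  have t2 := HdArith2_div hx1 2400 182769 D 41 hx (by omega)
  have t3 : (2 * x ^ 334 + 1) * (2 / x ^ γ) ≤ 3 * x ^ 334 * (2 * (x ^ γ)⁻¹) := by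
    rw [div_eq_mul_inv]; gcongr
  have t4 : (2 * x ^ 334 + 1) * (3 * L + 1) * a ≤ 3 * x ^ 334 * x ^ 182435 * (2 * (x ^ D)⁻¹) := by
    gcongr
  rw [one_div, mul_inv]
  linarith

theorem exists_par {D γ : ℕ} (r1 : ℕ) (hγ : 365204 ≤ γ) (hD : 182434 * γ + 547310 ≤ D) :
    ∃ r0, ∀ L, r0 ≤ L → ∃ q : Par, q.OK D 169 r1 γ L := by
  refine ⟨(1200 * D ^ 2 + r1 + 4 ^ (D + 1) * (D + 1).factorial) ^ 91217, fun L hL => ?_⟩
  have hDD : D ≤ D ^ 2 := Nat.le_self_pow two_ne_zero D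
  obtain ⟨z, hz, h1, h2⟩ := HdArith2_root (by norm_num) (by omega) hL
  clear hL
  have hE := HdArith2_exp (le_trans (Nat.le_add_left _ _) hz)
  have z1 : 1200 * D ^ 2 ≤ z := by omega
  have z2 : r1 ≤ z := by omega
  clear hz
  have z0 : 1 ≤ z := by omega
  have hp : ∀ i j : ℕ, i ≤ j → z ^ i ≤ z ^ j := fun i j h => Nat.pow_le_pow_right z0 h
  have hk : ∀ c i j : ℕ, c ≤ z → i < j → c * z ^ i ≤ z ^ j := fun c i j hc h =>
    (Nat.mul_le_mul_right _ hc).trans ((pow_succ' z i).symm.trans_le (hp _ _ h))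
  have h0 : ∀ i, 1 ≤ z ^ i := fun i => Nat.one_le_pow _ _ z0
  have h3 : 3 * L + 1 ≤ z ^ 182435 := by
    linarith [hk 3 (2 * 91217) 182435 (by omega) (by norm_num)]
  have hac : ∀ a i j : ℕ, a ≤ 5 * z ^ i → 2 * i + 3 < j →
      48 * z * D ^ 2 * a ^ 2 * z ^ 2 ≤ z ^ j := fun a i j ha h =>
    calc _ ≤ 48 * z * D ^ 2 * (5 * z ^ i) ^ 2 * z ^ 2 := by gcongr
      _ = 1200 * D ^ 2 * z ^ (2 * i + 3) := by ring
      _ ≤ _ := hk _ _ _ z1 h
  obtain ⟨q, hq⟩ : ∃ q : Par, q = ⟨z, z ^ 4, z ^ 17, z ^ 38, z ^ 40, z ^ 41, z ^ 165, z ^ 334, γ + 1,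
    z ^ 7600, z ^ 15202, z ^ 60812⟩ := ⟨_, rfl⟩
  have hK : q.K0 ≤ z ^ 335 := by
    rw [hq]
    calc 2 * z ^ 334 + (2 * z ^ 334 + 1) * (γ + 1) ≤ 2 * z ^ 334 + (3 * z ^ 334) * (γ + 1) := by
          gcongr; linarith [h0 334]
      _ = (3 * γ + 5) * z ^ 334 := by ring
      _ ≤ _ := hk _ _ _ (by omega) (by norm_num)
  have hS : q.S0 ≤ 24 * z ^ 669 := by
    have e1 : q.x0 ≤ 8 * z ^ 335 := by
      have : q.z = z := by rw [hq]
      rw [Par.x0, Par.y0, this]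
      linarith [h0 335, hp 1 335 (by norm_num)]
    have e2 : 2 * q.m + 1 ≤ 3 * z ^ 334 := by
      rw [hq]
      linarith [h0 334]
    exact (Nat.mul_le_mul e2 e1).trans_eq (by ring)
  have hx : (2400 : ℝ) ≤ z := by exact_mod_cast (show 2400 ≤ z by omega)
  have hx1 : (1 : ℝ) ≤ z := by linarith
  have hL0 : (0 : ℝ) < L := by exact_mod_cast (h0 _).trans h1
  have hL1 : (L : ℝ) ≤ z ^ 182434 := (Nat.cast_le.2 h2.le).trans_eq (Nat.cast_pow _ _)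
  have hL2 : 3 * (L : ℝ) + 1 ≤ z ^ 182435 := by exact_mod_cast h3
  have ha0 : 0 ≤ acb D z := by unfold acb; positivity
  have ha := HdArith2_acb (by omega) (by omega) hE
  have e3 := HdArith2_two q.y0 (Nat.cast_nonneg z) hE
  have e2 : Real.exp (-(z : ℝ) ^ 2 / 4) ≤ ((z : ℝ) ^ D)⁻¹ :=
    (Real.exp_le_exp.2 (by nlinarith)).trans hE
  have ht := HdArith2_total hγ hD hx hL0 hL1 hL2 ha0 ha hE e2 e3
  have hb := HdArith2_tb hγ (by omega) hx hL0 hL2 ha0 ha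
  have hc := HdArith2_div hx1 32 38 γ 0 (by linarith) (by omega)
  clear e2 e3 ha ha0 hL0 hL1 hL2 hE h2
  refine ⟨q, ?_⟩
  subst hq
  constructor <;> try dsimp only
  · exact z0
  · exact hac _ 17 _ (by linarith [h0 17]) (by norm_num)
  · exact hac _ 165 _ (by linarith [h0 165]) (by norm_num)
  · exact hac _ 30404 _ (by linarith [h0 30404]) (by norm_num)
  · have := hk (50 * D ^ 2) 3 4 (by omega) (by norm_num)
    have := Nat.mul_le_mul (show 1 ≤ D ^ 2 by omega) (hp 1 3 (by norm_num))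
    linarith
  · exact z2.trans (Nat.le_self_pow (by norm_num) z)
  · linarith [hk 2 16 17 (by omega) (by norm_num)]
  · linarith [hk 6 39 40 (by omega) (by norm_num), hp 2 39 (by norm_num)]
  · exact hp _ _ (by norm_num)
  · linarith [hk 2 1 334 (by omega) (by norm_num)]
  · linarith [hk 10 40 41 (by omega) (by norm_num), hp 17 40 (by norm_num), h0 40]
  · linarith [hk 2 164 165 (by omega) (by norm_num)]
  · linarith [hp 328 334 (by norm_num)]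
  · linarith [hk 4 334 91217 (by omega) (by norm_num), h0 334]
  · linarith [hk 7 38 91217 (by omega) (by norm_num), h0 38, hp 1 38 (by norm_num)]
  · rw [← pow_mul]
    linarith [hk 500 669 (4 * (169 - 1)) (by omega) (by norm_num), hp 334 669 (by norm_num)]
  · calc _ ≤ (50 * z ^ 669) * (z ^ 41) ^ 169 :=
          Nat.mul_le_mul_right _ (by linarith [hp 335 669 (by norm_num), h0 669])
      _ = 50 * z ^ 7598 := by ring
      _ ≤ _ := hk _ _ _ (by omega) (by norm_num)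
  · calc _ ≤ 2 * (z ^ 7600) ^ 2 * (9 * z ^ 15203) := Nat.mul_le_mul_left _ (by
          linarith [hp 335 15203 (by norm_num), hp 7934 15203 (by norm_num)])
      _ < _ := by linarith [hk 19 30403 30404 (by omega) (by norm_num), h0 30403]
  · linarith [hp 1 15202 (by norm_num)]
  · calc _ ≤ (2 ^ z) ^ 182435 := h3.trans (Nat.pow_le_pow_left Nat.lt_two_pow_self.le _)
      _ ≤ _ := by
        rw [← pow_mul]
        exact Nat.pow_le_pow_right two_pos (by linarith [hk 182435 1 4 (by omega) (by norm_num)])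
  · exact_mod_cast hb
  · rw [pow_zero, inv_one] at hc
    push_cast
    rw [div_eq_mul_inv]
    linarith
  · linarith [hk 3 91216 91217 (by omega) (by norm_num), hp 60812 91216 (by norm_num)]
  · rw [Par.x0]
    exact_mod_cast ht

end Pool.Agent.Lib.MP_aa337a_pr.HD
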