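import Pool.Agent.Lib.MP_aa337a_pr.HdTool

/-! Independence tools. Everything follows from one fact: the map `(ω, ω') ↦ mix I ω ω'` pushes
`μ.prod μ` to `μ` (check it on cylinders with `Measure.eq_infinitePi`, splitting the finite index
set by membership in `I`), and from the analogous fact for `shift a`. Then use Fubini
(`integral_prod`, `integral_integral_swap`); local functions are bounded and measurable.
For `Ex_update` take `I = {t}ᶜ` and use `measurePreserving_eval_infinitePi` and the definition of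
`m1`. -/

set_option autoImplicit false

noncomputable section

namespace Pool.Agent.Lib.MP_aa337a_pr.HD

open MeasureTheory Finset
open scoped Classical

namespace Sys

variable {d : ℕ} (Y : Sys d)

theorem HdMix_meas (I : Set ℕ) : Measurable fun p : Y.Ω × Y.Ω => mix I p.1 p.2 := by
  refine measurable_pi_lambda _ fun i => ?_
  unfold mix
  by_cases h : i ∈ I
  · simp only [if_pos h]
    exact (measurable_pi_apply i).comp measurable_fst
  · simp only [if_neg h]
    exact (measurable_pi_apply i).comp measurable_snd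

theorem HdMix_pi (s : Finset ℕ) (t : ℕ → Set Y.E) :
    Y.μ (Set.pi s t) = ∏ i ∈ s, Y.m1 (t i) :=
  Measure.infinitePi_pi (fun _ => Y.m1) fun _ _ => trivial

theorem HdMix_mp (I : Set ℕ) :
    MeasurePreserving (fun p : Y.Ω × Y.Ω => mix I p.1 p.2) (Y.μ.prod Y.μ) Y.μ := by
  refine ⟨Y.HdMix_meas I, Measure.eq_infinitePi (fun _ => Y.m1) fun s t ht => ?_⟩
  rw [Measure.map_apply (Y.HdMix_meas I) (MeasurableSet.pi s.countable_toSet fun i _ => ht i)]
  have h : (fun p : Y.Ω × Y.Ω => mix I p.1 p.2) ⁻¹' Set.pi s t =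
      Set.pi (s.filter fun i => i ∈ I) t ×ˢ Set.pi (s.filter fun i => ¬ i ∈ I) t := by
    ext p
    simp only [Set.mem_preimage, Set.mem_pi, mem_coe, Set.mem_prod, mem_filter, mix]
    constructor
    · intro h
      refine ⟨fun i hi => ?_, fun i hi => ?_⟩
      · have := h i hi.1
        rwa [if_pos hi.2] at this
      · have := h i hi.1
        rwa [if_neg hi.2] at this
    · intro h i hi
      split_ifs with hI
      · exact h.1 i ⟨hi, hI⟩
      · exact h.2 i ⟨hi, hI⟩
  rw [h, Measure.prod_prod, Y.HdMix_pi, Y.HdMix_pi, prod_filter_mul_prod_filter_not]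

theorem HdMix_int {α β : Type*} [MeasurableSpace α] [MeasurableSpace β] {m : Measure α}
    {m' : Measure β} {g : α → β} (hg : MeasurePreserving g m m') {f : β → ℝ}
    (hf : Measurable f) : ∫ x, f x ∂m' = ∫ x, f (g x) ∂m := by
  rw [← hg.map_eq, integral_map hg.measurable.aemeasurable hf.aestronglyMeasurable]

theorem HdMix_splice {E : Type*} (t : ℕ) (ω ω' : ℕ → E) :
    splice t ω ω' = mix (Set.Iio t) ω ω' := by
  funext i
  simp only [splice, mix, Set.mem_Iio]

theorem HdMix_m1 (g : Y.E → ℝ) : ∫ e, g e ∂Y.m1 = ∑ e, Y.ν e * g e := by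
  unfold m1
  rw [integral_finsetSum_measure fun e _ =>
    (integrable_dirac (by simp)).smul_measure ENNReal.ofReal_ne_top]
  refine sum_congr rfl fun e _ => ?_
  rw [integral_smul_measure, integral_dirac, ENNReal.toReal_ofReal (Y.ν_nonneg e), smul_eq_mul]

theorem Ex_mix (I : Set ℕ) {f : Y.Ω → ℝ} (hf : Loc f) :
    Y.Ex f = Y.Ex fun ω => Y.Ex fun ω' => f (mix I ω ω') := by
  unfold Ex
  rw [HdMix_int (Y.HdMix_mp I) (Y.measurable_of_loc hf)]
  exact integral_prod _ ((Y.HdMix_mp I).integrable_comp_of_integrable (Y.integrable_of_loc hf))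

theorem Ex_splice (t : ℕ) {f : Y.Ω → ℝ} (hf : Loc f) :
    Y.Ex f = Y.Ex fun ω => Y.Ex fun ω' => f (splice t ω ω') := by
  simp only [HdMix_splice]
  exact Y.Ex_mix _ hf

theorem Ex_splice' (t : ℕ) {f : Y.Ω → ℝ} (hf : Loc f) :
    Y.Ex f = Y.Ex fun ω' => Y.Ex fun ω => f (splice t ω ω') := by
  simp only [HdMix_splice]
  unfold Ex
  rw [HdMix_int (Y.HdMix_mp (Set.Iio t)) (Y.measurable_of_loc hf)]
  exact integral_prod_symm _
    ((Y.HdMix_mp (Set.Iio t)).integrable_comp_of_integrable (Y.integrable_of_loc hf))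

theorem dep_Ex_splice (t : ℕ) (f : Y.Ω → ℝ) :
    DependsOn (fun ω => Y.Ex fun ω' => f (splice t ω ω')) (Set.Iio t) := by
  intro a b hab
  refine Y.Ex_congr fun ω' => congrArg f (funext fun i => ?_)
  unfold splice
  split_ifs with h
  · exact hab i h
  · rfl

theorem Ex_mul_indep (I : Set ℕ) {f g : Y.Ω → ℝ} (hf : Loc f) (hg : Loc g) (hfI : DependsOn f I)
    (hgI : DependsOn g Iᶜ) : Y.Ex (fun ω => f ω * g ω) = Y.Ex f * Y.Ex g := by
  rw [Y.Ex_mix I (hf.mul hg)]
  have h : ∀ ω ω' : Y.Ω, f (mix I ω ω') * g (mix I ω ω') = f ω * g ω' := fun ω ω' => by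
    rw [hfI (x := mix I ω ω') (y := ω) fun i hi => if_pos hi,
      hgI (x := mix I ω ω') (y := ω') fun i hi => if_neg hi]
  simp only [h, Y.Ex_const_mul]
  exact integral_mul_const _ _

theorem P_and_indep (I : Set ℕ) {p q : Y.Ω → Prop} (hp : Loc p) (hq : Loc q)
    (hpI : DependsOn p I) (hqI : DependsOn q Iᶜ) :
    Y.P (fun ω => p ω ∧ q ω) = Y.P p * Y.P q := by
  rw [← Y.Ex_ind (hp.and hq), ← Y.Ex_ind hp, ← Y.Ex_ind hq,
    ← Y.Ex_mul_indep I hp.ind hq.ind (dep_comp hpI ind) (dep_comp hqI ind)]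
  exact Y.Ex_congr fun ω => ind_and _ _

/-- Freeze the past. -/
theorem P_le_of_splice (t : ℕ) {p : Y.Ω → Prop} (hp : Loc p) {c : ℝ}
    (h : ∀ ω, Y.P (fun ω' => p (splice t ω ω')) ≤ c) : Y.P p ≤ c := by
  rw [← Y.Ex_ind hp, Y.Ex_splice t hp.ind]
  refine Y.Ex_le_const ⟨t, Y.dep_Ex_splice t fun ω => ind (p ω)⟩ fun ω => ?_
  rw [Y.Ex_ind (hp.splice_right t ω)]
  exact h ω

/-- Freeze the future. -/
theorem P_le_of_splice' (t : ℕ) {p : Y.Ω → Prop} (hp : Loc p) {c : ℝ}
    (h : ∀ ω', Y.P (fun ω => p (splice t ω ω')) ≤ c) : Y.P p ≤ c := by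
  rw [← Y.Ex_ind hp, Y.Ex_splice' t hp.ind]
  refine Y.Ex_le_const ?_ fun ω' => ?_
  · obtain ⟨n, hn⟩ := hp
    refine ⟨n, fun a b hab => Y.Ex_congr fun ω => congrArg ind (hn fun i hi => ?_)⟩
    unfold splice
    split_ifs
    · rfl
    · exact hab i hi
  · rw [Y.Ex_ind (Loc.splice_left (f := p) t ω')]
    exact h ω'

/-- Resample the letter at time `t`. -/
theorem Ex_update (t : ℕ) {f : Y.Ω → ℝ} (hf : Loc f) :
    Y.Ex f = Y.Ex fun ω => ∑ e, Y.ν e * f (Function.update ω t e) := by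
  rw [Y.Ex_mix {t}ᶜ hf]
  refine Y.Ex_congr fun ω => ?_
  have h : ∀ ω' : Y.Ω, mix {t}ᶜ ω ω' = Function.update ω t (ω' t) := fun ω' => by
    funext i
    unfold mix
    by_cases hi : i = t
    · subst hi
      rw [if_neg (by simp), Function.update_self]
    · rw [if_pos (by simpa using hi), Function.update_of_ne hi]
  simp only [h]
  rw [← Y.HdMix_m1]
  exact (HdMix_int (measurePreserving_eval_infinitePi (fun _ : ℕ => Y.m1) t)
    (f := fun e => f (Function.update ω t e)) (Measurable.of_discrete)).symm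

theorem Ex_shift (a : ℕ) {f : Y.Ω → ℝ} (hf : Loc f) : Y.Ex (fun ω => f (shift a ω)) = Y.Ex f := by
  have h : MeasurePreserving (shift a) Y.μ Y.μ :=
    ⟨measurable_pi_lambda _ fun i => measurable_pi_apply (a + i),
      Measure.map_infinitePi_infinitePi_of_inj (P := fun _ : ℕ => Y.m1) (add_right_injective a)⟩
  exact (HdMix_int h (Y.measurable_of_loc hf)).symm

theorem P_shift (a : ℕ) {p : Y.Ω → Prop} (hp : Loc p) :
    Y.P (fun ω => p (shift a ω)) = Y.P p := by
  rw [← Y.Ex_ind (hp.shift a), ← Y.Ex_ind hp]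
  exact Y.Ex_shift a hp.ind

end Sys

end Pool.Agent.Lib.MP_aa337a_pr.HD
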