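import Pool.Agent.Lib.MP_aa337a_pr.HdWalk
import Pool.Agent.Lib.MP_aa337a_pr.HdMix

/-! From the scale hypotheses `TT` to `Phi`; agreement with the block-local process. -/

set_option autoImplicit false

noncomputable section

namespace Pool.Agent.Lib.MP_aa337a_pr.HD

open MeasureTheory Finset
open scoped Classical

namespace Sys

variable {d : ℕ} (Y : Sys d)

theorem Phi.mono {Y : Sys d} {γ n n' : ℕ} (h : Y.Phi γ n) (hn : n' ≤ n) : Y.Phi γ n' := by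
  intro a a' r ha hr
  exact (Y.P_mono fun ω ⟨u, h1, h2, h3⟩ => ⟨u, h1, by omega, h3⟩).trans (h a a' r ha hr)

theorem HK.mono {Y : Sys d} {α n n' : ℕ} {η : ℝ} (h : Y.HK α η n) (hn : n' ≤ n) :
    Y.HK α η n' := fun a s r y h1 h2 h3 => h a s r y h1 h2 (by omega)

theorem HK_zero (α : ℕ) (η : ℝ) : Y.HK α η 0 := fun a s r y h1 h2 h3 => by omega

/-- Shift invariance (`P_shift`, `xi_shift`). -/
theorem TT_of_zero {γ L : ℕ} (h : ∀ a', a' ≤ L →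
    Y.P (fun ω => ∃ u, a' + L ≤ u ∧ u < a' + 2 * L ∧ Y.xi 0 u ω ≠ Y.xi a' u ω) ≤
      1 / (L : ℝ) ^ γ) : Y.TT γ L := by
  intro a a' ha ha'
  obtain ⟨c, rfl⟩ := Nat.exists_eq_add_of_le ha
  have hp : Loc fun ω : Y.Ω => ∃ u ∈ Ico (c + L) (c + 2 * L), Y.xi 0 u ω ≠ Y.xi c u ω :=
    Loc.exists_mem _ fun u _ => (Y.loc_xi 0 u).comp₂ (Y.loc_xi c u) (· ≠ ·)
  refine le_trans ?_ ((Y.P_mono
    (p := fun ω => ∃ u ∈ Ico (c + L) (c + 2 * L), Y.xi 0 u ω ≠ Y.xi c u ω) fun ω ⟨u, hu, h3⟩ =>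
    ⟨u, (mem_Ico.1 hu).1, (mem_Ico.1 hu).2, h3⟩).trans (h c (by omega)))
  rw [← Y.P_shift a hp]
  refine Y.P_mono fun ω ⟨u, h1, h2, h3⟩ => ⟨u - a, mem_Ico.2 ⟨by omega, by omega⟩, ?_⟩
  have e : a + (u - a) = u := by omega
  rwa [Y.xi_shift, Y.xi_shift, e, add_zero]

/-- Downward induction on `r` (for all `a ≤ a'`): for `r ≥ n` the window is empty. For `r < n`
the times `u ≥ a' + 2 r` are covered by the bound for `2 r`. For `u ∈ [a' + r, a' + 2 r)`: if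
`a' ≤ a + r` use `TT γ r`; otherwise put `a'' = a' - r`, compare `a''` with `a'` by `TT γ r` and `a`
with `a''` by the bound for `2 r`. Finally `1 + 4 / 2 ^ γ ≤ 2`. -/
theorem phi_of_TT {γ n : ℕ} (hγ : 2 ≤ γ) (h : ∀ L, 1 ≤ L → L ≤ n → Y.TT γ L) : Y.Phi γ n := by
  have key : ∀ k a a' r : ℕ, n ≤ r + k → a ≤ a' → 1 ≤ r →
      Y.P (fun ω => ∃ u, a' + r ≤ u ∧ u < a + n ∧ Y.xi a u ω ≠ Y.xi a' u ω) ≤
        2 / (r : ℝ) ^ γ := by
    intro k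
    induction k with
    | zero =>
      intro a a' r hn ha _
      rw [Y.P_eq_zero fun ω ⟨u, h1, h2, _⟩ => by omega]
      positivity
    | succ k ih =>
      intro a a' r hn ha hr
      by_cases hrn : n ≤ r
      · rw [Y.P_eq_zero fun ω ⟨u, h1, h2, _⟩ => by omega]
        positivity
      have hT := h r hr (by omega)
      have hr' : (0 : ℝ) < r := by exact_mod_cast hr
      have h4 : (2 : ℝ) / ((2 * r : ℕ) : ℝ) ^ γ ≤ 1 / 2 * (1 / (r : ℝ) ^ γ) := by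
        have h2 : (2 : ℝ) ^ 2 ≤ 2 ^ γ := pow_le_pow_right₀ one_le_two hγ
        push_cast
        rw [mul_pow, div_mul_div_comm, div_le_div_iff₀ (by positivity) (by positivity)]
        nlinarith [pow_pos hr' γ]
      have e : (2 : ℝ) / (r : ℝ) ^ γ = 2 * (1 / (r : ℝ) ^ γ) := by ring
      have h0 : (0 : ℝ) ≤ 1 / (r : ℝ) ^ γ := by positivity
      have i1 := ih a a' (2 * r) (by omega) ha (by omega)
      by_cases hc : a' ≤ a + r
      · have i2 := hT a a' ha hc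
        have i3 := Y.P_le_add
          (p := fun ω => ∃ u, a' + r ≤ u ∧ u < a + n ∧ Y.xi a u ω ≠ Y.xi a' u ω)
          (q := fun ω => ∃ u, a' + r ≤ u ∧ u < a' + 2 * r ∧ Y.xi a u ω ≠ Y.xi a' u ω)
          (r := fun ω => ∃ u, a' + 2 * r ≤ u ∧ u < a + n ∧ Y.xi a u ω ≠ Y.xi a' u ω)
          fun ω ⟨u, h1, h2, h3⟩ => (lt_or_ge u (a' + 2 * r)).imp
            (fun h4 => ⟨u, h1, h4, h3⟩) fun h4 => ⟨u, h4, h2, h3⟩
        linarith
      · have i2 := hT (a' - r) a' (by omega) (by omega)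
        have i4 := ih a (a' - r) (2 * r) (by omega) (by omega) (by omega)
        have i5 := Y.P_or
          (fun ω => ∃ u, a' - r + 2 * r ≤ u ∧ u < a + n ∧ Y.xi a u ω ≠ Y.xi (a' - r) u ω)
          (fun ω => ∃ u, a' + 2 * r ≤ u ∧ u < a + n ∧ Y.xi a u ω ≠ Y.xi a' u ω)
        have i3 := Y.P_le_add
          (p := fun ω => ∃ u, a' + r ≤ u ∧ u < a + n ∧ Y.xi a u ω ≠ Y.xi a' u ω)
          (q := fun ω => ∃ u, a' + r ≤ u ∧ u < a' + 2 * r ∧ Y.xi (a' - r) u ω ≠ Y.xi a' u ω)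
          (r := fun ω =>
            (∃ u, a' - r + 2 * r ≤ u ∧ u < a + n ∧ Y.xi a u ω ≠ Y.xi (a' - r) u ω) ∨
            ∃ u, a' + 2 * r ≤ u ∧ u < a + n ∧ Y.xi a u ω ≠ Y.xi a' u ω)
          fun ω ⟨u, h1, h2, h3⟩ => by
            by_cases h4 : u < a' + 2 * r
            · by_cases h5 : Y.xi a u ω = Y.xi (a' - r) u ω
              · exact Or.inl ⟨u, h1, h4, h5 ▸ h3⟩
              · exact Or.inr (Or.inl ⟨u, by omega, h2, h5⟩)
            · exact Or.inr (Or.inr ⟨u, not_lt.1 h4, h2, h3⟩)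
        linarith
  exact fun a a' r => key n a a' r (Nat.le_add_left n r)

/-- A single time. -/
theorem Phi.single {Y : Sys d} {γ n : ℕ} (h : Y.Phi γ n) {a a' r i : ℕ} (ha : a ≤ a') (hr : 1 ≤ r)
    (hi : a' + r ≤ i) (hn : i < a + n) :
    Y.P (fun ω => Y.xi a i ω ≠ Y.xi a' i ω) ≤ 2 / (r : ℝ) ^ γ :=
  (Y.P_mono fun _ hω => ⟨i, hi, hn, hω⟩).trans (h a a' r ha hr)

/-- Union bound over `i`, with `zeta_start` and `Phi.single`. -/
theorem agr {γ n : ℕ} (h : Y.Phi γ n) {l a s e : ℕ} (hl : 1 ≤ l) (hs : a + 2 * l ≤ s + 1)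
    (he : e ≤ a + n) :
    Y.P (fun ω => ∃ i, s ≤ i ∧ i < e ∧ Y.xi a i ω ≠ Y.zeta l i ω) ≤
      ((e - s : ℕ) : ℝ) * (2 / (l : ℝ) ^ γ) := by
  refine (Y.P_le_sum (Ico s e) (fun i ω => Y.xi a i ω ≠ Y.zeta l i ω)
    fun ω ⟨i, h1, h2, h3⟩ => ⟨i, mem_Ico.2 ⟨h1, h2⟩, h3⟩).trans ?_
  rw [← Nat.card_Ico, ← nsmul_eq_mul]
  refine sum_le_card_nsmul _ _ _ fun i hi => ?_
  obtain ⟨h1, h2⟩ := mem_Ico.1 hi
  obtain ⟨h3, h4⟩ := zeta_start (i := i) (t := a) hl (by omega)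
  exact h.single h3 hl h4 (by omega)

end Sys

end Pool.Agent.Lib.MP_aa337a_pr.HD
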