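import Pool.Agent.Lib.MP_aa337a_pr.HdStep
import Pool.Agent.Lib.MP_aa337a_pr.HdPhi

/-! Small scales, where large dimension suffices. -/

set_option autoImplicit false

noncomputable section

namespace Pool.Agent.Lib.MP_aa337a_pr.HD

open MeasureTheory Finset
open scoped Classical

namespace Sys

variable {d : ℕ} (Y : Sys d)

/-- Within `d` steps of the start at most `d` neighbours are visited (`exists_lag_of_crowded`),
so `last_step` applies. -/
theorem P_pos_eq_le {a i : ℕ} (h1 : a < i) (h2 : i ≤ a + d) (y : Pt d) :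
    Y.P (fun ω => Y.pos a i ω = y) ≤ 1 / d := by
  obtain ⟨u, rfl⟩ : ∃ u, i = u + 1 := ⟨i - 1, by omega⟩
  refine le_trans (Y.P_mono fun ω hω => ⟨hω, ?_⟩)
    (Y.last_step (a := a) (u := u) (by omega) (W := fun _ => y) fun _ _ _ => rfl)
  by_contra h
  obtain ⟨s, σ, h3, h4, -⟩ := Y.exists_lag_of_crowded (not_le.1 h)
  omega

/-- By `dom`, a disagreement on `[a', a' + 2 L)` gives `s ∈ [a, a')`, `i ∈ (a', a' + 2 L]` with
`pos a a' + pos a' i = pos a s`; freeze the past and use `P_pos_eq_le`; at most `2 L ^ 2` pairs. -/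
theorem base_TT {γ L : ℕ} (hL : 1 ≤ L) (hd : 2 * L ^ (γ + 2) ≤ d) : Y.TT γ L := by
  intro a a' ha ha'
  have hL0 : (0 : ℝ) < L := by exact_mod_cast hL
  have h2L : 2 * L ≤ d :=
    (Nat.mul_le_mul_left 2 (Nat.le_self_pow (Nat.succ_ne_zero (γ + 1)) L)).trans hd
  have hd' : 2 * (L : ℝ) ^ (γ + 2) ≤ d := by exact_mod_cast hd
  have h1 := Y.P_le_sum (Ioc a' (a' + 2 * L) ×ˢ Ico a a')
    (p := fun ω => ∃ u, a' + L ≤ u ∧ u < a' + 2 * L ∧ Y.xi a u ω ≠ Y.xi a' u ω)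
    (fun x ω => Y.pos a a' ω + Y.pos a' x.1 ω = Y.pos a x.2 ω) (by
      rintro ω ⟨u, hu1, hu2, hu3⟩
      by_contra hne
      refine hu3 (Y.dom (n := 2 * L) ha (fun i s h1 h2 h3 h4 h5 => hne ?_) u (by omega) hu2)
      exact ⟨(i, s), mem_product.2 ⟨mem_Ioc.2 ⟨h1, h2⟩, mem_Ico.2 ⟨h3, h4⟩⟩, h5⟩)
  have h2 : ∀ x ∈ Ioc a' (a' + 2 * L) ×ˢ Ico a a',
      Y.P (fun ω => Y.pos a a' ω + Y.pos a' x.1 ω = Y.pos a x.2 ω) ≤ 1 / d := by
    intro x hx
    obtain ⟨hx1, hx2⟩ := mem_product.1 hx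
    rw [mem_Ioc] at hx1
    rw [mem_Ico] at hx2
    refine Y.P_le_of_splice a' (((Y.loc_pos a a').add (Y.loc_pos a' x.1)).comp₂
      (Y.loc_pos a x.2) Eq) fun ω => ?_
    refine le_trans (Y.P_mono fun ω' hω => ?_)
      (Y.P_pos_eq_le hx1.1 (by omega) (Y.pos a x.2 ω - Y.pos a a' ω))
    rw [dep_splice_left (Y.pos_dep' a le_rfl), dep_splice_left (Y.pos_dep' a hx2.2.le),
      dep_splice_right ((Y.pos_dep a' x.1).mono Set.Ico_subset_Ici_self)] at hω
    exact eq_sub_of_add_eq' hω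
  refine h1.trans ((sum_le_card_nsmul _ _ _ h2).trans ?_)
  rw [card_product, Nat.card_Ioc, Nat.card_Ico, nsmul_eq_mul]
  have h3 : (a' + 2 * L - a') * (a' - a) ≤ 2 * L * L := Nat.mul_le_mul (by omega) (by omega)
  have h4 : (((a' + 2 * L - a') * (a' - a) : ℕ) : ℝ) ≤ 2 * L * L := by exact_mod_cast h3
  calc (((a' + 2 * L - a') * (a' - a) : ℕ) : ℝ) * (1 / d)
      ≤ (2 * L * L) * (1 / (2 * (L : ℝ) ^ (γ + 2))) :=
        mul_le_mul h4 (one_div_le_one_div_of_le (by positivity) hd') (by positivity)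
          (by positivity)
    _ = 1 / (L : ℝ) ^ γ := by field_simp; ring

/-- With `u = s + r - 1`: `last_step`, and if more than `d` neighbours are visited there is a link
of lag `l > d` (`exists_lag_of_crowded`), of probability at most
`∑ 2 d η / l ^ α ≤ 2 d ∑ 1 / l ^ 3 ≤ 1 / d`. -/
theorem hk_small {α n : ℕ} {η : ℝ} (H : Y.HK α η n) (hα : 3 ≤ α) (hη : 0 ≤ η) (hη1 : η ≤ 1)
    {a s r : ℕ} (hs : a ≤ s) (hr : 1 ≤ r) (hn : s + r ≤ a + n + 1) (y : Pt d) :
    Y.P (fun ω => Y.pos a (s + r) ω - Y.pos a s ω = y) ≤ 2 / d := by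
  obtain ⟨u, hu⟩ : ∃ u, s + r = u + 1 := ⟨s + r - 1, by omega⟩
  have hd : 1 ≤ d := Y.d_pos
  have hd0 : (0 : ℝ) < d := by exact_mod_cast hd
  rw [hu]
  have h1 := Y.last_step (a := a) (u := u) (by omega) (W := fun ω => y + Y.pos a s ω)
    (dep_comp (Y.pos_dep' a (show s ≤ u by omega)) fun x => y + x)
  have h2 : Y.P (fun ω => ∃ x ∈ Ioc d (u - a) ×ˢ (univ : Finset (St d)),
      Y.pos a (u - x.1 + x.1) ω - Y.pos a (u - x.1) ω = -step x.2) ≤ 1 / d := by
    refine (Y.P_exists _ _).trans ?_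
    calc ∑ x ∈ Ioc d (u - a) ×ˢ (univ : Finset (St d)),
          Y.P (fun ω => Y.pos a (u - x.1 + x.1) ω - Y.pos a (u - x.1) ω = -step x.2)
        ≤ ∑ x ∈ Ioc d (u - a) ×ˢ (univ : Finset (St d)), 1 / (x.1 : ℝ) ^ 3 := by
          refine sum_le_sum fun x hx => ?_
          have hx1 := mem_Ioc.1 (mem_product.1 hx).1
          have hx2 : (1 : ℝ) ≤ x.1 := by exact_mod_cast (show 1 ≤ x.1 by omega)
          refine (H a (u - x.1) x.1 _ (by omega) (by omega) (by omega)).trans ?_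
          exact div_le_div₀ zero_le_one hη1 (by positivity) (pow_le_pow_right₀ hx2 hα)
      _ = 2 * d * ∑ l ∈ Ioc d (u - a), 1 / (l : ℝ) ^ 3 := by
          rw [sum_product, mul_sum]
          refine sum_congr rfl fun l _ => ?_
          simp only [sum_const, card_univ, card_St, nsmul_eq_mul]
          push_cast
          rfl
      _ ≤ 2 * d * (1 / (2 * (d : ℝ) ^ 2)) :=
          mul_le_mul_of_nonneg_left (sum_inv_cube_le _ hd fun l hl => (mem_Ioc.1 hl).1)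
            (by positivity)
      _ = 1 / d := by field_simp
  refine le_trans (Y.P_le_add fun ω hω => ?_) ((add_le_add h1 h2).trans (le_of_eq (by ring)))
  by_cases h : (univ.filter fun σ : St d => Y.loc a u ω (Y.pos a u ω + step σ) ≠ 0).card ≤ d
  · exact Or.inl ⟨eq_add_of_sub_eq hω, h⟩
  · obtain ⟨t, σ, h3, h4, h5⟩ := Y.exists_lag_of_crowded (not_le.1 h)
    refine Or.inr ⟨(u - t, σ), mem_product.2 ⟨mem_Ioc.2 ⟨by omega, by omega⟩, mem_univ _⟩, ?_⟩
    simp only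
    rw [show u - (u - t) + (u - t) = u by omega, show u - (u - t) = t by omega, ← h5]
    abel

end Sys

end Pool.Agent.Lib.MP_aa337a_pr.HD
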