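import Pool.Agent.Lib.MP_aa337a_pr.HdSm1

/-! Chain of `3 n` smoothing steps. Choose step sequences `χ ω`, `χ' ω` for `y ω`, `y' ω` as
functions of the values `y ω`, `y' ω` (`Classical.choose`), put
`y k ω = dsp (χ ω) 0 k + dsp (χ' ω) k (3 n)`, so `y (k + 1) = y k + step (χ k) - step (χ' k)`, and
apply `smooth1` to `fun ω z => F ω (y k ω + z)`. Then
`E k ≤ (1 + 1 / (3 n)) ^ k (E 0 + k Err)` and `(1 + 1 / (3 n)) ^ (3 n) ≤ exp 1 ≤ 3`
(`0 ≤ Err` follows from `hE` with the empty event). -/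

set_option autoImplicit false

noncomputable section

namespace Pool.Agent.Lib.MP_aa337a_pr.HD

open MeasureTheory Finset
open scoped Classical

namespace Sys

variable {d : ℕ} (Y : Sys d)

theorem smooth2 {α n0 : ℕ} {η : ℝ} (H : Y.HK α η n0) (hα : 3 ≤ α) (hη : 0 ≤ η)
    (hη1 : η ≤ 1 / 48) {n s1 c2 nn : ℕ} (hn : 100 ≤ n) (hdn : d ≤ n) (hn0 : 2 * n ≤ n0)
    (hc : s1 + 24 * n ^ 5 ≤ c2) {F : Y.Ω → Pt d → ℝ} (hF0 : ∀ ω z, 0 ≤ F ω z)
    (hF : DependsOn F {i | i < s1 ∨ (c2 ≤ i ∧ i < nn)}) {y y' : Y.Ω → Pt d}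
    (hy : DependsOn y (Set.Iio s1)) (hy' : DependsOn y' (Set.Iio s1))
    (hs : ∀ ω, IsSum (3 * n) (y ω)) (hs' : ∀ ω, IsSum (3 * n) (y' ω)) {Err : ℝ}
    (hE : ∀ (At : Y.Ω → Prop) (v : Y.Ω → Pt d), DependsOn At (Set.Iio (c2 + n)) →
      Y.P At ≤ 2 * Real.exp (-(n : ℝ) / 1152) → DependsOn v (Set.Iio s1) →
      (∀ ω, IsSum (3 * n) (v ω)) →
      Y.Ex (fun ω => ind (At ω) * F ω (v ω + Y.zd n s1 (c2 + n) ω)) ≤ Err) :
    Y.Ex (fun ω => F ω (y ω + Y.zd n s1 (c2 + n) ω)) ≤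
      3 * Y.Ex (fun ω => F ω (y' ω + Y.zd n s1 (c2 + n) ω)) + 9 * n * Err := by
  have hch : ∀ v : Pt d, ∃ χ : ℕ → St d, IsSum (3 * n) v → v = dsp χ 0 (3 * n) := by
    intro v
    by_cases h : IsSum (3 * n) v
    · obtain ⟨χ, hχ⟩ := h
      exact ⟨χ, fun _ => hχ⟩
    · obtain ⟨χ, -⟩ := hs (fun _ => Classical.choice (by
        by_contra hne
        rw [not_nonempty_iff] at hne
        have := Y.ν_sum
        simp at this))
      exact ⟨χ, fun h' => absurd h' h⟩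
  choose ch hch using hch
  set z : ℕ → Y.Ω → Pt d := fun k ω => dsp (ch (y ω)) 0 k + dsp (ch (y' ω)) k (3 * n) with hz
  have hzdep : ∀ k, DependsOn (z k) (Set.Iio s1) := fun k ω ω' h => by
    simp only [hz]
    rw [hy h, hy' h]
  have hz0 : ∀ ω, z 0 ω = y' ω := fun ω => by
    simp only [hz]
    rw [dsp_self, zero_add, ← hch _ (hs' ω)]
  have hz3 : ∀ ω, z (3 * n) ω = y ω := fun ω => by
    simp only [hz]
    rw [dsp_self, add_zero, ← hch _ (hs ω)]
  have hzs : ∀ k, k ≤ 3 * n → ∀ ω, IsSum (3 * n) (z k ω) := fun k hk ω => by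
    have := (isSum_dsp (ch (y ω)) 0 k).add (isSum_dsp (ch (y' ω)) k (3 * n))
    rwa [show k - 0 + (3 * n - k) = 3 * n by omega] at this
  have hzk : ∀ k, k < 3 * n → ∀ ω,
      z (k + 1) ω = z k ω + step (ch (y ω) k) - step (ch (y' ω) k) := fun k hk ω => by
    simp only [hz]
    rw [dsp_succ _ (Nat.zero_le k), ← dsp_add (ch (y' ω)) (Nat.le_succ k) hk,
      dsp_succ _ (le_refl k), dsp_self]
    abel
  set E : ℕ → ℝ := fun k => Y.Ex fun ω => F ω (z k ω + Y.zd n s1 (c2 + n) ω) with hEd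
  have hE0 : ∀ k, 0 ≤ E k := fun k => integral_nonneg fun ω => hF0 _ _
  have hErr : 0 ≤ Err := by
    have := hE (fun _ => False) y (fun _ _ _ => rfl) (by
      simp only [P, Set.ofPred_false, measureReal_empty]
      positivity) hy hs
    simpa [ind, Ex] using this
  have hstep : ∀ k, k < 3 * n → E (k + 1) ≤ (1 + 1 / (3 * n)) * E k + Err := by
    intro k hk
    obtain ⟨At, h1, h2, h3⟩ := Y.smooth1 H hα hη hη1 hn hdn hn0 hc
      (F := fun ω x => F ω (z k ω + x)) (nn := nn) (fun ω x => hF0 _ _)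
      (fun ω ω' h => by
        simp only [hF h, hzdep k fun i hi => h i (Or.inl hi)])
      (a' := fun ω => ch (y ω) k) (b' := fun ω => ch (y' ω) k)
      (fun ω ω' h => by simp only [hy h]) (fun ω ω' h => by simp only [hy' h])
    have e : ∀ ω, z k ω + (Y.zd n s1 (c2 + n) ω + step (ch (y ω) k) - step (ch (y' ω) k)) =
        z (k + 1) ω + Y.zd n s1 (c2 + n) ω := fun ω => by
      rw [hzk k hk]
      abel
    simp only [e] at h3
    exact h3.trans (add_le_add le_rfl (hE At (z (k + 1)) h1 h2 (hzdep _) (hzs _ hk)))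
  have hn' : (100 : ℝ) ≤ n := by exact_mod_cast hn
  have hq : (1 : ℝ) ≤ 1 + 1 / (3 * n) := le_add_of_nonneg_right (by positivity)
  have hind : ∀ k, k ≤ 3 * n → E k ≤ (1 + 1 / (3 * n)) ^ k * (E 0 + k * Err) := by
    intro k
    induction k with
    | zero => simp
    | succ k ih =>
      intro hk
      refine (hstep k hk).trans ?_
      have h1 := mul_le_mul_of_nonneg_left (ih (by omega)) (zero_le_one.trans hq)
      have h2 : Err ≤ (1 + 1 / (3 * (n : ℝ))) ^ (k + 1) * Err :=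
        le_mul_of_one_le_left hErr (one_le_pow₀ hq)
      push_cast
      calc _ ≤ (1 + 1 / (3 * (n : ℝ))) * ((1 + 1 / (3 * n)) ^ k * (E 0 + k * Err)) +
            (1 + 1 / (3 * (n : ℝ))) ^ (k + 1) * Err := add_le_add h1 h2
        _ = _ := by ring
  have hpow : (1 + 1 / (3 * (n : ℝ))) ^ (3 * n) ≤ 3 := by
    have h1 : 1 + 1 / (3 * (n : ℝ)) ≤ Real.exp (1 / (3 * n)) := by
      linarith [Real.add_one_le_exp (1 / (3 * (n : ℝ)))]
    calc _ ≤ Real.exp (1 / (3 * n)) ^ (3 * n) := pow_le_pow_left₀ (zero_le_one.trans hq) h1 _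
      _ = Real.exp 1 := by
          rw [← Real.exp_nat_mul]
          congr 1
          push_cast
          field_simp
      _ ≤ 3 := by linarith [Real.exp_one_lt_d9]
  have h1 := (hind (3 * n) le_rfl).trans (mul_le_mul_of_nonneg_right hpow
    (add_nonneg (hE0 0) (by positivity)))
  simp only [hEd, hz0, hz3] at h1
  push_cast at h1
  linarith

end Sys

end Pool.Agent.Lib.MP_aa337a_pr.HD
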