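import Pool.Agent.Lib.MP_aa337a_pr.HdFail
import Pool.Agent.Lib.MP_aa337a_pr.HdSm2

/-! The Harnack recursion `Beta (m') for m' ≥ n ^ 6` implies `Beta n`.
Notation: `t = u + n`, `s1 = u + 3 n`, `t2 = u + n ^ 6`, `c2 = t2 - n`, `Z = zd n s1 t2`,
`F0 ω z = ∑ x ∈ A, ind (Out A nH (x + z) c2 t2 ω)` (depends on `[c2, nH)`, `out_dep`),
`Err = G / (n ^ 6) ^ 3`, which bounds `Ex (ind At * F0 (v + Z))` by `Beta (n ^ 6)` and `hd`.
(1) `B ∧ Out (x + v) a t` implies `¬ Str a ∧ Out (x + (v + (pos a t2 - pos a t))) a t2` or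
`B ∧ Out (x + v1 + Z) c2 t2` with `v1 = v + (pos a s1 - pos a t)` (`Out.later`, `out_iff_of_str`);
the first part is at most `2 G / n ^ 12` (`str_fail`).
(2) `smooth2` for `ind B * F0`, from `v1` to the constant `y0 = dsp (fun _ => σ0) 0 (3 n)`.
(3) `ind B` depends on `Iio t` and `F0 ω (y0 + Z ω)` on `Ici t` (`zd_dep`): `Ex_mul_indep`.
(4) `smooth2` for `F0`, from `y0` to `vt = pos 0 s1 - pos 0 u`.
(5) `Out (x + vt + Z) c2 t2` implies `Out (x + (pos 0 t2 - pos 0 u)) 0 t2` or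
`¬ Str 0 ∧ Out (x + (vt + Z)) c2 t2`; use `last_visit` and `str_fail`.
Total, in units of `G`:
`2 / n ^ 12 + 9 n / n ^ 18 + 3 / n ^ 11 * (3 (n ^ 6 + 1 + 2 / n ^ 12) + 9 n / n ^ 18) ≤ 1 / n ^ 3`. -/

set_option autoImplicit false

noncomputable section

namespace Pool.Agent.Lib.MP_aa337a_pr.HD

open MeasureTheory Finset
open scoped Classical

namespace Sys

variable {d : ℕ} (Y : Sys d)

/-- Number of starting points from which the future after `t2` avoids `A`. -/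
def HdBeta_F (A : Finset (Pt d)) (nH c2 t2 : ℕ) (ω : Y.Ω) (z : Pt d) : ℝ :=
  ∑ x ∈ A, ind (Y.Out A nH (x + z) c2 t2 ω)

theorem HdBeta_F_nonneg (A : Finset (Pt d)) (nH c2 t2 : ℕ) (ω : Y.Ω) (z : Pt d) :
    0 ≤ Y.HdBeta_F A nH c2 t2 ω z := sum_nonneg fun _ _ => ind_nonneg _

theorem HdBeta_F_dep (A : Finset (Pt d)) (nH c2 t2 : ℕ) :
    DependsOn (Y.HdBeta_F A nH c2 t2) (Set.Ico c2 (max nH t2)) := by
  intro ω ω' h
  funext z
  exact sum_congr rfl fun x _ => by rw [Y.out_dep A nH (x + z) c2 t2 h]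

theorem HdBeta_sum (A : Finset (Pt d)) (nH c2 t2 : ℕ) {B : Y.Ω → Prop} {y : Y.Ω → Pt d}
    (hB : Loc B) (hy : Loc y) :
    ∑ x ∈ A, Y.P (fun ω => B ω ∧ Y.Out A nH (x + y ω) c2 t2 ω) =
      Y.Ex fun ω => ind (B ω) * Y.HdBeta_F A nH c2 t2 ω (y ω) := by
  rw [Y.sum_P_eq A fun x _ => hB.and (Y.loc_out A nH c2 t2 ((Loc.const x).add hy))]
  refine Y.Ex_congr fun ω => ?_
  unfold HdBeta_F
  rw [mul_sum]
  exact sum_congr rfl fun x _ => ind_and _ _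

theorem HdBeta_num {n : ℝ} (hn : 100 ≤ n) :
    2 / n ^ 12 + (3 * (1 / n ^ 11 * (3 * (n ^ 6 + 1 + 2 / n ^ 12) + 9 * n * (1 / n ^ 18))) +
      9 * n * (1 / n ^ 18)) ≤ 1 / n ^ 3 := by
  have h0 : 0 < n := by linarith
  have h1 : 1 ≤ n := by linarith
  have hp : ∀ i j : ℕ, i ≤ j → n ^ i ≤ n ^ j := fun i j h => pow_le_pow_right₀ h1 h
  have a1 : 2 / n ^ 12 ≤ 2 / n ^ 5 := by gcongr <;> norm_num
  have a2 : 9 * n * (1 / n ^ 18) ≤ 9 / n ^ 5 := by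
    rw [mul_one_div, div_le_div_iff₀ (by positivity) (by positivity)]
    have := hp 6 18 (by norm_num)
    nlinarith
  have a3 : 2 / n ^ 12 ≤ n ^ 6 := by
    rw [div_le_iff₀ (by positivity)]
    have := hp 1 18 (by norm_num)
    nlinarith
  have a4 : 9 / n ^ 5 ≤ n ^ 6 := by
    rw [div_le_iff₀ (by positivity)]
    have := hp 1 11 (by norm_num)
    nlinarith
  have a5 : 1 ≤ n ^ 6 := one_le_pow₀ h1
  have a6 : 1 / n ^ 11 * (3 * (n ^ 6 + 1 + 2 / n ^ 12) + 9 * n * (1 / n ^ 18)) ≤ 10 / n ^ 5 := by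
    have : 1 / n ^ 11 * (10 * n ^ 6) = 10 / n ^ 5 := by field_simp
    rw [← this]
    gcongr
    linarith
  have a7 : 41 / n ^ 5 ≤ 1 / n ^ 3 := by
    rw [div_le_div_iff₀ (by positivity) (by positivity)]
    have : 0 < n ^ 3 := by positivity
    nlinarith [mul_le_mul hn hn (by norm_num) h0.le]
  have a8 : 41 / n ^ 5 = 2 / n ^ 5 + (3 * (10 / n ^ 5) + 9 / n ^ 5) := by ring
  linarith

theorem beta_step {γ α n0 : ℕ} {η : ℝ} (hP : Y.Phi γ n0) (H : Y.HK α η n0) (hγ : 73 ≤ γ)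
    (hα : 3 ≤ α) (hη : 0 ≤ η) (hη1 : η ≤ 1 / 48) (hd : Dbig d) {A : Finset (Pt d)} {nH u n : ℕ}
    {G : ℝ} (hG : 0 ≤ G) (hnH : nH ≤ n0) (hn : d ≤ n) (ht : u + n ^ 6 ≤ nH)
    (hg : ∀ w, u ≤ w → w ≤ u + n ^ 6 → Y.gg A nH w ≤ G)
    (hB : ∀ m', n ^ 6 ≤ m' → Y.Beta A nH u G m') : Y.Beta A nH u G n := by
  intro B v a ha hBd hv hs hPB
  obtain ⟨h100, hexp⟩ := hd n hn
  have h5 : n ≤ n ^ 5 := Nat.le_self_pow (by norm_num) n
  have h6 : 100 * n ^ 5 ≤ n ^ 6 := by rw [pow_succ n 5, mul_comm]; exact Nat.mul_le_mul_left _ h100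
  obtain ⟨c2, hc2⟩ : ∃ c2, c2 = u + n ^ 6 - n := ⟨_, rfl⟩
  have hc : c2 + n = u + n ^ 6 := by omega
  have hc' : u + 3 * n + 24 * n ^ 5 ≤ c2 := by omega
  have hF := Y.HdBeta_F_dep A nH c2 (c2 + n)
  have hBl : Loc B := ⟨_, hBd⟩
  have hZ := Y.loc_zd n (u + 3 * n) (c2 + n)
  have hFl : Loc (Y.HdBeta_F A nH c2 (c2 + n)) := Loc.of_dep hF fun _ hi => hi.2
  have hZs : ∀ {w : Y.Ω → Pt d}, (∀ ω, IsSum (3 * n) (w ω)) →
      ∀ ω, IsSum (n ^ 6) (w ω + Y.zd n (u + 3 * n) (c2 + n) ω) := fun hw ω => by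
    have := (hw ω).add (isSum_dsp (fun i => Y.zeta n i ω) (u + 3 * n) (c2 + n))
    rwa [show 3 * n + (c2 + n - (u + 3 * n)) = n ^ 6 by omega] at this
  have hZd : ∀ {w : Y.Ω → Pt d}, DependsOn w (Set.Iio (u + 3 * n)) →
      DependsOn (fun ω => w ω + Y.zd n (u + 3 * n) (c2 + n) ω) (Set.Iio (u + n ^ 6)) :=
    fun hw => dep_comp₂ (hw.mono (Set.Iio_subset_Iio (by omega)))
      ((Y.zd_dep' n (u + 3 * n) (c2 + n)).mono (Set.Iio_subset_Iio hc.le)) (· + ·)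
  have hE : ∀ (At : Y.Ω → Prop) (w : Y.Ω → Pt d), DependsOn At (Set.Iio (c2 + n)) →
      Y.P At ≤ 2 * Real.exp (-(n : ℝ) / 1152) → DependsOn w (Set.Iio (u + 3 * n)) →
      (∀ ω, IsSum (3 * n) (w ω)) →
      Y.Ex (fun ω => ind (At ω) *
        Y.HdBeta_F A nH c2 (c2 + n) ω (w ω + Y.zd n (u + 3 * n) (c2 + n) ω)) ≤
        G * (1 / (n : ℝ) ^ 18) := fun At w h1 h2 h3 h4 => by
    rw [← Y.HdBeta_sum A nH c2 (c2 + n) ⟨_, h1⟩ (Loc.add ⟨_, h3⟩ hZ)]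
    have := hB (n ^ 6) le_rfl At _ c2 (by omega) (hc ▸ h1) (hZd h3) (hZs h4) (h2.trans hexp)
    rw [← hc] at this
    refine this.trans (le_of_eq ?_)
    push_cast
    ring
  have hfail := fun a0 a' (h1 : a0 ≤ u + n) (h2 : a' ≤ u + n ^ 6) (w : Y.Ω → Pt d) h3 h4 =>
    Y.str_fail hP hγ hG hnH h100 ht hB h1 h2 (v := w) h3 h4
  rw [← hc2, ← hc] at hfail
  obtain ⟨σ0⟩ : Nonempty (St d) := ⟨(⟨0, Y.d_pos⟩, true)⟩
  have hy0 : IsSum (3 * n) (dsp (fun _ => σ0) 0 (3 * n)) := ⟨_, rfl⟩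
  generalize dsp (fun _ => σ0) 0 (3 * n) = y0 at hy0
  -- the true offset
  have hvt : DependsOn (fun ω => Y.pos 0 (u + 3 * n) ω - Y.pos 0 u ω) (Set.Iio (u + 3 * n)) :=
    dep_comp₂ (Y.pos_dep' 0 le_rfl) (Y.pos_dep' 0 (by omega)) (· - ·)
  have hvts : ∀ ω, IsSum (3 * n) (Y.pos 0 (u + 3 * n) ω - Y.pos 0 u ω) := fun ω => by
    have := Y.isSum_pos_sub (Nat.zero_le u) (Nat.le_add_right u (3 * n)) ω
    rwa [Nat.add_sub_cancel_left] at this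
  have e5 : Y.Ex (fun ω => Y.HdBeta_F A nH c2 (c2 + n) ω
      (Y.pos 0 (u + 3 * n) ω - Y.pos 0 u ω + Y.zd n (u + 3 * n) (c2 + n) ω)) ≤
      G * ((n : ℝ) ^ 6 + 1 + 2 / (n : ℝ) ^ 12) := by
    have h1 := Y.HdBeta_sum A nH c2 (c2 + n) (Loc.const True) (Loc.add ⟨_, hvt⟩ hZ)
    simp only [ind_of_true trivial, one_mul] at h1
    rw [← h1]
    have h2 := Y.last_visit A nH (u := u) (t := c2 + n) (by omega)
    have h3 : ∑ w ∈ Icc u (c2 + n), Y.gg A nH w ≤ ((n : ℝ) ^ 6 + 1) * G := by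
      refine (sum_le_card_nsmul _ _ G fun w hw =>
        hg w (mem_Icc.1 hw).1 (hc ▸ (mem_Icc.1 hw).2)).trans (le_of_eq ?_)
      rw [Nat.card_Icc, show c2 + n + 1 - u = n ^ 6 + 1 by omega, nsmul_eq_mul]
      push_cast
      ring
    have h4 := hfail 0 c2 (by omega) (by omega) _ (hc ▸ hZd hvt) (hZs hvts)
    refine (sum_le_sum fun x _ => Y.P_le_add (q := fun ω =>
      Y.Out A nH (x + (Y.pos 0 (c2 + n) ω - Y.pos 0 u ω)) 0 (c2 + n) ω)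
      (r := fun ω => ¬ Y.Str n 0 (u + 3 * n) c2 (c2 + n) nH ω ∧ Y.Out A nH
        (x + (Y.pos 0 (u + 3 * n) ω - Y.pos 0 u ω + Y.zd n (u + 3 * n) (c2 + n) ω)) c2 (c2 + n) ω)
      fun ω hω => ?_).trans ?_
    · by_cases hS : Y.Str n 0 (u + 3 * n) c2 (c2 + n) nH ω
      · refine Or.inl ((Y.out_iff_of_str hS (Nat.zero_le u) (by omega) (by omega) (by omega) x).2 ?_)
        rw [add_assoc]
        exact hω.2
      · exact Or.inr ⟨hS, hω.2⟩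
    · rw [sum_add_distrib]
      have : G * ((n : ℝ) ^ 6 + 1 + 2 / (n : ℝ) ^ 12) =
        ((n : ℝ) ^ 6 + 1) * G + 2 * G / (n : ℝ) ^ 12 := by ring
      linarith
  have hFs : DependsOn (Y.HdBeta_F A nH c2 (c2 + n))
      {i | i < u + 3 * n ∨ (c2 ≤ i ∧ i < max nH (c2 + n))} := hF.mono fun _ hi => Or.inr hi
  have e4 := Y.smooth2 H hα hη hη1 h100 hn (by omega) hc' (Y.HdBeta_F_nonneg A nH c2 (c2 + n)) hFs
    (y := fun _ => y0) (fun _ _ _ => rfl) hvt (fun _ => hy0) hvts hE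
  have e3 : Y.Ex (fun ω => ind (B ω) *
      Y.HdBeta_F A nH c2 (c2 + n) ω (y0 + Y.zd n (u + 3 * n) (c2 + n) ω)) =
      Y.P B * Y.Ex fun ω =>
        Y.HdBeta_F A nH c2 (c2 + n) ω (y0 + Y.zd n (u + 3 * n) (c2 + n) ω) := by
    rw [← Y.Ex_ind hBl]
    refine Y.Ex_mul_indep (Set.Iio (u + n)) hBl.ind (hFl.apply ((Loc.const y0).add hZ))
      (dep_comp hBd ind) ?_
    refine dep_comp₂ (hF.mono fun i hi => ?_)
      ((Y.zd_dep (t := u + n) (by omega) (by omega) (c2 + n)).mono fun i hi => ?_)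
      fun f z => f (y0 + z)
    · have := hi.1
      simp only [Set.mem_compl_iff, Set.mem_Iio]
      omega
    · have := hi.1
      simp only [Set.mem_compl_iff, Set.mem_Iio]
      omega
  have hv1 : DependsOn (fun ω => v ω + (Y.pos a (u + 3 * n) ω - Y.pos a (u + n) ω))
      (Set.Iio (u + 3 * n)) :=
    dep_comp₂ (hv.mono (Set.Iio_subset_Iio (by omega)))
      (dep_comp₂ (Y.pos_dep' a le_rfl) (Y.pos_dep' a (by omega)) (· - ·)) (· + ·)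
  have hv1s : ∀ ω, IsSum (3 * n) (v ω + (Y.pos a (u + 3 * n) ω - Y.pos a (u + n) ω)) := fun ω => by
    have := (hs ω).add (Y.isSum_pos_sub ha (show u + n ≤ u + 3 * n by omega) ω)
    rwa [show n + (u + 3 * n - (u + n)) = 3 * n by omega] at this
  have e2 := Y.smooth2 H hα hη hη1 h100 hn (by omega) hc'
    (F := fun ω z => ind (B ω) * Y.HdBeta_F A nH c2 (c2 + n) ω z)
    (fun ω z => mul_nonneg (ind_nonneg _) (Y.HdBeta_F_nonneg _ _ _ _ _ _))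
    (dep_comp₂ (hBd.mono fun i (hi : i < u + n) => Or.inl (by omega)) hFs
      fun p f z => ind p * f z)
    (y' := fun _ => y0) hv1 (fun _ _ _ => rfl) hv1s (fun _ => hy0)
    (Err := G * (1 / (n : ℝ) ^ 18)) fun At w h1 h2 h3 h4 => by
      refine le_trans (Y.Ex_mono ?_ ?_ fun ω => ?_) (hE At w h1 h2 h3 h4)
      · exact (Loc.ind ⟨_, h1⟩).mul (hBl.ind.mul (hFl.apply (Loc.add ⟨_, h3⟩ hZ)))
      · exact (Loc.ind ⟨_, h1⟩).mul (hFl.apply (Loc.add ⟨_, h3⟩ hZ))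
      · exact mul_le_mul_of_nonneg_left
          (mul_le_of_le_one_left (Y.HdBeta_F_nonneg _ _ _ _ _ _) (ind_le_one _)) (ind_nonneg _)
  have hv2 : DependsOn (fun ω => v ω + (Y.pos a (c2 + n) ω - Y.pos a (u + n) ω))
      (Set.Iio (c2 + n)) :=
    dep_comp₂ (hv.mono (Set.Iio_subset_Iio (by omega)))
      (dep_comp₂ (Y.pos_dep' a le_rfl) (Y.pos_dep' a (by omega)) (· - ·)) (· + ·)
  have hv2s : ∀ ω, IsSum (n ^ 6) (v ω + (Y.pos a (c2 + n) ω - Y.pos a (u + n) ω)) := fun ω => by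
    have := (hs ω).add (Y.isSum_pos_sub ha (show u + n ≤ c2 + n by omega) ω)
    rwa [show n + (c2 + n - (u + n)) = n ^ 6 by omega] at this
  have e1 := hfail a a ha (by omega) _ hv2 hv2s
  have e0 := Y.HdBeta_sum A nH c2 (c2 + n) hBl (Loc.add ⟨_, hv1⟩ hZ)
  refine (sum_le_sum fun x _ => Y.P_le_add
    (q := fun ω => ¬ Y.Str n a (u + 3 * n) c2 (c2 + n) nH ω ∧ Y.Out A nH
      (x + (v ω + (Y.pos a (c2 + n) ω - Y.pos a (u + n) ω))) a (c2 + n) ω)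
    (r := fun ω => B ω ∧ Y.Out A nH (x + (v ω + (Y.pos a (u + 3 * n) ω - Y.pos a (u + n) ω) +
      Y.zd n (u + 3 * n) (c2 + n) ω)) c2 (c2 + n) ω) fun ω hω => ?_).trans ?_
  · have h1 := hω.2.later (t' := c2 + n) (by omega)
    by_cases hS : Y.Str n a (u + 3 * n) c2 (c2 + n) nH ω
    · refine Or.inr ⟨hω.1, ?_⟩
      have h2 := (Y.out_iff_of_str hS ha (by omega) (by omega) (by omega) (x + v ω)).1 h1
      rwa [add_assoc x, add_assoc x] at h2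
    · refine Or.inl ⟨hS, ?_⟩
      rwa [add_assoc x] at h1
  · rw [sum_add_distrib, e0]
    have hn' : (100 : ℝ) ≤ n := by exact_mod_cast h100
    have h1 := mul_le_mul_of_nonneg_left (HdBeta_num hn') hG
    have h2 : Y.P B * Y.Ex (fun ω =>
        Y.HdBeta_F A nH c2 (c2 + n) ω (y0 + Y.zd n (u + 3 * n) (c2 + n) ω)) ≤
        1 / (n : ℝ) ^ 11 * (3 * (G * ((n : ℝ) ^ 6 + 1 + 2 / (n : ℝ) ^ 12)) +
          9 * n * (G * (1 / (n : ℝ) ^ 18))) :=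
      mul_le_mul hPB (by linarith) (Y.Ex_nonneg fun ω => Y.HdBeta_F_nonneg _ _ _ _ _ _)
        (by positivity)
    rw [e3] at e2
    have h3 : G * (2 / (n : ℝ) ^ 12 + (3 * (1 / (n : ℝ) ^ 11 *
        (3 * ((n : ℝ) ^ 6 + 1 + 2 / (n : ℝ) ^ 12) + 9 * n * (1 / (n : ℝ) ^ 18))) +
        9 * n * (1 / (n : ℝ) ^ 18))) = 2 * G / (n : ℝ) ^ 12 +
        (3 * (1 / (n : ℝ) ^ 11 * (3 * (G * ((n : ℝ) ^ 6 + 1 + 2 / (n : ℝ) ^ 12)) +
          9 * n * (G * (1 / (n : ℝ) ^ 18)))) + 9 * n * (G * (1 / (n : ℝ) ^ 18))) := by ring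
    rw [h3, mul_one_div G ((n : ℝ) ^ 3)] at h1
    linarith

/-- Downward induction: for `n ≥ j` use `beta_triv`, for `n < j` use `beta_step` (`n < n ^ 6`). -/
theorem beta_all {γ α n0 : ℕ} {η : ℝ} (hP : Y.Phi γ n0) (H : Y.HK α η n0) (hγ : 73 ≤ γ)
    (hα : 3 ≤ α) (hη : 0 ≤ η) (hη1 : η ≤ 1 / 48) (hd : Dbig d) {A : Finset (Pt d)} {nH u j : ℕ}
    {G : ℝ} (hG : 0 ≤ G) (hnH : nH ≤ n0) (ht : u + j ^ 6 ≤ nH)
    (hg : ∀ w, u ≤ w → w ≤ u + j ^ 6 → Y.gg A nH w ≤ G) (hA : (A.card : ℝ) ≤ (j : ℝ) ^ 8 * G) :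
    ∀ n, d ≤ n → Y.Beta A nH u G n := by
  have key : ∀ k n, j ≤ n + k → d ≤ n → Y.Beta A nH u G n := by
    intro k
    induction k with
    | zero =>
      intro n h1 h2
      have h3 : (j : ℝ) ≤ n := by exact_mod_cast h1
      exact Y.beta_triv (Y.d_pos.trans_le h2) (hA.trans (by gcongr))
    | succ k ih =>
      intro n h1 h2
      rcases Nat.lt_or_ge n j with h3 | h3
      · have h4 : n ^ 6 ≤ j ^ 6 := Nat.pow_le_pow_left h3.le 6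
        have h5 : n < n ^ 6 := by
          have := (hd n h2).1
          exact lt_self_pow₀ (by omega) (by norm_num)
        exact Y.beta_step hP H hγ hα hη hη1 hd hG hnH h2 (by omega)
          (fun w h6 h7 => hg w h6 (by omega)) fun m' hm => ih m' (by omega) (by omega)
      · exact ih n (by omega) h2
  exact fun n hn => key j n (by omega) hn

end Sys

end Pool.Agent.Lib.MP_aa337a_pr.HD
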