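import Pool.Agent.Lib.MP_aa337a_pr.HdTool

/-! Binomial representation of the number of positive signs, and three facts on binomial
weights. -/

set_option autoImplicit false

noncomputable section

namespace Pool.Agent.Lib.MP_aa337a_pr.HD

open MeasureTheory Finset
open scoped Classical

/-- Binomial weight. -/
def bin (N k : ℕ) : ℝ := (N.choose k : ℝ) / 2 ^ N

theorem bin_nonneg (N k : ℕ) : 0 ≤ bin N k := by unfold bin; positivity

theorem sum_bin (N : ℕ) : ∑ k ∈ range (N + 1), bin N k = 1 := by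
  simp only [bin]
  rw [← sum_div, ← Nat.cast_sum, Nat.sum_range_choose]
  push_cast
  exact div_self (by positivity)

theorem HdBin_central (n : ℕ) : n.centralBinom ^ 2 * (2 * n + 1) ≤ 16 ^ n := by
  induction n with
  | zero => simp
  | succ n ih =>
    have h := Nat.succ_mul_centralBinom_succ n
    refine Nat.le_of_mul_le_mul_left (c := (n + 1) ^ 2) ?_ (by positivity)
    calc (n + 1) ^ 2 * ((n + 1).centralBinom ^ 2 * (2 * (n + 1) + 1))
        = ((n + 1) * (n + 1).centralBinom) ^ 2 * (2 * n + 3) := by ring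
      _ = (4 * ((2 * n + 1) * (2 * n + 3))) * (n.centralBinom ^ 2 * (2 * n + 1)) := by
          rw [h]; ring
      _ ≤ (16 * (n + 1) ^ 2) * 16 ^ n := Nat.mul_le_mul (by nlinarith) ih
      _ = (n + 1) ^ 2 * 16 ^ (n + 1) := by ring

theorem HdBin_middle (N : ℕ) : N.choose (N / 2) ^ 2 * N ≤ 4 ^ N := by
  obtain ⟨n, rfl | rfl⟩ := Nat.even_or_odd' N
  · have h := HdBin_central n
    rw [Nat.centralBinom_eq_two_mul_choose] at h
    rw [Nat.mul_div_cancel_left n two_pos, pow_mul 4 2 n]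
    exact (Nat.mul_le_mul_left _ (Nat.le_succ _)).trans h
  · have h := HdBin_central (n + 1)
    have e : (n + 1).centralBinom = 2 * (2 * n + 1).choose n := by
      rw [Nat.centralBinom_eq_two_mul_choose, show 2 * (n + 1) = (2 * n + 1) + 1 by ring,
        Nat.choose_succ_succ', Nat.choose_symm_half]
      ring
    rw [show (2 * n + 1) / 2 = n by omega]
    refine Nat.le_of_mul_le_mul_left (c := 4) ?_ (by norm_num)
    calc 4 * ((2 * n + 1).choose n ^ 2 * (2 * n + 1))
        = (n + 1).centralBinom ^ 2 * (2 * n + 1) := by rw [e]; ring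
      _ ≤ (n + 1).centralBinom ^ 2 * (2 * (n + 1) + 1) := Nat.mul_le_mul_left _ (by omega)
      _ ≤ 16 ^ (n + 1) := h
      _ = 4 * 4 ^ (2 * n + 1) := by
          rw [show (16 : ℕ) = 4 ^ 2 by norm_num, ← pow_mul]; ring

theorem HdBin_le {N N0 : ℕ} (hN0 : 1 ≤ N0) (hN : N0 ≤ N) (k : ℕ) :
    bin N k ≤ 1 / Real.sqrt N0 := by
  have h0 : (0 : ℝ) < N0 := by exact_mod_cast hN0
  have h1 : N.choose k ^ 2 * N0 ≤ 4 ^ N :=
    (Nat.mul_le_mul (Nat.pow_le_pow_left (Nat.choose_le_middle k N) 2) hN).trans (HdBin_middle N)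
  have h2 : (N.choose k : ℝ) ^ 2 * N0 ≤ 4 ^ N := by exact_mod_cast h1
  rw [bin, div_le_div_iff₀ (by positivity) (Real.sqrt_pos.2 h0), one_mul]
  refine le_of_sq_le_sq ?_ (by positivity)
  rw [mul_pow, Real.sq_sqrt h0.le, ← pow_mul, mul_comm N 2, pow_mul]
  norm_num
  exact h2

theorem HdBin_pascal (n : ℕ) (g : ℕ → ℝ) :
    ∑ k ∈ range (n + 1 + 1), bin (n + 1) k * g k =
      ∑ k ∈ range (n + 1), bin n k * ((g k + g (k + 1)) / 2) := by
  have h := sum_choose_succ_mul (fun i _ => g i / 2 ^ (n + 1)) n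
  rw [← sum_add_distrib] at h
  refine (sum_congr rfl fun k _ => ?_).trans (h.trans (sum_congr rfl fun k _ => ?_))
  · rw [bin]
    ring
  · rw [bin]
    field_simp
    ring

/-- At most `ρ + 1` integers `k` satisfy `|2 k + c| ≤ ρ`, and `bin N k ≤ 1 / √N`
(`Nat.choose_le_middle`, `centralBinom n ^ 2 * (2 n + 1) ≤ 16 ^ n` by induction, and for odd
`N = 2 n + 1` use `2 * choose (2 n + 1) n = centralBinom (n + 1)`). -/
theorem bin_window {N N0 : ℕ} (hN0 : 1 ≤ N0) (hN : N0 ≤ N) (c : ℤ) (ρ : ℕ) :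
    ∑ k ∈ range (N + 1), bin N k * ind ((2 * (k : ℤ) + c).natAbs ≤ ρ) ≤
      ((ρ : ℝ) + 1) / Real.sqrt N0 := by
  have h1 : ((range (N + 1)).filter fun k : ℕ => (2 * (k : ℤ) + c).natAbs ≤ ρ).card ≤ ρ + 1 := by
    have h := card_le_card_of_injOn (s := (range (N + 1)).filter
      fun k : ℕ => (2 * (k : ℤ) + c).natAbs ≤ ρ) (t := range (ρ + 1))
      (fun k : ℕ => ((2 * (k : ℤ) + c + ρ) / 2).toNat) (fun k hk => by
        have := (mem_filter.1 (mem_coe.1 hk)).2
        exact mem_coe.2 (mem_range.2 (by beta_reduce; omega))) (fun k hk l hl hkl => by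
        have h2 := (mem_filter.1 (mem_coe.1 hk)).2
        have h3 := (mem_filter.1 (mem_coe.1 hl)).2
        simp only at hkl
        omega)
    rwa [card_range] at h
  have h2 : ∑ k ∈ range (N + 1), ind ((2 * (k : ℤ) + c).natAbs ≤ ρ) ≤ (ρ : ℝ) + 1 := by
    rw [← card_filter_eq_sum_ind (range (N + 1)) fun k : ℕ => (2 * (k : ℤ) + c).natAbs ≤ ρ]
    exact_mod_cast h1
  calc ∑ k ∈ range (N + 1), bin N k * ind ((2 * (k : ℤ) + c).natAbs ≤ ρ)
      ≤ ∑ k ∈ range (N + 1), 1 / Real.sqrt N0 * ind ((2 * (k : ℤ) + c).natAbs ≤ ρ) :=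
        sum_le_sum fun k _ => mul_le_mul_of_nonneg_right (HdBin_le hN0 hN k) (ind_nonneg _)
    _ ≤ 1 / Real.sqrt N0 * ((ρ : ℝ) + 1) := by
        rw [← mul_sum]
        exact mul_le_mul_of_nonneg_left h2 (by positivity)
    _ = ((ρ : ℝ) + 1) / Real.sqrt N0 := by ring

/-- `bin N (k - 1) / bin N k = k / (N - k + 1) ≤ (4 + ε) / (4 - ε) ≤ 1 + ε` for
`k ≤ N / 2 + ε N / 8`. -/
theorem bin_ratio (N : ℕ) {ε : ℝ} (hε : 0 < ε) (hε2 : ε ≤ 2) (f : ℕ → ℝ) (hf : ∀ k, 0 ≤ f k) :
    ∑ k ∈ range (N + 1), bin N k * (ind ((k : ℝ) + 1 ≤ N / 2 + ε * N / 8) * f (k + 1)) ≤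
      (1 + ε) * ∑ k ∈ range (N + 1), bin N k * f k := by
  have hN : (0 : ℝ) ≤ N := Nat.cast_nonneg N
  have h4 : ε * N ≤ 2 * N := mul_le_mul_of_nonneg_right hε2 hN
  rw [sum_range_succ, ind_of_false (show ¬ ((N : ℝ) + 1 ≤ N / 2 + ε * N / 8) by linarith),
    sum_range_succ' (fun k => bin N k * f k), mul_add, mul_sum, zero_mul, mul_zero, add_zero]
  refine le_add_of_le_of_nonneg (sum_le_sum fun k hk => ?_)
    (mul_nonneg (by linarith) (mul_nonneg (bin_nonneg _ _) (hf _)))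
  by_cases h : (k : ℝ) + 1 ≤ N / 2 + ε * N / 8
  · rw [ind_of_true h, one_mul, ← mul_assoc]
    refine mul_le_mul_of_nonneg_right ?_ (hf _)
    have hk' := (mem_range.1 hk).le
    have h1 : (N.choose (k + 1) : ℝ) * (k + 1) = N.choose k * (N - k) := by
      have := congrArg (Nat.cast : ℕ → ℝ) (Nat.choose_succ_right_eq N k)
      rwa [Nat.cast_mul, Nat.cast_mul, Nat.cast_sub hk', Nat.cast_add, Nat.cast_one] at this
    have h2 : (k : ℝ) + 1 ≤ (1 + ε) * (N - k) := by
      have h5 : ε * (ε * N) ≤ ε * (2 * N) := mul_le_mul_of_nonneg_left h4 hε.le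
      have h6 : ε * (k + 1) ≤ ε * (N / 2 + ε * N / 8) := mul_le_mul_of_nonneg_left h hε.le
      nlinarith
    have h3 : (N.choose k : ℝ) ≤ (1 + ε) * N.choose (k + 1) := by
      refine le_of_mul_le_mul_right ?_ (show (0 : ℝ) < k + 1 by positivity)
      rw [mul_assoc, h1, mul_left_comm]
      exact mul_le_mul_of_nonneg_left h2 (Nat.cast_nonneg _)
    rw [bin, bin, ← mul_div_assoc]
    exact div_le_div_of_nonneg_right h3 (by positivity)
  · rw [ind_of_false h, zero_mul, mul_zero]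
    exact mul_nonneg (by linarith) (mul_nonneg (bin_nonneg _ _) (hf _))

/-- Chernoff bound: `∑ bin N k * exp (θ (2 k - N)) = cosh θ ^ N ≤ exp (N θ ^ 2 / 2)` with
`θ = s / N` (`add_pow`, `Real.cosh_le_exp_half_sq`). -/
theorem bin_tail {N : ℕ} (hN : 1 ≤ N) {s : ℝ} (hs : 0 ≤ s) :
    ∑ k ∈ range (N + 1), bin N k * ind (s ≤ 2 * (k : ℝ) - N) ≤ Real.exp (-s ^ 2 / (2 * N)) := by
  have h0 : (0 : ℝ) < N := by exact_mod_cast hN
  obtain ⟨θ, hθ⟩ : ∃ θ : ℝ, θ = s / N := ⟨_, rfl⟩
  have hθ0 : 0 ≤ θ := hθ ▸ div_nonneg hs h0.le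
  have h1 : ∑ k ∈ range (N + 1), bin N k * Real.exp (θ * (2 * (k : ℝ) - N)) =
      Real.cosh θ ^ N := by
    rw [Real.cosh_eq, div_pow, add_pow, sum_div]
    refine sum_congr rfl fun k hk => ?_
    have hk' : k ≤ N := Nat.lt_succ_iff.1 (mem_range.1 hk)
    rw [← Real.exp_nat_mul, ← Real.exp_nat_mul, ← Real.exp_add, Nat.cast_sub hk', bin,
      show (k : ℝ) * θ + (N - k) * -θ = θ * (2 * (k : ℝ) - N) by ring]
    ring
  calc ∑ k ∈ range (N + 1), bin N k * ind (s ≤ 2 * (k : ℝ) - N)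
      ≤ ∑ k ∈ range (N + 1), Real.exp (-(θ * s)) *
          (bin N k * Real.exp (θ * (2 * (k : ℝ) - N))) := by
        refine sum_le_sum fun k _ => ?_
        rw [mul_left_comm, ← Real.exp_add]
        refine mul_le_mul_of_nonneg_left ?_ (bin_nonneg _ _)
        by_cases h : s ≤ 2 * (k : ℝ) - N
        · rw [ind_of_true h]
          exact Real.one_le_exp (by linarith [mul_le_mul_of_nonneg_left h hθ0])
        · rw [ind_of_false h]
          exact (Real.exp_pos _).le
    _ = Real.exp (-(θ * s)) * Real.cosh θ ^ N := by rw [← mul_sum, h1]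
    _ ≤ Real.exp (-(θ * s)) * Real.exp (θ ^ 2 / 2) ^ N :=
        mul_le_mul_of_nonneg_left (pow_le_pow_left₀ (Real.cosh_pos θ).le
          (Real.cosh_le_exp_half_sq θ) N) (Real.exp_pos _).le
    _ = Real.exp (-s ^ 2 / (2 * N)) := by
        rw [← Real.exp_nat_mul, ← Real.exp_add, hθ]
        congr 1
        field_simp
        ring

namespace Sys

variable {d : ℕ} (Y : Sys d)

/-- Binomial representation. Induction on `s`, generalizing `G`: for a new index `j` put
`G' ω k = if ac j ω then (G ω k + G ω (k + 1)) / 2 else G ω k`; by `hR j` the expectation of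
`G ω (K ω)` is the mean of its value and of its value at `R j ω`, which is `G' ω (K' ω)`; apply the
induction hypothesis to `G'` and use Pascal's rule. -/
theorem bin_rep {ι : Type*} (s : Finset ι) (R : ι → Y.Ω → Y.Ω) (ac sg : ι → Y.Ω → Prop)
    (hR : ∀ j ∈ s, ∀ f : Y.Ω → ℝ, Loc f → Y.Ex (fun ω => f (R j ω)) = Y.Ex f)
    (hac : ∀ j ∈ s, Loc (ac j)) (hsg : ∀ j ∈ s, Loc (sg j))
    (hac' : ∀ i ∈ s, ∀ j ∈ s, ∀ ω, ac i (R j ω) ↔ ac i ω)
    (hsg' : ∀ i ∈ s, ∀ j ∈ s, i ≠ j → ∀ ω, sg i (R j ω) ↔ sg i ω)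
    (hfl : ∀ j ∈ s, ∀ ω, ac j ω → (sg j (R j ω) ↔ ¬ sg j ω))
    (G : Y.Ω → ℕ → ℝ) (hG : Loc G) (hG' : ∀ j ∈ s, ∀ ω, G (R j ω) = G ω) :
    Y.Ex (fun ω => G ω ((s.filter fun j => ac j ω).filter fun j => sg j ω).card) =
      Y.Ex fun ω => ∑ k ∈ range ((s.filter fun j => ac j ω).card + 1),
        bin (s.filter fun j => ac j ω).card k * G ω k := by
  induction s using Finset.induction_on generalizing G with
  | empty => simp [bin]
  | insert j s hj ih =>
    have hm : ∀ i ∈ s, i ∈ insert j s := fun i hi => mem_insert_of_mem hi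
    have hjm : j ∈ insert j s := mem_insert_self j s
    obtain ⟨K, hK⟩ : ∃ K : Y.Ω → ℕ, ∀ ω,
        K ω = ((s.filter fun i => ac i ω).filter fun i => sg i ω).card := ⟨_, fun _ => rfl⟩
    have lK : Loc K := by
      have h := (Loc.filter s (p := fun i ω => ac i ω ∧ sg i ω)
        fun i hi => (hac i (hm i hi)).and (hsg i (hm i hi))).comp card
      refine (funext fun ω => ?_ : _ = K) ▸ h
      rw [hK, filter_filter]
    have hKR : ∀ ω, K (R j ω) = K ω := by
      intro ω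
      rw [hK, hK, filter_filter, filter_filter]
      refine congrArg card (filter_congr fun i hi => ?_)
      rw [hac' i (hm i hi) j hjm, hsg' i (hm i hi) j hjm (fun h => hj (h ▸ hi))]
    have e1 : ∀ ω, (((insert j s).filter fun i => ac i ω).filter fun i => sg i ω).card =
        K ω + if ac j ω ∧ sg j ω then 1 else 0 := by
      intro ω
      rw [hK, filter_filter, filter_filter, filter_insert]
      split_ifs with h
      · exact card_insert_of_notMem fun h' => hj (mem_filter.1 h').1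
      · rfl
    have l1 : Loc fun ω => G ω (K ω + if ac j ω ∧ sg j ω then 1 else 0) :=
      hG.apply (lK.add ((hac j hjm).comp₂ (hsg j hjm) fun p q => if p ∧ q then 1 else 0))
    have l2 : Loc fun ω => G ω (K ω + if ac j ω ∧ ¬ sg j ω then 1 else 0) :=
      hG.apply (lK.add ((hac j hjm).comp₂ (hsg j hjm) fun p q => if p ∧ ¬ q then 1 else 0))
    have e2 : Y.Ex (fun ω => G ω (K ω + if ac j ω ∧ ¬ sg j ω then 1 else 0)) =
        Y.Ex fun ω => G ω (K ω + if ac j ω ∧ sg j ω then 1 else 0) := by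
      rw [← hR j hjm _ l1]
      refine Y.Ex_congr fun ω => ?_
      rw [hG' j hjm, hKR, hac' j hjm j hjm]
      by_cases h : ac j ω
      · simp only [hfl j hjm ω h]
      · simp only [h, false_and]
    have lG : Loc fun ω k => if ac j ω then (G ω k + G ω (k + 1)) / 2 else G ω k :=
      hG.comp₂ (hac j hjm) fun g p k => if p then (g k + g (k + 1)) / 2 else g k
    have h := ih (fun i hi => hR i (hm i hi)) (fun i hi => hac i (hm i hi))
      (fun i hi => hsg i (hm i hi)) (fun i hi k hk => hac' i (hm i hi) k (hm k hk))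
      (fun i hi k hk => hsg' i (hm i hi) k (hm k hk)) (fun i hi => hfl i (hm i hi)) _ lG
      fun i hi ω => by rw [hG' i (hm i hi), hac' j hjm i (hm i hi)]
    simp only [← hK] at h
    simp only [e1]
    have e3 : Y.Ex (fun ω => G ω (K ω + if ac j ω ∧ sg j ω then 1 else 0)) =
        Y.Ex fun ω => if ac j ω then (G ω (K ω) + G ω (K ω + 1)) / 2 else G ω (K ω) := by
      have e4 := Y.Ex_add l1 l2
      rw [e2, ← two_mul] at e4
      rw [← mul_right_inj' (two_ne_zero (α := ℝ)), ← e4, ← Y.Ex_const_mul]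
      refine Y.Ex_congr fun ω => ?_
      by_cases h1 : ac j ω <;> by_cases h2 : sg j ω <;>
        simp only [h1, h2, true_and, false_and, not_true_eq_false, not_false_eq_true, if_true,
          if_false, add_zero] <;> ring
    rw [e3, h]
    refine Y.Ex_congr fun ω => ?_
    rw [filter_insert]
    by_cases h1 : ac j ω
    · simp only [h1, if_true]
      rw [card_insert_of_notMem fun h' => hj (mem_filter.1 h').1, HdBin_pascal]
    · simp only [h1, if_false]

end Sys

end Pool.Agent.Lib.MP_aa337a_pr.HD
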