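import Pool.Agent.Lib.MP_aa337a_pr.HdStep

/-! Likelihood ratio lemma. Let `L k ω` be the list of the relative positions
`pos a (u + i) - pos a u`, `i = k, …, 0` (latest first). For every `g ≥ 0` on lists,
`Ex (ind (NLL a u M k) * g (L k)) ≤ (1 + M / d) ^ (min k M) * Ex (g (hist ω 0 k))`, by induction
on `k` generalizing `g`, using `Ex_step` on both sides (`NLL a u M (k + 1)` is known at time
`u + k`). With `trL l σ = w (count (head + step σ) l) / ∑ …` one has `tr 0 k = trL (hist ω 0 k)`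
(`hist_count`), and on `NLL a u M (k + 1)`: `tr a (u + k) σ ≤ ratio * trL (L k) σ`, because the
numerator is smaller (`w` antitone, more visits) and for the denominators: if `k ≥ M` no neighbour
was visited before `u`, so the local times agree; if `k < M` all visited neighbours were visited at
lag at most `M`, so at most `M` are visited (`exists_lag_of_crowded` and `NLL`), the denominator is
at least `2 d - M`, the fresh one at most `2 d`, and `2 d / (2 d - M) ≤ 1 + M / d`. Finally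
`(1 + M / d) ^ M ≤ exp (M ^ 2 / d) ≤ 3`. -/

set_option autoImplicit false

noncomputable section

namespace Pool.Agent.Lib.MP_aa337a_pr.HD

open MeasureTheory Finset
open scoped Classical

namespace Sys

variable {d : ℕ} (Y : Sys d)

theorem HdLR_nll_dep (a u M : ℕ) {h n : ℕ} (hn : u + h ≤ n + 1) :
    DependsOn (Y.NLL a u M h) (Set.Iio n) := by
  intro ω ω' hω
  have h1 := (Y.agree_of_lt hω).1 a
  refine propext (forall_congr' fun s => forall_congr' fun i => forall_congr' fun σ =>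
    forall_congr' fun _ => forall_congr' fun hs => forall_congr' fun _ =>
    forall_congr' fun hi => forall_congr' fun _ => ?_)
  rw [h1 i (by omega), h1 s (by omega)]

theorem nll_dep (a u M h : ℕ) : DependsOn (Y.NLL a u M h) (Set.Iio (u + h)) := by
  exact Y.HdLR_nll_dep a u M (Nat.le_succ _)

/-- The path after time `u`, relative to the position at time `u`, stopped after `k` steps. -/
def HdLR_path (a u k : ℕ) (ω : Y.Ω) : ℕ → Pt d :=
  fun i => Y.pos a (u + min i k) ω - Y.pos a u ω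

/-- One more step. -/
def HdLR_ext (k : ℕ) (p : ℕ → Pt d) (σ : St d) : ℕ → Pt d :=
  fun i => if i ≤ k then p i else p k + step σ

/-- Transition probabilities of the fresh walk as a function of the path. -/
def HdLR_tr (k : ℕ) (p : ℕ → Pt d) (σ : St d) : ℝ :=
  Y.w (vis p 0 k (p k + step σ)) / ∑ σ', Y.w (vis p 0 k (p k + step σ'))

theorem HdLR_path_succ {a u : ℕ} (hau : a ≤ u) (k : ℕ) (ω : Y.Ω) :
    Y.HdLR_path a u (k + 1) ω = HdLR_ext k (Y.HdLR_path a u k ω) (Y.xi a (u + k) ω) := by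
  funext i
  unfold HdLR_ext HdLR_path
  split_ifs with hi
  · rw [min_eq_left hi, min_eq_left (Nat.le_succ_of_le hi)]
  · rw [min_self, min_eq_right (by omega), ← add_assoc, Y.pos_succ (by omega)]
    abel

theorem HdLR_path_dep (a u k : ℕ) : DependsOn (Y.HdLR_path a u k) (Set.Iio (u + k)) := by
  intro ω ω' hω
  have h1 := (Y.agree_of_lt hω).1 a
  funext i
  unfold HdLR_path
  rw [h1 _ (Nat.add_le_add_left (min_le_right i k) u), h1 u (Nat.le_add_right u k)]

theorem HdLR_vis (a u k : ℕ) (ω : Y.Ω) (σ : St d) :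
    vis (Y.HdLR_path a u k ω) 0 k (Y.HdLR_path a u k ω k + step σ) =
      vis (fun i => Y.pos a i ω) u (u + k) (Y.pos a (u + k) ω + step σ) := by
  unfold vis
  have h1 : Icc u (u + k) = (Icc 0 k).map (addLeftEmbedding u) := by
    rw [map_add_left_Icc, add_zero]
  rw [h1, filter_map, card_map]
  congr 1
  refine filter_congr fun i hi => ?_
  simp only [HdLR_path, min_eq_left (mem_Icc.1 hi).2, min_self, Function.comp_apply,
    addLeftEmbedding_apply]
  rw [sub_add_eq_add_sub, sub_left_inj]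

theorem HdLR_tr_zero (k : ℕ) (ω : Y.Ω) (σ : St d) :
    Y.tr 0 (0 + k) ω σ = Y.HdLR_tr k (Y.HdLR_path 0 0 k ω) σ := by
  simp only [tr, HdLR_tr, HdLR_vis, loc]

theorem HdLR_sum_pos (V : St d → ℕ) (σ : St d) : 0 < ∑ σ', Y.w (V σ') :=
  sum_pos (fun _ _ => Y.w_pos _) ⟨σ, mem_univ σ⟩

theorem HdLR_tr_nonneg (k : ℕ) (p : ℕ → Pt d) (σ : St d) : 0 ≤ Y.HdLR_tr k p σ :=
  div_nonneg (Y.w_pos _).le (Y.HdLR_sum_pos _ σ).le

theorem HdLR_ratio {M : ℕ} (hM : M ≤ d) {V V' : St d → ℕ} (hV : ∀ σ, V' σ ≤ V σ)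
    (hc : (univ.filter fun σ => V σ ≠ 0).card ≤ M) (σ : St d) :
    Y.w (V σ) / ∑ σ', Y.w (V σ') ≤ (1 + M / d) * (Y.w (V' σ) / ∑ σ', Y.w (V' σ')) := by
  have hd : (0 : ℝ) < d := by exact_mod_cast Y.d_pos
  have hM' : (M : ℝ) ≤ d := by exact_mod_cast hM
  have hM0 : (0 : ℝ) ≤ M := Nat.cast_nonneg M
  have hcard : ∑ _σ' : St d, (1 : ℝ) = 2 * d := by
    rw [sum_const, card_univ, card_St]
    simp
  have h1 : ∑ σ', Y.w (V' σ') ≤ 2 * d := by
    rw [← hcard]
    exact sum_le_sum fun σ' _ => (Y.w_anti (Nat.zero_le _)).trans_eq Y.w_zero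
  have h2 : 2 * (d : ℝ) - M ≤ ∑ σ', Y.w (V σ') := by
    have h3 : ∑ _σ' : St d, (1 : ℝ) ≤ ∑ σ', (Y.w (V σ') + ind (V σ' ≠ 0)) := by
      refine sum_le_sum fun σ' _ => ?_
      by_cases h : V σ' = 0
      · rw [h, Y.w_zero]
        linarith [ind_nonneg ((0 : ℕ) ≠ 0)]
      · rw [ind_of_true h]
        linarith [Y.w_pos (V σ')]
    rw [hcard, sum_add_distrib, ← card_filter_eq_sum_ind] at h3
    have h4 : ((univ.filter fun σ => V σ ≠ 0).card : ℝ) ≤ M := by exact_mod_cast hc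
    linarith
  have h5 := Y.HdLR_sum_pos V σ
  have h6 := Y.HdLR_sum_pos V' σ
  have h7 : ∑ σ', Y.w (V' σ') ≤ (1 + M / d) * ∑ σ', Y.w (V σ') := by
    refine h1.trans (le_trans ?_ (mul_le_mul_of_nonneg_left h2 (by positivity)))
    have h8 : (1 + (M : ℝ) / d) * (2 * d - M) = 2 * d + M * (d - M) / d := by
      field_simp
      ring
    have h9 : 0 ≤ (M : ℝ) * (d - M) / d := by
      have : 0 ≤ (d : ℝ) - M := by linarith
      positivity
    linarith
  rw [← mul_div_assoc, div_le_div_iff₀ h5 h6]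
  have h10 := Y.w_anti (hV σ)
  have h11 := Y.w_pos (V σ)
  calc Y.w (V σ) * ∑ σ', Y.w (V' σ') ≤ Y.w (V' σ) * ((1 + M / d) * ∑ σ', Y.w (V σ')) := by
        gcongr
        linarith
    _ = _ := by ring

theorem HdLR_tr_le {a u M k : ℕ} (hau : a ≤ u) (hM : M ≤ d) {ω : Y.Ω}
    (h : Y.NLL a u M (k + 1) ω) (σ : St d) :
    Y.tr a (u + k) ω σ ≤
      (if k < M then (1 + M / d : ℝ) else 1) * Y.HdLR_tr k (Y.HdLR_path a u k ω) σ := by
  simp only [tr, HdLR_tr, HdLR_vis]
  split_ifs with hk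
  · refine Y.HdLR_ratio hM (V := fun σ => Y.loc a (u + k) ω (Y.pos a (u + k) ω + step σ))
      (V' := fun σ => vis (fun i => Y.pos a i ω) u (u + k) (Y.pos a (u + k) ω + step σ))
      (fun σ => card_le_card (filter_subset_filter _ (Icc_subset_Icc_left hau))) ?_ σ
    by_contra hc
    obtain ⟨s, σ', h1, h2, h3⟩ := Y.exists_lag_of_crowded (not_le.1 hc)
    exact h s (u + k) σ' h1 (by omega) (by omega) (by omega) h2 h3
  · have h1 : ∀ σ, Y.loc a (u + k) ω (Y.pos a (u + k) ω + step σ) =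
        vis (fun i => Y.pos a i ω) u (u + k) (Y.pos a (u + k) ω + step σ) := by
      intro σ
      unfold loc vis
      congr 1
      ext s
      simp only [mem_filter, mem_Icc]
      refine ⟨fun hs => ⟨⟨?_, hs.1.2⟩, hs.2⟩, fun hs => ⟨⟨hau.trans hs.1.1, hs.1.2⟩, hs.2⟩⟩
      by_contra hc
      exact h s (u + k) σ hs.1.1 (by omega) (by omega) (by omega) (by omega) hs.2.symm
    simp only [h1, one_mul, le_refl]

theorem HdLR_main {a u M : ℕ} (hau : a ≤ u) (hM : M ≤ d) (k : ℕ) :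
    ∀ g : (ℕ → Pt d) → ℝ, (∀ p, 0 ≤ g p) →
      Y.Ex (fun ω => ind (Y.NLL a u M k ω) * g (Y.HdLR_path a u k ω)) ≤
        (1 + M / d : ℝ) ^ min k M * Y.Ex fun ω => g (Y.HdLR_path 0 0 k ω) := by
  have hloc : ∀ a u k, Loc (Y.HdLR_path a u k) := fun a u k => ⟨_, Y.HdLR_path_dep a u k⟩
  have hnl : ∀ k, Loc (Y.NLL a u M k) := fun k => ⟨_, Y.nll_dep a u M k⟩
  induction k with
  | zero =>
    intro g hg
    rw [Nat.zero_min, pow_zero, one_mul]
    refine Y.Ex_mono ((hnl 0).ind.mul ((hloc a u 0).comp g)) ((hloc 0 0 0).comp g) fun ω => ?_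
    have h1 : Y.HdLR_path a u 0 ω = Y.HdLR_path 0 0 0 ω := by
      funext i
      simp [HdLR_path]
    rw [h1]
    exact mul_le_of_le_one_left (hg _) (ind_le_one _)
  | succ k ih =>
    intro g hg
    obtain ⟨g', hg'⟩ : ∃ g' : (ℕ → Pt d) → ℝ,
        g' = fun p => ∑ σ, Y.HdLR_tr k p σ * g (HdLR_ext k p σ) := ⟨_, rfl⟩
    have hg0 : ∀ p, 0 ≤ g' p := fun p => by
      rw [hg']
      exact sum_nonneg fun σ _ => mul_nonneg (Y.HdLR_tr_nonneg k p σ) (hg _)
    have h1 : Y.Ex (fun ω => g (Y.HdLR_path 0 0 (k + 1) ω)) =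
        Y.Ex fun ω => g' (Y.HdLR_path 0 0 k ω) := by
      simp only [Y.HdLR_path_succ le_rfl]
      rw [Y.Ex_step 0 (0 + k) (F := fun ω σ => g (HdLR_ext k (Y.HdLR_path 0 0 k ω) σ))
        (dep_comp (Y.HdLR_path_dep 0 0 k) fun p σ => g (HdLR_ext k p σ))]
      simp only [HdLR_tr_zero, hg']
    have hF : DependsOn (fun ω σ => ind (Y.NLL a u M (k + 1) ω) *
        g (HdLR_ext k (Y.HdLR_path a u k ω) σ)) (Set.Iio (u + k)) :=
      dep_comp₂ (Y.HdLR_nll_dep a u M (h := k + 1) le_rfl)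
        (Y.HdLR_path_dep a u k) fun q p σ => ind q * g (HdLR_ext k p σ)
    have hρ : (0 : ℝ) ≤ if k < M then (1 + M / d : ℝ) else 1 := by
      split_ifs <;> positivity
    have h2 : (1 + M / d : ℝ) ^ min (k + 1) M =
        (if k < M then (1 + M / d : ℝ) else 1) * (1 + M / d : ℝ) ^ min k M := by
      split_ifs with hk
      · rw [min_eq_left (Nat.succ_le_of_lt hk), min_eq_left hk.le, pow_succ']
      · rw [min_eq_right (by omega), min_eq_right (by omega), one_mul]
    rw [h1, h2, mul_assoc]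
    refine le_trans ?_ (mul_le_mul_of_nonneg_left (ih g' hg0) hρ)
    simp only [Y.HdLR_path_succ hau]
    rw [Y.Ex_step a (u + k) hF, ← Y.Ex_const_mul]
    refine Y.Ex_mono ((Y.loc_tr a (u + k)).comp₂ ⟨_, hF⟩ fun T F => ∑ σ, T σ * F σ)
      (((hnl k).ind.mul ((hloc a u k).comp g')).comp fun r => _ * r) fun ω => ?_
    by_cases hn : Y.NLL a u M (k + 1) ω
    · have hn' : Y.NLL a u M k ω := fun s i σ b1 b2 b3 b4 => hn s i σ b1 b2 b3 (by omega)
      rw [ind_of_true hn, ind_of_true hn', one_mul, hg', mul_sum]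
      refine sum_le_sum fun σ _ => ?_
      rw [one_mul, ← mul_assoc]
      exact mul_le_mul_of_nonneg_right (Y.HdLR_tr_le hau hM hn σ) (hg _)
    · simp only [ind_of_false hn, zero_mul, mul_zero, sum_const_zero]
      exact mul_nonneg hρ (mul_nonneg (ind_nonneg _) (hg0 _))

theorem lr {a u M : ℕ} (hau : a ≤ u) (hM : M ^ 2 ≤ d) (A : Finset (Pt d)) (h : ℕ) (x : Pt d) :
    Y.P (fun ω => Y.Out A (u + h) x a u ω ∧ Y.NLL a u M h ω) ≤ 3 * Y.esc A h x := by
  have hd : (0 : ℝ) < d := by exact_mod_cast Y.d_pos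
  have hM1 : M ≤ d := (Nat.le_self_pow two_ne_zero M).trans hM
  have hloc : ∀ a u, Loc (Y.HdLR_path a u h) := fun a u => ⟨_, Y.HdLR_path_dep a u h⟩
  obtain ⟨G, hG⟩ : ∃ G : (ℕ → Pt d) → Prop, G = fun p => ∀ i, 1 ≤ i → i ≤ h → x + p i ∉ A :=
    ⟨_, rfl⟩
  have h1 := Y.HdLR_main hau hM1 h (fun p => ind (G p)) fun p => ind_nonneg _
  simp only [← ind_and] at h1
  rw [Y.Ex_ind (Loc.and ⟨_, Y.nll_dep a u M h⟩ ((hloc a u).comp G)),
    Y.Ex_ind ((hloc 0 0).comp G)] at h1
  have h2 : Y.P (fun ω => G (Y.HdLR_path 0 0 h ω)) = Y.esc A h x := by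
    refine Y.P_congr fun ω => ?_
    rw [hG]
    refine forall_congr' fun i => forall_congr' fun _ => forall_congr' fun hi => ?_
    simp only [HdLR_path, min_eq_left hi, zero_add, Y.pos_self, sub_zero]
  have h3 : (1 + M / d : ℝ) ^ min h M ≤ 3 := by
    have h4 : (0 : ℝ) ≤ M / d := by positivity
    have h5 : (M : ℝ) * (M / d) ≤ 1 := by
      rw [← mul_div_assoc, div_le_one hd, ← sq]
      exact_mod_cast hM
    calc (1 + M / d : ℝ) ^ min h M ≤ (1 + M / d : ℝ) ^ M :=
          pow_le_pow_right₀ (by linarith) (min_le_right h M)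
      _ ≤ Real.exp (M / d) ^ M :=
          pow_le_pow_left₀ (by linarith) (by linarith [Real.add_one_le_exp (M / d : ℝ)]) M
      _ = Real.exp (M * (M / d)) := (Real.exp_nat_mul _ M).symm
      _ ≤ Real.exp 1 := Real.exp_le_exp.2 h5
      _ ≤ 3 := by linarith [Real.exp_one_lt_d9]
  rw [h2] at h1
  refine (Y.P_mono fun ω hω => ⟨hω.2, ?_⟩).trans
    (h1.trans (mul_le_mul_of_nonneg_right h3 (Y.esc_nonneg A h x)))
  rw [hG]
  intro i b1 b2
  simp only [HdLR_path, min_eq_left b2]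
  exact hω.1 (u + i) (by omega) (by omega)

end Sys

end Pool.Agent.Lib.MP_aa337a_pr.HD
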