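import Pool.Agent.Lib.MP_aa337a_pr.HdLast
import Pool.Agent.Lib.MP_aa337a_pr.HdLR

/-! From the Harnack estimate to escape probabilities. Let `M = Nat.sqrt d`, `h = nH - u`. By `lr`,
`P (Out x 0 u ∧ NLL 0 u M h) ≤ 3 esc A h x`. If `NLL` fails there is a link `(s, i, σ)`,
`s < u ≤ i < nH`, of lag `l = i - s > M`. For a fixed lag `l` there are at most `l` pairs and `2 d`
steps, so by `HK` the probability is at most `l * 2 d * η / l ^ α`. Let `B0` be the event that there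
is a link of lag in `(M, d]`: it is known at time `u + d` and has probability at most
`2 d η ∑ 1 / l ^ 29 ≤ 4 d η / (M + 1) ^ 27 ≤ 1 / d ^ 11` since `(M + 1) ^ 2 > d`. For `l > d` let
`B l` be the event that there is a link of lag `l`: known at time `u + l`, probability at most
`2 η l ^ 2 / l ^ α ≤ 1 / l ^ 11`. Apply `Beta d` and `Beta l` with `a = 0` and the offset
`pos 0 (u + level) - pos 0 u` (`Out.later`); sum with `sum_inv_cube_le`. -/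

set_option autoImplicit false

noncomputable section

namespace Pool.Agent.Lib.MP_aa337a_pr.HD

open MeasureTheory Finset
open scoped Classical

namespace Sys

variable {d : ℕ} (Y : Sys d)

/-- A link of lag `l` over the time `u`. -/
def HdCore_Lk (u nH l : ℕ) (ω : Y.Ω) : Prop :=
  ∃ s ∈ (range u).filter (fun s => u ≤ s + l ∧ s + l < nH), ∃ σ ∈ (univ : Finset (St d)),
    Y.pos 0 (s + l) ω - Y.pos 0 s ω = -step σ

theorem HdCore_dep (u nH : ℕ) {l n : ℕ} (h : l ≤ n) :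
    DependsOn (Y.HdCore_Lk u nH l) (Set.Iio (u + n)) := by
  intro ω ω' hh
  have h1 := (Y.agree_of_lt hh).1
  unfold HdCore_Lk
  refine propext (exists_congr fun s => and_congr_right fun hs => ?_)
  have hs' := mem_range.1 (mem_filter.1 hs).1
  rw [h1 0 (s + l) (by omega), h1 0 s (by omega)]

theorem HdCore_P {α n0 : ℕ} {η : ℝ} (H : Y.HK α η n0) (hη : 0 ≤ η) {u nH l : ℕ} (hnH : nH ≤ n0)
    (hl : 1 ≤ l) : Y.P (Y.HdCore_Lk u nH l) ≤ l * (2 * d * (η / (l : ℝ) ^ α)) := by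
  have h1 : ∀ s ∈ (range u).filter (fun s => u ≤ s + l ∧ s + l < nH),
      Y.P (fun ω => ∃ σ ∈ (univ : Finset (St d)), Y.pos 0 (s + l) ω - Y.pos 0 s ω = -step σ) ≤
        2 * d * (η / (l : ℝ) ^ α) := by
    intro s hs
    have hs' := (mem_filter.1 hs).2
    refine (Y.P_exists _ _).trans ?_
    refine (sum_le_card_nsmul _ _ (η / (l : ℝ) ^ α) fun σ _ =>
      H 0 s l _ (Nat.zero_le _) hl (by omega)).trans (le_of_eq ?_)
    rw [card_univ, card_St, nsmul_eq_mul]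
    push_cast
    ring
  refine (Y.P_exists _ _).trans ((sum_le_card_nsmul _ _ _ h1).trans ?_)
  rw [nsmul_eq_mul]
  refine mul_le_mul_of_nonneg_right ?_ (by positivity)
  have h2 : (range u).filter (fun s => u ≤ s + l ∧ s + l < nH) ⊆ Ico (u - l) u := by
    intro s hs
    have h3 := mem_filter.1 hs
    have h4 := mem_range.1 h3.1
    exact mem_Ico.2 ⟨by omega, h4⟩
  have h3 := card_le_card h2
  rw [Nat.card_Ico] at h3
  exact_mod_cast h3.trans (by omega)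

theorem HdCore_P' {α n0 : ℕ} {η : ℝ} (H : Y.HK α η n0) (hα : 30 ≤ α) (hη : 0 ≤ η)
    (hη1 : η ≤ 1 / 48) {u nH l : ℕ} (hnH : nH ≤ n0) (hl : 1 ≤ l) :
    Y.P (Y.HdCore_Lk u nH l) ≤ d / (l : ℝ) ^ 26 := by
  refine (Y.HdCore_P H hη hnH hl).trans ?_
  have hl1 : (1 : ℝ) ≤ l := by exact_mod_cast hl
  have h1 : (l : ℝ) ^ 27 ≤ (l : ℝ) ^ α := pow_le_pow_right₀ hl1 (by omega)
  have h2 : η / (l : ℝ) ^ α ≤ (1 / 2) / (l : ℝ) ^ 27 :=
    div_le_div₀ (by norm_num) (by linarith) (by positivity) h1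
  calc _ ≤ l * (2 * d * ((1 / 2) / (l : ℝ) ^ 27)) := by gcongr
    _ = _ := by field_simp

theorem HdCore_beta {A : Finset (Pt d)} {nH u n : ℕ} {G : ℝ} (hB : Y.Beta A nH u G n)
    {B : Y.Ω → Prop} (hd : DependsOn B (Set.Iio (u + n))) (hP : Y.P B ≤ 1 / (n : ℝ) ^ 11) :
    ∑ x ∈ A, Y.P (fun ω => B ω ∧
      Y.Out A nH (x + (Y.pos 0 (u + n) ω - Y.pos 0 u ω)) 0 (u + n) ω) ≤ G / (n : ℝ) ^ 3 := by
  refine hB B (fun ω => Y.pos 0 (u + n) ω - Y.pos 0 u ω) 0 (Nat.zero_le _) hd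
    (dep_comp₂ (Y.pos_dep' 0 le_rfl) (Y.pos_dep' 0 (Nat.le_add_right u n)) (· - ·))
    (fun ω => ?_) hP
  have := Y.isSum_pos_sub (Nat.zero_le u) (Nat.le_add_right u n) ω
  rwa [Nat.add_sub_cancel_left] at this

theorem cap_core {α n0 : ℕ} {η : ℝ} (H : Y.HK α η n0) (hα : 30 ≤ α) (hη : 0 ≤ η)
    (hη1 : η ≤ 1 / 48) {A : Finset (Pt d)} {nH u : ℕ} {G : ℝ} (hG : 0 ≤ G) (hnH : nH ≤ n0)
    (hu : u ≤ nH) (hB : ∀ n, d ≤ n → Y.Beta A nH u G n) :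
    Y.gg A nH u ≤ 3 * ∑ x ∈ A, Y.esc A (nH - u) x + 2 * G / (d : ℝ) ^ 2 := by
  have hd : 1 ≤ d := Y.d_pos
  have hd1 : (1 : ℝ) ≤ d := by exact_mod_cast hd
  have hun : u + (nH - u) = nH := by omega
  have hB0 : Y.P (fun ω => ∃ l ∈ Ioc (Nat.sqrt d) d, Y.HdCore_Lk u nH l ω) ≤ 1 / (d : ℝ) ^ 11 := by
    refine (Y.P_exists _ _).trans ?_
    refine (sum_le_card_nsmul _ _ (d / (d : ℝ) ^ 13) fun l hl => ?_).trans ?_
    · have hl' := mem_Ioc.1 hl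
      refine (Y.HdCore_P' H hα hη hη1 hnH (by omega)).trans ?_
      refine div_le_div_of_nonneg_left (by positivity) (by positivity) ?_
      have h1 : d ≤ l ^ 2 := (Nat.lt_succ_sqrt' d).le.trans (Nat.pow_le_pow_left hl'.1 2)
      have h2 : (d : ℝ) ≤ (l : ℝ) ^ 2 := by exact_mod_cast h1
      calc (d : ℝ) ^ 13 ≤ ((l : ℝ) ^ 2) ^ 13 := by gcongr
        _ = _ := by ring
    · rw [nsmul_eq_mul, Nat.card_Ioc]
      have h1 : ((d - Nat.sqrt d : ℕ) : ℝ) ≤ d := by exact_mod_cast Nat.sub_le _ _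
      calc _ ≤ (d : ℝ) * (d / (d : ℝ) ^ 13) := by gcongr
        _ = _ := by field_simp
  have hdep0 : DependsOn (fun ω => ∃ l ∈ Ioc (Nat.sqrt d) d, Y.HdCore_Lk u nH l ω)
      (Set.Iio (u + d)) := by
    intro ω ω' hh
    refine propext (exists_congr fun l => and_congr_right fun hl => ?_)
    rw [Y.HdCore_dep u nH (mem_Ioc.1 hl).2 hh]
  have b0 := Y.HdCore_beta (hB d le_rfl) hdep0 hB0
  have b1 : ∀ l ∈ Ioc d nH, ∑ x ∈ A, Y.P (fun ω => Y.HdCore_Lk u nH l ω ∧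
      Y.Out A nH (x + (Y.pos 0 (u + l) ω - Y.pos 0 u ω)) 0 (u + l) ω) ≤ G * (1 / (l : ℝ) ^ 3) := by
    intro l hl
    have hl' := (mem_Ioc.1 hl).1
    rw [mul_one_div]
    refine Y.HdCore_beta (hB l hl'.le) (Y.HdCore_dep u nH le_rfl) ?_
    refine (Y.HdCore_P' H hα hη hη1 hnH (by omega)).trans ?_
    have h1 : (d : ℝ) ≤ l := by exact_mod_cast hl'.le
    have h2 : (1 : ℝ) ≤ l := hd1.trans h1
    have h3 : (l : ℝ) ^ 12 ≤ (l : ℝ) ^ 26 := pow_le_pow_right₀ h2 (by norm_num)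
    calc _ ≤ (l : ℝ) / (l : ℝ) ^ 12 := div_le_div₀ (by positivity) h1 (by positivity) h3
      _ = _ := by field_simp
  have key : ∀ x ∈ A, Y.P (Y.Out A nH x 0 u) ≤ 3 * Y.esc A (nH - u) x +
      (Y.P (fun ω => (∃ l ∈ Ioc (Nat.sqrt d) d, Y.HdCore_Lk u nH l ω) ∧
        Y.Out A nH (x + (Y.pos 0 (u + d) ω - Y.pos 0 u ω)) 0 (u + d) ω) +
      ∑ l ∈ Ioc d nH, Y.P (fun ω => Y.HdCore_Lk u nH l ω ∧
        Y.Out A nH (x + (Y.pos 0 (u + l) ω - Y.pos 0 u ω)) 0 (u + l) ω)) := by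
    intro x _
    have h1 := Y.lr (Nat.zero_le u) (Nat.sqrt_le' d) A (nH - u) x
    rw [hun] at h1
    refine (Y.P_le_add (q := fun ω => Y.Out A nH x 0 u ω ∧ Y.NLL 0 u (Nat.sqrt d) (nH - u) ω)
      (r := fun ω => Y.Out A nH x 0 u ω ∧ ¬ Y.NLL 0 u (Nat.sqrt d) (nH - u) ω)
      fun ω hω => by tauto).trans (add_le_add h1 ?_)
    refine (Y.P_le_add (r := fun ω => ∃ l ∈ Ioc d nH, Y.HdCore_Lk u nH l ω ∧
        Y.Out A nH (x + (Y.pos 0 (u + l) ω - Y.pos 0 u ω)) 0 (u + l) ω) fun ω hω => ?_).trans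
      (add_le_add le_rfl (Y.P_exists _ _))
    obtain ⟨ho, hn⟩ := hω
    unfold NLL at hn
    push Not at hn
    obtain ⟨s, i, σ, -, hs, hi, hi', hM, he⟩ := hn
    obtain ⟨l, rfl⟩ : ∃ l, i = s + l := ⟨i - s, by omega⟩
    have hL : Y.HdCore_Lk u nH l ω := by
      refine ⟨s, mem_filter.2 ⟨mem_range.2 hs, hi, by omega⟩, σ, mem_univ _, ?_⟩
      rw [← he]
      abel
    by_cases hl : l ≤ d
    · exact Or.inl ⟨⟨l, mem_Ioc.2 ⟨by omega, hl⟩, hL⟩, ho.later (Nat.le_add_right _ _)⟩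
    · exact Or.inr ⟨l, mem_Ioc.2 ⟨by omega, by omega⟩, hL, ho.later (Nat.le_add_right _ _)⟩
  have s1 := sum_le_sum key
  rw [sum_add_distrib, sum_add_distrib, ← mul_sum, sum_comm] at s1
  have s2 := sum_le_sum b1
  rw [← mul_sum] at s2
  have s3 := mul_le_mul_of_nonneg_left
    (sum_inv_cube_le (Ioc d nH) hd fun l hl => (mem_Ioc.1 hl).1) hG
  have s4 : G / (d : ℝ) ^ 3 ≤ G / (d : ℝ) ^ 2 :=
    div_le_div_of_nonneg_left hG (by positivity) (pow_le_pow_right₀ hd1 (by norm_num))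
  have s5 : G * (1 / (2 * (d : ℝ) ^ 2)) = G / (d : ℝ) ^ 2 / 2 := by field_simp
  have s6 : 0 ≤ G / (d : ℝ) ^ 2 := by positivity
  have s7 : 2 * G / (d : ℝ) ^ 2 = 2 * (G / (d : ℝ) ^ 2) := by ring
  unfold gg
  linarith

end Sys

end Pool.Agent.Lib.MP_aa337a_pr.HD
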