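import Pool.Agent.Lib.MP_aa337a_pr.HdBeta
import Pool.Agent.Lib.MP_aa337a_pr.HdCore

/-! The capacity estimate. Let `nH = j ^ 8`, `U i = j + i * j ^ 6`, `G i` the maximum of `gg A nH w`
over `w ≤ U i`. By `exists_gg_ge`, `G 0 ≥ |A| / (2 (j + 1))`, and `G i ≤ |A|`; since
`2 ^ (j + 1) ≥ 2 (j + 1)` there is `i ≤ j` with `G (i + 1) ≤ 2 G i`. Let `u ≤ U i` attain `G i`,
`G = G (i + 1)`. Then `u + j ^ 6 ≤ U (i + 1) ≤ j ^ 8 - j`; `beta_all` and `cap_core` give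
`gg u ≤ 3 ∑ esc + 4 gg u / d ^ 2`, and `d ≥ 100`; finally `esc_anti` since `nH - u ≥ j`. -/

set_option autoImplicit false

noncomputable section

namespace Pool.Agent.Lib.MP_aa337a_pr.HD

open MeasureTheory Finset
open scoped Classical

theorem HdCap_double (G : ℕ → ℝ) (j : ℕ) (h0 : 0 ≤ G 0) (h : G (j + 1) ≤ 2 * (j + 1) * G 0) :
    ∃ i, i ≤ j ∧ G (i + 1) ≤ 2 * G i := by
  by_contra! hc
  have h1 : ∀ i, i ≤ j → 2 ^ (i + 1) * G 0 < G (i + 1) := by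
    intro i
    induction i with
    | zero => intro hi; simpa using hc 0 hi
    | succ i ih =>
      intro hi
      have h2 := ih (by omega)
      have h3 := hc (i + 1) hi
      rw [pow_succ]
      linarith
  have h2 : (j : ℝ) + 1 ≤ 2 ^ j := by exact_mod_cast Nat.lt_two_pow_self (n := j)
  have h3 := h1 j le_rfl
  have h4 := mul_le_mul_of_nonneg_right h2 h0
  rw [pow_succ] at h3
  linarith

theorem HdCap_arith {j : ℕ} (hj : 10 ≤ j) : j + (j + 1) * j ^ 6 + j ≤ j ^ 8 := by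
  have h1 : j ≤ j ^ 6 := Nat.le_self_pow (by norm_num) j
  have h2 : (j + 3) * j ^ 6 ≤ j ^ 2 * j ^ 6 := Nat.mul_le_mul_right _ (by nlinarith)
  calc j + (j + 1) * j ^ 6 + j ≤ (j + 3) * j ^ 6 := by nlinarith
    _ ≤ j ^ 2 * j ^ 6 := h2
    _ = j ^ 8 := by ring

namespace Sys

variable {d : ℕ} (Y : Sys d)

theorem capOK {γ α n0 : ℕ} {η : ℝ} (hP : Y.Phi γ n0) (H : Y.HK α η n0) (hγ : 73 ≤ γ)
    (hα : 30 ≤ α) (hη : 0 ≤ η) (hη1 : η ≤ 1 / 48) (hd : Dbig d) : Y.CapOK n0 := by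
  intro A j hj hn0 hhit
  obtain ⟨w0, hw0, hw1⟩ := Y.exists_gg_ge A (j ^ 8) j hhit
  have hmax : ∀ i : ℕ, ∃ u, u ≤ j + i * j ^ 6 ∧
      ∀ w, w ≤ j + i * j ^ 6 → Y.gg A (j ^ 8) w ≤ Y.gg A (j ^ 8) u := by
    intro i
    obtain ⟨u, hu, h⟩ := exists_max_image (range (j + i * j ^ 6 + 1)) (Y.gg A (j ^ 8))
      ⟨0, mem_range.2 (Nat.succ_pos _)⟩
    exact ⟨u, Nat.lt_succ_iff.1 (mem_range.1 hu), fun w hw =>
      h w (mem_range.2 (Nat.lt_succ_of_le hw))⟩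
  choose u hu hu' using hmax
  have hj0 : (0 : ℝ) < 2 * (j + 1) := by positivity
  have hA : ∀ i, (A.card : ℝ) ≤ 2 * (j + 1) * Y.gg A (j ^ 8) (u i) := fun i => by
    have h1 := hw1.trans (hu' i w0 (hw0.trans (Nat.le_add_right _ _)))
    rwa [div_le_iff₀ hj0, mul_comm] at h1
  obtain ⟨i, hi, hG⟩ := HdCap_double (fun i => Y.gg A (j ^ 8) (u i)) j (Y.gg_nonneg _ _ _)
    ((Y.gg_le_card _ _ _).trans (hA 0))
  have har := HdCap_arith hj
  have h1 : u i + j ^ 6 ≤ j + (i + 1) * j ^ 6 := by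
    have := hu i
    rw [add_mul, one_mul]
    omega
  have h2 : (i + 1) * j ^ 6 ≤ (j + 1) * j ^ 6 := Nat.mul_le_mul_right _ (by omega)
  have hG0 := Y.gg_nonneg A (j ^ 8) (u (i + 1))
  have h3 : (2 : ℝ) * (j + 1) ≤ (j : ℝ) ^ 8 := by
    have h4 : j + 1 ≤ (j + 1) * j ^ 6 := Nat.le_mul_of_pos_right _ (by positivity)
    have h5 : 2 * (j + 1) ≤ j ^ 8 := by
      have h6 : 2 ≤ j ^ 6 := (by omega : 2 ≤ j).trans (Nat.le_self_pow (by norm_num) j)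
      have h7 := Nat.mul_le_mul_left (j + 1) h6
      omega
    exact_mod_cast h5
  have hB := Y.beta_all hP H hγ (by omega) hη hη1 hd hG0 hn0 (u := u i) (j := j) (by omega)
    (fun w _ hw => hu' (i + 1) w (hw.trans h1))
    ((hA (i + 1)).trans (mul_le_mul_of_nonneg_right h3 hG0))
  have hc := Y.cap_core H hα hη hη1 hG0 hn0 (by omega) hB
  have h4 : ∑ x ∈ A, Y.esc A (j ^ 8 - u i) x ≤ ∑ x ∈ A, Y.esc A j x :=
    sum_le_sum fun x _ => Y.esc_anti (Subset.refl A) (by omega) x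
  have h5 : (100 : ℝ) ≤ d := by exact_mod_cast (hd d le_rfl).1
  have h6 : 2 * Y.gg A (j ^ 8) (u (i + 1)) / (d : ℝ) ^ 2 ≤
      2 * Y.gg A (j ^ 8) (u (i + 1)) / 100 ^ 2 := by gcongr
  have h7 : Y.gg A (j ^ 8) (u i) ≤ 4 * ∑ x ∈ A, Y.esc A j x := by
    have h8 := Y.gg_nonneg A (j ^ 8) (u i)
    linarith
  rw [div_le_iff₀ (by positivity)]
  have h8 := mul_le_mul_of_nonneg_left h7 hj0.le
  linarith [hA i]

end Sys

end Pool.Agent.Lib.MP_aa337a_pr.HD
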