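import Pool.Agent.Lib.MP_aa337a_pr.HdWalk

/-! Local capacity estimate. Let `f i = card (ball D A u (r + i r))`. If `f 0 = 0` there is nothing to
prove. Otherwise there is `i` with `i + 2 ≤ r ^ 3` and `f (i + 1) ≤ (1 + 1 / (50 r)) f i`, since
`(1 + 1 / (50 r)) ^ (50 r) ≥ 2` and `r ^ 3 - 1 ≥ 50 r (r + 1)`. Apply `CapOK` to
`A' = ball D A u (r + (i + 1) r)` with `j = r` (`hit_mono`). For `x` in the smaller ball the walk
stays within `r + (i + 1) r` of `u` during `r` steps (`nrm_pos_sub_le`), so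
`esc A h x ≥ esc A' r x - hit A r h x` (`P_le_add`); the shell has at most `|A'| / (50 r)` points;
`1 / (8 (r + 1)) - 1 / (50 r) - 1 / (100 r) ≥ 1 / (20 r)`. -/

set_option autoImplicit false

noncomputable section

namespace Pool.Agent.Lib.MP_aa337a_pr.HD

open MeasureTheory Finset
open scoped Classical

theorem HdCap2_grow (f : ℕ → ℝ) {c : ℝ} (hc : 0 ≤ c) (N : ℕ)
    (h : ∀ i, i < N → c * f i ≤ f (i + 1)) : c ^ N * f 0 ≤ f N := by
  induction N with
  | zero => simp
  | succ N ih =>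
    have h1 := ih fun i hi => h i (by omega)
    have h2 := h N (by omega)
    calc c ^ (N + 1) * f 0 = c * (c ^ N * f 0) := by ring
      _ ≤ c * f N := mul_le_mul_of_nonneg_left h1 hc
      _ ≤ f (N + 1) := h2

theorem HdCap2_pow {r : ℕ} (hr : 100 ≤ r) :
    (2 : ℝ) ^ (r + 1) ≤ (1 + 1 / (50 * (r : ℝ))) ^ (r ^ 3 - 1) := by
  have hr0 : (0 : ℝ) < r := by exact_mod_cast (by omega : 0 < r)
  have h0 : (0 : ℝ) ≤ 1 / (50 * (r : ℝ)) := by positivity
  have h1 : (2 : ℝ) ≤ (1 + 1 / (50 * (r : ℝ))) ^ (50 * r) := by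
    have := one_add_mul_le_pow (a := 1 / (50 * (r : ℝ))) (by linarith) (50 * r)
    refine le_trans (le_of_eq ?_) this
    push_cast
    field_simp
    norm_num
  have h2 : 50 * r * (r + 1) ≤ r ^ 3 - 1 := by
    have h3 : 100 * (r * r) ≤ r ^ 3 := by
      calc 100 * (r * r) ≤ r * (r * r) := Nat.mul_le_mul_right _ hr
        _ = r ^ 3 := by ring
    have h4 : 100 * r ≤ r * r := Nat.mul_le_mul_right _ hr
    have h5 : 50 * r * (r + 1) = 50 * (r * r) + 50 * r := by ring
    omega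
  calc (2 : ℝ) ^ (r + 1) ≤ ((1 + 1 / (50 * (r : ℝ))) ^ (50 * r)) ^ (r + 1) :=
        pow_le_pow_left₀ (by norm_num) h1 _
    _ = (1 + 1 / (50 * (r : ℝ))) ^ (50 * r * (r + 1)) := by rw [← pow_mul]
    _ ≤ _ := pow_le_pow_right₀ (by linarith) h2

namespace Sys

variable {d : ℕ} (Y : Sys d)

theorem HdCap2_esc {D : ℕ} {A : Finset (Pt d)} {u x : Pt d} {R r h : ℕ}
    (hx : nrm D (x - u) ≤ R) :
    Y.esc (ball D A u (R + r)) r x ≤ Y.esc A h x + Y.hit A r h x := by
  refine Y.P_le_add fun ω hω => ?_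
  by_contra hcon
  rw [not_or] at hcon
  obtain ⟨h1, h2⟩ := hcon
  apply h1
  intro i hi1 hi2 hA
  rcases Nat.lt_or_ge i r with hlt | hge
  · refine hω i hi1 hlt.le (mem_ball.2 ⟨hA, ?_⟩)
    have h3 := Y.nrm_pos_sub_le D (a := 0) (s := 0) (u := i) le_rfl (Nat.zero_le _) ω
    rw [Y.pos_self, sub_zero] at h3
    have h4 : x + Y.pos 0 i ω - u = (x - u) + Y.pos 0 i ω := by abel
    rw [h4]
    have h5 := nrm_add_le D (x - u) (Y.pos 0 i ω)
    omega
  · exact h2 ⟨i, hge, hi2, hA⟩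

theorem cap2OK {n0 : ℕ} (h : Y.CapOK n0) (D : ℕ) : Y.Cap2OK D n0 := by
  intro A u r hh hr hn0 hh8 hhit hcard
  have hr0 : (0 : ℝ) < r := by exact_mod_cast (by omega : 0 < r)
  have hr100 : (100 : ℝ) ≤ r := by exact_mod_cast hr
  have hsum0 : 0 ≤ ∑ x ∈ ball D A u (r ^ 4), Y.esc A hh x :=
    sum_nonneg fun x _ => Y.esc_nonneg _ _ _
  rcases Nat.eq_zero_or_pos (ball D A u r).card with h0 | h0
  · rw [h0]
    simpa using hsum0
  have hr3 : 1 ≤ r ^ 3 := Nat.one_le_pow _ _ (by omega)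
  have hex : ∃ i, i < r ^ 3 - 1 ∧ ((ball D A u (r + (i + 1) * r)).card : ℝ) ≤
      (1 + 1 / (50 * (r : ℝ))) * (ball D A u (r + i * r)).card := by
    by_contra hcon
    push Not at hcon
    have h1 := HdCap2_grow (fun i => ((ball D A u (r + i * r)).card : ℝ))
      (c := 1 + 1 / (50 * (r : ℝ))) (by positivity) (r ^ 3 - 1) fun i hi => (hcon i hi).le
    have h2 : r + (r ^ 3 - 1) * r = r ^ 4 := by
      obtain ⟨k, hk⟩ : ∃ k, r ^ 3 = k + 1 := ⟨r ^ 3 - 1, by omega⟩
      have : r ^ 4 = (k + 1) * r := by rw [← hk]; ring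
      rw [this, hk, Nat.add_sub_cancel]
      ring
    simp only [h2, zero_mul, add_zero] at h1
    have h3 : ((ball D A u (r ^ 4)).card : ℝ) ≤ 2 ^ r * (ball D A u r).card := by
      exact_mod_cast hcard
    have h4 : (0 : ℝ) < (ball D A u r).card := by exact_mod_cast h0
    have h5 := mul_le_mul_of_nonneg_right (HdCap2_pow hr) h4.le
    have h6 : (0 : ℝ) < 2 ^ r * (ball D A u r).card := by positivity
    rw [pow_succ] at h5
    linarith
  obtain ⟨i, hi, hf⟩ := hex
  have hR : r + (i + 1) * r ≤ r ^ 4 := by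
    have h1 : (i + 2) * r ≤ r ^ 3 * r := Nat.mul_le_mul_right _ (by omega)
    calc r + (i + 1) * r = (i + 2) * r := by ring
      _ ≤ r ^ 3 * r := h1
      _ = r ^ 4 := by ring
  have hRR : r + (i + 1) * r = r + i * r + r := by ring
  rw [hRR] at hf hR
  set B := ball D A u (r + i * r) with hB
  set A' := ball D A u (r + i * r + r) with hA'
  have hBA' : B ⊆ A' := ball_mono subset_rfl u (by omega)
  have hc := h A' r (by omega) hn0 fun x hx => by
    have h1 := hhit x ((mem_ball.1 hx).2.trans hR)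
    have h2 := Y.hit_mono (A := A') (B := A) (filter_subset _ _) (j := r + 1) (j' := r)
      (by omega) hh8 x
    refine h2.trans (h1.trans ?_)
    exact one_div_le_one_div_of_le (by norm_num) (by linarith)
  have h1 : ∑ x ∈ A', Y.esc A' r x ≤ ∑ x ∈ B, Y.esc A' r x + ((A'.card : ℝ) - B.card) := by
    rw [← sum_sdiff hBA', add_comm]
    have h2 : ∑ x ∈ A' \ B, Y.esc A' r x ≤ ((A' \ B).card : ℝ) := by
      have := sum_le_card_nsmul (A' \ B) (fun x => Y.esc A' r x) 1 fun x _ => Y.esc_le_one _ _ _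
      simpa using this
    have h3 : ((A' \ B).card : ℝ) = A'.card - B.card := by
      rw [card_sdiff_of_subset hBA', Nat.cast_sub (card_le_card hBA')]
    linarith
  have h2 : ∑ x ∈ B, Y.esc A' r x ≤ ∑ x ∈ B, Y.esc A hh x + B.card * (1 / (100 * (r : ℝ))) := by
    have : ∑ x ∈ B, Y.esc A' r x ≤ ∑ x ∈ B, (Y.esc A hh x + 1 / (100 * (r : ℝ))) :=
      sum_le_sum fun x hx => by
        have h3 := (mem_ball.1 hx).2
        have h4 := Y.HdCap2_esc (A := A) (r := r) (h := hh) h3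
        have h5 := hhit x (by omega)
        linarith
    rw [sum_add_distrib, sum_const, nsmul_eq_mul] at this
    exact this
  have h3 : ∑ x ∈ B, Y.esc A hh x ≤ ∑ x ∈ ball D A u (r ^ 4), Y.esc A hh x :=
    sum_le_sum_of_subset_of_nonneg (ball_mono subset_rfl u (by omega)) fun x _ _ =>
      Y.esc_nonneg _ _ _
  have h4 : ((ball D A u r).card : ℝ) ≤ B.card := by
    exact_mod_cast card_le_card (ball_mono subset_rfl u (by omega))
  have h5 : (B.card : ℝ) ≤ A'.card := by exact_mod_cast card_le_card hBA'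
  have hB0 : (0 : ℝ) ≤ B.card := Nat.cast_nonneg _
  have h6 : (B.card : ℝ) * (2 / (25 * r)) ≤ A'.card / (8 * (r + 1)) := by
    have h7 : (2 : ℝ) / (25 * r) ≤ 1 / (8 * (r + 1)) := by
      rw [div_le_div_iff₀ (by positivity) (by positivity)]
      linarith
    calc (B.card : ℝ) * (2 / (25 * r)) ≤ A'.card * (1 / (8 * (r + 1))) :=
          mul_le_mul h5 h7 (by positivity) (Nat.cast_nonneg _)
      _ = _ := by ring
  have h7 : ((ball D A u r).card : ℝ) / (20 * r) ≤ B.card * (1 / (20 * r)) := by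
    rw [mul_one_div]
    gcongr
  have h8 : (B.card : ℝ) * (2 / (25 * r)) = B.card * (1 / (20 * r)) + B.card * (1 / (100 * r)) +
      B.card * (1 / (50 * r)) := by
    field_simp
    ring
  have h9 : (1 + 1 / (50 * (r : ℝ))) * B.card = B.card + B.card * (1 / (50 * r)) := by ring
  linarith

end Sys

end Pool.Agent.Lib.MP_aa337a_pr.HD
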