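import Pool.Agent.Lib.MP_aa337a_pr.HdAC
import Pool.Agent.Lib.MP_aa337a_pr.HdPhi
import Pool.Agent.Lib.MP_aa337a_pr.HdBase

/-! Consequences of anticoncentration: coarse heat kernel bound, induction step for `HK`, hitting
of large sets at late times, and the far events. -/

set_option autoImplicit false

noncomputable section

namespace Pool.Agent.Lib.MP_aa337a_pr.HD

open MeasureTheory Finset
open scoped Classical

theorem acb_nonneg (D y : ℕ) : 0 ≤ acb D y := by unfold acb; positivity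

/-- Integer sixth root. -/
theorem exists_root6 (n : ℕ) : ∃ r : ℕ, r ^ 6 ≤ n ∧ n < (r + 1) ^ 6 := by
  induction n with
  | zero => exact ⟨0, by norm_num, by norm_num⟩
  | succ n ih =>
    obtain ⟨r, h1, h2⟩ := ih
    by_cases h : n + 1 < (r + 1) ^ 6
    · exact ⟨r, by omega, h⟩
    · have h3 : (r + 1) ^ 6 < (r + 1 + 1) ^ 6 := Nat.pow_lt_pow_left (by omega) (by norm_num)
      exact ⟨r + 1, by omega, by omega⟩

theorem HdChk_pos_zd {d : ℕ} (Y : Sys d) {l a b u : ℕ} {ω : Y.Ω} (h1 : a ≤ b) (h2 : b ≤ u)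
    (h : ∀ i, b ≤ i → i < u → Y.xi a i ω = Y.zeta l i ω) :
    Y.pos a u ω = Y.pos a b ω + Y.zd l b u ω := by
  have h3 := Y.pos_sub h1 h2 ω
  rw [dsp_congr (χ' := fun i => Y.zeta l i ω) h] at h3
  exact (sub_eq_iff_eq_add'.1 h3)

theorem HdChk_union {d : ℕ} (Y : Sys d) {ι : Type*} (s : Finset ι) {p : Y.Ω → Prop}
    (c : ι → Prop) (q : ι → Y.Ω → Prop) {t : ℝ} (ht : 0 ≤ t) (hq : ∀ i, c i → Y.P (q i) ≤ t)
    (h : ∀ ω, p ω → ∃ i ∈ s, c i ∧ q i ω) : Y.P p ≤ s.card * t := by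
  refine (Y.P_le_sum s (fun i ω => c i ∧ q i ω) h).trans ?_
  rw [← nsmul_eq_mul]
  refine sum_le_card_nsmul _ _ _ fun i _ => ?_
  by_cases hc : c i
  · exact (Y.P_mono fun _ hω => hω.2).trans (hq i hc)
  · rw [Y.P_eq_zero fun _ hω => hc hω.1]
    exact ht

namespace Sys

variable {d : ℕ} (Y : Sys d)

/-- With `l = y = r'`, `b = s + 2 r'`: off the event of `agr` (window `[b, s + r)`),
`pos a (s + r) - pos a s = (pos a b - pos a s) + zd l b (s + r)`; apply `anticonc` with `ρ = 4 r'`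
and the inequalities of `R1`. Note `2 r' + 1 ≤ r' ^ 6 ≤ r ≤ n + 1`. -/
theorem chk {γ α κ D r1 n n1 : ℕ} {η : ℝ} (hP : Y.Phi γ n1) (H : Y.HK α η n) (hn1 : n1 ≤ n + 1)
    (hα : 3 ≤ α) (hη : 0 ≤ η) (hη1 : η ≤ 1 / 48) (hD : 1 ≤ D) (hDd : D ≤ d)
    (hR : R1 D γ α κ r1) {a s r r' : ℕ} (hs : a ≤ s) (hn : s + r ≤ a + n1) (hr1 : r1 ≤ r')
    (h1 : r' ^ 6 ≤ r) (h2 : r < (r' + 1) ^ 6) {W : Y.Ω → Pt d} (hW : DependsOn W (Set.Iio s)) :
    Y.P (fun ω => nrm D (W ω + (Y.pos a (s + r) ω - Y.pos a s ω)) ≤ 4 * r') ≤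
      1 / (r : ℝ) ^ (α + 1) := by
  obtain ⟨a1, a2, -, a4⟩ := hR r' hr1
  have a5 : 0 < 48 * r' * D ^ 2 * (4 * r' + 1) ^ 2 * r' ^ 2 := by
    have : 0 < r' := by omega
    have : 0 < D := hD
    positivity
  have b1 := Y.agr hP (l := r') (a := a) (s := s + 2 * r') (e := s + r) (by omega) (by omega) hn
  have b2 := Y.anticonc H hα hη hη1 (l := r') (y := r') (ρ := 4 * r') (b := s + 2 * r')
    (e := s + r) hD hDd (by omega) (by omega) (by omega) (by omega)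
    (W := fun ω => W ω + (Y.pos a (s + 2 * r') ω - Y.pos a s ω)) (fun ω ω' h => by
      have c1 := hW.mono (Set.Iio_subset_Iio (Nat.le_add_right s (2 * r'))) h
      have c2 := (Y.agree_of_lt h).1
      simp only [c1, c2 a _ le_rfl, c2 a s (Nat.le_add_right _ _)])
  refine (Y.P_le_add fun ω hω => ?_).trans ((add_le_add b1 b2).trans ?_)
  · by_contra hc
    rw [not_or] at hc
    refine hc.2 ?_
    have c1 := HdChk_pos_zd Y (l := r') (a := a) (b := s + 2 * r') (u := s + r) (ω := ω)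
      (by omega) (by omega) fun i h3 h4 => by
        by_contra h5
        exact hc.1 ⟨i, h3, h4, h5⟩
    have c2 : W ω + (Y.pos a (s + 2 * r') ω - Y.pos a s ω) + Y.zd r' (s + 2 * r') (s + r) ω =
        W ω + (Y.pos a (s + r) ω - Y.pos a s ω) := by
      rw [c1]
      abel
    rw [c2]
    exact hω
  · have c1 : ((s + r - (s + 2 * r') : ℕ) : ℝ) ≤ ((r' : ℝ) + 1) ^ 6 := by
      have : s + r - (s + 2 * r') ≤ (r' + 1) ^ 6 := by omega
      exact_mod_cast this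
    have c2 : (r : ℝ) ≤ ((r' : ℝ) + 1) ^ 6 := by exact_mod_cast h2.le
    have c3 : (0 : ℝ) < r := by
      have : 0 < r := by omega
      exact_mod_cast this
    have c4 := mul_le_mul_of_nonneg_right c1 (show 0 ≤ 2 / (r' : ℝ) ^ γ by positivity)
    have c5 : ((r' : ℝ) + 1) ^ 6 * (2 / (r' : ℝ) ^ γ) = 2 * ((r' : ℝ) + 1) ^ 6 / (r' : ℝ) ^ γ := by
      ring
    have c6 : 1 / (((r' : ℝ) + 1) ^ 6) ^ (α + 1) ≤ 1 / (r : ℝ) ^ (α + 1) :=
      one_div_le_one_div_of_le (by positivity) (pow_le_pow_left₀ c3.le c2 _)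
    linarith

/-- For `r ≤ r0` use `hk_small`; for `r > r0` use `chk` with `W = -y` and `1 / r ≤ η`. -/
theorem hk_step {γ α κ D r1 r0 n : ℕ} {η : ℝ} (hP : Y.Phi γ (n + 1)) (H : Y.HK α η n)
    (hα : 3 ≤ α) (hη : 0 ≤ η) (hη1 : η ≤ 1 / 48) (hD : 1 ≤ D) (hDd : D ≤ d)
    (hR : R1 D γ α κ r1) (hr0 : r1 ^ 6 ≤ r0) (hr0' : 1 ≤ η * r0)
    (hd : 2 * (r0 : ℝ) ^ α ≤ η * d) : Y.HK α η (n + 1) := by
  intro a s r y hs hr hn
  have c3 : (0 : ℝ) < r := by exact_mod_cast hr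
  by_cases h : r ≤ r0
  · refine (Y.hk_small H hα hη (by linarith) hs hr (by omega) y).trans ?_
    have c1 : (0 : ℝ) < d := by exact_mod_cast Y.d_pos
    have c2 : (r : ℝ) ^ α ≤ (r0 : ℝ) ^ α := pow_le_pow_left₀ c3.le (by exact_mod_cast h) _
    rw [div_le_div_iff₀ c1 (by positivity)]
    linarith
  · obtain ⟨r', h1, h2⟩ := exists_root6 r
    have c1 : r1 < r' + 1 := lt_of_pow_lt_pow_left₀ 6 (Nat.zero_le _) (by omega)
    have c2 := Y.chk hP H le_rfl hα hη hη1 hD hDd hR hs hn (by omega) h1 h2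
      (W := fun _ => -y) fun _ _ _ => rfl
    refine ((Y.P_mono fun ω hω => ?_).trans c2).trans ?_
    · rw [hω, neg_add_cancel, nrm_zero]
      exact Nat.zero_le _
    · have c4 : (r0 : ℝ) ≤ r := by exact_mod_cast (not_le.1 h).le
      have c5 : 1 ≤ η * r := hr0'.trans (mul_le_mul_of_nonneg_left c4 hη)
      rw [div_le_div_iff₀ (by positivity) (by positivity), pow_succ, one_mul, mul_left_comm]
      exact le_mul_of_one_le_right (by positivity) c5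

/-- Off the event of `agr` (walk from `0`, window `[2 l, h)`), for `i ∈ [j, h]` and `x' ∈ A` the
identity `x + pos 0 i = x'` reads `W + zd l (2 l) i = 0` with `W = x - x' + pos 0 (2 l)`. -/
theorem hit_late {γ α D n : ℕ} {η : ℝ} (hP : Y.Phi γ n) (H : Y.HK α η n) (hα : 3 ≤ α)
    (hη : 0 ≤ η) (hη1 : η ≤ 1 / 48) (hD : 1 ≤ D) (hDd : D ≤ d) {l j h : ℕ} (hl : 1 ≤ l)
    (hln : 2 * l ≤ n) (hj : 2 * l + 48 * l * D ^ 2 * l ^ 2 ≤ j) (hh : h ≤ n) (A : Finset (Pt d))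
    (x : Pt d) :
    Y.hit A j h x ≤ h * (2 / (l : ℝ) ^ γ) + h * A.card * acb D l := by
  have b1 := Y.agr hP (l := l) (a := 0) (s := 2 * l) (e := h) hl (by omega) (by omega)
  have b2 := HdChk_union Y (Icc j h ×ˢ A)
    (p := fun ω => ∃ i ∈ Icc j h ×ˢ A, j ≤ i.1 ∧
      nrm D (x - i.2 + Y.pos 0 (2 * l) ω + Y.zd l (2 * l) i.1 ω) ≤ 0)
    (fun i => j ≤ i.1) (fun i ω => nrm D (x - i.2 + Y.pos 0 (2 * l) ω + Y.zd l (2 * l) i.1 ω) ≤ 0)
    (acb_nonneg D l) (fun i hi => Y.anticonc H hα hη hη1 (l := l) (y := l) (ρ := 0) (b := 2 * l)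
      (e := i.1) hD hDd hl hln hl (by simpa using hj.trans hi)
      (W := fun ω => x - i.2 + Y.pos 0 (2 * l) ω) fun ω ω' hh => by
        simp only [(Y.agree_of_lt hh).1 0 _ le_rfl]) fun _ hω => hω
  refine (Y.P_le_add fun ω hω => ?_).trans ((add_le_add b1 b2).trans (add_le_add ?_ ?_))
  · by_contra hc
    rw [not_or] at hc
    obtain ⟨i, h1, h2, h3⟩ := hω
    refine hc.2 ⟨(i, x + Y.pos 0 i ω), mem_product.2 ⟨mem_Icc.2 ⟨h1, h2⟩, h3⟩, h1, ?_⟩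
    have c1 := HdChk_pos_zd Y (l := l) (a := 0) (b := 2 * l) (u := i) (ω := ω)
      (by omega) (by omega) fun i' h4 h5 => by
        by_contra h6
        exact hc.1 ⟨i', h4, by omega, h6⟩
    have c2 : x - (x + Y.pos 0 i ω) + Y.pos 0 (2 * l) ω + Y.zd l (2 * l) i ω = 0 := by
      rw [c1]
      abel
    simp only [c2, nrm_zero, le_refl]
  · refine mul_le_mul_of_nonneg_right ?_ (by positivity)
    exact_mod_cast Nat.sub_le _ _
  · refine mul_le_mul_of_nonneg_right ?_ (acb_nonneg D l)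
    rw [card_product, Nat.card_Icc]
    have c1 : (h + 1 - j) * A.card ≤ h * A.card := Nat.mul_le_mul_right _ (by omega)
    exact_mod_cast c1

/-- Union bound over `(a, u, s)`, `b = u - ℓ`, `W = pos a b - pos a s`. -/
theorem P_not_far {α D n0 : ℕ} {η : ℝ} (H : Y.HK α η n0) (hα : 3 ≤ α) (hη : 0 ≤ η)
    (hη1 : η ≤ 1 / 48) (hD : 1 ≤ D) (hDd : D ≤ d) {l ρ ℓ : ℕ} (hl : 1 ≤ l) (hln : 2 * l ≤ n0)
    (hℓ : 48 * l * D ^ 2 * (ρ + 1) ^ 2 * l ^ 2 ≤ ℓ) (n : ℕ) :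
    Y.P (fun ω => ¬ Y.Far D l ρ ℓ n ω) ≤ ((n : ℝ) + 1) ^ 3 * acb D l := by
  refine (HdChk_union Y (range (n + 1) ×ˢ range (n + 1) ×ˢ range (n + 1))
    (fun i => i.2.2 + ℓ ≤ i.2.1)
    (fun i ω => nrm D (Y.pos i.1 (i.2.1 - ℓ) ω - Y.pos i.1 i.2.2 ω +
      Y.zd l (i.2.1 - ℓ) i.2.1 ω) ≤ ρ)
    (acb_nonneg D l) (fun i hi => Y.anticonc H hα hη hη1 (l := l) (y := l) (ρ := ρ)
      (b := i.2.1 - ℓ) (e := i.2.1) hD hDd hl hln hl (by omega)
      (W := fun ω => Y.pos i.1 (i.2.1 - ℓ) ω - Y.pos i.1 i.2.2 ω) fun ω ω' hh => by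
        simp only [(Y.agree_of_lt hh).1 i.1 _ le_rfl,
          (Y.agree_of_lt hh).1 i.1 i.2.2 (by omega)]) fun ω hω => ?_).trans_eq ?_
  · unfold Far at hω
    push Not at hω
    obtain ⟨a, u, s, h1, h2, h3, h4, h5⟩ := hω
    refine ⟨(a, u, s), ?_, h2, ?_⟩
    · simp only [mem_product, mem_range]
      omega
    · have c1 := HdChk_pos_zd Y (l := l) (a := a) (b := u - ℓ) (u := u) (ω := ω)
        (by omega) (by omega) fun i h6 h7 => h4 i (by omega) h7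
      have c2 : Y.pos a (u - ℓ) ω - Y.pos a s ω + Y.zd l (u - ℓ) u ω =
          Y.pos a u ω - Y.pos a s ω := by
        rw [c1]
        abel
      simp only [c2]
      exact h5
  · simp only [card_product, card_range]
    push_cast
    ring

/-- Union bound over `(s, u)`, `b = s`, `W = 0`. -/
theorem P_not_far3 {α D n0 : ℕ} {η : ℝ} (H : Y.HK α η n0) (hα : 3 ≤ α) (hη : 0 ≤ η)
    (hη1 : η ≤ 1 / 48) (hD : 1 ≤ D) (hDd : D ≤ d) {l ρ ℓ : ℕ} (hl : 1 ≤ l) (hln : 2 * l ≤ n0)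
    (hℓ : 48 * l * D ^ 2 * (ρ + 1) ^ 2 * l ^ 2 ≤ ℓ) (n : ℕ) :
    Y.P (fun ω => ¬ Y.Far3 D l ρ ℓ n ω) ≤ ((n : ℝ) + 1) ^ 2 * acb D l := by
  refine (HdChk_union Y (range (n + 1) ×ˢ range (n + 1)) (fun i => i.1 + ℓ ≤ i.2)
    (fun i ω => nrm D (0 + Y.zd l i.1 i.2 ω) ≤ ρ)
    (acb_nonneg D l) (fun i hi => Y.anticonc H hα hη hη1 (l := l) (y := l) (ρ := ρ)
      (b := i.1) (e := i.2) hD hDd hl hln hl (by omega)
      (W := fun _ => 0) fun _ _ _ => rfl) fun ω hω => ?_).trans_eq ?_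
  · unfold Far3 at hω
    push Not at hω
    obtain ⟨s, u, h1, h2, h3⟩ := hω
    refine ⟨(s, u), ?_, h1, ?_⟩
    · simp only [mem_product, mem_range]
      omega
    · rw [zero_add]
      exact h3
  · simp only [card_product, card_range]
    push_cast
    ring

end Sys

end Pool.Agent.Lib.MP_aa337a_pr.HD
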