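import Pool.Agent.Lib.MP_aa337a_pr.HdMix

/-! Counting successes and failures of sequential trials. -/

set_option autoImplicit false

noncomputable section

namespace Pool.Agent.Lib.MP_aa337a_pr.HD

open MeasureTheory Finset
open scoped Classical

theorem HdSup_dep_prod {E : Type*} {I : Set ℕ} {f : ℕ → (ℕ → E) → ℝ} (n : ℕ)
    (h : ∀ j, j < n → DependsOn (f j) I) : DependsOn (fun ω => ∏ j ∈ range n, f j ω) I :=
  fun _ _ hh => prod_congr rfl fun j hj => h j (mem_range.1 hj) hh

theorem HdSup_dep_card {E : Type*} {I : Set ℕ} {A : ℕ → (ℕ → E) → Prop} (n : ℕ)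
    (h : ∀ j, j < n → DependsOn (A j) I) :
    DependsOn (fun ω => ((range n).filter fun j => A j ω).card) I := by
  intro ω ω' hh
  simp only
  congr 1
  exact filter_congr fun j hj => by rw [h j (mem_range.1 hj) hh]

theorem HdSup_half (n : ℕ) (A : ℕ → Prop) :
    ∏ j ∈ range n, (1 - ind (A j) / 2) = (1 / 2 : ℝ) ^ ((range n).filter A).card := by
  rw [← prod_const, prod_filter]
  refine prod_congr rfl fun j _ => ?_
  unfold ind
  split_ifs <;> norm_num

namespace Sys

variable {d : ℕ} (Y : Sys d)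

/-- Trials `A j` decided in the time window ending at `t (j + 1)`, with conditional success
probability at least `q j` given the noise before `t j`. Proof: `M n = exp (∑ q / 2) * 2 ^ (-card)`
satisfies `Ex (M (n + 1)) ≤ Ex (M n)`: write `2 ^ (-ind A) = 1 - ind A / 2`, use `Ex_splice (t n)`
and `exp (q / 2) * (1 - q / 2) ≤ 1`; then `markov`. -/
theorem sup_lower (t : ℕ → ℕ) (ht : Monotone t) (A : ℕ → Y.Ω → Prop) (q : ℕ → Y.Ω → ℝ)
    (hA : ∀ j, DependsOn (A j) (Set.Iio (t (j + 1))))
    (hq : ∀ j, DependsOn (q j) (Set.Iio (t j)))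
    (hqA : ∀ j ω, q j ω ≤ Y.P fun ω' => A j (splice (t j) ω ω')) (n : ℕ) (x : ℝ) (y : ℕ) :
    Y.P (fun ω => x ≤ ∑ j ∈ range n, q j ω ∧ ((range n).filter fun j => A j ω).card ≤ y) ≤
      2 ^ y * Real.exp (-x / 2) := by
  obtain ⟨M, hM⟩ : ∃ M : ℕ → Y.Ω → ℝ, ∀ n ω,
      M n ω = ∏ j ∈ range n, Real.exp (q j ω / 2) * (1 - ind (A j ω) / 2) := ⟨_, fun _ _ => rfl⟩
  have hdep : ∀ n, DependsOn (M n) (Set.Iio (t n)) := by
    intro n
    have : M n = fun ω => ∏ j ∈ range n, Real.exp (q j ω / 2) * (1 - ind (A j ω) / 2) :=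
      funext (hM n)
    rw [this]
    refine HdSup_dep_prod n fun j hj => ?_
    exact dep_comp₂ ((hq j).mono (Set.Iio_subset_Iio (ht hj.le)))
      ((hA j).mono (Set.Iio_subset_Iio (ht hj))) fun a b => Real.exp (a / 2) * (1 - ind b / 2)
  have hloc : ∀ n, Loc (M n) := fun n => ⟨t n, hdep n⟩
  have hpos : ∀ n ω, 0 ≤ M n ω := by
    intro n ω
    rw [hM]
    refine prod_nonneg fun j _ => mul_nonneg (Real.exp_pos _).le ?_
    linarith [ind_le_one (A j ω)]
  have hE : ∀ n, Y.Ex (M n) ≤ 1 := by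
    intro n
    induction n with
    | zero =>
      refine Y.Ex_le_const (hloc 0) fun ω => ?_
      rw [hM]
      simp
    | succ n ih =>
      refine le_trans ?_ ih
      rw [Y.Ex_splice (t n) (hloc (n + 1))]
      refine Y.Ex_mono ⟨t n, Y.dep_Ex_splice _ _⟩ (hloc n) fun ω => ?_
      have hl : Loc fun ω' => A n (splice (t n) ω ω') :=
        Loc.splice_right ⟨t (n + 1), hA n⟩ (t n) ω
      have h1 : ∀ ω', M (n + 1) (splice (t n) ω ω') = M n ω * Real.exp (q n ω / 2) *
          (1 - 1 / 2 * ind (A n (splice (t n) ω ω'))) := by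
        intro ω'
        rw [hM, prod_range_succ, ← hM, dep_splice_left (hdep n), dep_splice_left (hq n)]
        ring
      rw [Y.Ex_congr h1, Y.Ex_const_mul,
        Y.Ex_sub (Loc.const 1) (hl.comp fun b => 1 / 2 * ind b), Y.Ex_const, Y.Ex_const_mul,
        Y.Ex_ind hl, mul_assoc]
      refine mul_le_of_le_one_right (hpos n ω) ?_
      have h2 := hqA n ω
      have h3 := Real.add_one_le_exp (-(q n ω / 2))
      calc Real.exp (q n ω / 2) * (1 - 1 / 2 * Y.P fun ω' => A n (splice (t n) ω ω'))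
          ≤ Real.exp (q n ω / 2) * Real.exp (-(q n ω / 2)) :=
            mul_le_mul_of_nonneg_left (by linarith) (Real.exp_pos _).le
        _ = 1 := by rw [← Real.exp_add, add_neg_cancel, Real.exp_zero]
  have hm := Y.markov (p := fun ω => x ≤ ∑ j ∈ range n, q j ω ∧
      ((range n).filter fun j => A j ω).card ≤ y) (c := Real.exp (x / 2) * (1 / 2) ^ y)
      (hloc n) (hpos n) fun ω hω => by
    rw [hM, prod_mul_distrib, HdSup_half n fun j => A j ω, ← Real.exp_sum, ← sum_div]
    refine mul_le_mul (Real.exp_le_exp.2 (by linarith [hω.1])) ?_ (by positivity)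
      (Real.exp_pos _).le
    exact pow_le_pow_of_le_one (by norm_num) (by norm_num) hω.2
  have h1 : (2 : ℝ) ^ y * Real.exp (-x / 2) * (Real.exp (x / 2) * (1 / 2) ^ y) = 1 := by
    rw [mul_assoc, ← mul_assoc (Real.exp _), ← Real.exp_add, neg_div, neg_add_cancel,
      Real.exp_zero, one_mul, ← mul_pow]
    norm_num
  have h2 := mul_le_mul_of_nonneg_left (hm.trans (hE n))
    (show (0 : ℝ) ≤ 2 ^ y * Real.exp (-x / 2) by positivity)
  rwa [← mul_assoc, h1, one_mul, mul_one] at h2

/-- Independent events of probability at most `p`. Proof: induction on `n` for the bound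
`choose n k * p ^ k` (Pascal; the first `n` events depend on `Iio (t n)`, the last one on its
complement), then `choose n k ≤ n ^ k`. -/
theorem sup_upper (t : ℕ → ℕ) (ht : Monotone t) (A : ℕ → Y.Ω → Prop)
    (hA : ∀ j, DependsOn (A j) (Set.Ico (t j) (t (j + 1)))) {p : ℝ} (hp0 : 0 ≤ p) (n : ℕ)
    (hp : ∀ j, j < n → Y.P (A j) ≤ p) (k : ℕ) :
    Y.P (fun ω => k ≤ ((range n).filter fun j => A j ω).card) ≤ (n * p) ^ k := by
  have key : ∀ n, (∀ j, j < n → Y.P (A j) ≤ p) → ∀ k,
      Y.P (fun ω => k ≤ ((range n).filter fun j => A j ω).card) ≤ n.choose k * p ^ k := by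
    intro n
    induction n with
    | zero =>
      intro _ k
      rcases k with _ | k
      · simpa using Y.P_le_one _
      · rw [Y.P_eq_zero (by simp)]
        simp
    | succ n ih =>
      intro hp k
      rcases k with _ | k
      · simpa using Y.P_le_one _
      · have ih' := ih fun j hj => hp j (by omega)
        have hdep : DependsOn (fun ω => k ≤ ((range n).filter fun j => A j ω).card)
            (Set.Iio (t n)) :=
          dep_comp (HdSup_dep_card n fun j hj => (hA j).mono fun i hi =>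
            lt_of_lt_of_le hi.2 (ht hj)) fun c => k ≤ c
        have h1 := Y.P_and_indep (Set.Iio (t n)) ⟨t n, hdep⟩
          ⟨t (n + 1), (hA n).mono fun i hi => hi.2⟩ hdep
          ((hA n).mono fun i hi hi' => absurd hi.1 (not_le.2 hi'))
        have h2 : Y.P (fun ω => k + 1 ≤ ((range (n + 1)).filter fun j => A j ω).card) ≤
            Y.P (fun ω => k + 1 ≤ ((range n).filter fun j => A j ω).card) +
            Y.P (fun ω => k ≤ ((range n).filter fun j => A j ω).card ∧ A n ω) := by
          refine Y.P_le_add fun ω hω => ?_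
          rw [range_add_one, filter_insert] at hω
          by_cases h : A n ω
          · rw [if_pos h] at hω
            have := card_insert_le n ((range n).filter fun j => A j ω)
            exact Or.inr ⟨by omega, h⟩
          · rw [if_neg h] at hω
            exact Or.inl hω
        have h3 := mul_le_mul (ih' k) (hp n (by omega)) (Y.P_nonneg _) (by positivity)
        rw [h1] at h2
        rw [Nat.choose_succ_succ', Nat.cast_add]
        have h4 := ih' (k + 1)
        rw [pow_succ] at h4 ⊢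
        linarith
  refine (key n hp k).trans ?_
  rw [mul_pow]
  refine mul_le_mul_of_nonneg_right ?_ (by positivity)
  exact_mod_cast Nat.choose_le_pow n k

/-- Azuma inequality for a supermartingale with at most `b ^ 2` nonzero increments. Proof: with
`θ = z / (2 * M0 * b)` the process `exp (θ * ∑ D - θ ^ 2 * M0 ^ 2 * card)` has nonincreasing
expectation (`Ex_update i`, `exp x ≤ 1 + x + x ^ 2` for `|x| ≤ 1`, `1 + y ≤ exp y`); then `markov`.
If `b = 0` then `z = 0` and the bound is `1`. -/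
theorem azuma (D : ℕ → Y.Ω → ℝ) (c : ℕ → Y.Ω → Prop) {M0 z : ℝ} {b : ℕ} (hM : 0 < M0)
    (hz0 : 0 ≤ z) (hz : z ≤ 2 * b) (hD : ∀ i, DependsOn (D i) (Set.Iio (i + 1)))
    (hc : ∀ i, DependsOn (c i) (Set.Iio i)) (h0 : ∀ i ω, ¬ c i ω → D i ω = 0)
    (hb : ∀ i ω, |D i ω| ≤ M0)
    (hm : ∀ i ω, ∑ e, Y.ν e * D i (Function.update ω i e) ≤ 0) (n : ℕ)
    (hn : ∀ ω, ((range n).filter fun i => c i ω).card ≤ b ^ 2) :
    Y.P (fun ω => M0 * b * z ≤ ∑ i ∈ range n, D i ω) ≤ Real.exp (-z ^ 2 / 4) := by
  rcases Nat.eq_zero_or_pos b with rfl | hb0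
  · have : z = 0 := le_antisymm (by simpa using hz) hz0
    subst this
    simpa using Y.P_le_one _
  have hb1 : (0 : ℝ) < b := by exact_mod_cast hb0
  obtain ⟨θ, hθ⟩ : ∃ θ : ℝ, θ = z / (2 * M0 * b) := ⟨_, rfl⟩
  have hθ0 : 0 ≤ θ := by rw [hθ]; positivity
  have hθ1 : θ * M0 * b = z / 2 := by
    rw [hθ]
    field_simp
  have hθ2 : θ * M0 ≤ 1 := by
    refine le_of_mul_le_mul_right ?_ hb1
    linarith
  obtain ⟨M, hMd⟩ : ∃ M : ℕ → Y.Ω → ℝ, ∀ n ω,
      M n ω = ∏ i ∈ range n, Real.exp (θ * D i ω - (θ * M0) ^ 2 * ind (c i ω)) :=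
    ⟨_, fun _ _ => rfl⟩
  have hdep : ∀ n, DependsOn (M n) (Set.Iio n) := by
    intro n
    have : M n = fun ω => ∏ i ∈ range n, Real.exp (θ * D i ω - (θ * M0) ^ 2 * ind (c i ω)) :=
      funext (hMd n)
    rw [this]
    refine HdSup_dep_prod n fun j hj => ?_
    exact dep_comp₂ ((hD j).mono (Set.Iio_subset_Iio hj))
      ((hc j).mono (Set.Iio_subset_Iio hj.le)) fun a b => Real.exp (θ * a - (θ * M0) ^ 2 * ind b)
  have hloc : ∀ n, Loc (M n) := fun n => ⟨n, hdep n⟩
  have hpos : ∀ n ω, 0 ≤ M n ω := by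
    intro n ω
    rw [hMd]
    exact prod_nonneg fun j _ => (Real.exp_pos _).le
  have hE : ∀ n, Y.Ex (M n) ≤ 1 := by
    intro n
    induction n with
    | zero =>
      refine Y.Ex_le_const (hloc 0) fun ω => ?_
      rw [hMd]
      simp
    | succ n ih =>
      refine le_trans ?_ ih
      rw [Y.Ex_update n (hloc (n + 1))]
      refine Y.Ex_mono (Loc.sum _ fun e _ => ((hloc (n + 1)).update n e).comp fun a => Y.ν e * a)
        (hloc n) fun ω => ?_
      have hnn : n ∉ Set.Iio n := lt_irrefl n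
      have h1 : ∀ e, Y.ν e * M (n + 1) (Function.update ω n e) = M n ω *
          (Real.exp (-((θ * M0) ^ 2 * ind (c n ω))) *
            (Y.ν e * Real.exp (θ * D n (Function.update ω n e)))) := by
        intro e
        rw [hMd, prod_range_succ, ← hMd, dep_update (hdep n) hnn, dep_update (hc n) hnn,
          sub_eq_add_neg, Real.exp_add]
        ring
      rw [sum_congr rfl fun e _ => h1 e, ← mul_sum, ← mul_sum]
      refine mul_le_of_le_one_right (hpos n ω) ?_
      have h2 : ∀ e, Real.exp (θ * D n (Function.update ω n e)) ≤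
          1 + θ * D n (Function.update ω n e) + (θ * M0) ^ 2 * ind (c n ω) := by
        intro e
        by_cases h : c n ω
        · have h3 : |θ * D n (Function.update ω n e)| ≤ θ * M0 := by
            rw [abs_mul, abs_of_nonneg hθ0]
            exact mul_le_mul_of_nonneg_left (hb n _) hθ0
          have h4 := Real.abs_exp_sub_one_sub_id_le (h3.trans hθ2)
          have h5 : (θ * D n (Function.update ω n e)) ^ 2 ≤ (θ * M0) ^ 2 :=
            sq_le_sq' (abs_le.1 h3).1 (abs_le.1 h3).2
          rw [ind_of_true h]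
          linarith [(abs_le.1 h4).2]
        · rw [h0 n _ (by rwa [dep_update (hc n) hnn]), ind_of_false h]
          simp
      have h3 : ∑ e, Y.ν e * Real.exp (θ * D n (Function.update ω n e)) ≤
          Real.exp ((θ * M0) ^ 2 * ind (c n ω)) := by
        calc ∑ e, Y.ν e * Real.exp (θ * D n (Function.update ω n e))
            ≤ ∑ e, Y.ν e * (1 + θ * D n (Function.update ω n e) + (θ * M0) ^ 2 * ind (c n ω)) :=
              sum_le_sum fun e _ => mul_le_mul_of_nonneg_left (h2 e) (Y.ν_nonneg e)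
          _ = (∑ e, Y.ν e) * (1 + (θ * M0) ^ 2 * ind (c n ω)) +
                θ * ∑ e, Y.ν e * D n (Function.update ω n e) := by
              rw [sum_mul, mul_sum, ← sum_add_distrib]
              exact sum_congr rfl fun e _ => by ring
          _ ≤ _ := by
              rw [Y.ν_sum, one_mul]
              have h4 := mul_nonpos_of_nonneg_of_nonpos hθ0 (hm n ω)
              linarith [Real.add_one_le_exp ((θ * M0) ^ 2 * ind (c n ω))]
      calc _ ≤ Real.exp (-((θ * M0) ^ 2 * ind (c n ω))) * Real.exp ((θ * M0) ^ 2 * ind (c n ω)) :=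
            mul_le_mul_of_nonneg_left h3 (Real.exp_pos _).le
        _ = 1 := by rw [← Real.exp_add, neg_add_cancel, Real.exp_zero]
  have hmk := Y.markov (p := fun ω => M0 * b * z ≤ ∑ i ∈ range n, D i ω)
      (c := Real.exp (z ^ 2 / 4)) (hloc n) (hpos n) fun ω hω => by
    rw [hMd, ← Real.exp_sum, sum_sub_distrib, ← mul_sum, ← mul_sum, ← card_filter_eq_sum_ind]
    refine Real.exp_le_exp.2 ?_
    have h1 : (((range n).filter fun i => c i ω).card : ℝ) ≤ (b : ℝ) ^ 2 := by
      exact_mod_cast hn ω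
    have h2 := mul_le_mul_of_nonneg_left h1 (sq_nonneg (θ * M0))
    have h3 := mul_le_mul_of_nonneg_left hω hθ0
    have h4 : (θ * M0) ^ 2 * (b : ℝ) ^ 2 = z ^ 2 / 4 := by
      rw [← mul_pow, hθ1]
      ring
    have h5 : θ * (M0 * b * z) = z ^ 2 / 2 := by
      rw [← mul_assoc, ← mul_assoc, hθ1]
      ring
    linarith
  have h2 := mul_le_mul_of_nonneg_left (hmk.trans (hE n)) (Real.exp_pos (-z ^ 2 / 4)).le
  rwa [← mul_assoc, ← Real.exp_add, neg_div, neg_add_cancel, Real.exp_zero, one_mul, mul_one,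
    ← neg_div] at h2

end Sys

end Pool.Agent.Lib.MP_aa337a_pr.HD
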