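import Pool.Agent.Lib.MP_aa337a_pr.HdChk
import Pool.Agent.Lib.MP_aa337a_pr.HdSup

/-! Bad times are few and cut times are frequent. -/

set_option autoImplicit false

noncomputable section

namespace Pool.Agent.Lib.MP_aa337a_pr.HD

open MeasureTheory Finset
open scoped Classical

namespace Sys

variable {d : ℕ} (Y : Sys d)

theorem good_dep {l m : ℕ} (hl : 1 ≤ l) (hm : 2 * l ≤ m) (t : ℕ) :
    DependsOn (Y.good l m t) (Set.Ico t (t + (2 * m + 1))) := by
  intro ω ω' h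
  refine propext (forall_congr' fun i => forall_congr' fun h1 => forall_congr' fun h2 => ?_)
  have hs : Set.Ico t (i + 1) ⊆ Set.Ico t (t + (2 * m + 1)) := Set.Ico_subset_Ico_right (by omega)
  rw [(Y.xi_dep (by omega)).mono hs h, (Y.zeta_dep' hl (by omega)).mono hs h]

/-- `agr` bounds `P (¬ good t)` by `(m + 1) * (2 / l ^ γ)`. If more than `(2 m + 1) k` times are
bad, some class modulo `2 m + 1` contains at least `k` of them; `sup_upper` with
`t j = c + (2 m + 1) j` and `n + 1` trials. -/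
theorem P_many_bad {γ n0 l m : ℕ} (hP : Y.Phi γ n0) (hl : 1 ≤ l) (hm : 2 * l ≤ m)
    (hn : 2 * m + 1 ≤ n0) (n k : ℕ) :
    Y.P (fun ω => (2 * m + 1) * k < (Y.badT l m n ω).card) ≤
      (2 * m + 1 : ℝ) * ((n + 1) * ((m + 1) * (2 / (l : ℝ) ^ γ))) ^ k := by
  have h1 : ∀ t, Y.P (fun ω => ¬ Y.good l m t ω) ≤ (m + 1) * (2 / (l : ℝ) ^ γ) := by
    intro t
    have h2 := Y.agr hP (l := l) (a := t) (s := t + m) (e := t + (2 * m + 1)) hl (by omega)
      (by omega)
    rw [show t + (2 * m + 1) - (t + m) = m + 1 by omega, Nat.cast_succ] at h2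
    refine (Y.P_mono fun ω hω => ?_).trans h2
    by_contra h3
    refine hω fun i hi hi' => ?_
    by_contra h4
    exact h3 ⟨i, hi, by omega, h4⟩
  have h2 : ∀ c, Y.P (fun ω => k ≤ ((range (n + 1)).filter
      fun j => ¬ Y.good l m (c + (2 * m + 1) * j) ω).card) ≤
      ((n + 1) * ((m + 1) * (2 / (l : ℝ) ^ γ))) ^ k := by
    intro c
    have h3 := Y.sup_upper (fun j => c + (2 * m + 1) * j)
      (fun _ _ h => Nat.add_le_add_left (Nat.mul_le_mul_left _ h) c)
      (fun j ω => ¬ Y.good l m (c + (2 * m + 1) * j) ω)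
      (fun j => (dep_comp (Y.good_dep hl hm _) Not).mono
        (Set.Ico_subset_Ico_right (le_of_eq (by ring))))
      (p := (m + 1) * (2 / (l : ℝ) ^ γ)) (by positivity) (n + 1) (fun j _ => h1 _) k
    rw [Nat.cast_succ] at h3
    refine (Y.P_mono fun ω hω => hω.trans (le_of_eq ?_)).trans h3
    exact congrArg card (filter_congr_decidable _ _ _).symm
  refine (Y.P_le_sum (range (2 * m + 1)) (fun c ω => k ≤ ((range (n + 1)).filter
      fun j => ¬ Y.good l m (c + (2 * m + 1) * j) ω).card) fun ω hω => ?_).trans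
    ((sum_le_sum fun c _ => h2 c).trans (le_of_eq ?_))
  · obtain ⟨c, hc, h3⟩ := exists_lt_card_fiber_of_mul_lt_card_of_maps_to (s := Y.badT l m n ω)
      (t := range (2 * m + 1)) (f := fun t => t % (2 * m + 1)) (n := k)
      (fun t _ => mem_range.2 (Nat.mod_lt _ (Nat.succ_pos _))) (by rwa [card_range])
    refine ⟨c, hc, h3.le.trans (card_le_card_of_injOn (fun t => t / (2 * m + 1))
      (fun t ht => ?_) fun t ht t' ht' h4 => ?_)⟩
    · obtain ⟨h4, h5⟩ := mem_filter.1 (mem_coe.1 ht)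
      obtain ⟨h6, h7⟩ := mem_filter.1 h4
      refine mem_coe.2 (mem_filter.2 ⟨mem_range.2
        ((Nat.div_le_self _ _).trans_lt (mem_range.1 h6)), ?_⟩)
      rw [← h5, Nat.mod_add_div]
      exact h7
    · have h5 := (mem_filter.1 (mem_coe.1 ht)).2
      have h6 := (mem_filter.1 (mem_coe.1 ht')).2
      rw [← Nat.mod_add_div t (2 * m + 1), ← Nat.mod_add_div t' (2 * m + 1), h5, h6]
      exact congrArg (fun x => c + (2 * m + 1) * x) h4
  · rw [sum_const, card_range, nsmul_eq_mul]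
    push_cast
    rfl

theorem cutz_dep {D l r1 m0 : ℕ} (hl : 1 ≤ l) (b : ℕ) :
    DependsOn (Y.cutz D l r1 m0 b) (Set.Ico b (b + (2 * l + 4 * m0))) := by
  intro ω ω' h
  refine propext (forall_congr' fun s => forall_congr' fun n => forall_congr' fun r =>
    forall_congr' fun _ => forall_congr' fun _ => forall_congr' fun h1 =>
    forall_congr' fun h2 => forall_congr' fun h3 => ?_)
  rw [(Y.zd_dep (t := b) hl (by omega) (s + n)).mono (Set.Ico_subset_Ico_right (by omega)) h]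

/-- Off the event of `agr` (walk from `b`, window `[b + 2 l, b + 2 l + 4 m0)`) one has
`zd l s (s + n) = pos b (s + n) - pos b s`. For each lag `n ≥ r1 ^ 6` there are at most `3 n + 1`
values of `s`; with `r'` the sixth root of `n` (`r ≤ r'`), `chk` with `W = 0` gives `1 / n ^ 4`;
`∑ 4 / n ^ 3 ≤ 1 / 4`. -/
theorem P_not_cutz {γ α κ D r1 n0 : ℕ} {η : ℝ} (hP : Y.Phi γ n0) (H : Y.HK α η n0)
    (hα : 3 ≤ α) (hη : 0 ≤ η) (hη1 : η ≤ 1 / 48) (hD : 1 ≤ D) (hDd : D ≤ d)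
    (hR : R1 D γ α κ r1) {l m0 : ℕ} (hl : 1 ≤ l) (hn : 2 * l + 4 * m0 ≤ n0)
    (hc : (4 * m0 : ℝ) * (2 / (l : ℝ) ^ γ) ≤ 1 / 4) (b : ℕ) :
    Y.P (fun ω => ¬ Y.cutz D l r1 m0 b ω) ≤ 1 / 2 := by
  choose rt hrt using exists_root6
  have h100 := (hR r1 le_rfl).1
  have h1 := Y.agr hP (l := l) (a := b) (s := b + 2 * l) (e := b + (2 * l + 4 * m0)) hl (by omega)
    (by omega)
  rw [show b + (2 * l + 4 * m0) - (b + 2 * l) = 4 * m0 by omega, Nat.cast_mul,
    Nat.cast_ofNat] at h1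
  have hq : ∀ q ∈ Ico (r1 ^ 6) m0, 3 < q := fun q hq =>
    lt_of_lt_of_le (by omega) ((Nat.le_self_pow (by norm_num) r1).trans (mem_Ico.1 hq).1)
  have h2 : ∀ q ∈ Ico (r1 ^ 6) m0, Y.P (fun ω => ∃ s ∈ Icc (b + 2 * l + 2 * m0 - 2 * q)
      (b + 2 * l + 2 * m0 + q), nrm D (0 + (Y.pos b (s + q) ω - Y.pos b s ω)) ≤ 4 * rt q) ≤
      4 * (1 / (q : ℝ) ^ 3) := by
    intro q hq'
    obtain ⟨h3, h4⟩ := mem_Ico.1 hq'
    have h5 : (3 : ℝ) < q := by exact_mod_cast hq q hq'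
    have h6 : r1 ≤ rt q :=
      Nat.lt_succ_iff.1 (lt_of_pow_lt_pow_left₀ 6 (Nat.zero_le _) (h3.trans_lt (hrt q).2))
    refine (Y.P_exists _ _).trans ((sum_le_sum (g := fun _ => 1 / (q : ℝ) ^ 4) fun s hs => ?_).trans ?_)
    · obtain ⟨h7, h8⟩ := mem_Icc.1 hs
      refine (Y.chk hP H (Nat.le_succ _) hα hη hη1 hD hDd hR (by omega) (by omega) h6 (hrt q).1
        (hrt q).2 (W := fun _ => 0) fun _ _ _ => rfl).trans ?_
      exact one_div_le_one_div_of_le (by positivity) (pow_le_pow_right₀ (by linarith) (by omega))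
    · rw [sum_const, Nat.card_Icc, nsmul_eq_mul, show b + 2 * l + 2 * m0 + q + 1 -
        (b + 2 * l + 2 * m0 - 2 * q) = 3 * q + 1 by omega]
      have h7 : 4 * (1 / (q : ℝ) ^ 3) = 4 * q * (1 / (q : ℝ) ^ 4) := by
        field_simp
      rw [h7]
      refine mul_le_mul_of_nonneg_right ?_ (by positivity)
      push_cast
      linarith
  have h3 := (Y.P_exists _ _).trans (sum_le_sum h2)
  have h4 := sum_inv_cube_le (Ico (r1 ^ 6) m0) (r := 3) (by norm_num) hq
  rw [← mul_sum] at h3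
  refine (Y.P_le_add fun ω hω => ?_).trans ((add_le_add h1 h3).trans ?_)
  · refine or_iff_not_imp_left.2 fun h5 => ?_
    by_contra h6
    refine hω fun s q r a1 a2 a3 a4 a5 => not_le.1 fun a6 => h6 ⟨q,
      mem_Ico.2 ⟨(Nat.pow_le_pow_left a1 6).trans a2, a3⟩, s, mem_Icc.2 ⟨by omega, a5⟩, ?_⟩
    have a7 : r ≤ rt q :=
      Nat.lt_succ_iff.1 (lt_of_pow_lt_pow_left₀ 6 (Nat.zero_le _) (a2.trans_lt (hrt q).2))
    rw [zero_add, Y.pos_sub (by omega) (Nat.le_add_right _ _),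
      dsp_congr (χ' := fun i => Y.zeta l i ω) fun i b1 b2 => by
        by_contra b3
        exact h5 ⟨i, by omega, by omega, b3⟩]
    exact a6.trans (Nat.mul_le_mul_left _ a7)
  · norm_num at h4 ⊢
    linarith

/-- Union over `s ≤ n`; `sup_lower` with `q = 1 / 2`, `x = z / 2`, `y = 0`. -/
theorem P_not_cutWin {D l r1 m0 : ℕ} (hl : 1 ≤ l)
    (h : ∀ b, Y.P (fun ω => ¬ Y.cutz D l r1 m0 b ω) ≤ 1 / 2) (z n : ℕ) :
    Y.P (fun ω => ¬ Y.CutWin D l r1 m0 z n ω) ≤ ((n : ℝ) + 1) * Real.exp (-(z : ℝ) / 4) := by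
  have h1 : ∀ s, Y.P (fun ω => ∀ j, j < z → ¬ Y.cutz D l r1 m0 (s + j * (2 * l + 4 * m0)) ω) ≤
      Real.exp (-(z : ℝ) / 4) := by
    intro s
    have h2 := Y.sup_lower (fun j => s + j * (2 * l + 4 * m0))
      (fun _ _ h => Nat.add_le_add_left (Nat.mul_le_mul_right _ h) s)
      (fun j => Y.cutz D l r1 m0 (s + j * (2 * l + 4 * m0))) (fun _ _ => 1 / 2)
      (fun j => (Y.cutz_dep hl _).mono fun i hi => lt_of_lt_of_le hi.2 (le_of_eq (by ring)))
      (fun _ _ _ _ => rfl) (fun j ω => by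
        have h3 := Y.one_sub_P_le fun ω => ¬ Y.cutz D l r1 m0 (s + j * (2 * l + 4 * m0)) ω
        refine le_trans (by linarith [h (s + j * (2 * l + 4 * m0))])
          (h3.trans (Y.P_mono fun ω' hω => ?_))
        rw [dep_splice_right ((Y.cutz_dep hl _).mono Set.Ico_subset_Ici_self)]
        exact not_not.1 hω) z (z / 2) 0
    rw [pow_zero, one_mul, show -((z : ℝ) / 2) / 2 = -(z : ℝ) / 4 by ring] at h2
    refine (Y.P_mono fun ω hω => ⟨?_, ?_⟩).trans h2
    · rw [sum_const, card_range, nsmul_eq_mul, mul_one_div]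
    · rw [filter_false_of_mem fun j hj => hω j (mem_range.1 hj), card_empty]
  refine (Y.P_le_sum (range (n + 1)) (fun s ω => ∀ j, j < z →
    ¬ Y.cutz D l r1 m0 (s + j * (2 * l + 4 * m0)) ω) fun ω hω => ?_).trans
    ((sum_le_sum fun s _ => h1 s).trans (le_of_eq ?_))
  · by_contra h2
    refine hω fun s hs => ?_
    by_contra h3
    exact h2 ⟨s, mem_range.2 (Nat.lt_succ_of_le hs), fun j hj h4 => h3 ⟨j, hj, h4⟩⟩
  · rw [sum_const, card_range, nsmul_eq_mul, Nat.cast_succ]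

end Sys

end Pool.Agent.Lib.MP_aa337a_pr.HD
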