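import Pool.Agent.Lib.MP_aa337a_pr.HdWalk

/-! Local dichotomy at a point where the old trail `Γ` is thin at all scales.
By `HK` with `a = s = 0`, `P (x + pos 0 i ∈ A) ≤ card (ball D A u (R + i)) * η / i ^ α` whenever
`nrm D (x - u) ≤ R` (`nrm_pos_sub_le`). Call `r` heavy if `r ^ κ < card (ball D J u r)`.
Case 1: no `r ∈ [r1, ρ')` is heavy. Then `card (ball D A u r) ≤ 2 r ^ κ` for `r ∈ [r1, ρt]` and
`1 - esc A h u ≤ r1 * 2 r1 ^ κ * η + ∑ 2 η / i ^ 3 + hit A ρ' h u ≤ 1 / 2`; and `u` lies in the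
ball. Case 2: let `r` be the largest heavy value in `[r1, ρ')`; all values in `(r, ρt]` are not
heavy. Apply `Cap2OK`: for `nrm D (x - u) ≤ r ^ 4` and `i ∈ [r, ρ')` the radius `r ^ 4 + i` lies
in `(r, ρt]` and is at most `2 i ^ 4`, so the terms are at most `2 ^ (κ + 1) η / i ^ 3`, with sum at
most `1 / (200 r)`; `card (ball D A u (r ^ 4)) ≤ 2 r ^ (4 κ) ≤ 2 ^ r`. The points of `Γ` contribute
at most `r ^ 24`, and `r ^ (κ - 1) / 20 - r ^ 24 ≥ 1 / 2`. -/

set_option autoImplicit false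

noncomputable section

namespace Pool.Agent.Lib.MP_aa337a_pr.HD

open MeasureTheory Finset
open scoped Classical

namespace Sys

variable {d : ℕ} (Y : Sys d)

theorem HdLoc_pt {α D n0 : ℕ} {η : ℝ} (H : Y.HK α η n0) (A : Finset (Pt d)) {u x : Pt d}
    {R i : ℕ} (hi : 1 ≤ i) (hn : i ≤ n0) (hx : nrm D (x - u) ≤ R) :
    Y.P (fun ω => x + Y.pos 0 i ω ∈ A) ≤ (ball D A u (R + i)).card * (η / (i : ℝ) ^ α) := by
  refine (Y.P_le_sum (ball D A u (R + i))
    (fun y ω => Y.pos 0 (0 + i) ω - Y.pos 0 0 ω = y - x) fun ω hω => ?_).trans ?_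
  · refine ⟨x + Y.pos 0 i ω, mem_ball.2 ⟨hω, ?_⟩, ?_⟩
    · have h1 := Y.nrm_pos_sub_le D (le_refl 0) (Nat.zero_le i) ω
      rw [Y.pos_self, sub_zero, Nat.sub_zero] at h1
      have h2 := nrm_add_le D (x - u) (Y.pos 0 i ω)
      rw [show x + Y.pos 0 i ω - u = x - u + Y.pos 0 i ω by abel]
      omega
    · simp only [zero_add, Y.pos_self, sub_zero, add_sub_cancel_left]
  · rw [← nsmul_eq_mul]
    exact sum_le_card_nsmul _ _ _ fun y _ => H 0 0 i (y - x) le_rfl hi (by omega)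

theorem HdLoc_hit (A : Finset (Pt d)) (j k h : ℕ) (x : Pt d) :
    Y.hit A j h x ≤ ∑ i ∈ Ico j k, Y.P (fun ω => x + Y.pos 0 i ω ∈ A) + Y.hit A k h x := by
  refine (Y.P_le_add (q := fun ω => ∃ i ∈ Ico j k, x + Y.pos 0 i ω ∈ A)
    (r := fun ω => ∃ i, k ≤ i ∧ i ≤ h ∧ x + Y.pos 0 i ω ∈ A) ?_).trans
    (add_le_add (Y.P_exists _ _) le_rfl)
  rintro ω ⟨i, h1, h2, h3⟩
  by_cases hk : i < k
  · exact Or.inl ⟨i, mem_Ico.2 ⟨h1, hk⟩, h3⟩
  · exact Or.inr ⟨i, not_lt.1 hk, h2, h3⟩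

omit Y in
theorem HdLoc_sub {D : ℕ} {A J Γ : Finset (Pt d)} (hA : A ⊆ J ∪ Γ) (u : Pt d) (r : ℕ) :
    ball D A u r ⊆ ball D J u r ∪ ball D Γ u r := fun x hx => by
  rcases mem_union.1 (hA (mem_ball.1 hx).1) with h | h
  · exact mem_union_left _ (mem_ball.2 ⟨h, (mem_ball.1 hx).2⟩)
  · exact mem_union_right _ (mem_ball.2 ⟨h, (mem_ball.1 hx).2⟩)

theorem loc_escape {γ α κ D r1 n0 : ℕ} {η : ℝ} (H : Y.HK α η n0) (hC : Y.Cap2OK D n0)
    (hR : R1 D γ α κ r1) (hκ : 26 ≤ κ) (hα : 4 * κ + 3 ≤ α) (hη : 0 ≤ η)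
    (hη1 : 16 * (r1 : ℝ) ^ (κ + 1) * η ≤ 1) (hη2 : 2 ^ (κ + 10) * η ≤ 1) {ρ' ρt h : ℕ}
    (h1 : r1 ≤ ρ') (h2 : 2 * ρ' ^ 4 ≤ ρt) (h3 : ρ' ^ 8 ≤ n0) (h4 : ρ' ^ 8 ≤ h)
    {A J Γ : Finset (Pt d)} (hA : A ⊆ J ∪ Γ) (hJ : J ⊆ A)
    (hTB : ∀ x, Y.hit A ρ' h x ≤ 1 / (200 * ρ')) {u : Pt d} (hu : u ∈ J)
    (hΓ : ∀ r, r1 ≤ r → r ≤ ρt → (ball D Γ u r).card ≤ r ^ 6)
    (hJ' : ∀ r, ρ' ≤ r → r ≤ ρt → (ball D J u r).card ≤ r ^ κ) :
    1 / 2 ≤ ∑ x ∈ ball D J u ρt, Y.esc A h x := by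
  have r100 : ∀ r, r1 ≤ r → 100 ≤ r := fun r hr => (hR r hr).1
  have hρ1 : 1 ≤ ρ' := by have := r100 ρ' h1; omega
  have hρ4 : ρ' ≤ ρ' ^ 4 := Nat.le_self_pow (by norm_num) _
  have hρ8 : ρ' ≤ ρ' ^ 8 := Nat.le_self_pow (by norm_num) _
  have hcard : ∀ r, r1 ≤ r → r ≤ ρt → (ball D J u r).card ≤ r ^ κ →
      (ball D A u r).card ≤ 2 * r ^ κ := fun r hr hr' hj => by
    have h5 := (card_le_card (HdLoc_sub (D := D) hA u r)).trans (card_union_le _ _)
    have h6 := hΓ r hr hr'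
    have h7 : r ^ 6 ≤ r ^ κ := Nat.pow_le_pow_right (by have := r100 r hr; omega) (by omega)
    omega
  have hu0 : ∀ (B : Finset (Pt d)) (r : ℕ), u ∈ B → u ∈ ball D B u r := fun B r hB =>
    mem_ball.2 ⟨hB, by rw [sub_self, nrm_zero]; exact Nat.zero_le _⟩
  by_cases hh : ((Ico r1 ρ').filter fun r => r ^ κ < (ball D J u r).card).Nonempty
  · obtain ⟨r, hr, hmax⟩ := exists_max_image _ id hh
    obtain ⟨hr1, hr2⟩ := mem_filter.1 hr
    obtain ⟨hr1, hr3⟩ := mem_Ico.1 hr1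
    have hr100 := r100 r hr1
    have hrpos : (0 : ℝ) < r := by exact_mod_cast (by omega : 0 < r)
    have hlight : ∀ s, r < s → s ≤ ρt → (ball D A u s).card ≤ 2 * s ^ κ := fun s hs hs' => by
      refine hcard s (by omega) hs' ?_
      by_cases hk : s < ρ'
      · by_contra hcon
        have := hmax s (mem_filter.2 ⟨mem_Ico.2 ⟨by omega, hk⟩, not_le.1 hcon⟩)
        simp only [id] at this
        omega
      · exact hJ' s (not_lt.1 hk) hs'
    have hr4 : r ^ 4 ≤ ρ' ^ 4 := Nat.pow_le_pow_left hr3.le _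
    have hr8 : r ^ 8 ≤ ρ' ^ 8 := Nat.pow_le_pow_left hr3.le _
    have hrr : r < r ^ 4 := by
      calc r = r ^ 1 := (pow_one r).symm
        _ < r ^ 4 := Nat.pow_lt_pow_right (by omega) (by norm_num)
    have hη3 : 2 ^ (κ + 1) * η ≤ 1 / 512 := by
      rw [show κ + 10 = κ + 1 + 9 from rfl, pow_add] at hη2
      linarith
    have key := hC A u r h hr100 (hr8.trans h3) (hr8.trans h4) (fun x hx => ?_) ?_
    · have h5 : ∑ x ∈ ball D A u (r ^ 4), Y.esc A h x ≤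
          ∑ x ∈ ball D J u ρt, Y.esc A h x + ∑ x ∈ ball D Γ u (r ^ 4), Y.esc A h x := by
        refine (sum_le_sum_of_subset_of_nonneg ((HdLoc_sub (D := D) hA u (r ^ 4)).trans
          (union_subset_union (ball_mono subset_rfl u (by omega : r ^ 4 ≤ ρt)) subset_rfl))
          fun x _ _ => Y.esc_nonneg A h x).trans ?_
        rw [← sum_union_inter]
        exact le_add_of_nonneg_right (sum_nonneg fun x _ => Y.esc_nonneg A h x)
      have h6 : ∑ x ∈ ball D Γ u (r ^ 4), Y.esc A h x ≤ (r : ℝ) ^ 24 := by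
        refine (sum_le_card_nsmul _ _ 1 fun x _ => Y.esc_le_one A h x).trans ?_
        rw [nsmul_eq_mul, mul_one]
        have h7 := hΓ (r ^ 4) (by omega) (by omega)
        rw [← pow_mul] at h7
        exact_mod_cast h7
      have h7 : (r : ℝ) ^ 26 ≤ (ball D A u r).card := by
        have h8 := card_le_card (ball_mono (D := D) hJ u (le_refl r))
        have h9 : r ^ 26 ≤ r ^ κ := Nat.pow_le_pow_right (by omega) hκ
        exact_mod_cast (by omega : r ^ 26 ≤ (ball D A u r).card)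
      have h8 : (r : ℝ) ^ 26 / (20 * r) ≤ (ball D A u r).card / (20 * r) :=
        div_le_div_of_nonneg_right h7 (by positivity)
      have h9 : (r : ℝ) ^ 26 / (20 * r) = r ^ 24 * (r / 20) := by
        field_simp
      have h10 : (100 : ℝ) ≤ r := by exact_mod_cast hr100
      have h11 : (1 : ℝ) ≤ r ^ 24 := one_le_pow₀ (by linarith)
      have h12 : (r : ℝ) ^ 24 * 5 ≤ r ^ 24 * (r / 20) :=
        mul_le_mul_of_nonneg_left (by linarith) (by positivity)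
      linarith
    · have h5 : ∀ i ∈ Ico r ρ', Y.P (fun ω => x + Y.pos 0 i ω ∈ A) ≤
          1 / (512 * r) * (1 / (i : ℝ) ^ 2) := fun i hi => by
        obtain ⟨hi1, hi2⟩ := mem_Ico.1 hi
        have hipos : (0 : ℝ) < i := by exact_mod_cast (by omega : 0 < i)
        have hi4 : i ^ 4 ≤ ρ' ^ 4 := Nat.pow_le_pow_left hi2.le _
        have hi5 : r ^ 4 ≤ i ^ 4 := Nat.pow_le_pow_left hi1 _
        have hi6 : i ≤ i ^ 4 := Nat.le_self_pow (by norm_num) _
        refine (Y.HdLoc_pt H A (by omega) (by omega) hx).trans ?_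
        have h6 := hlight (r ^ 4 + i) (by omega) (by omega)
        have h7 : (r ^ 4 + i) ^ κ ≤ (2 * i ^ 4) ^ κ := Nat.pow_le_pow_left (by omega) _
        have h8 : (ball D A u (r ^ 4 + i)).card ≤ 2 ^ (κ + 1) * i ^ (4 * κ) := by
          rw [mul_pow, ← pow_mul] at h7
          calc _ ≤ 2 * (2 ^ κ * i ^ (4 * κ)) := by omega
            _ = _ := by ring
        have h9 : ((ball D A u (r ^ 4 + i)).card : ℝ) ≤ 2 ^ (κ + 1) * (i : ℝ) ^ (4 * κ) := by
          exact_mod_cast h8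
        have h10 : (i : ℝ) ^ (4 * κ) * (r * i ^ 2) ≤ (i : ℝ) ^ α := by
          have h11 : (r : ℝ) ≤ i := by exact_mod_cast hi1
          have h12 : (1 : ℝ) ≤ i := by exact_mod_cast (by omega : 1 ≤ i)
          calc (i : ℝ) ^ (4 * κ) * (r * i ^ 2) ≤ (i : ℝ) ^ (4 * κ) * (i * i ^ 2) := by gcongr
            _ = (i : ℝ) ^ (4 * κ + 3) := by ring
            _ ≤ _ := pow_le_pow_right₀ h12 hα
        calc _ ≤ 2 ^ (κ + 1) * (i : ℝ) ^ (4 * κ) * (η / ((i : ℝ) ^ (4 * κ) * (r * i ^ 2))) := by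
              gcongr
          _ = 2 ^ (κ + 1) * η * (1 / (r * (i : ℝ) ^ 2)) := by field_simp
          _ ≤ 1 / 512 * (1 / (r * (i : ℝ) ^ 2)) := by gcongr
          _ = _ := by field_simp
      refine (Y.HdLoc_hit A r ρ' h x).trans ?_
      have h6 := sum_le_sum h5
      rw [← mul_sum] at h6
      have h7 := mul_le_mul_of_nonneg_left (sum_inv_sq_le_two (Ico r ρ'))
        (by positivity : (0 : ℝ) ≤ 1 / (512 * r))
      have h8 : (1 : ℝ) / (200 * ρ') ≤ 1 / (200 * r) := by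
        have : (r : ℝ) ≤ ρ' := by exact_mod_cast hr3.le
        gcongr
      have h9 : (1 : ℝ) / (512 * r) * 2 ≤ 1 / (200 * r) := by
        rw [div_mul_eq_mul_div, div_le_div_iff₀ (by positivity) (by positivity)]
        linarith
      have h10 : (1 : ℝ) / (100 * r) = 1 / (200 * r) + 1 / (200 * r) := by
        field_simp
        norm_num
      linarith [hTB x]
    · have h5 := hlight (r ^ 4) hrr (by omega)
      rw [← pow_mul] at h5
      have h6 : 1 ≤ (ball D A u r).card := card_pos.2 ⟨u, hu0 A r (hJ hu)⟩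
      calc _ ≤ 2 ^ r := h5.trans (hR r hr1).2.2.1
        _ ≤ _ := Nat.le_mul_of_pos_right _ h6
  · have hlight : ∀ s, r1 ≤ s → s ≤ ρt → (ball D A u s).card ≤ 2 * s ^ κ := fun s hs hs' => by
      refine hcard s hs hs' ?_
      by_cases hk : s < ρ'
      · by_contra hcon
        exact hh ⟨s, mem_filter.2 ⟨mem_Ico.2 ⟨hs, hk⟩, not_le.1 hcon⟩⟩
      · exact hJ' s (not_lt.1 hk) hs'
    have hr100 := r100 r1 le_rfl
    have hr1 : (100 : ℝ) ≤ r1 := by exact_mod_cast hr100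
    have h5 : ∀ i ∈ Ico 1 ρ', Y.P (fun ω => u + Y.pos 0 i ω ∈ A) ≤
        2 * (r1 : ℝ) ^ κ * η * (1 / (i : ℝ) ^ 2) := fun i hi => by
      obtain ⟨hi1, hi2⟩ := mem_Ico.1 hi
      have h12 : (1 : ℝ) ≤ i := by exact_mod_cast hi1
      refine (Y.HdLoc_pt (D := D) (R := 0) H A hi1 (by omega)
        (by rw [sub_self, nrm_zero])).trans ?_
      rw [zero_add]
      have h8 : (ball D A u i).card ≤ 2 * r1 ^ κ * i ^ κ := by
        by_cases hk : i ≤ r1
        · have h6 := (card_le_card (ball_mono (D := D) (subset_refl A) u hk)).trans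
            (hlight r1 le_rfl (by omega))
          exact h6.trans (Nat.le_mul_of_pos_right _ (by positivity))
        · refine (hlight i (by omega) (by omega)).trans (Nat.mul_le_mul_right _ ?_)
          exact Nat.le_mul_of_pos_right _ (by positivity)
      have h9 : ((ball D A u i).card : ℝ) ≤ 2 * (r1 : ℝ) ^ κ * (i : ℝ) ^ κ := by
        exact_mod_cast h8
      have h10 : (i : ℝ) ^ κ * i ^ 2 ≤ (i : ℝ) ^ α := by
        rw [← pow_add]
        exact pow_le_pow_right₀ h12 (by omega)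
      calc _ ≤ 2 * (r1 : ℝ) ^ κ * (i : ℝ) ^ κ * (η / ((i : ℝ) ^ κ * i ^ 2)) := by gcongr
        _ = _ := by field_simp
    have h6 := sum_le_sum h5
    rw [← mul_sum] at h6
    have h7 := mul_le_mul_of_nonneg_left (sum_inv_sq_le_two (Ico 1 ρ'))
      (by positivity : (0 : ℝ) ≤ 2 * (r1 : ℝ) ^ κ * η)
    have h8 : 16 * (r1 : ℝ) ^ κ * η ≤ 1 := by
      refine le_trans ?_ hη1
      have : (r1 : ℝ) ^ κ ≤ r1 ^ (κ + 1) := pow_le_pow_right₀ (by linarith) (by omega)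
      gcongr
    have h9 : (1 : ℝ) / (200 * ρ') ≤ 1 / 4 := by
      have : (1 : ℝ) ≤ ρ' := by exact_mod_cast hρ1
      exact one_div_le_one_div_of_le (by norm_num) (by linarith)
    have h10 : 1 - Y.esc A h u ≤ Y.hit A 1 h u := by
      refine (Y.one_sub_P_le _).trans (Y.P_mono fun ω hω => ?_)
      by_contra hcon
      exact hω fun i a b c => hcon ⟨i, a, b, c⟩
    have h11 := Y.HdLoc_hit A 1 ρ' h u
    have h12 := single_le_sum (f := fun x => Y.esc A h x) (fun x _ => Y.esc_nonneg A h x)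
      (hu0 J ρt hu)
    linarith [hTB u]

end Sys

end Pool.Agent.Lib.MP_aa337a_pr.HD
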