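import Pool.Agent.Lib.MP_aa337a_pr.HdRay

/-! The range of the dead times is large. Let `T = deadT al a τ`, `B = card T = b ^ 2`, `W x` the
number of dead visits to `x`, `M = max W`, `R0 = card (T.image p) ≤ R`, so `B ≤ R M`. Use
`energy_eq`. For `t ∈ T`, `t > a`, `i = t - 1`: the number of earlier dead visits to `p t` is at
most `vis p a i (p (i + 1))` (used if `i` is dead) and at most `M` (used if `i` is alive; then
`i ∈ transT`). Over dead `i ∈ [a, τ)`, `∑ vis p a i (p (i + 1)) = drift + ∑ mean of vis over the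
neighbours of p i`, and this mean is at most the mean of the dead visits strictly before `i` (a
neighbour of `p i` is not `p i`) plus `m` (`hO`). These means cancel against the subtracted terms
of `energy_eq`. Hence `energy ≤ B + 2 drift + 2 B m + 2 K0 M`. Take `M0 = max (vis p a τ)`, with
`1 ≤ M0 ≤ τ + 1` and `M0 ≤ M + m`. If `M < m` then `B ≤ R m`. Otherwise
`M ^ 2 ≤ 2 R energy ≤ 2 R M (3 m R + 4 b z + 2 K0)` by `ray`. -/

set_option autoImplicit false

noncomputable section

namespace Pool.Agent.Lib.MP_aa337a_pr.HD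

open MeasureTheory Finset
open scoped Classical

variable {d : ℕ}

theorem HdRange_mem {al : ℕ → Prop} {a τ t : ℕ} :
    t ∈ deadT al a τ ↔ (a ≤ t ∧ t ≤ τ) ∧ ¬ al t := by
  rw [deadT, mem_filter, mem_Icc]

theorem HdRange_early {p : ℕ → Pt d} {al : ℕ → Prop} {a τ M K0 : ℕ} (haτ : a ≤ τ)
    (hK : (transT al a τ).card ≤ K0)
    (hW : ∀ x, ((deadT al a τ).filter fun s => p s = x).card ≤ M) :
    ∑ t ∈ deadT al a τ, ((deadT al a τ).filter fun s => s < t ∧ p s = p t).card ≤
      ∑ i ∈ (Ico a τ).filter (fun i => ¬ al i), vis p a i (p (i + 1)) + K0 * M := by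
  set E : ℕ → ℕ := fun t => ((deadT al a τ).filter fun s => s < t ∧ p s = p t).card with hE
  have h0 : E a = 0 := by
    rw [hE, card_eq_zero, filter_eq_empty_iff]
    intro s hs h
    exact absurd (HdRange_mem.1 hs).1.1 (not_le.2 h.1)
  have h1 : ∑ t ∈ deadT al a τ, E t = ∑ i ∈ Ico a τ, if ¬ al (i + 1) then E (i + 1) else 0 := by
    rw [deadT, sum_filter, ← Finset.Ico_add_one_right_eq_Icc,
      Finset.sum_eq_sum_Ico_succ_bot (show a < τ + 1 by omega), h0, ite_self, zero_add,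
      ← Finset.sum_Ico_add' (fun t => if ¬ al t then E t else 0) a τ 1]
  have h2 : (transT al a τ).card * M =
      ∑ i ∈ Ico a τ, if al i ∧ ¬ al (i + 1) then M else 0 := by
    rw [← sum_filter, sum_const, smul_eq_mul, transT]
  refine le_trans ?_ (Nat.add_le_add_left (Nat.mul_le_mul_right M hK) _)
  rw [h1, h2, sum_filter, ← sum_add_distrib]
  refine sum_le_sum fun i hi => ?_
  by_cases h3 : al (i + 1)
  · simp [h3]
  by_cases h4 : al i
  · simp only [h3, h4, not_false_eq_true, not_true_eq_false, if_true, if_false, and_self, zero_add]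
    exact le_trans (card_le_card fun s hs => mem_filter.2 ⟨(mem_filter.1 hs).1,
      (mem_filter.1 hs).2.2⟩) (hW (p (i + 1)))
  · simp only [h3, h4, not_false_eq_true, if_true, false_and, if_false, add_zero]
    refine card_le_card fun s hs => ?_
    obtain ⟨h5, h6, h7⟩ := mem_filter.1 hs
    exact mem_filter.2 ⟨mem_Icc.2 ⟨(HdRange_mem.1 h5).1.1, Nat.le_of_lt_succ h6⟩, h7⟩

theorem HdRange_nb {p : ℕ → Pt d} {al : ℕ → Prop} {a τ m i : ℕ} (hi : i ≤ τ)
    (hO : ∀ x, ((liveT al a τ).filter fun s => p s = x).card ≤ m) (σ : St d) :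
    vis p a i (p i + step σ) ≤
      ((deadT al a τ).filter fun s => s < i ∧ p s = p i + step σ).card + m := by
  refine le_trans ?_ (Nat.add_le_add_left (hO (p i + step σ)) _)
  refine le_trans (card_le_card fun s hs => ?_) (card_union_le _ _)
  obtain ⟨h1, h2⟩ := mem_filter.1 hs
  obtain ⟨h3, h4⟩ := mem_Icc.1 h1
  by_cases h : al s
  · exact mem_union_right _ (mem_filter.2 ⟨mem_filter.2 ⟨mem_Icc.2 ⟨h3, h4.trans hi⟩, h⟩, h2⟩)
  · refine mem_union_left _ (mem_filter.2 ⟨HdRange_mem.2 ⟨⟨h3, h4.trans hi⟩, h⟩, ?_, h2⟩)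
    refine lt_of_le_of_ne h4 fun e => ?_
    rw [e] at h2
    exact step_ne_zero σ (left_eq_add.1 h2)

theorem HdRange_vis {p : ℕ → Pt d} {al : ℕ → Prop} {a τ m M : ℕ}
    (hO : ∀ x, ((liveT al a τ).filter fun s => p s = x).card ≤ m)
    (hW : ∀ x, ((deadT al a τ).filter fun s => p s = x).card ≤ M) (x : Pt d) :
    vis p a τ x ≤ M + m := by
  refine le_trans ?_ (Nat.add_le_add (hW x) (hO x))
  refine le_trans (card_le_card fun s hs => ?_) (card_union_le _ _)
  obtain ⟨h1, h2⟩ := mem_filter.1 hs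
  by_cases h : al s
  · exact mem_union_right _ (mem_filter.2 ⟨mem_filter.2 ⟨h1, h⟩, h2⟩)
  · exact mem_union_left _ (mem_filter.2 ⟨mem_filter.2 ⟨h1, h⟩, h2⟩)

theorem HdRange_energy (hd : 0 < d) {p : ℕ → Pt d} {al : ℕ → Prop} {a τ m M K0 : ℕ}
    (haτ : a ≤ τ) (hO : ∀ x, ((liveT al a τ).filter fun s => p s = x).card ≤ m)
    (hK : (transT al a τ).card ≤ K0)
    (hW : ∀ x, ((deadT al a τ).filter fun s => p s = x).card ≤ M) :
    ∑ t ∈ deadT al a τ, (2 * ((((deadT al a τ).filter fun s => s < t ∧ p s = p t).card : ℝ) -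
      (∑ σ : St d, (((deadT al a τ).filter fun s => s < t ∧ p s = p t + step σ).card : ℝ)) /
        (2 * d)) + 1) ≤
      (deadT al a τ).card + 2 * drift p al a τ + 2 * ((deadT al a τ).card * m) + 2 * (K0 * M) := by
  set Nb : ℕ → ℝ := fun t =>
    (∑ σ : St d, (((deadT al a τ).filter fun s => s < t ∧ p s = p t + step σ).card : ℝ)) / (2 * d)
    with hNb
  have hd' : (0 : ℝ) < 2 * d := by positivity
  have h1 : ∑ t ∈ deadT al a τ, (((deadT al a τ).filter fun s => s < t ∧ p s = p t).card : ℝ) ≤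
      ∑ i ∈ (Ico a τ).filter (fun i => ¬ al i), (vis p a i (p (i + 1)) : ℝ) + K0 * M := by
    exact_mod_cast HdRange_early haτ hK hW
  have h2 : ∑ i ∈ (Ico a τ).filter (fun i => ¬ al i),
      (∑ s : St d, (vis p a i (p i + step s) : ℝ)) / (2 * d) ≤
      ∑ t ∈ deadT al a τ, (Nb t + m) := by
    have hsub : (Ico a τ).filter (fun i => ¬ al i) ⊆ deadT al a τ :=
      filter_subset_filter _ Ico_subset_Icc_self
    have hpos : ∀ i, 0 ≤ Nb i + m := fun i =>
      add_nonneg (div_nonneg (sum_nonneg fun σ _ => Nat.cast_nonneg _) hd'.le) (Nat.cast_nonneg _)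
    refine le_trans (sum_le_sum (g := fun t => Nb t + m) fun i hi => ?_)
      (sum_le_sum_of_subset_of_nonneg hsub fun i _ _ => hpos i)
    have hi' : i ≤ τ := (mem_Ico.1 (mem_filter.1 hi).1).2.le
    have h3 : ∀ σ : St d, (vis p a i (p i + step σ) : ℝ) ≤
        (((deadT al a τ).filter fun s => s < i ∧ p s = p i + step σ).card : ℝ) + m := fun σ => by
      exact_mod_cast HdRange_nb hi' hO σ
    have h4 := sum_le_sum fun σ (_ : σ ∈ (univ : Finset (St d))) => h3 σ
    rw [sum_add_distrib, sum_const, card_univ, card_St, nsmul_eq_mul] at h4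
    simp only [hNb]
    rw [div_le_iff₀ hd', add_mul, div_mul_cancel₀ _ hd'.ne']
    push_cast at h4
    linarith
  rw [sum_add_distrib, sum_const, nsmul_eq_mul] at h2
  rw [sum_add_distrib, ← mul_sum, sum_sub_distrib, sum_const, nsmul_eq_mul, drift, sum_sub_distrib]
  linarith

theorem range_large (hd : 0 < d) {p : ℕ → Pt d} {al : ℕ → Prop} {a τ m K0 b z R : ℕ}
    (haτ : a ≤ τ) (hm : 1 ≤ m) (hO : ∀ x, ((liveT al a τ).filter fun s => p s = x).card ≤ m)
    (hK : (transT al a τ).card ≤ K0) (hB : (deadT al a τ).card = b ^ 2)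
    (hM : ∀ M0 : ℕ, 1 ≤ M0 → M0 ≤ τ + 1 → (∀ x, vis p a τ x ≤ M0) →
      drift p al a τ ≤ (M0 : ℝ) * b * z)
    (hR : ((deadT al a τ).image p).card ≤ R) :
    b ^ 2 ≤ 2 * R ^ 2 * (3 * m * R + 4 * b * z + 2 * K0) := by
  rcases (deadT al a τ).eq_empty_or_nonempty with h0 | hne
  · rw [← hB, h0, card_empty]
    exact Nat.zero_le _
  obtain ⟨x0, -, hx0⟩ := exists_max_image ((deadT al a τ).image p)
    (fun x => ((deadT al a τ).filter fun s => p s = x).card) (hne.image p)
  have hz : ∀ x, x ∉ (deadT al a τ).image p →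
      ((deadT al a τ).filter fun s => p s = x).card = 0 := fun x hx => by
    rw [card_eq_zero, filter_eq_empty_iff]
    exact fun s hs e => hx (mem_image.2 ⟨s, hs, e⟩)
  set M := ((deadT al a τ).filter fun s => p s = x0).card with hMd
  have hW : ∀ x, ((deadT al a τ).filter fun s => p s = x).card ≤ M := fun x => by
    by_cases hx : x ∈ (deadT al a τ).image p
    · exact hx0 x hx
    · rw [hz x hx]
      exact Nat.zero_le _
  have hBM : b ^ 2 ≤ M * R := by
    rw [← hB]
    exact (card_le_mul_card_image _ M fun x _ => hW x).trans (Nat.mul_le_mul_left M hR)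
  rcases lt_or_ge M m with h1 | h1
  · have h2 : R ≤ R ^ 3 := Nat.le_self_pow (by norm_num) R
    have h3 : M * R ≤ m * R ^ 3 := Nat.mul_le_mul h1.le h2
    nlinarith [Nat.zero_le (m * R ^ 3), Nat.zero_le (R ^ 2 * (4 * b * z + 2 * K0))]
  have hdr : drift p al a τ ≤ 2 * M * b * z := by
    refine (hM (min (M + m) (τ + 1)) (le_min (by omega) (by omega)) (min_le_right _ _)
      fun x => le_min (HdRange_vis hO hW x) ?_).trans ?_
    · refine (card_filter_le _ _).trans ?_
      rw [Nat.card_Icc]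
      omega
    · have : ((min (M + m) (τ + 1) : ℕ) : ℝ) ≤ 2 * M := by
        exact_mod_cast (min_le_left _ _).trans (by omega)
      gcongr
  have hE := HdRange_energy hd haτ hO hK hW
  have hr := ray hd ((deadT al a τ).image p)
    (fun x => (((deadT al a τ).filter fun s => p s = x).card : ℝ))
    (fun x hx => by exact_mod_cast hz x hx) x0
  rw [energy_eq hd p (deadT al a τ)] at hr
  rw [hB] at hE
  have hBM' : ((b ^ 2 : ℕ) : ℝ) ≤ M * R := by exact_mod_cast hBM
  have hm' : (1 : ℝ) ≤ m := by exact_mod_cast hm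
  have hM1 : (0 : ℝ) < M := by exact_mod_cast (show 0 < M by omega)
  have hR' : (((deadT al a τ).image p).card : ℝ) ≤ R := by exact_mod_cast hR
  have hb0 : (0 : ℝ) ≤ ((b ^ 2 : ℕ) : ℝ) := Nat.cast_nonneg _
  have h4 : ((b ^ 2 : ℕ) : ℝ) + 2 * drift p al a τ + 2 * (((b ^ 2 : ℕ) : ℝ) * m) + 2 * (K0 * M) ≤
      M * (3 * m * R + 4 * b * z + 2 * K0) := by
    nlinarith [mul_le_mul_of_nonneg_right hBM' (show (0 : ℝ) ≤ m by linarith),
      mul_le_mul_of_nonneg_left hm' hb0]
  have h5 : (M : ℝ) ^ 2 ≤ 2 * R * (M * (3 * m * R + 4 * b * z + 2 * K0)) := by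
    refine hr.trans (le_trans (mul_le_mul_of_nonneg_left (hE.trans h4) (by positivity)) ?_)
    gcongr
  have h6 : (M : ℝ) ≤ 2 * R * (3 * m * R + 4 * b * z + 2 * K0) := by
    refine le_of_mul_le_mul_left ?_ hM1
    nlinarith
  have h7 : M ≤ 2 * R * (3 * m * R + 4 * b * z + 2 * K0) := by exact_mod_cast h6
  nlinarith [Nat.mul_le_mul_right R h7]

end Pool.Agent.Lib.MP_aa337a_pr.HD
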