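import Pool.Agent.Lib.MP_aa337a_pr.HdGlob
import Pool.Agent.Lib.MP_aa337a_pr.HdLoc
import Pool.Agent.Lib.MP_aa337a_pr.HdRange
import Pool.Agent.Lib.MP_aa337a_pr.HdAlive

/-! On the good events a walk has few dead times. -/

set_option autoImplicit false

noncomputable section

namespace Pool.Agent.Lib.MP_aa337a_pr.HD

open MeasureTheory Finset
open scoped Classical

theorem exists_card_deadT (al : ℕ → Prop) {a n B : ℕ} (hB : 1 ≤ B)
    (h : B ≤ (deadT al a n).card) : ∃ τ, a ≤ τ ∧ τ ≤ n ∧ (deadT al a τ).card = B := by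
  have hex : ∃ τ, B ≤ (deadT al a τ).card := ⟨n, h⟩
  obtain ⟨τ, h1, hmin⟩ : ∃ τ, B ≤ (deadT al a τ).card ∧ ∀ m, m < τ → ¬ B ≤ (deadT al a m).card :=
    ⟨Nat.find hex, Nat.find_spec hex, fun m => Nat.find_min hex⟩
  have h2 : τ ≤ n := not_lt.1 fun hh => hmin n hh h
  have h3 : a ≤ τ := by
    by_contra hlt
    have : deadT al a τ = ∅ := by
      unfold deadT
      rw [Icc_eq_empty hlt, filter_empty]
    rw [this, card_empty] at h1
    omega
  refine ⟨τ, h3, h2, le_antisymm ?_ h1⟩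
  have h4 : deadT al a τ ⊆ insert τ ((Ico a τ).filter fun t => ¬ al t) := by
    intro t ht
    simp only [deadT, mem_filter, mem_Icc, mem_insert, mem_Ico] at ht ⊢
    by_cases h5 : t = τ
    · exact Or.inl h5
    · exact Or.inr ⟨⟨ht.1.1, by omega⟩, ht.2⟩
  have h5 : ((Ico a τ).filter fun t => ¬ al t).card < B := by
    rcases Nat.eq_zero_or_pos τ with h0 | h0
    · rw [h0, Ico_eq_empty (Nat.not_lt_zero a), filter_empty, card_empty]; omega
    · have h6 := not_le.1 (hmin (τ - 1) (by omega))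
      refine lt_of_le_of_lt (card_le_card fun t ht => ?_) h6
      simp only [deadT, mem_filter, mem_Icc, mem_Ico] at ht ⊢
      exact ⟨⟨ht.1.1, by omega⟩, ht.2⟩
  have h6 := (card_le_card h4).trans (card_insert_le _ _)
  omega

namespace Sys

variable {d : ℕ} (Y : Sys d)

theorem few_dead {γ α κ D r1 L : ℕ} {η : ℝ} {q : Par} (hq : q.OK D κ r1 γ L)
    (H : Y.HK α η (L - 1)) (hC : Y.Cap2OK D (L - 1)) (hR : R1 D γ α κ r1) (hκ : 26 ≤ κ)
    (hα : 4 * κ + 3 ≤ α) (hη : 0 ≤ η) (hη1 : 16 * (r1 : ℝ) ^ (κ + 1) * η ≤ 1)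
    (hη2 : 2 ^ (κ + 10) * η ≤ 1)
    (hTB : ∀ (A : Finset (Pt d)) x, A.card ≤ 3 * L + 1 →
      Y.hit A q.ρ' (2 * q.m + 1) x ≤ 1 / (200 * q.g2))
    {ω : Y.Ω} (hF1 : Y.Far D q.z (4 * q.ρt) q.m0 (3 * L) ω) (hF2 : Y.Far D q.z q.ρ0 q.m (3 * L) ω)
    (hbad : (Y.badT q.z q.m (3 * L) ω).card ≤ (2 * q.m + 1) * q.k)
    (hcw : Y.CutWin D q.z r1 q.m0 q.z (3 * L) ω) {a : ℕ}
    (hM : Y.MartOK (Y.alive q.z q.m a) a (3 * L) q.b q.z ω)
    (hW : Y.WOK q.z q.m a (3 * L) q.x0 q.y0 ω) :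
    (deadT (fun t => Y.alive q.z q.m a t ω) a (3 * L)).card < q.b ^ 2 := by
  by_contra hcon
  have hb := hq.b_ge
  obtain ⟨τ, haτ, hτ, hB⟩ := exists_card_deadT _ (by omega) (not_lt.1 hcon)
  have hr1 : 100 ≤ r1 := (hR r1 le_rfl).1
  have hρ' : 100 ≤ q.ρ' := hr1.trans hq.r1_le
  have hρ4 : q.ρ' ≤ q.ρ' ^ 4 := Nat.le_self_pow (by norm_num) _
  have hρt : q.ρ' ≤ q.ρt := by have := hq.ρt_ge; omega
  have hg2 : q.ρt ≤ q.g2 := by have := hq.g2_ge; omega
  have hg4 : q.g2 ≤ q.g2 ^ 4 := Nat.le_self_pow (by norm_num) _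
  have hρ0 : 1 ≤ q.ρ0 := by have := hq.ρ0_ge; omega
  have hm : 1 ≤ q.m := by have := hq.z_le; have := hq.z_pos; omega
  have hmL := hq.m_le
  have hg8 := hq.g2_le
  have hρ8 : q.ρ' ^ 8 ≤ q.g2 ^ 8 := Nat.pow_le_pow_left (hρt.trans hg2) 8
  have hK : ∀ τ', τ' ≤ 3 * L → (transT (fun t => Y.alive q.z q.m a t ω) a τ').card ≤ q.K0 :=
    fun τ' h => (Y.card_trans_le hF2 hρ0 h).trans (by unfold Par.K0; omega)
  have hP2 := Y.farP_of_far (a := a) hF2 le_rfl hτ
  have hP1 := Y.farP_of_far (a := a) hF1 hq.m0_le hτ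
  have hJ : q.R < ((deadT (fun t => Y.alive q.z q.m a t ω) a τ).image
      fun i => Y.pos a i ω).card := by
    by_contra hle
    have := range_large Y.d_pos haτ hm (card_live_at hm hP2) (hK τ hτ) hB
      (fun M0 h1 h2 h3 => hM τ M0 haτ hτ h1 (by omega) hB.le h3) (not_lt.1 hle)
    omega
  have hcard : ((Icc a τ).image fun i => Y.pos a i ω).card ≤ 3 * L + 1 :=
    card_image_le.trans (by rw [Nat.card_Icc]; omega)
  have hTB' := fun x => hTB _ x hcard
  have hg2' : (0 : ℝ) < q.ρ' := by exact_mod_cast (by omega : 0 < q.ρ')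
  have hS := Y.glob_escape (κ := κ) (K0 := q.K0) (S0 := q.S0) (g := q.g) (r1 := r1) hC
    (fun t h1 _ => by
      have := Y.nrm_pos_sub_le D h1 (Nat.le_succ t) ω
      simpa using this)
    hP1 hP2
    (fun s _ h2 => by
      obtain ⟨j, hj, hc⟩ := hcw s (by omega)
      refine ⟨_, ?_, ?_, Y.isCut_of_cutz hc hq.m0_le⟩
      · omega
      · have h3 : (j + 1) * (2 * q.z + 4 * q.m0) ≤ q.z * (2 * q.z + 4 * q.m0) :=
          Nat.mul_le_mul_right _ hj
        have := hq.g_ge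
        rw [add_mul] at h3
        omega)
    (hK τ hτ) (by omega) (by omega) hm hρ' hρt hq.g2_ge hq.ρ0_ge (by omega) (by omega) hq.top
    (hcard.trans hq.two_pow) hTB'
    (fun u hu h1 h2 => Y.loc_escape H hC hR hκ hα hη hη1 hη2 hq.r1_le hq.ρt_ge (by omega)
      (by omega)
      (fun x hx => by
        obtain ⟨t, ht, rfl⟩ := mem_image.1 hx
        by_cases hal : Y.alive q.z q.m a t ω
        · exact mem_union_right _ (mem_image_of_mem _ (mem_filter.2 ⟨ht, hal⟩))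
        · exact mem_union_left _ (mem_image_of_mem _ (mem_filter.2 ⟨ht, hal⟩)))
      (image_subset_image (filter_subset _ _))
      (fun x => (hTB' x).trans (by
        have : (q.ρ' : ℝ) ≤ q.g2 := by exact_mod_cast hρt.trans hg2
        gcongr))
      hu h1 h2)
    (hq.R_ge.trans hJ.le)
  have h1 := hS.trans (Y.sum_esc_le_qq hτ)
  have h2 := hW fun c _ => (Y.card_succ_le c).trans (by
    have := hK _ le_rfl
    unfold Par.y0
    unfold Par.K0 at this ⊢
    omega)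
  exact absurd h1 (not_le.2 h2)

end Sys

end Pool.Agent.Lib.MP_aa337a_pr.HD
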