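import Pool.Agent.Lib.MP_aa337a_pr.Defs

/-! Definitions for the high-dimensional diffusivity proof: a noise system with a monotone
coupling, the fresh walks started at every time, and the events used in the induction. -/

set_option autoImplicit false

noncomputable section

namespace Pool.Agent.Lib.MP_aa337a_pr.HD

open MeasureTheory Finset
open scoped Classical

abbrev St (d : ℕ) := Fin d × Bool

abbrev Pt (d : ℕ) := Fin d → ℤ

/-- A finite noise alphabet `E` with weights `ν` and a rule `stp` which, given the local times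
`V` of the `2 d` neighbours, picks a step with law proportional to `w (V s)`, monotonically. -/
structure Sys (d : ℕ) where
  E : Type
  [fin : Fintype E]
  ν : E → ℝ
  ν_nonneg : ∀ e, 0 ≤ ν e
  ν_sum : ∑ e, ν e = 1
  w : ℕ → ℝ
  w_pos : ∀ v, 0 < w v
  w_anti : Antitone w
  w_zero : w 0 = 1
  stp : E → (St d → ℕ) → St d
  law : ∀ (V : St d → ℕ) (s : St d),
    ∑ e, (if stp e V = s then ν e else 0) = w (V s) / ∑ s', w (V s')
  mono : ∀ e (V V' : St d → ℕ), V ≤ V' → V' (stp e V) = V (stp e V) → stp e V' = stp e V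
  flip : Equiv.Perm (St d) → E → E
  flip_ν : ∀ π e, ν (flip π e) = ν e
  flip_flip : ∀ π e, π * π = 1 → flip π (flip π e) = e
  flip_first : ∀ π e, stp (flip π e) 0 = π (stp e 0)

attribute [instance] Sys.fin

/-- Real indicator of a proposition. -/
def ind (p : Prop) : ℝ := if p then 1 else 0

/-- Sum of the steps `χ i`, `s ≤ i < u`. -/
def dsp {d : ℕ} (χ : ℕ → St d) (s u : ℕ) : Pt d := ∑ i ∈ Ico s u, step (χ i)

/-- `v` is a sum of exactly `n` unit steps. -/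
def IsSum {d : ℕ} (n : ℕ) (v : Pt d) : Prop := ∃ χ : ℕ → St d, v = dsp χ 0 n

/-- Sum of the coordinates in the residue class `g` modulo `D`. -/
def prj {d : ℕ} (D g : ℕ) (x : Pt d) : ℤ := ∑ i ∈ univ.filter (fun i : Fin d => i.val % D = g), x i

/-- Sup seminorm of the projection to `ℤ ^ D`. -/
def nrm {d : ℕ} (D : ℕ) (x : Pt d) : ℕ := (range D).sup fun g => (prj D g x).natAbs

/-- The points of `A` within seminorm distance `r` of `u`. -/
def ball {d : ℕ} (D : ℕ) (A : Finset (Pt d)) (u : Pt d) (r : ℕ) : Finset (Pt d) :=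
  A.filter fun x => nrm D (x - u) ≤ r

/-- Reversal of a step. -/
def ng (d : ℕ) : Equiv.Perm (St d) where
  toFun s := (s.1, !s.2)
  invFun s := (s.1, !s.2)
  left_inv s := by simp
  right_inv s := by simp

/-- The steps in the coordinate class `g` modulo `D`. -/
def grp (d D g : ℕ) : Finset (St d) := univ.filter fun s => s.1.val % D = g

/-- The time of the `j`-th flip after time `b`, for block length `l`. -/
def slot (l b j : ℕ) : ℕ := (b / l + 2 + 3 * j) * l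

/-- `f` depends on finitely many noise letters. -/
def Loc {E α : Type*} (f : (ℕ → E) → α) : Prop := ∃ n : ℕ, DependsOn f (Set.Iio n)

/-- `ω` on `I`, `ω'` off `I`. -/
def mix {E : Type*} (I : Set ℕ) (ω ω' : ℕ → E) : ℕ → E := fun i => if i ∈ I then ω i else ω' i

/-- `ω` before time `t`, `ω'` from time `t` on. -/
def splice {E : Type*} (t : ℕ) (ω ω' : ℕ → E) : ℕ → E := fun i => if i < t then ω i else ω' i

/-- The noise seen from time `a`. -/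
def shift {E : Type*} (a : ℕ) (ω : ℕ → E) : ℕ → E := fun i => ω (a + i)

/-- Times in `[a, τ]` that are alive (`al`), their images, and the alive-to-dead transitions. -/
def liveT (al : ℕ → Prop) (a τ : ℕ) : Finset ℕ := (Icc a τ).filter al

def deadT (al : ℕ → Prop) (a τ : ℕ) : Finset ℕ := (Icc a τ).filter fun t => ¬ al t

def transT (al : ℕ → Prop) (a τ : ℕ) : Finset ℕ := (Ico a τ).filter fun t => al t ∧ ¬ al (t + 1)

/-- Alive times are far from all times at lag at least `ℓ`. -/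
def FarP {d : ℕ} (D : ℕ) (p : ℕ → Pt d) (al : ℕ → Prop) (a τ ρ ℓ : ℕ) : Prop :=
  ∀ s s', a ≤ s → s + ℓ ≤ s' → s' ≤ τ → al s' → ρ < nrm D (p s' - p s)

/-- `s0` is a cut time of the path `p`. -/
def IsCut {d : ℕ} (D : ℕ) (p : ℕ → Pt d) (al : ℕ → Prop) (a τ r1 m0 s0 : ℕ) : Prop :=
  ∀ s n r : ℕ, a ≤ s → s + n ≤ τ → al (s + n) → r1 ≤ r → r ^ 6 ≤ n → n < m0 → s0 ≤ s + 2 * n →
    s ≤ s0 + n → 4 * r < nrm D (p (s + n) - p s)

/-- Two alive times at lag at least `r ^ 6` lie within distance `r` of `u`. -/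
def Crowd {d : ℕ} (D : ℕ) (p : ℕ → Pt d) (al : ℕ → Prop) (a τ r1 ρt : ℕ) (u : Pt d) : Prop :=
  ∃ r s s' : ℕ, r1 ≤ r ∧ r ≤ ρt ∧ a ≤ s ∧ s + r ^ 6 ≤ s' ∧ s' ≤ τ ∧ al s ∧ al s' ∧
    nrm D (p s - u) ≤ r ∧ nrm D (p s' - u) ≤ r

/-- Number of visits of the path `p` to `x` during `[a, i]`. -/
def vis {d : ℕ} (p : ℕ → Pt d) (a i : ℕ) (x : Pt d) : ℕ := ((Icc a i).filter fun s => p s = x).card

/-- Sum over dead times of: local time at the next site minus the mean local time of the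
neighbours. -/
def drift {d : ℕ} (p : ℕ → Pt d) (al : ℕ → Prop) (a τ : ℕ) : ℝ :=
  ∑ i ∈ (Ico a τ).filter (fun i => ¬ al i),
    ((vis p a i (p (i + 1)) : ℝ) - (∑ s : St d, (vis p a i (p i + step s) : ℝ)) / (2 * d))

/-- The anticoncentration bound. -/
def acb (D y : ℕ) : ℝ := 1 / (y : ℝ) ^ D + D * Real.exp (-(y : ℝ) ^ 2)

/-- Largeness of the scale `r1`. -/
def R1 (D γ α κ r1 : ℕ) : Prop :=
  ∀ r : ℕ, r1 ≤ r → 100 ≤ r ∧ 2 * r + 48 * r * D ^ 2 * (4 * r + 1) ^ 2 * r ^ 2 ≤ r ^ 6 ∧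
    2 * r ^ (4 * κ) ≤ 2 ^ r ∧
    2 * ((r : ℝ) + 1) ^ 6 / (r : ℝ) ^ γ + acb D r ≤ 1 / (((r : ℝ) + 1) ^ 6) ^ (α + 1)

/-- Largeness of the dimension needed for the smoothing step. -/
def Dbig (d : ℕ) : Prop :=
  ∀ n : ℕ, d ≤ n → 100 ≤ n ∧ 2 * Real.exp (-(n : ℝ) / 1152) ≤ 1 / ((n ^ 6 : ℕ) : ℝ) ^ 11

/-- The scales of the induction step. -/
structure Par where
  z : ℕ
  ρ' : ℕ
  ρt : ℕ
  m0 : ℕ
  g : ℕ
  g2 : ℕ
  ρ0 : ℕ
  m : ℕ
  k : ℕ
  R : ℕ
  b : ℕ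
  ℓ : ℕ

/-- Bound for the number of alive-to-dead transitions. -/
def Par.K0 (q : Par) : ℕ := 2 * q.m + (2 * q.m + 1) * q.k

def Par.y0 (q : Par) : ℕ := 2 * q.K0 + 1

def Par.x0 (q : Par) : ℕ := 2 * q.y0 + 2 * q.z

/-- Bound for the sum of the escape probabilities over dead times. -/
def Par.S0 (q : Par) : ℕ := (2 * q.m + 1) * q.x0

/-- The inequalities between the scales. -/
structure Par.OK (q : Par) (D κ r1 γ L : ℕ) : Prop where
  z_pos : 1 ≤ q.z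
  ac1 : 48 * q.z * D ^ 2 * (4 * q.ρt + 1) ^ 2 * q.z ^ 2 ≤ q.m0
  ac2 : 48 * q.z * D ^ 2 * (q.ρ0 + 1) ^ 2 * q.z ^ 2 ≤ q.m
  ac3 : 48 * q.z * D ^ 2 * (2 * q.b ^ 2 + 1 + 1) ^ 2 * q.z ^ 2 ≤ q.ℓ
  ac4 : 2 * q.z + 48 * q.z * D ^ 2 * q.z ^ 2 ≤ q.ρ'
  r1_le : r1 ≤ q.ρ'
  ρt_ge : 2 * q.ρ' ^ 4 ≤ q.ρt
  g_ge : q.z * (2 * q.z + 4 * q.m0) ≤ q.g
  m0_le : q.m0 ≤ q.m
  z_le : 2 * q.z ≤ q.m
  g2_ge : 2 * (q.g + 3 * q.ρt + 1) ≤ q.g2
  ρ0_ge : 2 * q.g2 ^ 4 ≤ q.ρ0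
  g2_le : q.g2 ^ 8 ≤ q.m
  m_le : 2 * q.m + 2 ≤ L
  m0_lt : 2 * q.z + 4 * q.m0 + 1 ≤ L
  top : 20 * (q.S0 + q.m) ≤ q.ρ' ^ (κ - 1)
  R_ge : (q.K0 + 1 + 2 * q.S0) * q.g2 ^ κ ≤ q.R
  b_ge : 2 * q.R ^ 2 * (3 * q.m * q.R + 4 * q.b * q.z + 2 * q.K0) < q.b ^ 2
  z_le_b : q.z ≤ 2 * q.b
  two_pow : 3 * L + 1 ≤ 2 ^ q.ρ'
  tb : (2 * q.m + 1 : ℝ) * (2 / (q.z : ℝ) ^ γ) + (2 * q.m + 1) * (3 * L + 1) * acb D q.z ≤
    1 / (200 * q.g2)
  cut : (4 * q.m0 : ℝ) * (2 / (q.z : ℝ) ^ γ) ≤ 1 / 4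
  ℓ_le : (2 * q.b ^ 2 + 1) * q.ℓ ≤ L
  total : 2 * (3 * L + 1 : ℝ) ^ 3 * acb D q.z + (3 * L + 1 : ℝ) ^ 2 * acb D q.z +
    (2 * q.m + 1) * ((3 * L + 1) * ((q.m + 1) * (2 / (q.z : ℝ) ^ γ))) ^ q.k +
    (3 * L + 1) * Real.exp (-(q.z : ℝ) / 4) +
    2 * (3 * L + 1) ^ 2 * Real.exp (-(q.z : ℝ) ^ 2 / 4) +
    2 * ((2 * q.m + 1) * (2 ^ q.y0 * Real.exp (-(q.x0 : ℝ) / 2))) ≤ 1 / (L : ℝ) ^ γ

namespace Sys

variable {d : ℕ} (Y : Sys d)

instance : MeasurableSpace Y.E := ⊤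

instance : DiscreteMeasurableSpace Y.E := ⟨fun _ => trivial⟩

abbrev Ω := ℕ → Y.E

/-- Law of one letter. -/
def m1 : Measure Y.E := ∑ e, ENNReal.ofReal (Y.ν e) • Measure.dirac e

instance : IsProbabilityMeasure Y.m1 := ⟨by
  simp only [m1, Measure.finsetSum_apply, Measure.smul_apply, measure_univ, smul_eq_mul, mul_one]
  rw [← ENNReal.ofReal_sum_of_nonneg fun e _ => Y.ν_nonneg e, Y.ν_sum, ENNReal.ofReal_one]⟩

/-- Law of the noise: independent letters. -/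
def μ : Measure Y.Ω := Measure.infinitePi fun _ => Y.m1

instance : IsProbabilityMeasure Y.μ := by unfold μ; infer_instance

/-- Probability of an event. -/
def P (p : Y.Ω → Prop) : ℝ := Y.μ.real {ω | p ω}

/-- Expectation. -/
def Ex (f : Y.Ω → ℝ) : ℝ := ∫ ω, f ω ∂Y.μ

/-- The step chosen when no neighbour has been visited. -/
def first (e : Y.E) : St d := Y.stp e 0

/-- History (latest position first) after `k` steps of the fresh walk started at time `a`. -/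
def hist (ω : Y.Ω) (a : ℕ) : ℕ → List (Pt d)
  | 0 => [0]
  | k + 1 => ((hist ω a k).headD 0 + step (Y.stp (ω (a + k)) fun s =>
      (hist ω a k).count ((hist ω a k).headD 0 + step s))) :: hist ω a k

/-- Position at time `u` of the fresh walk started at `0` at time `a` (`0` for `u ≤ a`). -/
def pos (a u : ℕ) (ω : Y.Ω) : Pt d := (Y.hist ω a (u - a)).headD 0

/-- Local time: number of visits to `x` during `[a, u]`. -/
def loc (a u : ℕ) (ω : Y.Ω) (x : Pt d) : ℕ := vis (fun i => Y.pos a i ω) a u x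

/-- The step taken at time `u` by the fresh walk started at time `a`. -/
def xi (a u : ℕ) (ω : Y.Ω) : St d :=
  Y.stp (ω u) fun s => Y.loc a u ω (Y.pos a u ω + step s)

/-- Conditional probability of the step `s` at time `u`. -/
def tr (a u : ℕ) (ω : Y.Ω) (s : St d) : ℝ :=
  Y.w (Y.loc a u ω (Y.pos a u ω + step s)) / ∑ s', Y.w (Y.loc a u ω (Y.pos a u ω + step s'))

/-- The block-local step process: at time `i` the step of the walk started at the beginning of the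
previous block of length `l`. -/
def zeta (l i : ℕ) (ω : Y.Ω) : St d := Y.xi ((i / l - 1) * l) i ω

/-- Displacement of the block-local process during `[s, u)`. -/
def zd (l s u : ℕ) (ω : Y.Ω) : Pt d := dsp (fun i => Y.zeta l i ω) s u

/-- Probability that the fresh walk from `x` avoids `A` at times `1, …, h`. -/
def esc (A : Finset (Pt d)) (h : ℕ) (x : Pt d) : ℝ :=
  Y.P fun ω => ∀ i, 1 ≤ i → i ≤ h → x + Y.pos 0 i ω ∉ A

/-- Probability that the fresh walk from `x` is in `A` at some time in `[j, h]`. -/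
def hit (A : Finset (Pt d)) (j h : ℕ) (x : Pt d) : ℝ :=
  Y.P fun ω => ∃ i, j ≤ i ∧ i ≤ h ∧ x + Y.pos 0 i ω ∈ A

/-- Coalescence hypothesis at scale `L`. -/
def TT (γ L : ℕ) : Prop :=
  ∀ a a' : ℕ, a ≤ a' → a' ≤ a + L →
    Y.P (fun ω => ∃ u, a' + L ≤ u ∧ u < a' + 2 * L ∧ Y.xi a u ω ≠ Y.xi a' u ω) ≤ 1 / (L : ℝ) ^ γ

/-- Coalescence up to the horizon `n`. -/
def Phi (γ n : ℕ) : Prop :=
  ∀ a a' r : ℕ, a ≤ a' → 1 ≤ r →
    Y.P (fun ω => ∃ u, a' + r ≤ u ∧ u < a + n ∧ Y.xi a u ω ≠ Y.xi a' u ω) ≤ 2 / (r : ℝ) ^ γ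

/-- Heat kernel bound up to the horizon `n`. -/
def HK (α : ℕ) (η : ℝ) (n : ℕ) : Prop :=
  ∀ (a s r : ℕ) (y : Pt d), a ≤ s → 1 ≤ r → s + r ≤ a + n →
    Y.P (fun ω => Y.pos a (s + r) ω - Y.pos a s ω = y) ≤ η / (r : ℝ) ^ α

/-- If the letter at time `τ` proposes `σ`, the two block walks that see it follow the fresh walk
from time `τ + 1` during `2 l` steps. -/
def NoHit (l τ : ℕ) (σ : St d) (ω : Y.Ω) : Prop :=
  ∀ c, (c = τ - l ∨ c = τ) → ∀ s i, c ≤ s → s ≤ τ → τ + 1 ≤ i → i ≤ τ + 2 * l →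
    Y.pos c τ ω + step σ + Y.pos (τ + 1) i ω ≠ Y.pos c s ω

/-- The slot `τ` is active. -/
def act (l τ : ℕ) (F : Finset (St d)) (π : Equiv.Perm (St d)) (ω : Y.Ω) : Prop :=
  Y.first (ω τ) ∈ F ∧ Y.NoHit l τ (Y.first (ω τ)) ω ∧ Y.NoHit l τ (π (Y.first (ω τ))) ω

/-- Flip the letter at time `τ` if the slot is active. -/
def flipAt (l τ : ℕ) (F : Y.Ω → Finset (St d)) (π : Y.Ω → Equiv.Perm (St d)) (ω : Y.Ω) : Y.Ω :=
  if Y.act l τ (F ω) (π ω) ω then Function.update ω τ (Y.flip (π ω) (ω τ)) else ω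

/-- Data of a family of flips known at time `b`: a set of steps, an involution preserving it and
a sign that it reverses. -/
structure FlipData (b : ℕ) where
  F : Y.Ω → Finset (St d)
  π : Y.Ω → Equiv.Perm (St d)
  pl : Y.Ω → St d → Prop
  F_dep : DependsOn F (Set.Iio b)
  π_dep : DependsOn π (Set.Iio b)
  pl_dep : DependsOn pl (Set.Iio b)
  invol : ∀ ω, π ω * π ω = 1
  mem : ∀ ω, ∀ σ ∈ F ω, π ω σ ∈ F ω
  sign : ∀ ω, ∀ σ ∈ F ω, pl ω (π ω σ) ↔ ¬ pl ω σ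

/-- Active slots among `j0, …, j0 + M - 1`. -/
def actS (l : ℕ) {b : ℕ} (X : Y.FlipData b) (j0 M : ℕ) (ω : Y.Ω) : Finset ℕ :=
  (Ico j0 (j0 + M)).filter fun j => Y.act l (slot l b j) (X.F ω) (X.π ω) ω

/-- Active slots with positive sign. -/
def posS (l : ℕ) {b : ℕ} (X : Y.FlipData b) (j0 M : ℕ) (ω : Y.Ω) : Finset ℕ :=
  (Y.actS l X j0 M ω).filter fun j => X.pl ω (Y.first (ω (slot l b j)))

/-- The flip at slot `j`. -/
def flipS (l : ℕ) {b : ℕ} (X : Y.FlipData b) (j : ℕ) (ω : Y.Ω) : Y.Ω :=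
  Y.flipAt l (slot l b j) X.F X.π ω

/-- The walk from time `a`, placed at `y` at time `t`, avoids `A` during `(t, nH]`. -/
def Out (A : Finset (Pt d)) (nH : ℕ) (y : Pt d) (a t : ℕ) (ω : Y.Ω) : Prop :=
  ∀ i, t < i → i ≤ nH → y + (Y.pos a i ω - Y.pos a t ω) ∉ A

/-- Sum over `x ∈ A` of the probability that the future after time `w` avoids `A`. -/
def gg (A : Finset (Pt d)) (nH w : ℕ) : ℝ := ∑ x ∈ A, Y.P (Y.Out A nH x 0 w)

/-- Harnack-type estimate at scale `n`. -/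
def Beta (A : Finset (Pt d)) (nH u : ℕ) (G : ℝ) (n : ℕ) : Prop :=
  ∀ (B : Y.Ω → Prop) (v : Y.Ω → Pt d) (a : ℕ), a ≤ u + n → DependsOn B (Set.Iio (u + n)) →
    DependsOn v (Set.Iio (u + n)) → (∀ ω, IsSum n (v ω)) → Y.P B ≤ 1 / (n : ℝ) ^ 11 →
    ∑ x ∈ A, Y.P (fun ω => B ω ∧ Y.Out A nH (x + v ω) a (u + n) ω) ≤ G / (n : ℝ) ^ 3

/-- The walk from time `a` follows the block-local process on `[s1, t2)` and the walk from time
`c2` on `[t2, nH)`. -/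
def Str (l a s1 c2 t2 nH : ℕ) (ω : Y.Ω) : Prop :=
  (∀ i, s1 ≤ i → i < t2 → Y.xi a i ω = Y.zeta l i ω) ∧
    ∀ i, t2 ≤ i → i < nH → Y.xi a i ω = Y.xi c2 i ω

/-- No link of lag larger than `M` over the time `u` during `h` steps. -/
def NLL (a u M h : ℕ) (ω : Y.Ω) : Prop :=
  ∀ s i (σ : St d), a ≤ s → s < u → u ≤ i → i < u + h → s + M < i →
    Y.pos a i ω + step σ ≠ Y.pos a s ω

/-- Capacity estimate for every finite set. -/
def CapOK (n0 : ℕ) : Prop :=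
  ∀ (A : Finset (Pt d)) (j : ℕ), 10 ≤ j → j ^ 8 ≤ n0 →
    (∀ x ∈ A, Y.hit A (j + 1) (j ^ 8) x ≤ 1 / 2) →
    (A.card : ℝ) / (8 * (j + 1)) ≤ ∑ x ∈ A, Y.esc A j x

/-- Local capacity estimate. -/
def Cap2OK (D n0 : ℕ) : Prop :=
  ∀ (A : Finset (Pt d)) (u : Pt d) (r h : ℕ), 100 ≤ r → r ^ 8 ≤ n0 → r ^ 8 ≤ h →
    (∀ x, nrm D (x - u) ≤ r ^ 4 → Y.hit A r h x ≤ 1 / (100 * r)) →
    (ball D A u (r ^ 4)).card ≤ 2 ^ r * (ball D A u r).card →
    ((ball D A u r).card : ℝ) / (20 * r) ≤ ∑ x ∈ ball D A u (r ^ 4), Y.esc A h x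

/-- The walk from time `a` has followed the block-local process during the last `m` steps. -/
def alive (l m a u : ℕ) (ω : Y.Ω) : Prop :=
  a + m ≤ u ∧ ∀ i, u ≤ i + m → i < u → Y.xi a i ω = Y.zeta l i ω

/-- The fresh walk from time `t` follows the block-local process on `[t + m, t + 2 m]`. -/
def good (l m t : ℕ) (ω : Y.Ω) : Prop :=
  ∀ i, t + m ≤ i → i ≤ t + 2 * m → Y.xi t i ω = Y.zeta l i ω

/-- Bad times up to `n`. -/
def badT (l m n : ℕ) (ω : Y.Ω) : Finset ℕ := (range (n + 1)).filter fun t => ¬ Y.good l m t ω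

/-- Every walk that has followed the block-local process for `ℓ` steps is far from its sites at
lag at least `ℓ`. -/
def Far (D l ρ ℓ n : ℕ) (ω : Y.Ω) : Prop :=
  ∀ a u s, a ≤ s → s + ℓ ≤ u → u ≤ n → (∀ i, u ≤ i + ℓ → i < u → Y.xi a i ω = Y.zeta l i ω) →
    ρ < nrm D (Y.pos a u ω - Y.pos a s ω)

/-- The block-local process moves far at lags at least `ℓ`. -/
def Far3 (D l ρ ℓ n : ℕ) (ω : Y.Ω) : Prop :=
  ∀ s u, s + ℓ ≤ u → u ≤ n → ρ < nrm D (Y.zd l s u ω)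

/-- The time `b + 2 l + 2 m0` is a cut time of the block-local process. -/
def cutz (D l r1 m0 b : ℕ) (ω : Y.Ω) : Prop :=
  ∀ s n r : ℕ, r1 ≤ r → r ^ 6 ≤ n → n < m0 → b + 2 * l + 2 * m0 ≤ s + 2 * n →
    s ≤ b + 2 * l + 2 * m0 + n → 4 * r < nrm D (Y.zd l s (s + n) ω)

/-- Among `z` consecutive candidates there is a cut time. -/
def CutWin (D l r1 m0 z n : ℕ) (ω : Y.Ω) : Prop :=
  ∀ s, s ≤ n → ∃ j, j < z ∧ Y.cutz D l r1 m0 (s + j * (2 * l + 4 * m0)) ω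

/-- The fresh walk from time `t` avoids the earlier sites of the walk from time `a` during
`2 m + 1` steps. -/
def Succ (m a t : ℕ) (ω : Y.Ω) : Prop :=
  ∀ i s, 1 ≤ i → i ≤ 2 * m + 1 → a ≤ s → s < t →
    Y.pos a t ω + Y.pos t (t + i) ω ≠ Y.pos a s ω

/-- Escape probability at a dead time. -/
def qq (l m a t : ℕ) (ω : Y.Ω) : ℝ :=
  if Y.alive l m a t ω then 0
  else Y.esc ((Ico a t).image fun s => Y.pos a s ω) (2 * m + 1) (Y.pos a t ω)

/-- Successes at dead times in the class `c` modulo `2 m + 1`. -/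
def succT (l m a n c : ℕ) (ω : Y.Ω) : Finset ℕ :=
  (range (n + 1)).filter fun j => a + c + (2 * m + 1) * j ≤ n ∧
    ¬ Y.alive l m a (a + c + (2 * m + 1) * j) ω ∧ Y.Succ m a (a + c + (2 * m + 1) * j) ω

/-- Few successes imply a small sum of escape probabilities. -/
def WOK (l m a n x y : ℕ) (ω : Y.Ω) : Prop :=
  (∀ c, c < 2 * m + 1 → (Y.succT l m a n c ω).card ≤ y) →
    ∑ t ∈ Icc a n, Y.qq l m a t ω < ((2 * m + 1) * x : ℕ)

/-- The drift martingale over dead times is small. -/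
def MartOK (al : ℕ → Y.Ω → Prop) (a n b z : ℕ) (ω : Y.Ω) : Prop :=
  ∀ τ M0 : ℕ, a ≤ τ → τ ≤ n → 1 ≤ M0 → M0 ≤ n + 1 → (deadT (fun t => al t ω) a τ).card ≤ b ^ 2 →
    (∀ x, Y.loc a τ ω x ≤ M0) →
    drift (fun i => Y.pos a i ω) (fun t => al t ω) a τ ≤ (M0 : ℝ) * b * z

end Sys

end Pool.Agent.Lib.MP_aa337a_pr.HD
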