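import Pool.Agent.Lib.MP_aa337a_pr.HdLast
import Pool.Agent.Lib.MP_aa337a_pr.HdPhi

/-! The contribution of the failure of the structure event `Str`, bounded by the Harnack estimate at
larger scales. Let `t2 = u + n ^ 6`, `s1 = u + 3 n`, `c2 = t2 - n`. If `Str` fails then either
`F0`: `xi a0 ≠ zeta n` somewhere on `[s1, t2)`, of probability at most
`n ^ 6 * 2 / n ^ γ ≤ 1 / (n ^ 6) ^ 11` (`agr`), known at time `t2`: use `Beta (n ^ 6)`; or for some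
`i ∈ [t2, nH)` the event `F i`: `xi a0 i ≠ xi c2 i`, of probability at most `2 / ρ ^ γ` with
`ρ = i - c2 ≥ n` (`Phi.single`), known at time `i + 1 = u + m'`; since `m' ≤ 2 ρ ^ 6` one has
`2 / ρ ^ γ ≤ 1 / m' ^ 11`; use `Beta m'` with the offset `v + (pos a (u + m') - pos a t2)`
(`Out.later`, `IsSum.add`, `isSum_pos_sub`). Sum with `sum_inv_cube_le`. -/

set_option autoImplicit false

noncomputable section

namespace Pool.Agent.Lib.MP_aa337a_pr.HD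

open MeasureTheory Finset
open scoped Classical

theorem HdFail_num0 {γ n k : ℕ} (hγ : 73 ≤ γ) (hn : 100 ≤ n) (hk : k ≤ n ^ 6) :
    (k : ℝ) * (2 / (n : ℝ) ^ γ) ≤ 1 / ((n ^ 6 : ℕ) : ℝ) ^ 11 := by
  have h1 : k * 2 * (n ^ 6) ^ 11 ≤ n ^ γ := by
    calc k * 2 * (n ^ 6) ^ 11 ≤ n ^ 6 * n * (n ^ 6) ^ 11 :=
          Nat.mul_le_mul_right _ (Nat.mul_le_mul hk (by omega))
      _ = n ^ 73 := by ring
      _ ≤ n ^ γ := Nat.pow_le_pow_right (by omega) hγ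
  have hn0 : (0 : ℝ) < n := by exact_mod_cast (by omega : 0 < n)
  rw [← mul_div_assoc, div_le_div_iff₀ (by positivity) (by positivity), one_mul]
  exact_mod_cast h1

theorem HdFail_num1 {γ ρ m : ℕ} (hγ : 73 ≤ γ) (hρ : 100 ≤ ρ) (hm0 : 0 < m) (hm : m ≤ 2 * ρ ^ 6) :
    2 / (ρ : ℝ) ^ γ ≤ 1 / (m : ℝ) ^ 11 := by
  have h0 : 100 ^ 7 ≤ ρ ^ 7 := Nat.pow_le_pow_left hρ 7
  have h1 : 2 * m ^ 11 ≤ ρ ^ γ := by
    calc 2 * m ^ 11 ≤ 2 * (2 * ρ ^ 6) ^ 11 := Nat.mul_le_mul_left _ (Nat.pow_le_pow_left hm 11)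
      _ = 4096 * ρ ^ 66 := by ring
      _ ≤ ρ ^ 7 * ρ ^ 66 := Nat.mul_le_mul_right _ (le_trans (by norm_num) h0)
      _ = ρ ^ 73 := by ring
      _ ≤ ρ ^ γ := Nat.pow_le_pow_right (by omega) hγ
  have hρ0 : (0 : ℝ) < ρ := by exact_mod_cast (by omega : 0 < ρ)
  have hm1 : (0 : ℝ) < m := by exact_mod_cast hm0
  rw [div_le_div_iff₀ (by positivity) (by positivity), one_mul]
  exact_mod_cast h1

namespace Sys

variable {d : ℕ} (Y : Sys d)

theorem str_fail {γ n0 : ℕ} (hP : Y.Phi γ n0) (hγ : 73 ≤ γ) {A : Finset (Pt d)} {nH u n : ℕ}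
    {G : ℝ} (hG : 0 ≤ G) (hnH : nH ≤ n0) (hn : 100 ≤ n) (ht : u + n ^ 6 ≤ nH)
    (hB : ∀ m', n ^ 6 ≤ m' → Y.Beta A nH u G m') {a0 a : ℕ} (ha0 : a0 ≤ u + n)
    (ha : a ≤ u + n ^ 6) {v : Y.Ω → Pt d} (hv : DependsOn v (Set.Iio (u + n ^ 6)))
    (hs : ∀ ω, IsSum (n ^ 6) (v ω)) :
    ∑ x ∈ A, Y.P (fun ω => ¬ Y.Str n a0 (u + 3 * n) (u + n ^ 6 - n) (u + n ^ 6) nH ω ∧
      Y.Out A nH (x + v ω) a (u + n ^ 6) ω) ≤ 2 * G / (n : ℝ) ^ 12 := by
  have hN : 2 * n ≤ n ^ 6 := by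
    calc 2 * n ≤ n * n := Nat.mul_le_mul_right _ (by omega)
      _ = n ^ 2 := by ring
      _ ≤ n ^ 6 := Nat.pow_le_pow_right (by omega) (by norm_num)
  have hNρ : ∀ ρ, n ≤ ρ → n ^ 6 ≤ ρ ^ 6 ∧ ρ ≤ ρ ^ 6 := fun ρ h =>
    ⟨Nat.pow_le_pow_left h 6, Nat.le_self_pow (by norm_num) ρ⟩
  have e12 : (n : ℝ) ^ 12 = ((n ^ 6 : ℕ) : ℝ) ^ 2 := by
    push_cast
    ring
  have hA : ∀ k, k ≤ n ^ 6 → (k : ℝ) * (2 / (n : ℝ) ^ γ) ≤ 1 / ((n ^ 6 : ℕ) : ℝ) ^ 11 :=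
    fun k hk => HdFail_num0 hγ hn hk
  rw [e12]
  generalize n ^ 6 = N at *
  have h0 : ∑ x ∈ A, Y.P (fun ω =>
      (∃ i, u + 3 * n ≤ i ∧ i < u + N ∧ Y.xi a0 i ω ≠ Y.zeta n i ω) ∧
        Y.Out A nH (x + v ω) a (u + N) ω) ≤ G / (N : ℝ) ^ 3 := by
    refine hB N le_rfl _ v a ha ?_ hv hs ?_
    · intro ω ω' h
      obtain ⟨-, h2, h3⟩ := Y.agree_of_lt h
      refine propext (exists_congr fun i => and_congr_right fun _ => and_congr_right fun hi => ?_)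
      rw [h2 a0 i hi, h3 n i hi]
    · exact (Y.agr hP (by omega) (by omega) (by omega)).trans (hA _ (by omega))
  have h1 : ∀ i ∈ Ico (u + N) nH, ∑ x ∈ A, Y.P (fun ω =>
      Y.xi a0 i ω ≠ Y.xi (u + N - n) i ω ∧ Y.Out A nH (x + v ω) a (u + N) ω) ≤
        G * (1 / ((i + 1 - u : ℕ) : ℝ) ^ 3) := by
    intro i hi
    obtain ⟨hi1, hi2⟩ := mem_Ico.1 hi
    obtain ⟨m, hm⟩ : ∃ m, i + 1 = u + m := ⟨i + 1 - u, by omega⟩
    have em : i + 1 - u = m := by omega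
    rw [em, mul_one_div]
    refine le_trans (sum_le_sum fun x _ => Y.P_mono fun ω hω => ?_)
      (hB m (by omega) (fun ω => Y.xi a0 i ω ≠ Y.xi (u + N - n) i ω)
        (fun ω => v ω + (Y.pos a (u + m) ω - Y.pos a (u + N) ω)) a (by omega) ?_ ?_ ?_ ?_)
    · refine ⟨hω.1, ?_⟩
      rw [← add_assoc]
      exact hω.2.later (by omega)
    · intro ω ω' h
      obtain ⟨-, h2, -⟩ := Y.agree_of_lt h
      simp only [h2 _ i (by omega)]
    · intro ω ω' h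
      obtain ⟨h2, -, -⟩ := Y.agree_of_lt h
      have h3 : v ω = v ω' := hv fun j hj =>
        h j (lt_of_lt_of_le hj (by omega : u + N ≤ u + m))
      simp only [h2 _ (u + m) le_rfl, h2 _ (u + N) (by omega), h3]
    · intro ω
      have := (hs ω).add (Y.isSum_pos_sub ha (by omega : u + N ≤ u + m) ω)
      rwa [show N + (u + m - (u + N)) = m by omega] at this
    · obtain ⟨b1, b2⟩ := hNρ (i - (u + N - n)) (by omega)
      exact (hP.single (r := i - (u + N - n)) (by omega) (by omega) (by omega) (by omega)).trans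
        (HdFail_num1 hγ (by omega) (by omega) (by omega))
  have h2 : ∑ i ∈ Ico (u + N) nH, 1 / ((i + 1 - u : ℕ) : ℝ) ^ 3 ≤ 1 / (2 * (N : ℝ) ^ 2) := by
    have hinj : Set.InjOn (fun i => i + 1 - u) (Ico (u + N) nH : Finset ℕ) := by
      intro i hi j hj e
      have := (mem_Ico.1 hi).1
      have := (mem_Ico.1 hj).1
      simp only at e
      omega
    rw [← sum_image (f := fun l : ℕ => 1 / (l : ℝ) ^ 3) hinj]
    refine sum_inv_cube_le _ (by omega) fun l hl => ?_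
    obtain ⟨i, hi, rfl⟩ := mem_image.1 hl
    have := (mem_Ico.1 hi).1
    omega
  have hN1 : (1 : ℝ) ≤ N := by exact_mod_cast (by omega : 1 ≤ N)
  calc _ ≤ ∑ x ∈ A, (Y.P (fun ω =>
          (∃ i, u + 3 * n ≤ i ∧ i < u + N ∧ Y.xi a0 i ω ≠ Y.zeta n i ω) ∧
            Y.Out A nH (x + v ω) a (u + N) ω) +
          ∑ i ∈ Ico (u + N) nH, Y.P (fun ω =>
            Y.xi a0 i ω ≠ Y.xi (u + N - n) i ω ∧ Y.Out A nH (x + v ω) a (u + N) ω)) := by
        refine sum_le_sum fun x _ => le_trans (Y.P_le_add fun ω hω => ?_)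
          (add_le_add le_rfl (Y.P_exists _ _))
        obtain ⟨hS, hO⟩ := hω
        rw [Str, not_and_or] at hS
        rcases hS with hS | hS
        · push Not at hS
          exact Or.inl ⟨hS, hO⟩
        · push Not at hS
          obtain ⟨i, i1, i2, i3⟩ := hS
          exact Or.inr ⟨i, mem_Ico.2 ⟨i1, i2⟩, i3, hO⟩
    _ ≤ G / (N : ℝ) ^ 3 + G * (1 / (2 * (N : ℝ) ^ 2)) := by
        rw [sum_add_distrib, sum_comm]
        refine add_le_add h0 ((sum_le_sum h1).trans ?_)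
        rw [← mul_sum]
        exact mul_le_mul_of_nonneg_left h2 hG
    _ ≤ G / (N : ℝ) ^ 2 + G / (N : ℝ) ^ 2 := by
        refine add_le_add (div_le_div_of_nonneg_left hG (by positivity)
          (pow_le_pow_right₀ hN1 (by norm_num))) ?_
        rw [mul_one_div]
        refine div_le_div_of_nonneg_left hG (by positivity) ?_
        have : (0 : ℝ) ≤ (N : ℝ) ^ 2 := by positivity
        linarith
    _ = _ := by ring

/-- On `Str`, the future after `t2` is that of the walk from `c2`, placed by the block-local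
displacement (`pos_sub`, `dsp_add`, `dsp_congr`). -/
theorem out_iff_of_str {A : Finset (Pt d)} {l a s1 c2 t2 nH t : ℕ} {ω : Y.Ω}
    (h : Y.Str l a s1 c2 t2 nH ω) (ha : a ≤ t) (ht : t ≤ s1) (hs : s1 ≤ t2) (hc : c2 ≤ t2)
    (y : Pt d) :
    Y.Out A nH (y + (Y.pos a t2 ω - Y.pos a t ω)) a t2 ω ↔
      Y.Out A nH (y + (Y.pos a s1 ω - Y.pos a t ω) + Y.zd l s1 t2 ω) c2 t2 ω := by
  have e1 : Y.pos a t2 ω - Y.pos a s1 ω = Y.zd l s1 t2 ω := by
    rw [Y.pos_sub (ha.trans ht) hs]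
    exact dsp_congr h.1
  have e2 : y + (Y.pos a s1 ω - Y.pos a t ω) + Y.zd l s1 t2 ω =
      y + (Y.pos a t2 ω - Y.pos a t ω) := by
    rw [← e1]
    abel
  rw [e2]
  refine forall_congr' fun i => forall_congr' fun h1 => forall_congr' fun h2 => ?_
  have e3 : Y.pos a i ω - Y.pos a t2 ω = Y.pos c2 i ω - Y.pos c2 t2 ω := by
    rw [Y.pos_sub ((ha.trans ht).trans hs) h1.le, Y.pos_sub hc h1.le]
    exact dsp_congr fun j j1 j2 => h.2 j j1 (lt_of_lt_of_le j2 h2)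
  rw [e3]

end Sys

end Pool.Agent.Lib.MP_aa337a_pr.HD
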