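import Pool.Agent.Lib.MP_aa337a_pr.HdWalk
import Pool.Agent.Lib.MP_aa337a_pr.HdMix

/-! One-step conditioning. -/

set_option autoImplicit false

noncomputable section

namespace Pool.Agent.Lib.MP_aa337a_pr.HD

open MeasureTheory Finset
open scoped Classical

namespace Sys

variable {d : ℕ} (Y : Sys d)

theorem tr_nonneg (a u : ℕ) (ω : Y.Ω) (s : St d) : 0 ≤ Y.tr a u ω s := by
  exact div_nonneg (Y.w_pos _).le (sum_nonneg fun _ _ => (Y.w_pos _).le)

theorem HdStep_sum_pos (V : St d → ℕ) : 0 < ∑ s, Y.w (V s) := by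
  have : Nonempty (St d) := ⟨(⟨0, Y.d_pos⟩, true)⟩
  exact sum_pos (fun _ _ => Y.w_pos _) univ_nonempty

theorem HdStep_law (V : St d → ℕ) (f : St d → ℝ) :
    ∑ e, Y.ν e * f (Y.stp e V) = ∑ s, Y.w (V s) / (∑ s', Y.w (V s')) * f s := by
  simp only [← Y.law V, sum_mul]
  rw [sum_comm]
  refine sum_congr rfl fun e _ => ?_
  rw [sum_eq_single (Y.stp e V)]
  · rw [if_pos rfl]
  · intro s _ hs
    rw [if_neg (Ne.symm hs), zero_mul]
  · intro h
    exact absurd (mem_univ _) h

theorem sum_tr (a u : ℕ) (ω : Y.Ω) : ∑ s, Y.tr a u ω s = 1 := by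
  unfold tr
  rw [← sum_div]
  exact div_self (Y.HdStep_sum_pos _).ne'

/-- `pos a u` and `loc a u` do not depend on the letter at time `u`; then use `Sys.law`. -/
theorem sum_update_step (a u : ℕ) (ω : Y.Ω) (f : St d → ℝ) :
    ∑ e, Y.ν e * f (Y.xi a u (Function.update ω u e)) = ∑ s, Y.tr a u ω s * f s := by
  have hu : u ∉ Set.Ico a u := fun h => lt_irrefl u h.2
  have h1 : ∀ e, Y.xi a u (Function.update ω u e) =
      Y.stp e fun s => Y.loc a u ω (Y.pos a u ω + step s) := by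
    intro e
    unfold xi
    rw [dep_update (Y.loc_dep a u) hu, dep_update (Y.pos_dep a u) hu, Function.update_self]
  simp only [h1]
  exact Y.HdStep_law _ f

theorem Ex_step (a u : ℕ) {F : Y.Ω → St d → ℝ} (hF : DependsOn F (Set.Iio u)) :
    Y.Ex (fun ω => F ω (Y.xi a u ω)) = Y.Ex fun ω => ∑ s, Y.tr a u ω s * F ω s := by
  have hl : Loc F := ⟨u, hF⟩
  rw [Y.Ex_update u (hl.apply (Y.loc_xi a u))]
  refine Y.Ex_congr fun ω => ?_
  rw [← Y.sum_update_step a u ω (F ω)]
  refine sum_congr rfl fun e _ => ?_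
  rw [dep_update hF (fun h => lt_irrefl u h)]

theorem sum_first (f : St d → ℝ) : ∑ e, Y.ν e * f (Y.first e) = (∑ s, f s) / (2 * d) := by
  unfold first
  rw [Y.HdStep_law 0 f, sum_div]
  refine sum_congr rfl fun s _ => ?_
  simp only [Pi.zero_apply, Y.w_zero, sum_const, card_univ, card_St, nsmul_eq_mul, mul_one]
  push_cast
  ring

theorem P_first (t : ℕ) (s : St d) : Y.P (fun ω => Y.first (ω t) = s) = 1 / (2 * d) := by
  have hl : Loc fun ω : Y.Ω => Y.first (ω t) = s := (Loc.eval t).comp fun e => Y.first e = s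
  rw [← Y.Ex_ind hl, Y.Ex_update t hl.ind]
  simp only [Function.update_self]
  rw [Y.Ex_const, Y.sum_first fun σ => ind (σ = s), sum_eq_single s]
  · rw [ind_of_true rfl]
  · intro σ _ hσ
    exact ind_of_false hσ
  · intro h
    exact absurd (mem_univ _) h

/-- At least `d` neighbours have weight `w 0 = 1`, and `w ≤ 1`. -/
theorem tr_le {a u : ℕ} {ω : Y.Ω}
    (h : (univ.filter fun σ : St d => Y.loc a u ω (Y.pos a u ω + step σ) ≠ 0).card ≤ d)
    (s : St d) : Y.tr a u ω s ≤ 1 / d := by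
  have hd : (0 : ℝ) < d := by exact_mod_cast Y.d_pos
  have h1 := card_filter_add_card_filter_not (s := (univ : Finset (St d)))
    (fun σ : St d => Y.loc a u ω (Y.pos a u ω + step σ) ≠ 0)
  rw [card_univ, card_St] at h1
  have h2 : (d : ℝ) ≤ ∑ σ : St d, Y.w (Y.loc a u ω (Y.pos a u ω + step σ)) := by
    refine le_trans ?_ (sum_le_sum_of_subset_of_nonneg
      (filter_subset (fun σ : St d => ¬ Y.loc a u ω (Y.pos a u ω + step σ) ≠ 0) univ)
      fun _ _ _ => (Y.w_pos _).le)
    rw [sum_congr rfl (g := fun _ => (1 : ℝ)) fun σ hσ => by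
      rw [not_not.1 (mem_filter.1 hσ).2, Y.w_zero], sum_const, nsmul_eq_mul, mul_one]
    exact Nat.cast_le.2 (by omega)
  unfold tr
  exact div_le_div₀ zero_le_one ((Y.w_anti (Nat.zero_le _)).trans Y.w_zero.le) hd h2

/-- Chebyshev sum inequality (`Antivary.card_mul_sum_le_sum_mul_sum` or a double sum). -/
theorem tr_cheb (a u : ℕ) (ω : Y.Ω) :
    ∑ s, Y.tr a u ω s * (Y.loc a u ω (Y.pos a u ω + step s) : ℝ) ≤
      (∑ s : St d, (Y.loc a u ω (Y.pos a u ω + step s) : ℝ)) / (2 * d) := by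
  have hd : (0 : ℝ) < 2 * d := by
    have : (0 : ℝ) < d := by exact_mod_cast Y.d_pos
    positivity
  have h1 : Antivary (fun s => Y.tr a u ω s)
      fun s : St d => (Y.loc a u ω (Y.pos a u ω + step s) : ℝ) := by
    intro s s' h
    have h' : Y.loc a u ω (Y.pos a u ω + step s) < Y.loc a u ω (Y.pos a u ω + step s') :=
      Nat.cast_lt.1 h
    exact div_le_div_of_nonneg_right (Y.w_anti h'.le) (Y.HdStep_sum_pos _).le
  have h2 := h1.card_mul_sum_le_sum_mul_sum
  rw [Y.sum_tr, one_mul, card_St] at h2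
  rw [le_div_iff₀ hd, mul_comm]
  push_cast at h2
  exact h2

/-- At most one step leads to the target (`step_injective`); use `Ex_step` and `tr_le`. -/
theorem last_step {a u : ℕ} (hau : a ≤ u) {W : Y.Ω → Pt d} (hW : DependsOn W (Set.Iio u)) :
    Y.P (fun ω => Y.pos a (u + 1) ω = W ω ∧
      (univ.filter fun σ : St d => Y.loc a u ω (Y.pos a u ω + step σ) ≠ 0).card ≤ d) ≤ 1 / d := by
  let F : Y.Ω → St d → ℝ := fun ω s => ind (Y.pos a u ω + step s = W ω ∧
    (univ.filter fun σ : St d => Y.loc a u ω (Y.pos a u ω + step σ) ≠ 0).card ≤ d)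
  have hF : DependsOn F (Set.Iio u) := by
    intro ω ω' h
    have e1 : Y.pos a u ω = Y.pos a u ω' := Y.pos_dep' a le_rfl h
    have e2 : Y.loc a u ω = Y.loc a u ω' := Y.loc_dep a u fun i hi => h i hi.2
    simp only [F, e1, e2, hW h]
  have hl : Loc F := ⟨u, hF⟩
  have hp : Loc fun ω => Y.pos a (u + 1) ω = W ω ∧
      (univ.filter fun σ : St d => Y.loc a u ω (Y.pos a u ω + step σ) ≠ 0).card ≤ d := by
    refine ⟨u + 1, fun ω ω' h => ?_⟩
    have h' : ∀ i ∈ Set.Iio u, ω i = ω' i := fun i hi => h i (Nat.lt_succ_of_lt hi)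
    have e0 : Y.pos a (u + 1) ω = Y.pos a (u + 1) ω' := Y.pos_dep' a le_rfl h
    have e1 : Y.pos a u ω = Y.pos a u ω' := Y.pos_dep' a le_rfl h'
    have e2 : Y.loc a u ω = Y.loc a u ω' := Y.loc_dep a u fun i hi => h' i hi.2
    simp only [e0, e1, e2, hW h']
  rw [← Y.Ex_ind hp, Y.Ex_congr (g := fun ω => F ω (Y.xi a u ω))
    fun ω => by simp only [F, Y.pos_succ hau], Y.Ex_step a u hF]
  refine Y.Ex_le_const ((Y.loc_tr a u).comp₂ hl fun t f => ∑ s, t s * f s) fun ω => ?_
  by_cases h : ∃ s, Y.pos a u ω + step s = W ω ∧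
      (univ.filter fun σ : St d => Y.loc a u ω (Y.pos a u ω + step σ) ≠ 0).card ≤ d
  · obtain ⟨s, hs⟩ := h
    rw [sum_eq_single s]
    · rw [show F ω s = 1 from ind_of_true hs, mul_one]
      exact Y.tr_le hs.2 s
    · intro s' _ hs'
      rw [show F ω s' = 0 from ind_of_false fun h' =>
        hs' (step_injective (add_left_cancel (h'.1.trans hs.1.symm))), mul_zero]
    · intro h
      exact absurd (mem_univ _) h
  · rw [sum_eq_zero fun s _ => by
      rw [show F ω s = 0 from ind_of_false fun h' => h ⟨s, h'⟩, mul_zero]]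
    positivity

/-- If more than `k` neighbours have been visited, one of them was visited at lag more than `k`
(distinct neighbours are visited at distinct times in `[a, u)`). -/
theorem exists_lag_of_crowded {a u k : ℕ} {ω : Y.Ω}
    (h : k < (univ.filter fun σ : St d => Y.loc a u ω (Y.pos a u ω + step σ) ≠ 0).card) :
    ∃ s, ∃ σ : St d, a ≤ s ∧ s + k < u ∧ Y.pos a u ω + step σ = Y.pos a s ω := by
  by_contra hc
  push Not at hc
  have h1 : ∀ σ : St d, ∃ s, Y.loc a u ω (Y.pos a u ω + step σ) ≠ 0 →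
      s ∈ Ico (u - k) u ∧ Y.pos a s ω = Y.pos a u ω + step σ := by
    intro σ
    by_cases h0 : Y.loc a u ω (Y.pos a u ω + step σ) ≠ 0
    · obtain ⟨s, h1, h2, h3⟩ := Y.loc_ne_zero_iff.1 h0
      refine ⟨s, fun _ => ⟨mem_Ico.2 ⟨?_, lt_of_le_of_ne h2 ?_⟩, h3⟩⟩
      · by_contra h4
        exact hc s σ h1 (by omega) h3.symm
      · rintro rfl
        exact step_ne_zero σ (left_eq_add.1 h3)
    · exact ⟨0, fun h => absurd h h0⟩
  choose g hg using h1
  have h2 := card_le_card_of_injOn (s := univ.filter fun σ : St d =>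
      Y.loc a u ω (Y.pos a u ω + step σ) ≠ 0) (t := Ico (u - k) u) g
    (fun σ hσ => (hg σ (mem_filter.1 hσ).2).1) (fun σ hσ σ' hσ' e => by
      have e1 := (hg σ (mem_filter.1 hσ).2).2
      have e2 := (hg σ' (mem_filter.1 hσ').2).2
      rw [e] at e1
      exact step_injective (add_left_cancel (e1.symm.trans e2)))
  rw [Nat.card_Ico] at h2
  omega

end Sys

end Pool.Agent.Lib.MP_aa337a_pr.HD
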