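import Pool.Agent.Lib.MP_aa337a_pr.HdHit
import Pool.Agent.Lib.MP_aa337a_pr.HdStep

/-! Flipping one letter at an active slot changes exactly one step of the block-local process. -/

set_option autoImplicit false

noncomputable section

namespace Pool.Agent.Lib.MP_aa337a_pr.HD

open MeasureTheory Finset
open scoped Classical

theorem slot_ge {l : ℕ} (hl : 1 ≤ l) (b j : ℕ) : b + l ≤ slot l b j := by
  have h1 : b < b / l * l + l := Nat.lt_div_mul_add hl
  have h2 : slot l b j = b / l * l + 2 * l + 3 * j * l := by unfold slot; ring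
  omega

theorem slot_le (l b j : ℕ) : slot l b j ≤ b + 2 * l + 3 * j * l := by
  have h1 := Nat.div_mul_le_self b l
  have h2 : slot l b j = b / l * l + 2 * l + 3 * j * l := by unfold slot; ring
  omega

theorem slot_succ (l b j : ℕ) : slot l b (j + 1) = slot l b j + 3 * l := by
  unfold slot; ring

theorem slot_sep (l b : ℕ) {j j' : ℕ} (h : j < j') : slot l b j + 3 * l ≤ slot l b j' := by
  rw [← slot_succ]
  exact Nat.mul_le_mul_right _ (by omega)

namespace Sys

variable {d : ℕ} (Y : Sys d)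

theorem noHit_dep (l τ : ℕ) (σ : St d) :
    DependsOn (Y.NoHit l τ σ) {i | τ - l ≤ i ∧ i < τ + 2 * l ∧ i ≠ τ} := by
  intro ω ω' h
  have key : ∀ a u, τ - l ≤ a → u ≤ τ + 2 * l → (u ≤ τ ∨ τ < a) → Y.pos a u ω = Y.pos a u ω' :=
    fun a u h1 h2 h3 => Y.pos_dep a u fun i hi => h i (by
      obtain ⟨a1, a2⟩ := hi
      refine ⟨?_, ?_, ?_⟩ <;> omega)
  refine propext (forall_congr' fun c => forall_congr' fun hc => forall_congr' fun s =>
    forall_congr' fun i => forall_congr' fun h1 => forall_congr' fun h2 => forall_congr' fun h3 =>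
    forall_congr' fun h4 => ?_)
  rw [key c τ (by omega) (by omega) (by omega), key (τ + 1) i (by omega) h4 (by omega),
    key c s (by omega) (by omega) (by omega)]

theorem act_dep {l : ℕ} (hl : 1 ≤ l) (τ : ℕ) (F : Finset (St d)) (π : Equiv.Perm (St d)) :
    DependsOn (Y.act l τ F π) (Set.Ico (τ - l) (τ + 2 * l)) := by
  intro ω ω' h
  have h1 : ω τ = ω' τ := h τ ⟨by omega, by omega⟩
  have h2 : ∀ σ, Y.NoHit l τ σ ω = Y.NoHit l τ σ ω' := fun σ =>
    Y.noHit_dep l τ σ fun i hi => h i ⟨hi.1, hi.2.1⟩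
  simp only [act, h1, h2]

/-- For `c = τ - l` and `c = τ`: `xi_eq_first` (take `i = τ + 1` in `NoHit`), then `pos_succ` and
`dom` with `t = τ + 1`, `n = 2 l - 1`. The block start of `i` is `τ - l` for `i < τ + l` and `τ` for
`τ + l ≤ i < τ + 2 l`. -/
theorem zeta_of_noHit {l q : ℕ} (hl : 1 ≤ l) (hq : 1 ≤ q) {ω : Y.Ω}
    (h : Y.NoHit l (q * l) (Y.first (ω (q * l))) ω) :
    Y.zeta l (q * l) ω = Y.first (ω (q * l)) ∧
      ∀ i, q * l < i → i < q * l + 2 * l → Y.zeta l i ω = Y.xi (q * l + 1) i ω := by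
  have key : ∀ c, (c = q * l - l ∨ c = q * l) → Y.xi c (q * l) ω = Y.first (ω (q * l)) ∧
      ∀ i, q * l < i → i < q * l + 2 * l → Y.xi c i ω = Y.xi (q * l + 1) i ω := by
    intro c hc
    have h1 : Y.xi c (q * l) ω = Y.first (ω (q * l)) := by
      refine Y.xi_eq_first ?_
      by_contra hne
      obtain ⟨s, s1, s2, s3⟩ := Y.loc_ne_zero_iff.1 hne
      refine h c hc s (q * l + 1) s1 s2 le_rfl (by omega) ?_
      rw [Y.pos_self, add_zero, s3]
    refine ⟨h1, fun i i1 i2 => Y.dom (n := 2 * l - 1) (by omega) (fun i s a1 a2 a3 a4 => ?_) i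
      (by omega) (by omega)⟩
    rw [Y.pos_succ (by omega), h1]
    exact h c hc s i a3 (by omega) (by omega) (by omega)
  have e1 : ∀ i, q * l ≤ i → i < q * l + l → (i / l - 1) * l = q * l - l := fun i i1 i2 => by
    rw [Nat.div_eq_of_lt_le i1 (by rw [add_mul, one_mul]; exact i2), Nat.sub_mul, one_mul]
  have _ := hq
  refine ⟨?_, fun i i1 i2 => ?_⟩
  · unfold zeta
    rw [e1 _ le_rfl (by omega)]
    exact (key _ (Or.inl rfl)).1
  · unfold zeta
    by_cases h2 : i < q * l + l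
    · rw [e1 i i1.le h2]
      exact (key _ (Or.inl rfl)).2 i i1 i2
    · have e2 : i / l = q + 1 := Nat.div_eq_of_lt_le (by rw [add_mul]; omega)
        (by rw [add_mul, add_mul]; omega)
      rw [e2, Nat.add_sub_cancel]
      exact (key _ (Or.inr rfl)).2 i i1 i2

/-- Outside `[τ, τ + 2 l)` the process `zeta` does not depend on the letter at `τ` (`zeta_dep`);
inside use `zeta_of_noHit` for both noises, `noHit_dep` and `xi_dep`. -/
theorem zeta_update {l q : ℕ} (hl : 1 ≤ l) (hq : 1 ≤ q) {ω : Y.Ω} (e : Y.E)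
    (h : Y.NoHit l (q * l) (Y.first (ω (q * l))) ω) (h' : Y.NoHit l (q * l) (Y.first e) ω) :
    (∀ i, i ≠ q * l → Y.zeta l i (Function.update ω (q * l) e) = Y.zeta l i ω) ∧
      Y.zeta l (q * l) (Function.update ω (q * l) e) = Y.first e := by
  have h1 : Y.NoHit l (q * l) (Y.first (Function.update ω (q * l) e (q * l)))
      (Function.update ω (q * l) e) := by
    rw [Function.update_self, dep_update (Y.noHit_dep l (q * l) _) (fun hh => hh.2.2 rfl)]
    exact h'
  obtain ⟨a1, a2⟩ := Y.zeta_of_noHit hl hq h1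
  obtain ⟨-, a3⟩ := Y.zeta_of_noHit hl hq h
  refine ⟨fun i hi => ?_, by rw [a1, Function.update_self]⟩
  by_cases b1 : i < q * l
  · exact dep_update (Y.zeta_dep l i) (fun hh => by have := hh.2; omega) ω e
  by_cases b2 : i < q * l + 2 * l
  · rw [a2 i (by omega) b2, a3 i (by omega) b2]
    exact dep_update (Y.xi_dep (by omega)) (fun hh => by have := hh.1; omega) ω e
  · exact dep_update (Y.zeta_dep' (t := q * l + 1) hl (by omega))
      (fun hh => by have := hh.1; omega) ω e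

/-- `ind (act ω) = ∑ σ ∈ F, ind (first (ω τ) = σ) * ind (NoHit σ ∧ NoHit (π σ))`; the two factors
are independent (`noHit_dep`), `P_first`, `P_not_noHit`. -/
theorem P_act {α n : ℕ} {η : ℝ} (H : Y.HK α η n) (hα : 3 ≤ α) (hη : 0 ≤ η) (hη1 : η ≤ 1 / 48)
    {l : ℕ} (hl : 1 ≤ l) (hn : 2 * l ≤ n) (τ : ℕ) (F : Finset (St d)) (π : Equiv.Perm (St d)) :
    (F.card : ℝ) / (4 * d) ≤ Y.P (Y.act l τ F π) := by
  have hd : (0 : ℝ) < d := by exact_mod_cast Y.d_pos
  have l1 : ∀ σ, Loc (Y.NoHit l τ σ) := fun σ =>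
    Loc.of_dep (Y.noHit_dep l τ σ) fun _ hi => hi.2.1
  have l2 : ∀ σ, Loc fun ω : Y.Ω => Y.first (ω τ) = σ := fun σ =>
    (Loc.eval τ).comp fun e => Y.first e = σ
  have l3 : Loc (Y.act l τ F π) := Loc.of_dep (Y.act_dep hl τ F π) fun _ hi => hi.2
  have h1 : ∀ σ, 1 / (4 * (d : ℝ)) ≤ Y.P fun ω => Y.first (ω τ) = σ ∧
      (Y.NoHit l τ σ ω ∧ Y.NoHit l τ (π σ) ω) := by
    intro σ
    rw [Y.P_and_indep {τ} (l2 σ) ((l1 σ).and (l1 (π σ)))
      (dep_comp (dep_eval (Set.mem_singleton τ)) fun e => Y.first e = σ)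
      (dep_comp₂ ((Y.noHit_dep l τ σ).mono fun _ hi => hi.2.2)
        ((Y.noHit_dep l τ (π σ)).mono fun _ hi => hi.2.2) And), Y.P_first]
    have a1 := Y.P_le_add (p := fun _ => True)
      (q := fun ω => Y.NoHit l τ σ ω ∧ Y.NoHit l τ (π σ) ω)
      (r := fun ω => ¬ Y.NoHit l τ σ ω ∨ ¬ Y.NoHit l τ (π σ) ω) fun ω _ => by tauto
    have a2 := Y.P_or (fun ω => ¬ Y.NoHit l τ σ ω) (fun ω => ¬ Y.NoHit l τ (π σ) ω)
    have a3 := Y.P_not_noHit H hα hη (τ := τ) hl hn σ
    have a4 := Y.P_not_noHit H hα hη (τ := τ) hl hn (π σ)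
    rw [Y.P_true] at a1
    calc 1 / (4 * (d : ℝ)) = 1 / (2 * d) * (1 / 2) := by field_simp; norm_num
      _ ≤ _ := mul_le_mul_of_nonneg_left (by linarith) (by positivity)
  calc (F.card : ℝ) / (4 * d) = ∑ _σ ∈ F, 1 / (4 * (d : ℝ)) := by
        rw [sum_const, nsmul_eq_mul, mul_one_div]
    _ ≤ ∑ σ ∈ F, Y.P fun ω => Y.first (ω τ) = σ ∧ (Y.NoHit l τ σ ω ∧ Y.NoHit l τ (π σ) ω) :=
        sum_le_sum fun σ _ => h1 σ
    _ ≤ _ := by
        rw [Y.sum_P_eq F fun σ _ => (l2 σ).and ((l1 σ).and (l1 (π σ))), ← Y.Ex_ind l3]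
        refine Y.Ex_mono (Loc.sum F fun σ _ => ((l2 σ).and ((l1 σ).and (l1 (π σ)))).ind) l3.ind
          fun ω => ?_
        by_cases hF : Y.first (ω τ) ∈ F
        · rw [sum_eq_single_of_mem _ hF fun σ _ hσ => ind_of_false fun hh => hσ hh.1.symm]
          exact ind_mono fun hh => ⟨hF, hh.2⟩
        · rw [sum_eq_zero fun σ hσ => ind_of_false fun hh => hF (by
            rw [hh.1]
            exact hσ)]
          exact ind_nonneg _

variable {l b : ℕ}

theorem flipS_ne (X : Y.FlipData b) (j : ℕ) (ω : Y.Ω) {t : ℕ} (ht : t ≠ slot l b j) :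
    Y.flipS l X j ω t = ω t := by
  unfold flipS flipAt
  split_ifs
  · exact Function.update_of_ne ht _ _
  · rfl

theorem flipS_dep (X : Y.FlipData b) (j : ℕ) {α : Type*} {f : Y.Ω → α} {I : Set ℕ}
    (hf : DependsOn f I) (h : slot l b j ∉ I) (ω : Y.Ω) : f (Y.flipS l X j ω) = f ω :=
  hf fun _ hi => Y.flipS_ne X j ω fun hh => h (hh ▸ hi)

theorem actX_dep (hl : 1 ≤ l) (X : Y.FlipData b) (j : ℕ) :
    DependsOn (fun ω => Y.act l (slot l b j) (X.F ω) (X.π ω) ω)
      {i | i < b ∨ (slot l b j - l ≤ i ∧ i < slot l b j + 2 * l)} := by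
  intro ω ω' h
  have h1 : X.F ω = X.F ω' := X.F_dep fun i hi => h i (Or.inl hi)
  have h2 : X.π ω = X.π ω' := X.π_dep fun i hi => h i (Or.inl hi)
  simp only [h1, h2]
  exact Y.act_dep hl _ _ _ fun i hi => h i (Or.inr hi)

theorem act_flipS_ne (hl : 1 ≤ l) (X X' : Y.FlipData b) {j j' : ℕ} (h : j ≠ j') (ω : Y.Ω) :
    Y.act l (slot l b j') (X'.F (Y.flipS l X j ω)) (X'.π (Y.flipS l X j ω)) (Y.flipS l X j ω) ↔
      Y.act l (slot l b j') (X'.F ω) (X'.π ω) ω := by
  refine (Y.flipS_dep X j (Y.actX_dep hl X' j') ?_ ω).to_iff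
  have h1 := slot_ge hl b j
  rintro (h2 | ⟨h2, h3⟩)
  · omega
  · rcases lt_or_gt_of_ne h with h4 | h4
    · have := slot_sep l b h4
      omega
    · have := slot_sep l b h4
      omega

theorem HdFlip_pos (X : Y.FlipData b) (j : ℕ) {ω : Y.Ω}
    (h : Y.act l (slot l b j) (X.F ω) (X.π ω) ω) :
    Y.flipS l X j ω = Function.update ω (slot l b j) (Y.flip (X.π ω) (ω (slot l b j))) :=
  if_pos h

theorem HdFlip_neg (X : Y.FlipData b) (j : ℕ) {ω : Y.Ω}
    (h : ¬ Y.act l (slot l b j) (X.F ω) (X.π ω) ω) : Y.flipS l X j ω = ω :=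
  if_neg h

theorem HdFlip_not_mem (hl : 1 ≤ l) (b j : ℕ) : slot l b j ∉ Set.Iio b := fun h => by
  have h1 := slot_ge hl b j
  have h2 : slot l b j < b := h
  omega

theorem first_flipS_self (X : Y.FlipData b) (j : ℕ) {ω : Y.Ω}
    (h : Y.act l (slot l b j) (X.F ω) (X.π ω) ω) :
    Y.first (Y.flipS l X j ω (slot l b j)) = X.π ω (Y.first (ω (slot l b j))) := by
  rw [Y.HdFlip_pos X j h, Function.update_self]
  exact Y.flip_first _ _

theorem act_flipS_self (hl : 1 ≤ l) (X : Y.FlipData b) (j : ℕ) (ω : Y.Ω) :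
    Y.act l (slot l b j) (X.F (Y.flipS l X j ω)) (X.π (Y.flipS l X j ω)) (Y.flipS l X j ω) ↔
      Y.act l (slot l b j) (X.F ω) (X.π ω) ω := by
  by_cases h : Y.act l (slot l b j) (X.F ω) (X.π ω) ω
  · refine iff_of_true ?_ h
    have h1 : ∀ σ, Y.NoHit l (slot l b j) σ (Y.flipS l X j ω) = Y.NoHit l (slot l b j) σ ω :=
      fun σ => Y.flipS_dep X j (Y.noHit_dep l _ σ) (fun hh => hh.2.2 rfl) ω
    have h2 : X.π ω (X.π ω (Y.first (ω (slot l b j)))) = Y.first (ω (slot l b j)) := by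
      rw [← Equiv.Perm.mul_apply, X.invol, Equiv.Perm.one_apply]
    rw [Y.flipS_dep X j X.F_dep (HdFlip_not_mem hl b j) ω,
      Y.flipS_dep X j X.π_dep (HdFlip_not_mem hl b j) ω]
    unfold act
    rw [Y.first_flipS_self X j h, h1, h1, h2]
    exact ⟨X.mem ω _ h.1, h.2.2, h.2.1⟩
  · rw [Y.HdFlip_neg X j h]

theorem HdFlip_invol (hl : 1 ≤ l) (X : Y.FlipData b) (j : ℕ) (ω : Y.Ω) :
    Y.flipS l X j (Y.flipS l X j ω) = ω := by
  by_cases h : Y.act l (slot l b j) (X.F ω) (X.π ω) ω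
  · rw [Y.HdFlip_pos X j ((Y.act_flipS_self hl X j ω).2 h),
      Y.flipS_dep X j X.π_dep (HdFlip_not_mem hl b j) ω, Y.HdFlip_pos X j h,
      Function.update_self, Function.update_idem, Y.flip_flip _ _ (X.invol ω),
      Function.update_eq_self]
  · rw [Y.HdFlip_neg X j h, Y.HdFlip_neg X j h]

theorem HdFlip_nu (X : Y.FlipData b) (j : ℕ) (ω : Y.Ω) :
    Y.ν (Y.flipS l X j ω (slot l b j)) = Y.ν (ω (slot l b j)) := by
  by_cases h : Y.act l (slot l b j) (X.F ω) (X.π ω) ω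
  · rw [Y.HdFlip_pos X j h, Function.update_self, Y.flip_ν]
  · rw [Y.HdFlip_neg X j h]

theorem HdFlip_loc (hl : 1 ≤ l) (X : Y.FlipData b) (j : ℕ) {f : Y.Ω → ℝ} (hf : Loc f) :
    Loc fun ω => f (Y.flipS l X j ω) := by
  obtain ⟨n, hn⟩ := hf
  have h0 := slot_ge hl b j
  refine ⟨n + slot l b j + 2 * l, fun ω ω' h => hn fun i hi => ?_⟩
  have h' : ∀ i, i < n + slot l b j + 2 * l → ω i = ω' i := h
  have hi' : i < n := hi
  by_cases h1 : i = slot l b j
  · have h2 := Y.actX_dep hl X j (x := ω) (y := ω') fun i hi => h' i (by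
      rcases hi with hi | hi <;> omega)
    have h3 : X.π ω = X.π ω' := X.π_dep fun i hi => h' i (by
      have : i < b := hi
      omega)
    have h4 := h' (slot l b j) (by omega)
    by_cases h5 : Y.act l (slot l b j) (X.F ω) (X.π ω) ω
    · rw [Y.HdFlip_pos X j h5, Y.HdFlip_pos X j (h2.mp h5), h1, Function.update_self,
        Function.update_self, h3, h4]
    · rw [Y.HdFlip_neg X j h5, Y.HdFlip_neg X j fun hh => h5 (h2.mpr hh), h1, h4]
  · rw [Y.flipS_ne X j ω h1, Y.flipS_ne X j ω' h1]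
    exact h' i (by omega)

/-- Apply `Ex_update τ` to both sides; for fixed `ω` the map
`e ↦ if act (update ω τ e) then flip (π ω) e else e` is an involution of `E` preserving `ν`. -/
theorem Ex_flipS (hl : 1 ≤ l) (X : Y.FlipData b) (j : ℕ) (f : Y.Ω → ℝ) (hf : Loc f) :
    Y.Ex (fun ω => f (Y.flipS l X j ω)) = Y.Ex f := by
  rw [Y.Ex_update (slot l b j) (Y.HdFlip_loc hl X j hf), Y.Ex_update (slot l b j) hf]
  refine Y.Ex_congr fun ω => ?_
  obtain ⟨g, hg⟩ : ∃ g : Y.E → Y.E, ∀ e,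
      g e = Y.flipS l X j (Function.update ω (slot l b j) e) (slot l b j) := ⟨_, fun _ => rfl⟩
  have h1 : ∀ e, Y.flipS l X j (Function.update ω (slot l b j) e) =
      Function.update ω (slot l b j) (g e) := by
    intro e
    funext t
    by_cases ht : t = slot l b j
    · rw [ht, Function.update_self, hg]
    · rw [Y.flipS_ne X j _ ht, Function.update_of_ne ht, Function.update_of_ne ht]
  have h2 : Function.Involutive g := fun e => by
    rw [hg (g e), ← h1, Y.HdFlip_invol hl, Function.update_self]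
  have h3 : ∀ e, Y.ν (g e) = Y.ν e := fun e => by
    rw [hg, Y.HdFlip_nu, Function.update_self]
  rw [← Equiv.sum_comp h2.toPerm fun e => Y.ν e * f (Function.update ω (slot l b j) e)]
  refine sum_congr rfl fun e _ => ?_
  rw [h1, Function.Involutive.coe_toPerm, h3]

theorem zd_flipS (hl : 1 ≤ l) (X : Y.FlipData b) (j : ℕ) {s e : ℕ} (hs : s ≤ slot l b j)
    (he : slot l b j < e) (ω : Y.Ω) :
    Y.zd l s e (Y.flipS l X j ω) = Y.zd l s e ω +
      if Y.act l (slot l b j) (X.F ω) (X.π ω) ω then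
        step (X.π ω (Y.first (ω (slot l b j)))) - step (Y.first (ω (slot l b j))) else 0 := by
  split_ifs with h
  · have h1 : Y.first (Y.flip (X.π ω) (ω (slot l b j))) = X.π ω (Y.first (ω (slot l b j))) :=
      Y.flip_first _ _
    have hq : 1 ≤ b / l + 2 + 3 * j := by
      generalize b / l = q
      omega
    obtain ⟨a1, a2⟩ := Y.zeta_update hl hq (Y.flip (X.π ω) (ω (slot l b j))) h.2.1
      (by rw [h1]; exact h.2.2)
    have a3 := (Y.zeta_of_noHit hl hq h.2.1).1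
    have hm : slot l b j ∈ Ico s e := mem_Ico.2 ⟨hs, he⟩
    have b2 : Y.zeta l (slot l b j) (Function.update ω (slot l b j)
      (Y.flip (X.π ω) (ω (slot l b j)))) = X.π ω (Y.first (ω (slot l b j))) := a2.trans h1
    have b3 : Y.zeta l (slot l b j) ω = Y.first (ω (slot l b j)) := a3
    have b1 : ∑ i ∈ (Ico s e).erase (slot l b j), step (Y.zeta l i (Function.update ω (slot l b j)
        (Y.flip (X.π ω) (ω (slot l b j))))) =
        ∑ i ∈ (Ico s e).erase (slot l b j), step (Y.zeta l i ω) :=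
      sum_congr rfl fun i hi => congrArg step (a1 i (ne_of_mem_erase hi))
    rw [Y.HdFlip_pos X j h]
    unfold zd dsp
    beta_reduce
    rw [← add_sum_erase _ _ hm, ← add_sum_erase _ _ hm, b1, b2, b3]
    abel
  · rw [Y.HdFlip_neg X j h, add_zero]

end Sys

end Pool.Agent.Lib.MP_aa337a_pr.HD
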