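import Pool.Agent.Lib.MP_aa337a_pr.HdDefs

/-! Steps, displacements and the seminorm `nrm`. -/

set_option autoImplicit false

noncomputable section

namespace Pool.Agent.Lib.MP_aa337a_pr.HD

open MeasureTheory Finset
open scoped Classical

variable {d : ℕ}

theorem HdNrm_step_apply (s : St d) (i : Fin d) :
    step s i = if i = s.1 then (if s.2 then 1 else -1) else 0 := by
  unfold step
  by_cases h : i = s.1
  · subst h; cases s.2 <;> simp
  · cases hs : s.2 <;> simp [h]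

theorem step_injective : Function.Injective (step : St d → Pt d) := by
  rintro ⟨i, b⟩ ⟨j, c⟩ h
  have h1 := congrFun h i
  rw [HdNrm_step_apply, HdNrm_step_apply] at h1
  by_cases hij : i = j
  · subst hij
    cases b <;> cases c <;> simp_all
  · cases b <;> simp [hij] at h1

theorem step_ne_zero (s : St d) : step s ≠ 0 := by
  intro h
  have h1 := congrFun h s.1
  rw [HdNrm_step_apply] at h1
  cases hs : s.2 <;> simp [hs] at h1

theorem step_ng (s : St d) : step (ng d s) = -step s := by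
  obtain ⟨i, b⟩ := s
  cases b <;> simp [step, ng]

theorem ng_mul_ng : ng d * ng d = 1 := by
  ext s <;> simp [ng]

theorem ng_ne (s : St d) : ng d s ≠ s := by
  obtain ⟨i, b⟩ := s
  cases b <;> simp [ng]

theorem card_St : Fintype.card (St d) = 2 * d := by
  simp [mul_comm]

theorem sum_step_sq (s : St d) : ∑ i, ((step s i : ℤ) : ℝ) ^ 2 = 1 := by
  rw [sum_eq_single s.1]
  · rw [HdNrm_step_apply]; cases s.2 <;> simp
  · intro i _ hi; rw [HdNrm_step_apply, if_neg hi]; simp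
  · simp

theorem abs_inner_step_le (s s' : St d) :
    |∑ i, ((step s i : ℤ) : ℝ) * ((step s' i : ℤ) : ℝ)| ≤ 1 := by
  rw [sum_eq_single s.1]
  · rw [HdNrm_step_apply, HdNrm_step_apply]
    split_ifs <;> simp_all
  · intro i _ hi; rw [HdNrm_step_apply, if_neg hi]; simp
  · simp

theorem dsp_self (χ : ℕ → St d) (s : ℕ) : dsp χ s s = 0 := by simp [dsp]

theorem dsp_succ (χ : ℕ → St d) {s u : ℕ} (h : s ≤ u) :
    dsp χ s (u + 1) = dsp χ s u + step (χ u) := by
  unfold dsp; rw [sum_Ico_succ_top h]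

theorem dsp_add (χ : ℕ → St d) {s t u : ℕ} (h1 : s ≤ t) (h2 : t ≤ u) :
    dsp χ s t + dsp χ t u = dsp χ s u := sum_Ico_consecutive _ h1 h2

theorem dsp_congr {χ χ' : ℕ → St d} {s u : ℕ} (h : ∀ i, s ≤ i → i < u → χ i = χ' i) :
    dsp χ s u = dsp χ' s u :=
  sum_congr rfl fun i hi => by rw [h i (mem_Ico.1 hi).1 (mem_Ico.1 hi).2]

theorem isSum_dsp (χ : ℕ → St d) (s u : ℕ) : IsSum (u - s) (dsp χ s u) := by
  refine ⟨fun i => χ (s + i), ?_⟩
  unfold dsp
  rw [sum_Ico_eq_sum_range, ← range_eq_Ico]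

theorem IsSum.add {n n' : ℕ} {v v' : Pt d} (h : IsSum n v) (h' : IsSum n' v') :
    IsSum (n + n') (v + v') := by
  obtain ⟨χ, rfl⟩ := h
  obtain ⟨χ', rfl⟩ := h'
  refine ⟨fun i => if i < n then χ i else χ' (i - n), ?_⟩
  rw [← dsp_add _ (Nat.zero_le n) (Nat.le_add_right n n')]
  congr 1
  · exact dsp_congr fun i _ hi => (if_pos hi).symm
  · unfold dsp
    rw [sum_Ico_eq_sum_range, sum_Ico_eq_sum_range]
    simp

theorem prj_add (D g : ℕ) (x y : Pt d) : prj D g (x + y) = prj D g x + prj D g y := by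
  simp [prj, sum_add_distrib]

theorem prj_neg (D g : ℕ) (x : Pt d) : prj D g (-x) = -prj D g x := by simp [prj]

theorem prj_sub (D g : ℕ) (x y : Pt d) : prj D g (x - y) = prj D g x - prj D g y := by
  simp [prj]

theorem prj_zero (D g : ℕ) : prj D g (0 : Pt d) = 0 := by simp [prj]

theorem prj_sum {ι : Type*} (D g : ℕ) (s : Finset ι) (f : ι → Pt d) :
    prj D g (∑ i ∈ s, f i) = ∑ i ∈ s, prj D g (f i) := by
  unfold prj
  rw [sum_comm]
  exact sum_congr rfl fun i _ => Finset.sum_apply _ _ _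

theorem prj_step (D g : ℕ) (s : St d) :
    prj D g (step s) = if s ∈ grp d D g then (if s.2 then 1 else -1) else 0 := by
  unfold prj
  simp only [HdNrm_step_apply, sum_ite_eq', grp, mem_filter, mem_univ, true_and]

theorem ng_mem_grp {D g : ℕ} {s : St d} (h : s ∈ grp d D g) : ng d s ∈ grp d D g := by
  simpa [grp, ng] using h

/-- The class of `g < D` contains at least `d / D` coordinates (integer division), and
`2 * (d / D) * D ≥ d` for `D ≤ d`. -/
theorem card_grp {D g : ℕ} (hg : g < D) (hD : D ≤ d) : (d : ℝ) / D ≤ (grp d D g).card := by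
  have hD0 : 0 < D := by omega
  have h1 : (range (d / D) ×ˢ (univ : Finset Bool)).card ≤ (grp d D g).card := by
    have hlt : ∀ k, k < d / D → k * D + g < d := fun k hk => by
      have h2 : (k + 1) * D ≤ d / D * D := Nat.mul_le_mul_right D hk
      have h3 : d / D * D ≤ d := Nat.div_mul_le_self d D
      rw [Nat.add_mul, one_mul] at h2
      omega
    have hd : 0 < d := by omega
    refine card_le_card_of_injOn
      (fun x => (⟨(x.1 * D + g) % d, Nat.mod_lt _ hd⟩, x.2)) (fun x hx => ?_) fun x hx y hy hxy => ?_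
    · have hx1 : x.1 < d / D := mem_range.1 (mem_product.1 hx).1
      simp only [grp, coe_filter, mem_univ, true_and, Set.mem_setOf_eq]
      rw [Nat.mod_eq_of_lt (hlt _ hx1), Nat.mul_add_mod_self_right, Nat.mod_eq_of_lt hg]
    · have hx1 : x.1 < d / D := mem_range.1 (mem_product.1 hx).1
      have hy1 : y.1 < d / D := mem_range.1 (mem_product.1 hy).1
      simp only [Prod.mk.injEq, Fin.mk.injEq] at hxy
      rw [Nat.mod_eq_of_lt (hlt _ hx1), Nat.mod_eq_of_lt (hlt _ hy1)] at hxy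
      exact Prod.ext (Nat.eq_of_mul_eq_mul_right hD0 (by omega)) hxy.2
  rw [card_product, card_range, card_univ, Fintype.card_bool] at h1
  have h2 : 1 ≤ d / D := (Nat.le_div_iff_mul_le hD0).2 (by omega)
  have h3 : d < (d / D + 1) * D := by
    rw [Nat.add_mul, one_mul]; exact Nat.lt_div_mul_add hD0
  have h4 : d ≤ (grp d D g).card * D :=
    h3.le.trans (Nat.mul_le_mul_right D (by omega))
  rw [div_le_iff₀ (by exact_mod_cast hD0)]
  exact_mod_cast h4

theorem nrm_le_iff {D : ℕ} {x : Pt d} {ρ : ℕ} :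
    nrm D x ≤ ρ ↔ ∀ g, g < D → (prj D g x).natAbs ≤ ρ := by
  simp [nrm, Finset.sup_le_iff]

theorem nrm_zero (D : ℕ) : nrm D (0 : Pt d) = 0 := by
  exact Nat.le_zero.1 (nrm_le_iff.2 fun g _ => by simp [prj_zero])

theorem nrm_neg (D : ℕ) (x : Pt d) : nrm D (-x) = nrm D x := by
  unfold nrm
  simp only [prj_neg, Int.natAbs_neg]

theorem nrm_sub_comm (D : ℕ) (x y : Pt d) : nrm D (x - y) = nrm D (y - x) := by
  rw [← nrm_neg, neg_sub]

theorem nrm_add_le (D : ℕ) (x y : Pt d) : nrm D (x + y) ≤ nrm D x + nrm D y := by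
  refine nrm_le_iff.2 fun g hg => ?_
  rw [prj_add]
  exact (Int.natAbs_add_le _ _).trans
    (Nat.add_le_add (nrm_le_iff.1 le_rfl g hg) (nrm_le_iff.1 le_rfl g hg))

theorem nrm_sub_le (D : ℕ) (x y z : Pt d) : nrm D (x - z) ≤ nrm D (x - y) + nrm D (y - z) := by
  have := nrm_add_le D (x - y) (y - z)
  rwa [sub_add_sub_cancel] at this

theorem nrm_step_le (D : ℕ) (s : St d) : nrm D (step s) ≤ 1 := by
  refine nrm_le_iff.2 fun g _ => ?_
  rw [prj_step]
  split_ifs <;> simp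

theorem nrm_dsp_le (D : ℕ) (χ : ℕ → St d) (s u : ℕ) : nrm D (dsp χ s u) ≤ u - s := by
  rcases le_or_gt s u with h | h
  · induction u, h using Nat.le_induction with
    | base => rw [dsp_self, nrm_zero]; exact Nat.zero_le _
    | succ u h ih =>
      rw [dsp_succ χ h]
      have := nrm_add_le D (dsp χ s u) (step (χ u))
      have := nrm_step_le D (χ u)
      omega
  · unfold dsp
    rw [Ico_eq_empty (by omega), sum_empty, nrm_zero]; exact Nat.zero_le _

theorem nrm_sum_le {ι : Type*} (D : ℕ) (s : Finset ι) (f : ι → Pt d) :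
    nrm D (∑ i ∈ s, f i) ≤ ∑ i ∈ s, nrm D (f i) := by
  induction s using Finset.induction_on with
  | empty => simp [nrm_zero]
  | insert i s hi ih =>
    rw [sum_insert hi, sum_insert hi]
    exact (nrm_add_le D _ _).trans (Nat.add_le_add_left ih _)

/-- A path with steps of seminorm at most one. -/
theorem nrm_path_le (D : ℕ) (p : ℕ → Pt d) {a τ : ℕ}
    (hp : ∀ t, a ≤ t → t < τ → nrm D (p (t + 1) - p t) ≤ 1) {s u : ℕ} (hs : a ≤ s) (hsu : s ≤ u)
    (hu : u ≤ τ) : nrm D (p u - p s) ≤ u - s := by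
  induction u, hsu using Nat.le_induction with
  | base => rw [sub_self, nrm_zero]; exact Nat.zero_le _
  | succ u h ih =>
    have h1 := nrm_sub_le D (p (u + 1)) (p u) (p s)
    have h2 := hp u (hs.trans h) hu
    have h3 := ih (by omega)
    omega

theorem mem_ball {D : ℕ} {A : Finset (Pt d)} {u x : Pt d} {r : ℕ} :
    x ∈ ball D A u r ↔ x ∈ A ∧ nrm D (x - u) ≤ r := mem_filter

theorem ball_mono {D : ℕ} {A B : Finset (Pt d)} (h : A ⊆ B) (u : Pt d) {r r' : ℕ} (hr : r ≤ r') :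
    ball D A u r ⊆ ball D B u r' := fun _ hx =>
  mem_ball.2 ⟨h (mem_ball.1 hx).1, (mem_ball.1 hx).2.trans hr⟩

theorem HdNrm_tele (f g : ℕ → ℝ) (hf : ∀ l, 0 ≤ f l) (hg : ∀ l, 0 ≤ g l) (s : Finset ℕ) {r : ℕ}
    (hfg : ∀ l, r ≤ l → f (l + 1) ≤ g l - g (l + 1)) (hs : ∀ l ∈ s, r < l) :
    ∑ l ∈ s, f l ≤ g r := by
  have h1 : ∀ n, r ≤ n → ∑ l ∈ Ioc r n, f l ≤ g r - g n := fun n hn => by
    induction n, hn using Nat.le_induction with
    | base => simp
    | succ n h ih =>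
      rw [sum_Ioc_succ_top h]
      have := hfg n h
      linarith
  have h2 : s ⊆ Ioc r (max r (s.sup id)) := fun l hl =>
    mem_Ioc.2 ⟨hs l hl, (le_sup (f := id) hl).trans (le_max_right _ _)⟩
  have h3 := h1 _ (le_max_left r (s.sup id))
  have h4 := sum_le_sum_of_subset_of_nonneg h2 fun l _ _ => hf l
  have h5 := hg (max r (s.sup id))
  linarith

/-- Tail of the series of `1 / l ^ 2`. -/
theorem sum_inv_sq_le (s : Finset ℕ) {r : ℕ} (hr : 1 ≤ r) (hs : ∀ l ∈ s, r < l) :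
    ∑ l ∈ s, 1 / (l : ℝ) ^ 2 ≤ 1 / (r : ℝ) := by
  refine HdNrm_tele (fun l => 1 / (l : ℝ) ^ 2) (fun l => 1 / (l : ℝ)) (fun l => by positivity)
    (fun l => by positivity) s (fun l hl => ?_) hs
  have h1 : (1 : ℝ) ≤ l := by exact_mod_cast hr.trans hl
  push_cast
  rw [div_sub_div _ _ (by positivity) (by positivity), div_le_div_iff₀ (by positivity) (by positivity)]
  nlinarith

theorem sum_inv_sq_le_two (s : Finset ℕ) : ∑ l ∈ s, 1 / (l : ℝ) ^ 2 ≤ 2 := by
  have h1 := sum_inv_sq_le (s.filter fun l => 1 < l) (r := 1) le_rfl fun l hl => (mem_filter.1 hl).2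
  have h2 : ∑ l ∈ s.filter (fun l => ¬ 1 < l), 1 / (l : ℝ) ^ 2 ≤ ∑ l ∈ range 2, 1 / (l : ℝ) ^ 2 :=
    sum_le_sum_of_subset_of_nonneg (fun l hl => mem_range.2 (by have := (mem_filter.1 hl).2; omega))
      fun l _ _ => by positivity
  rw [← sum_filter_add_sum_filter_not s fun l => 1 < l]
  norm_num [sum_range_succ] at h1 h2 ⊢
  linarith

/-- Tail of the series of `1 / l ^ 3`. -/
theorem sum_inv_cube_le (s : Finset ℕ) {r : ℕ} (hr : 1 ≤ r) (hs : ∀ l ∈ s, r < l) :
    ∑ l ∈ s, 1 / (l : ℝ) ^ 3 ≤ 1 / (2 * (r : ℝ) ^ 2) := by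
  refine HdNrm_tele (fun l => 1 / (l : ℝ) ^ 3) (fun l => 1 / (2 * (l : ℝ) ^ 2))
    (fun l => by positivity) (fun l => by positivity) s (fun l hl => ?_) hs
  have h1 : (1 : ℝ) ≤ l := by exact_mod_cast hr.trans hl
  push_cast
  rw [div_sub_div _ _ (by positivity) (by positivity), div_le_div_iff₀ (by positivity) (by positivity)]
  have h2 : (0 : ℝ) ≤ l := by linarith
  have : (2 * (l : ℝ) ^ 2 * (2 * (l + 1) ^ 2)) ≤ (2 * (l + 1) ^ 2 - 2 * l ^ 2) * (l + 1) ^ 3 := by
    have h3 : (2 * (l + 1) ^ 2 - 2 * l ^ 2) * ((l : ℝ) + 1) ^ 3 - 2 * (l : ℝ) ^ 2 * (2 * (l + 1) ^ 2) =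
      (l + 1) ^ 2 * (6 * l + 2) := by ring
    have h4 : 0 ≤ ((l : ℝ) + 1) ^ 2 * (6 * l + 2) := by positivity
    linarith
  linarith

end Pool.Agent.Lib.MP_aa337a_pr.HD
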