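import Pool.Agent.Lib.MP_aa337a_pr.HdTool
import Pool.Agent.Lib.MP_aa337a_pr.HdNrm

/-! Deterministic facts on the fresh walks: recursion, dependence on the noise, shifts,
domination and locality. -/

set_option autoImplicit false

noncomputable section

namespace Pool.Agent.Lib.MP_aa337a_pr.HD

open MeasureTheory Finset
open scoped Classical

theorem zeta_start {l i t : ℕ} (hl : 1 ≤ l) (h : t + 2 * l ≤ i + 1) :
    t ≤ (i / l - 1) * l ∧ (i / l - 1) * l + l ≤ i := by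
  have h1 : i / l * l ≤ i := Nat.div_mul_le_self i l
  have h2 : i < (i / l + 1) * l := by
    have := Nat.lt_div_mul_add (a := i) (b := l) hl
    rw [add_mul, one_mul]; exact this
  have h3 : 1 ≤ i / l := by
    rw [Nat.le_div_iff_mul_le hl]; omega
  obtain ⟨q, hq⟩ : ∃ q, i / l = q + 1 := ⟨i / l - 1, by omega⟩
  rw [hq] at h1 h2
  rw [hq, Nat.add_sub_cancel]
  have e1 : (q + 1) * l = q * l + l := by ring
  have e2 : (q + 1 + 1) * l = q * l + 2 * l := by ring
  rw [e1] at h1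
  rw [e2] at h2
  constructor <;> omega

theorem zeta_start_le (l i : ℕ) : (i / l - 1) * l ≤ i := by
  exact (Nat.mul_le_mul_right l (Nat.sub_le _ _)).trans (Nat.div_mul_le_self i l)

namespace Sys

variable {d : ℕ} (Y : Sys d)

theorem pos_of_le {a u : ℕ} (h : u ≤ a) (ω : Y.Ω) : Y.pos a u ω = 0 := by
  unfold pos
  rw [Nat.sub_eq_zero_of_le h]
  rfl

theorem pos_self (a : ℕ) (ω : Y.Ω) : Y.pos a a ω = 0 := Y.pos_of_le le_rfl ω

theorem hist_headD (ω : Y.Ω) (a k : ℕ) : (Y.hist ω a k).headD 0 = Y.pos a (a + k) ω := by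
  unfold pos
  rw [Nat.add_sub_cancel_left]

theorem hist_length (ω : Y.Ω) (a k : ℕ) : (Y.hist ω a k).length = k + 1 := by
  induction k with
  | zero => rfl
  | succ k ih => simp only [hist, List.length_cons, ih]

/-- Induction on `k` (`Icc a (a + k + 1) = insert (a + k + 1) (Icc a (a + k))`). -/
theorem hist_count (ω : Y.Ω) (a k : ℕ) (x : Pt d) :
    (Y.hist ω a k).count x = Y.loc a (a + k) ω x := by
  induction k with
  | zero =>
    unfold loc vis
    simp only [hist, add_zero, Icc_self, filter_singleton, Y.pos_self, List.count_cons,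
      List.count_nil, zero_add, beq_iff_eq]
    split_ifs <;> rfl
  | succ k ih =>
    have hp := Y.hist_headD ω a (k + 1)
    have hc : Y.hist ω a (k + 1) = Y.pos a (a + (k + 1)) ω :: Y.hist ω a k := by
      rw [← hp]; rfl
    rw [hc, List.count_cons, ih]
    unfold loc vis
    have hI : Icc a (a + (k + 1)) = insert (a + (k + 1)) (Icc a (a + k)) := by
      ext j; simp only [mem_Icc, mem_insert]; omega
    have hn : a + (k + 1) ∉ Icc a (a + k) := by simp only [mem_Icc]; omega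
    rw [hI, filter_insert]
    by_cases hx : Y.pos a (a + (k + 1)) ω = x
    · rw [if_pos hx, card_insert_of_notMem fun hh => hn (mem_filter.1 hh).1]
      simp [hx]
    · rw [if_neg hx]
      simp [hx]

theorem hist_succ (ω : Y.Ω) (a k : ℕ) :
    Y.hist ω a (k + 1) = (Y.pos a (a + k) ω + step (Y.xi a (a + k) ω)) :: Y.hist ω a k := by
  have : Y.hist ω a (k + 1) = ((Y.hist ω a k).headD 0 + step (Y.stp (ω (a + k)) fun s =>
      (Y.hist ω a k).count ((Y.hist ω a k).headD 0 + step s))) :: Y.hist ω a k := rfl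
  rw [this, Y.hist_headD]
  simp only [Y.hist_count]
  rfl

theorem pos_succ {a u : ℕ} (h : a ≤ u) (ω : Y.Ω) :
    Y.pos a (u + 1) ω = Y.pos a u ω + step (Y.xi a u ω) := by
  obtain ⟨k, rfl⟩ := Nat.exists_eq_add_of_le h
  rw [add_assoc, ← Y.hist_headD, Y.hist_succ]
  rfl

theorem pos_sub {a s u : ℕ} (h1 : a ≤ s) (h2 : s ≤ u) (ω : Y.Ω) :
    Y.pos a u ω - Y.pos a s ω = dsp (fun i => Y.xi a i ω) s u := by
  induction u, h2 using Nat.le_induction with
  | base => rw [sub_self, dsp_self]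
  | succ u hu ih => rw [Y.pos_succ (h1.trans hu), dsp_succ _ hu, ← ih]; abel

theorem nrm_pos_sub_le (D : ℕ) {a s u : ℕ} (h1 : a ≤ s) (h2 : s ≤ u) (ω : Y.Ω) :
    nrm D (Y.pos a u ω - Y.pos a s ω) ≤ u - s := by
  rw [Y.pos_sub h1 h2]; exact nrm_dsp_le D _ s u

theorem isSum_pos_sub {a s u : ℕ} (h1 : a ≤ s) (h2 : s ≤ u) (ω : Y.Ω) :
    IsSum (u - s) (Y.pos a u ω - Y.pos a s ω) := by
  rw [Y.pos_sub h1 h2]; exact isSum_dsp _ s u

theorem loc_ne_zero_iff {a u : ℕ} {ω : Y.Ω} {x : Pt d} :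
    Y.loc a u ω x ≠ 0 ↔ ∃ s, a ≤ s ∧ s ≤ u ∧ Y.pos a s ω = x := by
  unfold loc vis
  rw [card_ne_zero]
  constructor
  · rintro ⟨s, hs⟩
    rw [mem_filter, mem_Icc] at hs
    exact ⟨s, hs.1.1, hs.1.2, hs.2⟩
  · rintro ⟨s, h1, h2, h3⟩
    exact ⟨s, mem_filter.2 ⟨mem_Icc.2 ⟨h1, h2⟩, h3⟩⟩

theorem loc_le (a u : ℕ) (ω : Y.Ω) (x : Pt d) : Y.loc a u ω x ≤ u + 1 - a := by
  unfold loc vis
  exact (card_filter_le _ _).trans (Nat.card_Icc a u).le

theorem loc_mono (a : ℕ) {u u' : ℕ} (h : u ≤ u') (ω : Y.Ω) (x : Pt d) :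
    Y.loc a u ω x ≤ Y.loc a u' ω x := by
  unfold loc vis
  exact card_le_card (filter_subset_filter _ (Icc_subset_Icc_right h))

theorem hist_dep (a k : ℕ) : DependsOn (fun ω => Y.hist ω a k) (Set.Ico a (a + k)) := by
  induction k with
  | zero => exact fun _ _ _ => rfl
  | succ k ih =>
    intro ω ω' hh
    have h1 : Y.hist ω a k = Y.hist ω' a k :=
      ih fun i hi => hh i ⟨hi.1, by have := hi.2; omega⟩
    have h2 : ω (a + k) = ω' (a + k) := hh _ ⟨by omega, by omega⟩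
    simp only [hist, h1, h2]

theorem pos_dep (a u : ℕ) : DependsOn (Y.pos a u) (Set.Ico a u) := by
  intro ω ω' hh
  unfold pos
  have h1 : Y.hist ω a (u - a) = Y.hist ω' a (u - a) :=
    Y.hist_dep a (u - a) fun i hi => hh i ⟨hi.1, by have := hi.1; have := hi.2; omega⟩
  rw [h1]

theorem loc_dep (a u : ℕ) : DependsOn (Y.loc a u) (Set.Ico a u) := by
  intro ω ω' hh
  funext x
  unfold loc vis
  congr 1
  refine filter_congr fun s hs => ?_
  have h1 : Y.pos a s ω = Y.pos a s ω' :=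
    Y.pos_dep a s fun i hi => hh i ⟨hi.1, lt_of_lt_of_le hi.2 (mem_Icc.1 hs).2⟩
  simp only [h1]

theorem tr_dep (a u : ℕ) : DependsOn (Y.tr a u) (Set.Ico a u) := by
  intro ω ω' hh
  funext s
  unfold tr
  rw [Y.pos_dep a u hh, Y.loc_dep a u hh]

theorem xi_dep {a u : ℕ} (h : a ≤ u) : DependsOn (Y.xi a u) (Set.Ico a (u + 1)) := by
  intro ω ω' hh
  have h0 : ∀ i ∈ Set.Ico a u, ω i = ω' i := fun i hi => hh i ⟨hi.1, Nat.lt_succ_of_lt hi.2⟩
  unfold xi
  rw [Y.pos_dep a u h0, Y.loc_dep a u h0, hh u ⟨h, Nat.lt_succ_self u⟩]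

theorem xi_dep' (a u : ℕ) : DependsOn (Y.xi a u) (Set.Iio (u + 1)) := by
  intro ω ω' hh
  have h0 : ∀ i ∈ Set.Ico a u, ω i = ω' i := fun i hi => hh i (Nat.lt_succ_of_lt hi.2)
  unfold xi
  rw [Y.pos_dep a u h0, Y.loc_dep a u h0, hh u (Nat.lt_succ_self u)]

theorem pos_dep' (a : ℕ) {u n : ℕ} (h : u ≤ n) : DependsOn (Y.pos a u) (Set.Iio n) :=
  (Y.pos_dep a u).mono fun _ hi => lt_of_lt_of_le hi.2 h

theorem zeta_dep (l i : ℕ) : DependsOn (Y.zeta l i) (Set.Ico ((i / l - 1) * l) (i + 1)) :=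
  Y.xi_dep (zeta_start_le l i)

theorem zeta_dep' {l i t : ℕ} (hl : 1 ≤ l) (h : t + 2 * l ≤ i + 1) :
    DependsOn (Y.zeta l i) (Set.Ico t (i + 1)) :=
  (Y.zeta_dep l i).mono (Set.Ico_subset_Ico_left (zeta_start hl h).1)

theorem zd_dep {l s t : ℕ} (hl : 1 ≤ l) (h : t + 2 * l ≤ s + 1) (u : ℕ) :
    DependsOn (Y.zd l s u) (Set.Ico t u) := by
  intro ω ω' hh
  unfold zd
  refine dsp_congr fun i h1 h2 => ?_
  exact Y.zeta_dep' hl (t := t) (by omega) fun j hj => hh j ⟨hj.1, by have := hj.2; omega⟩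

theorem zd_dep' (l s u : ℕ) : DependsOn (Y.zd l s u) (Set.Iio u) := by
  intro ω ω' hh
  unfold zd
  refine dsp_congr fun i _ h2 => ?_
  exact Y.zeta_dep l i fun j hj => hh j (show j < u by have := hj.2; omega)

theorem loc_pos (a u : ℕ) : Loc (Y.pos a u) := ⟨u, Y.pos_dep' a le_rfl⟩

theorem loc_xi (a u : ℕ) : Loc (Y.xi a u) := ⟨u + 1, Y.xi_dep' a u⟩

theorem loc_zeta (l i : ℕ) : Loc (Y.zeta l i) := Y.loc_xi _ _

theorem loc_zd (l s u : ℕ) : Loc (Y.zd l s u) := ⟨u, Y.zd_dep' l s u⟩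

theorem loc_loc (a u : ℕ) : Loc (Y.loc a u) := Loc.of_dep (Y.loc_dep a u) fun _ hi => hi.2

theorem loc_tr (a u : ℕ) : Loc (Y.tr a u) := Loc.of_dep (Y.tr_dep a u) fun _ hi => hi.2

/-- All positions up to time `n` and all steps before time `n`, of all walks, are known at
time `n`. -/
theorem agree_of_lt {n : ℕ} {ω ω' : Y.Ω} (h : ∀ i ∈ Set.Iio n, ω i = ω' i) :
    (∀ a u, u ≤ n → Y.pos a u ω = Y.pos a u ω') ∧ (∀ a u, u < n → Y.xi a u ω = Y.xi a u ω') ∧
      ∀ l u, u < n → Y.zeta l u ω = Y.zeta l u ω' :=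
  ⟨fun a _ hu => Y.pos_dep' a hu h,
    fun a u hu => (Y.xi_dep' a u).mono (Set.Iio_subset_Iio hu) h,
    fun _ u hu => (Y.xi_dep' _ u).mono (Set.Iio_subset_Iio hu) h⟩

theorem alive_dep (l m a u : ℕ) : DependsOn (Y.alive l m a u) (Set.Iio u) := by
  intro ω ω' hh
  obtain ⟨_, h2, h3⟩ := Y.agree_of_lt hh
  unfold alive
  refine propext (and_congr_right fun _ => forall_congr' fun i => forall_congr' fun _ =>
    forall_congr' fun hi => ?_)
  rw [h2 a i hi, h3 l i hi]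

theorem out_dep (A : Finset (Pt d)) (nH : ℕ) (y : Pt d) (a t : ℕ) :
    DependsOn (Y.Out A nH y a t) (Set.Ico a (max nH t)) := by
  intro ω ω' hh
  have h1 : ∀ i, i ≤ max nH t → Y.pos a i ω = Y.pos a i ω' := fun i hi =>
    Y.pos_dep a i fun j hj => hh j ⟨hj.1, lt_of_lt_of_le hj.2 hi⟩
  unfold Out
  refine propext (forall_congr' fun i => forall_congr' fun _ => forall_congr' fun hi => ?_)
  rw [h1 i (hi.trans (le_max_left _ _)), h1 t (le_max_right _ _)]

theorem HdWalk_hist_shift (b a k : ℕ) (ω : Y.Ω) :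
    Y.hist (shift b ω) a k = Y.hist ω (b + a) k := by
  induction k with
  | zero => rfl
  | succ k ih =>
    have e : shift b ω (a + k) = ω (b + a + k) := by unfold shift; rw [add_assoc]
    simp only [hist, ih, e]

theorem pos_shift (b a u : ℕ) (ω : Y.Ω) : Y.pos a u (shift b ω) = Y.pos (b + a) (b + u) ω := by
  unfold pos
  rw [Nat.add_sub_add_left, Y.HdWalk_hist_shift]

theorem HdWalk_loc_shift (b a u : ℕ) (ω : Y.Ω) (x : Pt d) :
    Y.loc a u (shift b ω) x = Y.loc (b + a) (b + u) ω x := by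
  unfold loc vis
  refine card_nbij' (fun s => b + s) (fun s => s - b) ?_ ?_ ?_ ?_
  · intro s hs
    simp only [coe_filter, mem_Icc, Set.mem_ofPred_eq, Y.pos_shift] at hs ⊢
    exact ⟨⟨by omega, by omega⟩, hs.2⟩
  · intro s hs
    simp only [coe_filter, mem_Icc, Set.mem_ofPred_eq, Y.pos_shift] at hs ⊢
    refine ⟨⟨by omega, by omega⟩, ?_⟩
    rw [show b + (s - b) = s by omega]
    exact hs.2
  · intro s _
    simp
  · intro s hs
    simp only [coe_filter, mem_Icc, Set.mem_ofPred_eq] at hs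
    simp only
    omega

theorem xi_shift (b a u : ℕ) (ω : Y.Ω) : Y.xi a u (shift b ω) = Y.xi (b + a) (b + u) ω := by
  unfold xi
  simp only [Y.HdWalk_loc_shift, Y.pos_shift]
  rfl

theorem xi_self (t : ℕ) (ω : Y.Ω) : Y.xi t t ω = Y.first (ω t) := by
  unfold xi first
  congr 1
  funext s
  by_contra hne
  obtain ⟨j, h1, h2, h3⟩ := Y.loc_ne_zero_iff.1 hne
  obtain rfl : j = t := le_antisymm h2 h1
  exact step_ne_zero s (left_eq_add.1 h3)

/-- `Sys.mono` with `V = 0`. -/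
theorem xi_eq_first {a u : ℕ} {ω : Y.Ω}
    (h : Y.loc a u ω (Y.pos a u ω + step (Y.first (ω u))) = 0) : Y.xi a u ω = Y.first (ω u) := by
  unfold xi
  exact Y.mono (ω u) 0 _ (fun _ => Nat.zero_le _) h

/-- Domination: the walk from `a` follows the fresh walk from `t` while the latter does not step
on a site visited during `[a, t)`. Strong induction on `i`: the local times of the walk from `t`
are at most those of the walk from `a` at the translated sites, with equality at the chosen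
neighbour; apply `Sys.mono`. -/
theorem dom {a t n : ℕ} {ω : Y.Ω} (hat : a ≤ t)
    (h : ∀ i s, t < i → i ≤ t + n → a ≤ s → s < t →
      Y.pos a t ω + Y.pos t i ω ≠ Y.pos a s ω) :
    ∀ i, t ≤ i → i < t + n → Y.xi a i ω = Y.xi t i ω := by
  have key : ∀ j, j ≤ n → ∀ i, t ≤ i → i < t + j → Y.xi a i ω = Y.xi t i ω := by
    intro j
    induction j with
    | zero => intro _ i h1 h2; omega
    | succ j ih =>
      intro hj i h1 h2
      have ih' := ih (by omega)
      by_cases hi : i < t + j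
      · exact ih' i h1 hi
      have hpos : ∀ s, t ≤ s → s ≤ i → Y.pos a s ω = Y.pos a t ω + Y.pos t s ω := by
        intro s hs1 hs2
        have e1 := Y.pos_sub hat hs1 ω
        have e2 := Y.pos_sub (le_refl t) hs1 ω
        have e3 : dsp (fun i => Y.xi a i ω) t s = dsp (fun i => Y.xi t i ω) t s :=
          dsp_congr fun k hk1 hk2 => ih' k hk1 (by omega)
        rw [Y.pos_self, sub_zero] at e2
        rw [e2, ← e3, ← e1]
        abel
      have hsub : ∀ σ : St d,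
          (Icc t i).filter (fun s => Y.pos t s ω = Y.pos t i ω + step σ) ⊆
            (Icc a i).filter (fun s => Y.pos a s ω = Y.pos a i ω + step σ) := by
        intro σ s hs
        rw [mem_filter, mem_Icc] at hs ⊢
        refine ⟨⟨hat.trans hs.1.1, hs.1.2⟩, ?_⟩
        rw [hpos s hs.1.1 hs.1.2, hpos i h1 le_rfl, hs.2, add_assoc]
      refine Y.mono (ω i) (fun s => Y.loc t i ω (Y.pos t i ω + step s))
        (fun s => Y.loc a i ω (Y.pos a i ω + step s)) (fun σ => card_le_card (hsub σ)) ?_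
      change Y.loc a i ω (Y.pos a i ω + step (Y.xi t i ω)) =
        Y.loc t i ω (Y.pos t i ω + step (Y.xi t i ω))
      unfold loc vis
      refine le_antisymm (card_le_card fun s hs => ?_) (card_le_card (hsub _))
      rw [mem_filter, mem_Icc] at hs ⊢
      have hts : t ≤ s := by
        by_contra hlt
        refine h (i + 1) s (by omega) (by omega) hs.1.1 (not_le.1 hlt) ?_
        rw [Y.pos_succ h1, ← add_assoc, ← hpos i h1 le_rfl]
        exact hs.2.symm
      refine ⟨⟨hts, hs.1.2⟩, ?_⟩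
      have e : Y.pos a s ω = Y.pos a i ω + step (Y.xi t i ω) := hs.2
      rw [hpos s hts hs.1.2, hpos i h1 le_rfl, add_assoc] at e
      exact add_left_cancel e
  exact key n le_rfl

theorem HdWalk_loc_le {a a' c u : ℕ} {ω : Y.Ω} (ha' : a' ≤ c) (_hc : c ≤ u)
    (hag : ∀ i, c ≤ i → i < u → Y.xi a i ω = Y.xi a' i ω)
    (h1 : ∀ s (σ : St d), a ≤ s → s < c → Y.pos a u ω + step σ ≠ Y.pos a s ω) (σ : St d) :
    Y.loc a u ω (Y.pos a u ω + step σ) ≤ Y.loc a' u ω (Y.pos a' u ω + step σ) := by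
  unfold loc vis
  refine card_le_card fun s hs => ?_
  rw [mem_filter, mem_Icc] at hs ⊢
  have hcs : c ≤ s := by
    by_contra hlt
    exact h1 s σ hs.1.1 (not_le.1 hlt) hs.2.symm
  refine ⟨⟨ha'.trans hcs, hs.1.2⟩, ?_⟩
  have e1 := Y.pos_sub hs.1.1 hs.1.2 ω
  have e2 := Y.pos_sub (ha'.trans hcs) hs.1.2 ω
  have e3 : dsp (fun i => Y.xi a i ω) s u = dsp (fun i => Y.xi a' i ω) s u :=
    dsp_congr fun k hk1 hk2 => hag k (hcs.trans hk1) hk2
  have e4 : Y.pos a s ω = Y.pos a u ω + step σ := hs.2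
  rw [e3, ← e2, e4] at e1
  show Y.pos a' s ω = Y.pos a' u ω + step σ
  have e5 : Y.pos a' s ω = Y.pos a' u ω - (Y.pos a' u ω - Y.pos a' s ω) := by abel
  rw [e5, ← e1]
  abel

/-- If two walks take the same steps on `[c, u)` and neither is adjacent at time `u` to one of
its sites visited before `c`, the local times of the neighbours agree. -/
theorem locality_loc {a a' c u : ℕ} {ω : Y.Ω} (ha : a ≤ c) (ha' : a' ≤ c) (hc : c ≤ u)
    (hag : ∀ i, c ≤ i → i < u → Y.xi a i ω = Y.xi a' i ω)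
    (h1 : ∀ s (σ : St d), a ≤ s → s < c → Y.pos a u ω + step σ ≠ Y.pos a s ω)
    (h2 : ∀ s (σ : St d), a' ≤ s → s < c → Y.pos a' u ω + step σ ≠ Y.pos a' s ω) (σ : St d) :
    Y.loc a u ω (Y.pos a u ω + step σ) = Y.loc a' u ω (Y.pos a' u ω + step σ) := by
  exact le_antisymm (Y.HdWalk_loc_le ha' hc hag h1 σ)
    (Y.HdWalk_loc_le ha hc (fun i hi1 hi2 => (hag i hi1 hi2).symm) h2 σ)

theorem locality {a a' c u : ℕ} {ω : Y.Ω} (ha : a ≤ c) (ha' : a' ≤ c) (hc : c ≤ u)
    (hag : ∀ i, c ≤ i → i < u → Y.xi a i ω = Y.xi a' i ω)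
    (h1 : ∀ s (σ : St d), a ≤ s → s < c → Y.pos a u ω + step σ ≠ Y.pos a s ω)
    (h2 : ∀ s (σ : St d), a' ≤ s → s < c → Y.pos a' u ω + step σ ≠ Y.pos a' s ω) :
    Y.xi a u ω = Y.xi a' u ω := by
  unfold xi
  congr 1
  exact funext (Y.locality_loc ha ha' hc hag h1 h2)

theorem esc_nonneg (A : Finset (Pt d)) (h : ℕ) (x : Pt d) : 0 ≤ Y.esc A h x := Y.P_nonneg _

theorem esc_le_one (A : Finset (Pt d)) (h : ℕ) (x : Pt d) : Y.esc A h x ≤ 1 := Y.P_le_one _

theorem esc_anti {A B : Finset (Pt d)} (hAB : A ⊆ B) {h h' : ℕ} (hh : h ≤ h') (x : Pt d) :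
    Y.esc B h' x ≤ Y.esc A h x :=
  Y.P_mono fun _ hω i h1 h2 hx => hω i h1 (h2.trans hh) (hAB hx)

theorem hit_mono {A B : Finset (Pt d)} (hAB : A ⊆ B) {j j' h h' : ℕ} (hj : j' ≤ j) (hh : h ≤ h')
    (x : Pt d) : Y.hit A j h x ≤ Y.hit B j' h' x :=
  Y.P_mono fun _ ⟨i, h1, h2, hx⟩ => ⟨i, hj.trans h1, h2.trans hh, hAB hx⟩

end Sys

end Pool.Agent.Lib.MP_aa337a_pr.HD
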