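import Pool.Agent.Lib.MP_aa337a_pr.HdThin
import Pool.Agent.Lib.MP_aa337a_pr.HdWalk

/-! If the dead range `J` is large, the sum of the escape probabilities over `J` is large.
Notation: `J`, `Γ`, `A` are the images of the dead, alive, all times.
Case 1: some `r ∈ [ρ', g2]` and some `u` have `r ^ κ < card (ball D J u r)`. Apply `Cap2OK`
(`hit_mono`; `card A ≤ 2 ^ ρ'`); the points of `Γ` contribute at most `m` (`card_ball_of_far`);
`r ^ (κ - 1) / 20 - m ≥ S0`.
Case 2: otherwise take a maximal subset `Ys ⊆ J` with pairwise `nrm > g2`; the balls of radius `g2`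
cover `J`, so `card Ys ≥ K0 + 1 + 2 S0`. For `y ∈ Ys` pick a dead time `t y` with `p (t y) = y`.
Call `y` long if there is `t ∈ [a, t y]` with `[t, t y]` dead and `g + 2 ρt < nrm (y - p t)`; taking
the largest such `t`, `diam_of_crowd` gives a dead time in `[t, t y]` whose position `u y` is not
crowded and within `g + 2 ρt + 1` of `y`; `card_ball_of_not_crowd` and `hloc` give `1 / 2`. The
balls of radius `ρt` around the `u y` are disjoint. For `y` not long, the start `e y` of the maximal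
dead interval ending at `t y` is `a` or follows a time of `transT`, and `y ↦ e y` is injective on
such `y`; so at most `K0 + 1` points are not long. -/

set_option autoImplicit false

noncomputable section

namespace Pool.Agent.Lib.MP_aa337a_pr.HD

open MeasureTheory Finset
open scoped Classical

theorem HdGlob_sep {d : ℕ} (D g2 : ℕ) (J : Finset (Pt d)) :
    ∃ Ys : Finset (Pt d), Ys ⊆ J ∧ (∀ x ∈ Ys, ∀ y ∈ Ys, nrm D (x - y) ≤ g2 → x = y) ∧
      ∀ x ∈ J, ∃ y ∈ Ys, nrm D (x - y) ≤ g2 := by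
  obtain ⟨Ys, hYs, hmax⟩ := Finset.exists_max_image
    (J.powerset.filter fun Z => ∀ x ∈ Z, ∀ y ∈ Z, nrm D (x - y) ≤ g2 → x = y) Finset.card
    ⟨∅, by simp⟩
  rw [mem_filter, mem_powerset] at hYs
  refine ⟨Ys, hYs.1, hYs.2, fun x hx => ?_⟩
  by_contra hcon
  push Not at hcon
  have hxY : x ∉ Ys := fun hx' => by
    have := hcon x hx'
    rw [sub_self, nrm_zero] at this
    omega
  have := hmax (insert x Ys) (by
    rw [mem_filter, mem_powerset]
    refine ⟨insert_subset hx hYs.1, fun u hu v hv huv => ?_⟩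
    rcases mem_insert.1 hu with rfl | hu' <;> rcases mem_insert.1 hv with rfl | hv'
    · rfl
    · exact absurd huv (not_le.2 (hcon v hv'))
    · rw [nrm_sub_comm] at huv
      exact absurd huv (not_le.2 (hcon u hu'))
    · exact hYs.2 u hu' v hv' huv)
  rw [card_insert_of_notMem hxY] at this
  omega

theorem HdGlob_dich {d D r1 ρt m0 g a τ : ℕ} {p : ℕ → Pt d} {al : ℕ → Prop}
    (hp : ∀ t, a ≤ t → t < τ → nrm D (p (t + 1) - p t) ≤ 1) (hF1 : FarP D p al a τ (4 * ρt) m0)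
    (hcut : ∀ s, a ≤ s → s + g ≤ τ → ∃ s0, s ≤ s0 ∧ s0 ≤ s + g ∧ IsCut D p al a τ r1 m0 s0)
    (hr1 : 1 ≤ r1) {y : Pt d} (hy : y ∈ (deadT al a τ).image p) :
    (∃ u ∈ (deadT al a τ).image p, nrm D (y - u) ≤ g + 2 * ρt + 1 ∧ ¬ Crowd D p al a τ r1 ρt u) ∨
      ∃ e ∈ insert a ((transT al a τ).image fun t => t + 1), nrm D (y - p e) ≤ g + 2 * ρt := by
  obtain ⟨t0, ht0, rfl⟩ := mem_image.1 hy
  simp only [deadT, mem_filter, mem_Icc] at ht0
  obtain ⟨⟨ha0, h0τ⟩, hd0⟩ := ht0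
  obtain ⟨e, he, hmin⟩ := Finset.exists_min_image
    ((Icc a t0).filter fun t => ∀ s, t ≤ s → s ≤ t0 → ¬ al s) (fun t => t)
    ⟨t0, by
      rw [mem_filter, mem_Icc]
      exact ⟨⟨ha0, le_rfl⟩, fun s h1 h2 => by rwa [le_antisymm h2 h1]⟩⟩
  by_cases hlong : nrm D (p t0 - p e) ≤ g + 2 * ρt
  · right
    refine ⟨e, ?_, hlong⟩
    rw [mem_filter, mem_Icc] at he
    obtain ⟨⟨hae, he0⟩, hde⟩ := he
    rcases hae.eq_or_lt with rfl | hlt
    · exact mem_insert_self _ _
    · obtain ⟨e', rfl⟩ : ∃ e', e = e' + 1 := ⟨e - 1, by omega⟩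
      refine mem_insert_of_mem (mem_image.2 ⟨e', ?_, rfl⟩)
      simp only [transT, mem_filter, mem_Ico]
      refine ⟨⟨by omega, by omega⟩, ?_, hde _ le_rfl he0⟩
      by_contra hal
      have := hmin e' (by
        rw [mem_filter, mem_Icc]
        refine ⟨⟨by omega, by omega⟩, fun s h1 h2 => ?_⟩
        rcases h1.eq_or_lt with rfl | h1'
        · exact hal
        · exact hde s h1' h2)
      omega
  · left
    obtain ⟨t, ht, hmax⟩ := Finset.exists_max_image
      (((Icc a t0).filter fun t => ∀ s, t ≤ s → s ≤ t0 → ¬ al s).filter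
        fun t => ¬ nrm D (p t0 - p t) ≤ g + 2 * ρt) (fun t => t) ⟨e, mem_filter.2 ⟨he, hlong⟩⟩
    rw [mem_filter, mem_filter, mem_Icc] at ht
    obtain ⟨⟨⟨hat, ht0⟩, hdt⟩, hfar⟩ := ht
    have hnear : ∀ s, t < s → s ≤ t0 → nrm D (p t0 - p s) ≤ g + 2 * ρt := by
      intro s h1 h2
      by_contra hc
      have := hmax s (by
        rw [mem_filter, mem_filter, mem_Icc]
        exact ⟨⟨⟨by omega, h2⟩, fun s' h3 h4 => hdt s' (by omega) h4⟩, hc⟩)
      omega
    have hex : ∃ s, t ≤ s ∧ s ≤ t0 ∧ ¬ Crowd D p al a τ r1 ρt (p s) := by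
      by_contra hc
      push Not at hc
      exact hfar (diam_of_crowd hr1 hp hF1 hcut hat ht0 h0τ hc)
    obtain ⟨s, h1, h2, hs⟩ := hex
    refine ⟨p s, mem_image_of_mem _ ?_, ?_, hs⟩
    · simp only [deadT, mem_filter, mem_Icc]
      exact ⟨⟨by omega, by omega⟩, hdt s h1 h2⟩
    · rcases h1.eq_or_lt with rfl | hlt
      · have hlt : t < t0 := by
          rcases ht0.eq_or_lt with rfl | hlt
          · exact absurd (by rw [sub_self, nrm_zero]; omega) hfar
          · exact hlt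
        have a1 := hnear (t + 1) (by omega) hlt
        have a2 := hp t hat (by omega)
        have a3 := nrm_sub_le D (p t0) (p (t + 1)) (p t)
        omega
      · have := hnear s hlt h2
        omega

namespace Sys

variable {d : ℕ} (Y : Sys d)

theorem glob_escape {D κ r1 n0 ρ' ρt m0 g g2 ρ0 m h K0 S0 a τ : ℕ} (hC : Y.Cap2OK D n0)
    {p : ℕ → Pt d} {al : ℕ → Prop} (hp : ∀ t, a ≤ t → t < τ → nrm D (p (t + 1) - p t) ≤ 1)
    (hF1 : FarP D p al a τ (4 * ρt) m0) (hF2 : FarP D p al a τ ρ0 m)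
    (hcut : ∀ s, a ≤ s → s + g ≤ τ → ∃ s0, s ≤ s0 ∧ s0 ≤ s + g ∧ IsCut D p al a τ r1 m0 s0)
    (hK : (transT al a τ).card ≤ K0) (hr1 : 1 ≤ r1) (hκ : 1 ≤ κ) (hm : 1 ≤ m) (h0 : 100 ≤ ρ')
    (h1 : ρ' ≤ ρt) (h2 : 2 * (g + 3 * ρt + 1) ≤ g2) (h3 : 2 * g2 ^ 4 ≤ ρ0) (h4 : g2 ^ 8 ≤ n0)
    (h5 : g2 ^ 8 ≤ h) (h6 : 20 * (S0 + m) ≤ ρ' ^ (κ - 1))
    (h7 : ((Icc a τ).image p).card ≤ 2 ^ ρ')
    (hTB : ∀ x, Y.hit ((Icc a τ).image p) ρ' h x ≤ 1 / (200 * g2))
    (hloc : ∀ u ∈ (deadT al a τ).image p,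
      (∀ r, r1 ≤ r → r ≤ ρt → (ball D ((liveT al a τ).image p) u r).card ≤ r ^ 6) →
      (∀ r, ρ' ≤ r → r ≤ ρt → (ball D ((deadT al a τ).image p) u r).card ≤ r ^ κ) →
      1 / 2 ≤ ∑ x ∈ ball D ((deadT al a τ).image p) u ρt, Y.esc ((Icc a τ).image p) h x)
    (hJ : (K0 + 1 + 2 * S0) * g2 ^ κ ≤ ((deadT al a τ).image p).card) :
    (S0 : ℝ) ≤ ∑ x ∈ (deadT al a τ).image p, Y.esc ((Icc a τ).image p) h x := by
  set J := (deadT al a τ).image p with hJdef
  set Γ := (liveT al a τ).image p with hΓdef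
  set A := (Icc a τ).image p with hAdef
  have hJA : J ⊆ A := image_subset_image (filter_subset _ _)
  have hAJ : ∀ x ∈ A, x ∈ J ∨ x ∈ Γ := by
    intro x hx
    obtain ⟨t, ht, rfl⟩ := mem_image.1 hx
    by_cases hal : al t
    · exact Or.inr (mem_image_of_mem _ (mem_filter.2 ⟨ht, hal⟩))
    · exact Or.inl (mem_image_of_mem _ (mem_filter.2 ⟨ht, hal⟩))
  by_cases hcase : ∃ r u, ρ' ≤ r ∧ r ≤ g2 ∧ r ^ κ < (ball D J u r).card
  · obtain ⟨r, u, hr, hr2, hbig⟩ := hcase
    have hrpos : (0 : ℝ) < r := by exact_mod_cast (by omega : 0 < r)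
    have hcard : r ^ κ < (ball D A u r).card :=
      hbig.trans_le (card_le_card (ball_mono hJA u le_rfl))
    have key := hC A u r h (by omega) ((Nat.pow_le_pow_left hr2 8).trans h4)
      ((Nat.pow_le_pow_left hr2 8).trans h5)
      (fun x _ => by
        refine (Y.hit_mono (Subset.refl _) hr le_rfl x).trans ((hTB x).trans ?_)
        have : (r : ℝ) ≤ g2 := by exact_mod_cast hr2
        exact one_div_le_one_div_of_le (by positivity) (by linarith))
      (by
        calc _ ≤ A.card := card_le_card (filter_subset _ _)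
          _ ≤ 2 ^ ρ' := h7
          _ ≤ 2 ^ r := Nat.pow_le_pow_right (by norm_num) hr
          _ ≤ _ := Nat.le_mul_of_pos_right _ (by omega))
    have hΓ : (ball D Γ u (r ^ 4)).card ≤ m :=
      card_ball_of_far hm hF2 ((Nat.mul_le_mul_left 2 (Nat.pow_le_pow_left hr2 4)).trans h3) u
    have hsub : ball D A u (r ^ 4) ⊆ J ∪ ball D Γ u (r ^ 4) := by
      intro x hx
      rcases hAJ x (mem_ball.1 hx).1 with hx' | hx'
      · exact mem_union_left _ hx'
      · exact mem_union_right _ (mem_ball.2 ⟨hx', (mem_ball.1 hx).2⟩)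
    have s1 : ∑ x ∈ ball D A u (r ^ 4), Y.esc A h x ≤ ∑ x ∈ J ∪ ball D Γ u (r ^ 4), Y.esc A h x :=
      sum_le_sum_of_subset_of_nonneg hsub fun x _ _ => Y.esc_nonneg _ _ _
    have s2 : ∑ x ∈ J ∪ ball D Γ u (r ^ 4), Y.esc A h x ≤
        ∑ x ∈ J, Y.esc A h x + ∑ x ∈ ball D Γ u (r ^ 4), Y.esc A h x := by
      rw [← sum_union_inter]
      exact le_add_of_nonneg_right (sum_nonneg fun x _ => Y.esc_nonneg _ _ _)
    have s3 : ∑ x ∈ ball D Γ u (r ^ 4), Y.esc A h x ≤ m := by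
      refine (sum_le_card_nsmul _ _ 1 fun x _ => Y.esc_le_one _ _ _).trans ?_
      rw [nsmul_eq_mul, mul_one]
      exact_mod_cast hΓ
    have s4 : 20 * (S0 + m) * r ≤ (ball D A u r).card := by
      calc _ ≤ r ^ (κ - 1) * r :=
            Nat.mul_le_mul_right _ (h6.trans (Nat.pow_le_pow_left hr _))
        _ = r ^ κ := by rw [← pow_succ, Nat.sub_add_cancel hκ]
        _ ≤ _ := hcard.le
    have s5 : (S0 + m : ℝ) ≤ ((ball D A u r).card : ℝ) / (20 * r) := by
      rw [le_div_iff₀ (by positivity)]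
      have : ((20 * (S0 + m) * r : ℕ) : ℝ) ≤ (ball D A u r).card := by exact_mod_cast s4
      push_cast at this
      linarith
    linarith
  push Not at hcase
  obtain ⟨Ys, hYJ, hsep, hcov⟩ := HdGlob_sep D g2 J
  have hcardY : K0 + 1 + 2 * S0 ≤ Ys.card := by
    have c1 : J ⊆ Ys.biUnion fun y => ball D J y g2 := fun x hx => by
      obtain ⟨y, hy, hxy⟩ := hcov x hx
      exact mem_biUnion.2 ⟨y, hy, mem_ball.2 ⟨hx, hxy⟩⟩
    have c2 : (Ys.biUnion fun y => ball D J y g2).card ≤ Ys.card * g2 ^ κ :=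
      card_biUnion_le_card_mul _ _ _ fun y _ => hcase g2 y (by omega) le_rfl
    have c3 := (hJ.trans (card_le_card c1)).trans c2
    exact Nat.le_of_mul_le_mul_right c3 (Nat.pow_pos (by omega))
  set Lg := Ys.filter fun y =>
    ∃ u ∈ J, nrm D (y - u) ≤ g + 2 * ρt + 1 ∧ ¬ Crowd D p al a τ r1 ρt u with hLg
  have hshort : (Ys \ Lg).card ≤ K0 + 1 := by
    have hex : ∀ y ∈ Ys \ Lg, ∃ e ∈ insert a ((transT al a τ).image fun t => t + 1),
        nrm D (y - p e) ≤ g + 2 * ρt := by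
      intro y hy
      rw [mem_sdiff] at hy
      rcases HdGlob_dich hp hF1 hcut hr1 (hYJ hy.1) with h' | h'
      · exact absurd (mem_filter.2 ⟨hy.1, h'⟩) hy.2
      · exact h'
    choose! e he1 he2 using hex
    have c1 : (Ys \ Lg).card ≤ (insert a ((transT al a τ).image fun t => t + 1)).card := by
      refine card_le_card_of_injOn e (fun y hy => he1 y hy) fun y hy y' hy' hee => ?_
      have hy1 : y ∈ Ys \ Lg := hy
      have hy2 : y' ∈ Ys \ Lg := hy'
      refine hsep y (mem_sdiff.1 hy1).1 y' (mem_sdiff.1 hy2).1 ?_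
      have a1 := he2 y hy1
      have a2 := he2 y' hy2
      rw [← hee, nrm_sub_comm] at a2
      have a3 := nrm_sub_le D y (p (e y)) y'
      omega
    have c2 := card_insert_le a ((transT al a τ).image fun t => t + 1)
    have c3 : ((transT al a τ).image fun t => t + 1).card ≤ (transT al a τ).card := card_image_le
    omega
  have hlong : 2 * S0 ≤ Lg.card := by
    have := card_sdiff_add_card_eq_card (show Lg ⊆ Ys from filter_subset _ _)
    omega
  have hex : ∀ y ∈ Lg, ∃ u ∈ J, nrm D (y - u) ≤ g + 2 * ρt + 1 ∧ ¬ Crowd D p al a τ r1 ρt u :=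
    fun y hy => (mem_filter.1 hy).2
  choose! u hu1 hu2 hu3 using hex
  have hdisj : (Lg : Set (Pt d)).PairwiseDisjoint fun y => ball D J (u y) ρt := by
    intro y hy y' hy' hne
    have hy1 : y ∈ Lg := hy
    have hy2 : y' ∈ Lg := hy'
    refine disjoint_left.2 fun x hx hx' => hne ?_
    refine hsep y (mem_filter.1 hy1).1 y' (mem_filter.1 hy2).1 ?_
    have a1 := hu2 y hy1
    have a2 := hu2 y' hy2
    have a3 := (mem_ball.1 hx).2
    have a4 := (mem_ball.1 hx').2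
    rw [nrm_sub_comm] at a2 a3
    have a5 := nrm_sub_le D y (u y) y'
    have a6 := nrm_sub_le D (u y) x y'
    have a7 := nrm_sub_le D x (u y') y'
    omega
  have b1 : ∑ x ∈ Lg.biUnion fun y => ball D J (u y) ρt, Y.esc A h x ≤ ∑ x ∈ J, Y.esc A h x :=
    sum_le_sum_of_subset_of_nonneg (biUnion_subset.2 fun y _ => filter_subset _ _)
      fun x _ _ => Y.esc_nonneg _ _ _
  rw [sum_biUnion hdisj] at b1
  have b2 : Lg.card • (1 / 2 : ℝ) ≤ ∑ y ∈ Lg, ∑ x ∈ ball D J (u y) ρt, Y.esc A h x :=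
    card_nsmul_le_sum _ _ _ fun y hy => hloc (u y) (hu1 y hy)
      (fun r hr hr' => card_ball_of_not_crowd (hu3 y hy) hr1 hr hr')
      (fun r hr hr' => hcase r (u y) hr (by omega))
  rw [nsmul_eq_mul] at b2
  have b3 : (2 * S0 : ℝ) ≤ Lg.card := by exact_mod_cast hlong
  linarith

end Sys

end Pool.Agent.Lib.MP_aa337a_pr.HD
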