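import Pool.Agent.Lib.MP_aa337a_pr.HdWalk
import Pool.Agent.Lib.MP_aa337a_pr.HdMix

/-! A fresh walk rarely meets the independent past of another walk. -/

set_option autoImplicit false

noncomputable section

namespace Pool.Agent.Lib.MP_aa337a_pr.HD

open MeasureTheory Finset
open scoped Classical

namespace Sys

variable {d : ℕ} (Y : Sys d)

/-- One pair of times, `p = t - s`, `q = i - t'`: if `q ≤ p` freeze the future
(`P_le_of_splice' t`) and use `HK` for `pos a (s + p) - pos a s`; otherwise freeze the past and use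
`HK` for `pos t' (t' + q) - pos t' t'`. -/
theorem hit_pair {α n : ℕ} {η : ℝ} (H : Y.HK α η n) {a s t t' i : ℕ} (hs : a ≤ s) (hst : s ≤ t)
    (ht : t ≤ t') (hi : t' ≤ i) (htn : t ≤ a + n) (hin : i ≤ t' + n) (hne : s ≠ t ∨ i ≠ t')
    (y : Pt d) :
    Y.P (fun ω => Y.pos a t ω - Y.pos a s ω + Y.pos t' i ω = y) ≤
      η / ((max (t - s) (i - t') : ℕ) : ℝ) ^ α := by
  have hL : Loc fun ω => Y.pos a t ω - Y.pos a s ω + Y.pos t' i ω = y :=
    (((Y.loc_pos a t).sub (Y.loc_pos a s)).add (Y.loc_pos t' i)).comp fun v => v = y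
  have hsp : ∀ ω ω' : Y.Ω, Y.pos a t (splice t ω ω') - Y.pos a s (splice t ω ω') +
      Y.pos t' i (splice t ω ω') = Y.pos a t ω - Y.pos a s ω + Y.pos t' i ω' := fun ω ω' => by
    rw [dep_splice_left (Y.pos_dep' a le_rfl), dep_splice_left (Y.pos_dep' a hst),
      dep_splice_right ((Y.pos_dep t' i).mono fun _ hj => ht.trans hj.1)]
  rcases le_or_gt (i - t') (t - s) with h | h
  · rw [max_eq_left h]
    refine Y.P_le_of_splice' t hL fun ω' => ?_
    refine (Y.P_mono fun ω hω => ?_).trans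
      (H a s (t - s) (y - Y.pos t' i ω') hs (by omega) (by omega))
    rw [hsp] at hω
    rw [Nat.add_sub_cancel' hst]
    exact eq_sub_of_add_eq hω
  · rw [max_eq_right h.le]
    refine Y.P_le_of_splice t hL fun ω => ?_
    refine (Y.P_mono fun ω' hω => ?_).trans
      (H t' t' (i - t') (y - (Y.pos a t ω - Y.pos a s ω)) le_rfl (by omega) (by omega))
    rw [hsp] at hω
    rw [Nat.add_sub_cancel' hi, Y.pos_self, sub_zero]
    exact eq_sub_of_add_eq' hω

theorem HdHit_sum (N : ℕ) : ∑ p ∈ range N, ∑ q ∈ range N, 1 / ((max p q : ℕ) : ℝ) ^ 3 ≤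
    3 * ∑ l ∈ range N, 1 / (l : ℝ) ^ 2 := by
  induction N with
  | zero => simp
  | succ N ih =>
    have h1 : ∑ p ∈ range N, 1 / ((max p N : ℕ) : ℝ) ^ 3 = N * (1 / (N : ℝ) ^ 3) := by
      rw [sum_congr rfl fun p hp => by rw [max_eq_right (mem_range.1 hp).le], sum_const,
        card_range, nsmul_eq_mul]
    have h2 : ∑ q ∈ range N, 1 / ((max N q : ℕ) : ℝ) ^ 3 = N * (1 / (N : ℝ) ^ 3) := by
      rw [sum_congr rfl fun p hp => by rw [max_eq_left (mem_range.1 hp).le], sum_const,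
        card_range, nsmul_eq_mul]
    have h3 : (2 * N + 1) * (1 / (N : ℝ) ^ 3) ≤ 3 * (1 / (N : ℝ) ^ 2) := by
      rcases Nat.eq_zero_or_pos N with h | h
      · simp [h]
      · have h4 : (1 : ℝ) ≤ N := by exact_mod_cast h
        have h5 : 3 * (1 / (N : ℝ) ^ 2) = (3 * N) * (1 / (N : ℝ) ^ 3) := by field_simp
        rw [h5]
        exact mul_le_mul_of_nonneg_right (by linarith) (by positivity)
    simp only [sum_range_succ, sum_add_distrib, h1, h2, max_self]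
    linarith

/-- Union bound: at most `2 l + 1 ≤ 3 l` pairs have `max p q = l`, and
`∑ 3 l / l ^ α ≤ 3 ∑ 1 / l ^ 2 ≤ 6`. -/
theorem hit_le {α n : ℕ} {η : ℝ} (H : Y.HK α η n) (hα : 3 ≤ α) (hη : 0 ≤ η) {a t t' k : ℕ}
    (ht : t ≤ t') (htn : t ≤ a + n) (hk : k ≤ n) (y : Pt d) :
    Y.P (fun ω => ∃ s i, a ≤ s ∧ s ≤ t ∧ t' ≤ i ∧ i ≤ t' + k ∧ (s ≠ t ∨ i ≠ t') ∧
      Y.pos a t ω - Y.pos a s ω + Y.pos t' i ω = y) ≤ 6 * η := by
  refine (Y.P_le_sum (range (t + k + 1) ×ˢ range (t + k + 1))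
    (fun j ω => (a + j.1 ≤ t ∧ j.2 ≤ k ∧ (j.1 ≠ 0 ∨ j.2 ≠ 0)) ∧
      Y.pos a t ω - Y.pos a (t - j.1) ω + Y.pos t' (t' + j.2) ω = y) fun ω hω => ?_).trans ?_
  · obtain ⟨s, i, h1, h2, h3, h4, h5, h6⟩ := hω
    refine ⟨(t - s, i - t'), ?_, ?_, ?_⟩
    · simp only [mem_product, mem_range]
      omega
    · simp only
      omega
    · simp only
      rw [Nat.sub_sub_self h2, Nat.add_sub_cancel' h3]
      exact h6
  · refine (sum_le_sum (g := fun j => η * (1 / ((max j.1 j.2 : ℕ) : ℝ) ^ 3)) fun j _ => ?_).trans ?_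
    · by_cases hc : a + j.1 ≤ t ∧ j.2 ≤ k ∧ (j.1 ≠ 0 ∨ j.2 ≠ 0)
      · refine (Y.P_mono fun _ hω => hω.2).trans ((Y.hit_pair H (by omega) (by omega) ht
          (by omega) htn (by omega) (by omega) y).trans ?_)
        rw [Nat.sub_sub_self (by omega), Nat.add_sub_cancel_left, mul_one_div]
        have h1 : (1 : ℝ) ≤ ((max j.1 j.2 : ℕ) : ℝ) := by
          have : 1 ≤ max j.1 j.2 := by omega
          exact_mod_cast this
        exact div_le_div_of_nonneg_left hη (by positivity) (pow_le_pow_right₀ h1 hα)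
      · rw [Y.P_eq_zero fun _ hω => hc hω.1]
        positivity
    · rw [← mul_sum, sum_product, mul_comm]
      refine mul_le_mul_of_nonneg_right ((HdHit_sum _).trans ?_) hη
      linarith [sum_inv_sq_le_two (range (t + k + 1))]

/-- `dom` and `hit_le` with `t' = t`, `y = 0`. -/
theorem veto {α n : ℕ} {η : ℝ} (H : Y.HK α η n) (hα : 3 ≤ α) (hη : 0 ≤ η) {a t k : ℕ}
    (hat : a ≤ t) (htn : t ≤ a + n) (hk : k ≤ n) :
    Y.P (fun ω => ∃ u, t ≤ u ∧ u < t + k ∧ Y.xi a u ω ≠ Y.xi t u ω) ≤ 6 * η := by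
  refine (Y.P_mono fun ω hω => ?_).trans (Y.hit_le H hα hη (le_refl t) htn hk 0)
  obtain ⟨u, h1, h2, h3⟩ := hω
  by_contra hc
  refine h3 (Y.dom (n := k) hat (fun i s a1 a2 a3 a4 a5 => hc ?_) u h1 h2)
  refine ⟨s, i, a3, a4.le, a1.le, a2, Or.inl a4.ne, ?_⟩
  rw [← a5]
  abel

/-- Two applications of `hit_le` with `t = τ`, `t' = τ + 1`, `k = 2 l - 1`, `y = -step σ`; the pair
`s = τ`, `i = τ + 1` is excluded by `step_ne_zero`. -/
theorem P_not_noHit {α n : ℕ} {η : ℝ} (H : Y.HK α η n) (hα : 3 ≤ α) (hη : 0 ≤ η) {l τ : ℕ}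
    (hl : 1 ≤ l) (hn : 2 * l ≤ n) (σ : St d) :
    Y.P (fun ω => ¬ Y.NoHit l τ σ ω) ≤ 12 * η := by
  have h1 := Y.hit_le H hα hη (a := τ - l) (t := τ) (t' := τ + 1) (k := 2 * l - 1) (by omega)
    (by omega) (by omega) (-step σ)
  have h2 := Y.hit_le H hα hη (a := τ) (t := τ) (t' := τ + 1) (k := 2 * l - 1) (by omega)
    (by omega) (by omega) (-step σ)
  refine (Y.P_le_add fun ω hω => ?_).trans ((add_le_add h1 h2).trans_eq (by ring))
  unfold NoHit at hω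
  push Not at hω
  obtain ⟨c, hc, s, i, a1, a2, a3, a4, a5⟩ := hω
  have key : c ≤ s ∧ s ≤ τ ∧ τ + 1 ≤ i ∧ i ≤ τ + 1 + (2 * l - 1) ∧ (s ≠ τ ∨ i ≠ τ + 1) ∧
      Y.pos c τ ω - Y.pos c s ω + Y.pos (τ + 1) i ω = -step σ := by
    refine ⟨a1, a2, a3, by omega, ?_, ?_⟩
    · by_contra hb
      push Not at hb
      rw [hb.1, hb.2, Y.pos_self, add_zero, add_eq_left] at a5
      exact step_ne_zero σ a5
    · rw [← a5]
      abel
  rcases hc with rfl | rfl
  · exact Or.inl ⟨s, i, key⟩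
  · exact Or.inr ⟨s, i, key⟩

end Sys

end Pool.Agent.Lib.MP_aa337a_pr.HD
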