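import Pool.Agent.Lib.MP_aa337a_pr.HdWalk

/-! Last visit decomposition and elementary properties of `Out`, `gg`, `Beta`. -/

set_option autoImplicit false

noncomputable section

namespace Pool.Agent.Lib.MP_aa337a_pr.HD

open MeasureTheory Finset
open scoped Classical

namespace Sys

variable {d : ℕ} (Y : Sys d)

theorem loc_out (A : Finset (Pt d)) (nH a t : ℕ) {y : Y.Ω → Pt d} (hy : Loc y) :
    Loc fun ω => Y.Out A nH (y ω) a t ω := by
  have h : Loc fun ω (y' : Pt d) => Y.Out A nH y' a t ω :=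
    Loc.of_dep (n := max nH t) (dep_pi fun y' => Y.out_dep A nH y' a t) fun _ hi => hi.2
  exact h.apply hy

/-- Avoidance after `t` implies avoidance after a later time `t'`. -/
theorem Out.later {Y : Sys d} {A : Finset (Pt d)} {nH a t t' : ℕ} {y : Pt d} {ω : Y.Ω}
    (h : Y.Out A nH y a t ω) (ht : t ≤ t') :
    Y.Out A nH (y + (Y.pos a t' ω - Y.pos a t ω)) a t' ω := by
  intro i h1 h2
  have := h i (lt_of_le_of_lt ht h1) h2
  rwa [add_assoc, add_comm (Y.pos a t' ω - Y.pos a t ω), sub_add_sub_cancel]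

theorem gg_nonneg (A : Finset (Pt d)) (nH w : ℕ) : 0 ≤ Y.gg A nH w :=
  sum_nonneg fun _ _ => Y.P_nonneg _

theorem gg_le_card (A : Finset (Pt d)) (nH w : ℕ) : Y.gg A nH w ≤ A.card := by
  unfold gg
  refine (sum_le_sum fun x _ => Y.P_le_one _).trans ?_
  simp

/-- For `x ∈ A` let `w` be the last time in `[u, t]` with `x + (pos 0 w - pos 0 u) ∈ A`; then
`Out A nH (x + (pos 0 w - pos 0 u)) 0 w` holds. For fixed `ω` and `w` the translation is injective,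
so the sum over `x` of the indicators is at most `∑ x' ∈ A, ind (Out A nH x' 0 w ω)`
(`sum_P_eq`, `Ex_mono`). -/
theorem last_visit (A : Finset (Pt d)) (nH : ℕ) {u t : ℕ} (hut : u ≤ t) :
    ∑ x ∈ A, Y.P (fun ω => Y.Out A nH (x + (Y.pos 0 t ω - Y.pos 0 u ω)) 0 t ω) ≤
      ∑ w ∈ Icc u t, Y.gg A nH w := by
  have hl1 : ∀ x : Pt d, Loc fun ω => Y.Out A nH (x + (Y.pos 0 t ω - Y.pos 0 u ω)) 0 t ω :=
    fun x => Y.loc_out A nH 0 t ((Loc.const x).add ((Y.loc_pos 0 t).sub (Y.loc_pos 0 u)))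
  have hl2 : ∀ (x : Pt d) (w : ℕ), Loc (Y.Out A nH x 0 w) :=
    fun x w => Y.loc_out A nH 0 w (Loc.const x)
  have h1 : ∑ w ∈ Icc u t, Y.gg A nH w =
      Y.Ex fun ω => ∑ w ∈ Icc u t, ∑ x ∈ A, ind (Y.Out A nH x 0 w ω) := by
    rw [Y.Ex_sum _ fun w _ => Loc.sum _ fun x _ => (hl2 x w).ind]
    exact sum_congr rfl fun w _ => Y.sum_P_eq A fun x _ => hl2 x w
  rw [h1, Y.sum_P_eq A fun x _ => hl1 x]
  refine Y.Ex_mono (Loc.sum _ fun x _ => (hl1 x).ind)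
    (Loc.sum _ fun w _ => Loc.sum _ fun x _ => (hl2 x w).ind) fun ω => ?_
  have h2 : ∀ x ∈ A, ind (Y.Out A nH (x + (Y.pos 0 t ω - Y.pos 0 u ω)) 0 t ω) ≤
      ∑ w ∈ Icc u t, ind (x + (Y.pos 0 w ω - Y.pos 0 u ω) ∈ A ∧
        Y.Out A nH (x + (Y.pos 0 w ω - Y.pos 0 u ω)) 0 w ω) := by
    intro x hx
    by_cases h : Y.Out A nH (x + (Y.pos 0 t ω - Y.pos 0 u ω)) 0 t ω
    · have hne : ((Icc u t).filter fun w => x + (Y.pos 0 w ω - Y.pos 0 u ω) ∈ A).Nonempty :=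
        ⟨u, mem_filter.2 ⟨mem_Icc.2 ⟨le_rfl, hut⟩, by simpa using hx⟩⟩
      obtain ⟨w, hw, hmax⟩ := exists_max_image _ id hne
      rw [mem_filter] at hw
      have h3 : Y.Out A nH (x + (Y.pos 0 w ω - Y.pos 0 u ω)) 0 w ω := by
        intro i hi1 hi2
        rw [add_assoc, add_comm (Y.pos 0 w ω - Y.pos 0 u ω), sub_add_sub_cancel]
        by_cases hit : i ≤ t
        · intro hm
          have := hmax i (mem_filter.2 ⟨mem_Icc.2 ⟨(mem_Icc.1 hw.1).1.trans hi1.le, hit⟩, hm⟩)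
          exact absurd this (not_le.2 hi1)
        · have := h i (not_le.1 hit) hi2
          rwa [add_assoc, add_comm (Y.pos 0 t ω - Y.pos 0 u ω), sub_add_sub_cancel] at this
      rw [ind_of_true h, ← ind_of_true (And.intro hw.2 h3)]
      exact single_le_sum (f := fun w => ind (x + (Y.pos 0 w ω - Y.pos 0 u ω) ∈ A ∧
        Y.Out A nH (x + (Y.pos 0 w ω - Y.pos 0 u ω)) 0 w ω)) (fun _ _ => ind_nonneg _) hw.1
    · rw [ind_of_false h]
      exact sum_nonneg fun _ _ => ind_nonneg _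
  refine (sum_le_sum h2).trans ?_
  rw [sum_comm]
  refine sum_le_sum fun w _ => ?_
  generalize Y.pos 0 w ω - Y.pos 0 u ω = v
  have h4 : ∑ x ∈ A, ind (x + v ∈ A ∧ Y.Out A nH (x + v) 0 w ω) =
      ∑ x' ∈ (A.filter fun x => x + v ∈ A).image (· + v), ind (Y.Out A nH x' 0 w ω) := by
    rw [sum_image fun a _ b _ hab => add_right_cancel hab, sum_filter]
    refine sum_congr rfl fun x _ => ?_
    by_cases h : x + v ∈ A
    · rw [if_pos h]
      exact ind_congr (and_iff_right h)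
    · rw [if_neg h]
      exact ind_of_false fun hh => h hh.1
  rw [h4]
  refine sum_le_sum_of_subset_of_nonneg ?_ fun _ _ _ => ind_nonneg _
  intro x' hx'
  obtain ⟨x, hx, rfl⟩ := mem_image.1 hx'
  exact (mem_filter.1 hx).2

theorem beta_triv {A : Finset (Pt d)} {nH u n : ℕ} {G : ℝ} (hn : 1 ≤ n)
    (h : (A.card : ℝ) ≤ (n : ℝ) ^ 8 * G) : Y.Beta A nH u G n := by
  intro B v a _ _ _ _ hB
  have hn0 : (0 : ℝ) < n := by exact_mod_cast hn
  calc ∑ x ∈ A, Y.P (fun ω => B ω ∧ Y.Out A nH (x + v ω) a (u + n) ω)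
      ≤ ∑ _x ∈ A, 1 / (n : ℝ) ^ 11 := sum_le_sum fun x _ => (Y.P_mono fun _ hω => hω.1).trans hB
    _ = A.card * (1 / (n : ℝ) ^ 11) := by rw [sum_const, nsmul_eq_mul]
    _ ≤ (n : ℝ) ^ 8 * G * (1 / (n : ℝ) ^ 11) := mul_le_mul_of_nonneg_right h (by positivity)
    _ = G / (n : ℝ) ^ 3 := by field_simp

/-- If late visits have probability at most `1 / 2`, some `gg` is large (`one_sub_P_le`,
`last_visit` with `u = 0`, `t = j`). -/
theorem exists_gg_ge (A : Finset (Pt d)) (nH j : ℕ)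
    (h : ∀ x ∈ A, Y.hit A (j + 1) nH x ≤ 1 / 2) :
    ∃ w, w ≤ j ∧ (A.card : ℝ) / (2 * (j + 1)) ≤ Y.gg A nH w := by
  by_contra hcon
  push Not at hcon
  have h1 := Y.last_visit A nH (Nat.zero_le j)
  have h2 : ∀ x ∈ A, 1 / 2 ≤
      Y.P (fun ω => Y.Out A nH (x + (Y.pos 0 j ω - Y.pos 0 0 ω)) 0 j ω) := by
    intro x hx
    have h3 := Y.one_sub_P_le fun ω => ∃ i, j + 1 ≤ i ∧ i ≤ nH ∧ x + Y.pos 0 i ω ∈ A
    have h4 : Y.P (fun ω => ∃ i, j + 1 ≤ i ∧ i ≤ nH ∧ x + Y.pos 0 i ω ∈ A) ≤ 1 / 2 := h x hx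
    refine le_trans (by linarith) (h3.trans (Y.P_mono fun ω hω i hi1 hi2 hm => hω ⟨i, hi1, hi2, ?_⟩))
    rwa [Y.pos_self, sub_zero, add_assoc, add_sub_cancel] at hm
  have h3 : (A.card : ℝ) * (1 / 2) ≤
      ∑ x ∈ A, Y.P (fun ω => Y.Out A nH (x + (Y.pos 0 j ω - Y.pos 0 0 ω)) 0 j ω) := by
    rw [← nsmul_eq_mul, ← sum_const]
    exact sum_le_sum h2
  have h4 : ∑ w ∈ Icc 0 j, Y.gg A nH w < ∑ _w ∈ Icc 0 j, (A.card : ℝ) / (2 * (j + 1)) :=
    sum_lt_sum_of_nonempty ⟨0, by simp⟩ fun w hw => hcon w (mem_Icc.1 hw).2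
  rw [sum_const, nsmul_eq_mul, Nat.card_Icc, Nat.sub_zero] at h4
  have h5 : ((j + 1 : ℕ) : ℝ) * ((A.card : ℝ) / (2 * (j + 1))) = A.card * (1 / 2) := by
    push_cast
    field_simp
  linarith

end Sys

end Pool.Agent.Lib.MP_aa337a_pr.HD
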