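import Pool.Agent.Lib.MP_aa337a_pr.HdStep
import Pool.Agent.Lib.MP_aa337a_pr.DefsEq

/-! The law of the fresh walk is the iterated sum `fex`; symmetry; link with `msd`. -/

set_option autoImplicit false

noncomputable section

namespace Pool.Agent.Lib.MP_aa337a_pr.HD

open MeasureTheory Finset
open scoped Classical

/-- The analogue of `expect` for a general weight `w`. -/
def fex (w : ℕ → ℝ) (d : ℕ) : ℕ → (Pt d → List (Pt d) → ℝ) → ℝ
  | 0, f => f 0 [0]
  | n + 1, f => fex w d n fun x l => ∑ s : St d,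
      w (l.count (x + step s)) / (∑ s' : St d, w (l.count (x + step s'))) *
        f (x + step s) ((x + step s) :: l)

theorem HdLaw_count {d : ℕ} (l : List (Pt d)) (y : Pt d) :
    (l.map Neg.neg).count (-y) = l.count y :=
  List.count_map_of_injective l Neg.neg neg_injective y

theorem HdLaw_congr (w : ℕ → ℝ) (d n : ℕ) {f g : Pt d → List (Pt d) → ℝ}
    (h : ∀ x l, l.length = n + 1 → f x l = g x l) : fex w d n f = fex w d n g := by
  induction n generalizing f g with
  | zero => exact h _ _ rfl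
  | succ n ih =>
    unfold fex
    refine ih fun x l hl => sum_congr rfl fun s _ => ?_
    rw [h _ _ (by simp [hl])]

/-- Induction on `n` generalizing `f`; reindex the sums by `ng d`. -/
theorem fex_neg (w : ℕ → ℝ) (d n : ℕ) (f : Pt d → List (Pt d) → ℝ) :
    fex w d n (fun x l => f (-x) (l.map Neg.neg)) = fex w d n f := by
  induction n generalizing f with
  | zero => simp [fex]
  | succ n ih =>
    unfold fex
    conv_rhs => rw [← ih]
    congr 1
    funext x l
    have h1 : ∀ s : St d, -x + step (ng d s) = -(x + step s) := fun s => by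
      rw [step_ng]
      abel
    have h2 : ∑ s' : St d, w ((l.map Neg.neg).count (-x + step s')) =
        ∑ s' : St d, w (l.count (x + step s')) := by
      rw [← Equiv.sum_comp (ng d)]
      exact sum_congr rfl fun s _ => by rw [h1, HdLaw_count]
    rw [h2]
    symm
    rw [← Equiv.sum_comp (ng d)]
    refine sum_congr rfl fun s _ => ?_
    rw [h1, HdLaw_count]
    rfl

/-- `fex w d n f` only uses the values of `f` on lists of length `n + 1`, so only the weights
`w v` with `v ≤ n` matter. -/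
theorem fex_eq_expect {w : ℕ → ℝ} {β : ℝ} {N : ℕ} (hw : ∀ v, v ≤ N → w v = Real.exp (-β * v))
    (d : ℕ) {n : ℕ} (hn : n ≤ N) (f : Pt d → List (Pt d) → ℝ) :
    fex w d n f = expect β d n f := by
  induction n generalizing f with
  | zero => rfl
  | succ n ih =>
    unfold fex expect
    rw [← ih (by omega)]
    refine HdLaw_congr w d n fun x l hl => sum_congr rfl fun s _ => ?_
    have h1 : ∀ y : Pt d, w (l.count y) = Real.exp (-β * (l.count y : ℕ)) := fun y =>
      hw _ (List.count_le_length.trans (by omega))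
    unfold trans
    simp only [h1]

namespace Sys

variable {d : ℕ} (Y : Sys d)

/-- Induction on `n` generalizing `f`, with `Ex_step`, `hist_succ`, `hist_count`. -/
theorem Ex_hist (n : ℕ) (f : Pt d → List (Pt d) → ℝ) :
    Y.Ex (fun ω => f (Y.pos 0 n ω) (Y.hist ω 0 n)) = fex Y.w d n f := by
  induction n generalizing f with
  | zero =>
    have h : ∀ ω, f (Y.pos 0 0 ω) (Y.hist ω 0 0) = f 0 [0] := fun ω => by
      rw [Y.pos_self]
      rfl
    rw [Y.Ex_congr h, Y.Ex_const]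
    rfl
  | succ n ih =>
    unfold fex
    rw [← ih]
    have hd : DependsOn (fun ω => Y.hist ω 0 n) (Set.Iio n) :=
      (Y.hist_dep 0 n).mono fun i hi => by simpa using hi.2
    have h1 := Y.Ex_step 0 n (F := fun ω s =>
      f (Y.pos 0 n ω + step s) ((Y.pos 0 n ω + step s) :: Y.hist ω 0 n))
      (dep_comp₂ (Y.pos_dep' 0 le_rfl) hd fun x l s => f (x + step s) ((x + step s) :: l))
    refine (Y.Ex_congr fun ω => ?_).trans (h1.trans (Y.Ex_congr fun ω => ?_))
    · rw [Y.hist_succ, Y.pos_succ (Nat.zero_le n), Nat.zero_add]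
    · unfold tr
      simp only [Y.hist_count, Nat.zero_add]

theorem Ex_pos_zero (n : ℕ) (i : Fin d) : Y.Ex (fun ω => ((Y.pos 0 n ω i : ℤ) : ℝ)) = 0 := by
  have h1 := Y.Ex_hist n fun x _ => ((x i : ℤ) : ℝ)
  have h2 := Y.Ex_hist n fun x _ => (((-x) i : ℤ) : ℝ)
  have h3 := fex_neg Y.w d n fun x _ => ((x i : ℤ) : ℝ)
  have h4 := Y.Ex_const_mul (-1) fun ω => ((Y.pos 0 n ω i : ℤ) : ℝ)
  have h5 : Y.Ex (fun ω => (((-Y.pos 0 n ω) i : ℤ) : ℝ)) =
      Y.Ex fun ω => (-1) * ((Y.pos 0 n ω i : ℤ) : ℝ) := Y.Ex_congr fun ω => by simp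
  linarith

/-- `step (xi a u) = pos a (u + 1) - pos a u`, shift to `a = 0`. -/
theorem Ex_step_zero {a u : ℕ} (h : a ≤ u) (i : Fin d) :
    Y.Ex (fun ω => ((step (Y.xi a u ω) i : ℤ) : ℝ)) = 0 := by
  obtain ⟨k, rfl⟩ := Nat.exists_eq_add_of_le h
  have h1 := Y.Ex_shift a (f := fun ω => ((step (Y.xi 0 k ω) i : ℤ) : ℝ))
    ((Y.loc_xi 0 k).comp fun s => ((step s i : ℤ) : ℝ))
  simp only [Y.xi_shift, Nat.add_zero] at h1
  have h2 : Y.Ex (fun ω => ((step (Y.xi 0 k ω) i : ℤ) : ℝ)) =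
      Y.Ex fun ω => ((Y.pos 0 (k + 1) ω i : ℤ) : ℝ) - ((Y.pos 0 k ω i : ℤ) : ℝ) :=
    Y.Ex_congr fun ω => by
      rw [Y.pos_succ (Nat.zero_le k)]
      simp
  rw [h1, h2, Y.Ex_sub ((Y.loc_pos 0 (k + 1)).comp fun x => ((x i : ℤ) : ℝ))
    ((Y.loc_pos 0 k).comp fun x => ((x i : ℤ) : ℝ)), Y.Ex_pos_zero, Y.Ex_pos_zero, sub_zero]

theorem msd_eq {β : ℝ} {N n : ℕ} (hw : ∀ v, v ≤ N → Y.w v = Real.exp (-β * v)) (hn : n ≤ N) :
    msd β d n = Y.Ex fun ω => ∑ i, ((Y.pos 0 n ω i : ℤ) : ℝ) ^ 2 := by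
  unfold msd
  rw [← fex_eq_expect hw d hn, ← Y.Ex_hist]

end Sys

end Pool.Agent.Lib.MP_aa337a_pr.HD
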