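import Pool.Agent.Lib.MP_aa337a_pr.HdDefs

/-! Existence of a noise system (Luce choice). Cells are pairs `(s, v)` with `v ≤ N`, of weight
`p v = w v - w (v + 1)` for `v < N` and `p N = w N`, where `w v = exp (-β * min v N)`; the cell
`(s, v)` is active for `V` if `min (V s) N ≤ v`, so that the active cells of `s` have total weight
`w (V s)`. A letter is a pair (cell `y`, choice function `G`) with weight `p y / p(all) * ν G`,
where `G` ranges over the consistent choice functions (a subtype of `Finset C → C`) of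
`exists_choice` for `A = univ`; it picks the step of `y` if `y` is active and the step of the cell
`G (active cells)` otherwise. `flip π (y, G) = ((π y.1, y.2), G)`. -/

set_option autoImplicit false

noncomputable section

namespace Pool.Agent.Lib.MP_aa337a_pr.HD

open MeasureTheory Finset
open scoped Classical

/-- Random consistent choice functions with the Luce property. Strong induction on `A`:
`ν_A = ∑ y ∈ A, p y / p(A) * (push-forward of ν_(A.erase y) under G ↦ fun B => if y ∈ B then y
else G B)`; for `A = ∅` take a point mass. -/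
theorem exists_choice {C : Type} [Fintype C] [Nonempty C] (p : C → ℝ) (hp : ∀ x, 0 < p x)
    (A : Finset C) :
    ∃ ν : (Finset C → C) → ℝ, (∀ G, 0 ≤ ν G) ∧ ∑ G, ν G = 1 ∧
      (∀ G, ν G ≠ 0 → (∀ B, B ⊆ A → B.Nonempty → G B ∈ B) ∧
        ∀ B B', B ⊆ A → B' ⊆ B → G B ∈ B' → G B' = G B) ∧
      ∀ B, B ⊆ A → ∀ x ∈ B, ∑ G, (if G B = x then ν G else 0) = p x / ∑ y ∈ B, p y := by
  induction A using Finset.strongInduction with
  | H A ih =>
  rcases A.eq_empty_or_nonempty with rfl | hA
  · obtain ⟨c⟩ := (inferInstance : Nonempty C)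
    refine ⟨fun G => if G = fun _ => c then 1 else 0, fun G => by positivity, by simp,
      fun G hG => ⟨fun B hB hB' => ?_, fun B B' hB hB' h => ?_⟩, fun B hB x hx => ?_⟩
    · exact absurd (subset_empty.1 hB) hB'.ne_empty
    · exact absurd (hB (hB' h)) (notMem_empty _)
    · exact absurd (hB hx) (notMem_empty _)
  have ih' : ∀ y, y ∈ A → _ := fun y hy => ih (A.erase y) (erase_ssubset hy)
  choose! μ h0 h1 h2 h3 using ih'
  have hS : 0 < ∑ y ∈ A, p y := sum_pos (fun y _ => hp y) hA
  set T : C → (Finset C → C) → Finset C → C := fun y G B => if y ∈ B then y else G B with hT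
  have key : ∀ q : (Finset C → C) → Prop,
      ∑ G', (if q G' then ∑ y ∈ A, p y / (∑ y ∈ A, p y) * ∑ G, (if T y G = G' then μ y G else 0)
        else 0) = ∑ y ∈ A, p y / (∑ y ∈ A, p y) * ∑ G, (if q (T y G) then μ y G else 0) := by
    intro q
    have e : ∀ G', (if q G' then ∑ y ∈ A, p y / (∑ y ∈ A, p y) *
        ∑ G, (if T y G = G' then μ y G else 0) else 0) =
        ∑ y ∈ A, p y / (∑ y ∈ A, p y) *
          ∑ G, (if T y G = G' then (if q (T y G) then μ y G else 0) else 0) := by
      intro G'
      split_ifs with hq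
      · refine sum_congr rfl fun y _ => congrArg _ (sum_congr rfl fun G _ => ?_)
        split_ifs with e1 e2
        · rfl
        · exact absurd (e1 ▸ hq) e2
        · rfl
      · refine (sum_eq_zero fun y _ => ?_).symm
        refine mul_eq_zero_of_right _ (sum_eq_zero fun G _ => ?_)
        split_ifs with e1 e2
        · exact absurd (e1 ▸ e2) hq
        · rfl
        · rfl
    simp_rw [e]
    rw [sum_comm]
    refine sum_congr rfl fun y _ => ?_
    rw [← mul_sum, sum_comm]
    simp
  refine ⟨fun G' => ∑ y ∈ A, p y / (∑ y ∈ A, p y) * ∑ G, (if T y G = G' then μ y G else 0),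
    fun G' => sum_nonneg fun y hy => mul_nonneg (div_nonneg (hp y).le hS.le)
      (sum_nonneg fun G _ => by split_ifs; exacts [h0 y hy G, le_rfl]), ?_, fun G' hG' => ?_,
    fun B hB x hx => ?_⟩
  · have := key fun _ => True
    simp only [if_true] at this
    rw [this, sum_congr rfl fun y hy => by rw [h1 y hy, mul_one], ← sum_div, div_self hS.ne']
  · obtain ⟨y, hy, hy'⟩ := exists_ne_zero_of_sum_ne_zero hG'
    obtain ⟨G, -, hG⟩ := exists_ne_zero_of_sum_ne_zero (right_ne_zero_of_mul hy')
    have e1 : T y G = G' := by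
      by_contra h
      exact hG (if_neg h)
    rw [if_pos e1] at hG
    obtain ⟨k1, k2⟩ := h2 y hy G hG
    subst e1
    refine ⟨fun B hB hB' => ?_, fun B B' hB hB' h => ?_⟩
    · simp only [hT]
      split_ifs with h
      · exact h
      · exact k1 B (subset_erase.2 ⟨hB, h⟩) hB'
    · simp only [hT] at h ⊢
      by_cases hyB : y ∈ B
      · rw [if_pos hyB] at h ⊢
        rw [if_pos h]
      · rw [if_neg hyB] at h ⊢
        rw [if_neg fun h' => hyB (hB' h')]
        exact k2 B B' (subset_erase.2 ⟨hB, hyB⟩) hB' h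
  · rw [key fun G' => G' B = x]
    have hSB : 0 < ∑ y ∈ B, p y := sum_pos (fun y _ => hp y) ⟨x, hx⟩
    rw [← sum_sdiff hB]
    have e1 : ∑ y ∈ A \ B, p y / (∑ y ∈ A, p y) * ∑ G, (if T y G B = x then μ y G else 0) =
        (∑ y ∈ A \ B, p y) / (∑ y ∈ A, p y) * (p x / ∑ y ∈ B, p y) := by
      rw [sum_div, sum_mul]
      refine sum_congr rfl fun y hy => ?_
      obtain ⟨a1, a2⟩ := mem_sdiff.1 hy
      simp only [hT, if_neg a2]
      rw [h3 y a1 B (subset_erase.2 ⟨hB, a2⟩) x hx]
    have e2 : ∑ y ∈ B, p y / (∑ y ∈ A, p y) * ∑ G, (if T y G B = x then μ y G else 0) =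
        p x / ∑ y ∈ A, p y := by
      rw [sum_eq_single_of_mem x hx]
      · simp only [hT, if_pos hx, if_true]
        rw [h1 x (hB hx), mul_one]
      · intro y hy hne
        simp only [hT, if_pos hy, if_neg hne, sum_const_zero, mul_zero]
    rw [e1, e2]
    have e3 : ∑ y ∈ A \ B, p y = ∑ y ∈ A, p y - ∑ y ∈ B, p y := by
      rw [← sum_sdiff hB]; ring
    rw [e3]
    field_simp
    ring

theorem HdSysEx_tel (u : ℕ → ℝ) {m n : ℕ} (h : m ≤ n) :
    ∑ v ∈ range n, (if m ≤ v then u v - u (v + 1) else 0) = u m - u n := by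
  induction n, h using Nat.le_induction with
  | base =>
    rw [sub_self]
    exact sum_eq_zero fun v hv => if_neg (not_le.2 (mem_range.1 hv))
  | succ n h ih => rw [sum_range_succ, ih, if_pos h]; ring

theorem exists_sys {d : ℕ} (hd : 0 < d) {β : ℝ} (hβ : 0 < β) (N : ℕ) :
    ∃ Y : Sys d, ∀ v, v ≤ N → Y.w v = Real.exp (-β * v) := by
  have : Nonempty (Fin d) := ⟨⟨0, hd⟩⟩
  set u : ℕ → ℝ := fun v => if v ≤ N then Real.exp (-β * v) else 0 with hu
  set w : ℕ → ℝ := fun v => Real.exp (-β * (min v N : ℕ)) with hw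
  set p : St d × Fin (N + 1) → ℝ := fun c => u c.2 - u (c.2 + 1) with hpdef
  have hp : ∀ c, 0 < p c := fun c => by
    simp only [hpdef, hu, if_pos (Nat.lt_succ_iff.1 c.2.2)]
    split_ifs
    · rw [sub_pos, Real.exp_lt_exp]
      push_cast
      linarith
    · rw [sub_zero]; exact Real.exp_pos _
  obtain ⟨ν, h0, h1', h2, h3'⟩ := exists_choice p hp univ
  have h1 : ∑ G, ν G = 1 :=
    (sum_congr (congrArg (fun i => @univ _ i) (Subsingleton.elim _ _)) fun _ _ => rfl).trans h1'
  have h3 : ∀ B, ∀ x ∈ B, ∑ G, (if G B = x then ν G else 0) = p x / ∑ y ∈ B, p y :=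
    fun B x hx => (sum_congr (congrArg (fun i => @univ _ i) (Subsingleton.elim _ _))
      fun G _ => by by_cases hG : G B = x <;> simp only [hG, if_true, if_false]).trans
        (h3' B (subset_univ _) x hx)
  obtain ⟨G0, -, hG0⟩ := exists_ne_zero_of_sum_ne_zero (h1.trans_ne one_ne_zero)
  set cl : (Finset (St d × Fin (N + 1)) → St d × Fin (N + 1)) →
    Finset (St d × Fin (N + 1)) → St d × Fin (N + 1) := fun G => if ν G ≠ 0 then G else G0 with hcl
  have hcl0 : ∀ G, ν (cl G) ≠ 0 := fun G => by
    simp only [hcl]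
    split_ifs with h
    exacts [h, hG0]
  set act : (St d → ℕ) → Finset (St d × Fin (N + 1)) :=
    fun V => univ.filter fun c => min (V c.1) N ≤ c.2 with hact
  have hmem : ∀ V c, c ∈ act V ↔ min (V c.1) N ≤ c.2 := fun V c => by simp [hact]
  have hne : ∀ V, (act V).Nonempty := fun V =>
    ⟨(Classical.arbitrary _, Fin.last N), (hmem _ _).2 (min_le_right _ _)⟩
  have hrow : ∀ m : ℕ, ∑ v : Fin (N + 1), (if min m N ≤ v then u v - u (v + 1) else 0) = w m := by
    intro m
    rw [Fin.sum_univ_eq_sum_range (fun v => if min m N ≤ v then u v - u (v + 1) else 0),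
      HdSysEx_tel u ((min_le_right _ _).trans (Nat.le_succ N))]
    simp only [hu, hw, if_pos (min_le_right m N), if_neg (Nat.not_succ_le_self N), sub_zero]
  have hs1 : ∀ V s, ∑ c ∈ act V, (if c.1 = s then p c else 0) = w (V s) := by
    intro V s
    simp only [hact]
    rw [sum_filter, Fintype.sum_prod_type, sum_eq_single s]
    · simpa [hpdef] using hrow (V s)
    · intro t _ ht
      simp [ht]
    · simp
  have hs2 : ∀ V, ∑ c ∈ act V, p c = ∑ s, w (V s) := by
    intro V
    simp_rw [← hs1 V]
    rw [sum_comm]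
    simp
  have hS : 0 < ∑ c, p c := sum_pos (fun c _ => hp c) univ_nonempty
  refine ⟨{
    E := (St d × Fin (N + 1)) × (Finset (St d × Fin (N + 1)) → St d × Fin (N + 1))
    ν := fun e => p e.1 / (∑ c, p c) * ν e.2
    ν_nonneg := fun e => mul_nonneg (div_nonneg (hp _).le hS.le) (h0 _)
    ν_sum := ?_
    w := w
    w_pos := fun v => Real.exp_pos _
    w_anti := fun a b hab => ?_
    w_zero := by simp [hw]
    stp := fun e V => if e.1 ∈ act V then e.1.1 else (cl e.2 (act V)).1
    law := fun V s => ?_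
    mono := fun e V V' hV h => ?_
    flip := fun π e => ((π e.1.1, e.1.2), e.2)
    flip_ν := fun π e => rfl
    flip_flip := fun π e h => ?_
    flip_first := fun π e => ?_ }, fun v hv => by simp only [hw, min_eq_left hv]⟩
  · rw [Fintype.sum_prod_type]
    simp_rw [← mul_sum, h1, mul_one]
    rw [← sum_div, div_self hS.ne']
  · simp only [hw]
    rw [Real.exp_le_exp]
    have : ((min a N : ℕ) : ℝ) ≤ (min b N : ℕ) := Nat.cast_le.2 (min_le_min_right _ hab)
    nlinarith
  · have hSB : 0 < ∑ c ∈ act V, p c := sum_pos (fun c _ => hp c) (hne V)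
    have hL : ∑ G, (if (cl G (act V)).1 = s then ν G else 0) = w (V s) / ∑ c ∈ act V, p c := by
      rw [← hs1 V s, sum_div]
      have e : ∀ c ∈ act V, (if c.1 = s then p c else 0) / ∑ c ∈ act V, p c =
          ∑ G, (if G (act V) = c then (if c.1 = s then ν G else 0) else 0) := by
        intro c hc
        split_ifs
        · exact (h3 _ c hc).symm
        · simp
      rw [sum_congr rfl e, sum_comm]
      refine sum_congr rfl fun G _ => ?_
      by_cases hG : ν G = 0
      · simp [hG]
      · have e1 : cl G = G := if_pos hG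
        rw [e1, sum_ite_eq, if_pos ((h2 G hG).1 _ (subset_univ _) (hne V))]
    rw [Fintype.sum_prod_type, ← sum_sdiff (subset_univ (act V))]
    have e1 : ∑ c ∈ univ \ act V, ∑ G, (if (if c ∈ act V then c.1 else (cl G (act V)).1) = s then
        p c / (∑ c, p c) * ν G else 0) =
        (∑ c ∈ univ \ act V, p c) / (∑ c, p c) * (w (V s) / ∑ c ∈ act V, p c) := by
      rw [sum_div, sum_mul, ← hL]
      refine sum_congr rfl fun c hc => ?_
      rw [mul_sum]
      refine sum_congr rfl fun G _ => ?_
      rw [if_neg (mem_sdiff.1 hc).2, mul_ite, mul_zero]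
    have e2 : ∑ c ∈ act V, ∑ G, (if (if c ∈ act V then c.1 else (cl G (act V)).1) = s then
        p c / (∑ c, p c) * ν G else 0) = w (V s) / ∑ c, p c := by
      rw [← hs1 V s, sum_div]
      refine sum_congr rfl fun c hc => ?_
      simp only [if_pos hc]
      split_ifs
      · rw [← mul_sum, h1, mul_one]
      · simp
    have e3 : ∑ c ∈ univ \ act V, p c = ∑ c, p c - ∑ c ∈ act V, p c := by
      rw [← sum_sdiff (subset_univ (act V))]; ring
    rw [e1, e2, e3, ← hs2 V]
    field_simp
    ring
  · have hsub : act V' ⊆ act V := fun c hc =>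
      (hmem _ _).2 ((min_le_min_right _ (hV c.1)).trans ((hmem _ _).1 hc))
    by_cases he : e.1 ∈ act V
    · simp only [if_pos he] at h ⊢
      rw [if_pos ((hmem _ _).2 (by rw [h]; exact (hmem _ _).1 he))]
    · simp only [if_neg he] at h ⊢
      rw [if_neg fun h' => he (hsub h')]
      obtain ⟨k1, k2⟩ := h2 _ (hcl0 e.2)
      rw [k2 (act V) (act V') (subset_univ _) hsub
        ((hmem _ _).2 (by rw [h]; exact (hmem _ _).1 (k1 _ (subset_univ _) (hne V))))]
  · have : π (π e.1.1) = e.1.1 := by
      rw [← Equiv.Perm.mul_apply, h, Equiv.Perm.one_apply]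
    simp only [this]
  · have : ∀ c, c ∈ act 0 := fun c => (hmem _ _).2 (by simp)
    simp only [if_pos (this _)]

end Pool.Agent.Lib.MP_aa337a_pr.HD
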