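import Pool.Agent.Lib.MP_aa337a_pr.HdHit
import Pool.Agent.Lib.MP_aa337a_pr.HdPhi
import Pool.Agent.Lib.MP_aa337a_pr.HdLaw

/-! The mean square displacement. `pos 0 n = ∑ i < n, step (xi 0 i)`, so the second moment is
`n + 2 ∑ i < j, c i j` with `c i j = Ex ⟨step (xi 0 i), step (xi 0 j)⟩` (`sum_step_sq`). Since
`xi 0 i` depends on `Iio (i + 1)` and `xi (i + 1) j` on the complement,
`Ex ⟨step (xi 0 i), step (xi (i + 1) j)⟩ = 0` (`Ex_mul_indep`, `Ex_step_zero`), so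
`|c i j| ≤ 2 P (xi 0 j ≠ xi (i + 1) j)`, which is at most `12 η` (`veto`) and at most
`4 / l ^ 2` for `l = j - i - 1 ≥ 1` (`Phi.single`). Sum over `l`: `65 * 12 η + 4 / 64 ≤ 1 / 4`. -/

set_option autoImplicit false

noncomputable section

namespace Pool.Agent.Lib.MP_aa337a_pr.HD

open MeasureTheory Finset
open scoped Classical

/-- Inner product of two steps. -/
def HdVar_ip {d : ℕ} (s s' : St d) : ℝ := ∑ i, ((step s i : ℤ) : ℝ) * ((step s' i : ℤ) : ℝ)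

/-- The bound for the covariance at lag `l + 1`. -/
def HdVar_b (η : ℝ) (l : ℕ) : ℝ := if l ≤ 64 then 12 * η else 4 * (1 / (l : ℝ) ^ 2)

theorem HdVar_sum_b {η : ℝ} (hη : 0 ≤ η) (hη1 : η ≤ 1 / 5000) (j : ℕ) :
    ∑ l ∈ range j, HdVar_b η l ≤ 1 / 4 := by
  unfold HdVar_b
  rw [sum_ite, sum_const, nsmul_eq_mul, ← mul_sum]
  have h1 : (((range j).filter fun l => l ≤ 64).card : ℝ) ≤ 65 := by
    have : ((range j).filter fun l => l ≤ 64) ⊆ range 65 := fun l hl =>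
      mem_range.2 (Nat.lt_succ_of_le (mem_filter.1 hl).2)
    exact_mod_cast (card_le_card this).trans (card_range 65).le
  have h2 := sum_inv_sq_le ((range j).filter fun l => ¬ l ≤ 64) (r := 64) (by norm_num)
    fun l hl => not_le.1 (mem_filter.1 hl).2
  have h3 := mul_le_mul_of_nonneg_right h1 (show 0 ≤ 12 * η by positivity)
  push_cast at h2
  linarith

namespace Sys

variable {d : ℕ} (Y : Sys d)

theorem HdVar_loc (a i a' j : ℕ) : Loc fun ω : Y.Ω => HdVar_ip (Y.xi a i ω) (Y.xi a' j ω) :=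
  (Y.loc_xi a i).comp₂ (Y.loc_xi a' j) HdVar_ip

theorem HdVar_indep {i j : ℕ} (hij : i < j) :
    Y.Ex (fun ω => HdVar_ip (Y.xi 0 i ω) (Y.xi (i + 1) j ω)) = 0 := by
  unfold HdVar_ip
  have hl : ∀ a u (k : Fin d), Loc fun ω : Y.Ω => ((step (Y.xi a u ω) k : ℤ) : ℝ) :=
    fun a u k => (Y.loc_xi a u).comp fun s => ((step s k : ℤ) : ℝ)
  rw [Y.Ex_sum _ fun k _ => (hl 0 i k).mul (hl (i + 1) j k)]
  refine sum_eq_zero fun k _ => ?_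
  have hsub : Set.Ico (i + 1) (j + 1) ⊆ (Set.Iio (i + 1))ᶜ := fun t ht h' =>
    absurd (show t < i + 1 from h') (not_lt.2 ht.1)
  rw [Y.Ex_mul_indep (Set.Iio (i + 1)) (hl 0 i k) (hl (i + 1) j k)
    (dep_comp (Y.xi_dep' 0 i) fun s => ((step s k : ℤ) : ℝ))
    (dep_comp ((Y.xi_dep (show i + 1 ≤ j from hij)).mono hsub)
      fun s => ((step s k : ℤ) : ℝ)),
    Y.Ex_step_zero (show i + 1 ≤ j from hij), mul_zero]

theorem HdVar_cov {i j : ℕ} (hij : i < j) :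
    |Y.Ex (fun ω => HdVar_ip (Y.xi 0 i ω) (Y.xi 0 j ω))| ≤
      2 * Y.P fun ω => Y.xi 0 j ω ≠ Y.xi (i + 1) j ω := by
  have hp : Loc fun ω : Y.Ω => Y.xi 0 j ω ≠ Y.xi (i + 1) j ω :=
    (Y.loc_xi 0 j).comp₂ (Y.loc_xi (i + 1) j) fun s s' => s ≠ s'
  have hq : Loc fun ω : Y.Ω => 2 * ind (Y.xi 0 j ω ≠ Y.xi (i + 1) j ω) :=
    hp.comp fun p => 2 * ind p
  have key : ∀ ω : Y.Ω, |HdVar_ip (Y.xi 0 i ω) (Y.xi 0 j ω) -
      HdVar_ip (Y.xi 0 i ω) (Y.xi (i + 1) j ω)| ≤ 2 * ind (Y.xi 0 j ω ≠ Y.xi (i + 1) j ω) := by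
    intro ω
    by_cases h : Y.xi 0 j ω = Y.xi (i + 1) j ω
    · rw [h, sub_self, abs_zero]
      exact mul_nonneg zero_le_two (ind_nonneg _)
    · rw [ind_of_true h]
      have h1 : |HdVar_ip (Y.xi 0 i ω) (Y.xi 0 j ω)| ≤ 1 := abs_inner_step_le _ _
      have h2 : |HdVar_ip (Y.xi 0 i ω) (Y.xi (i + 1) j ω)| ≤ 1 := abs_inner_step_le _ _
      rw [abs_le] at h1 h2 ⊢
      constructor <;> linarith [h1.1, h1.2, h2.1, h2.2]
  rw [← Y.Ex_ind hp, ← Y.Ex_const_mul]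
  have h1 := Y.Ex_mono ((Y.HdVar_loc 0 i 0 j).sub (Y.HdVar_loc 0 i (i + 1) j)) hq
    fun ω => (abs_le.1 (key ω)).2
  have h2 := Y.Ex_mono ((Y.HdVar_loc 0 i (i + 1) j).sub (Y.HdVar_loc 0 i 0 j)) hq
    fun ω => by linarith [(abs_le.1 (key ω)).1]
  rw [Y.Ex_sub (Y.HdVar_loc _ _ _ _) (Y.HdVar_loc _ _ _ _), Y.HdVar_indep hij] at h1 h2
  rw [abs_le]
  constructor <;> linarith

theorem HdVar_cov_le {γ α : ℕ} {η : ℝ} (hγ : 2 ≤ γ) (hα : 3 ≤ α) (hη : 0 ≤ η)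
    {n : ℕ} (hP : Y.Phi γ n) (H : Y.HK α η n) {i j : ℕ} (hij : i < j) (hj : j < n) :
    |Y.Ex (fun ω => HdVar_ip (Y.xi 0 i ω) (Y.xi 0 j ω))| ≤ HdVar_b η (j - 1 - i) := by
  refine (Y.HdVar_cov hij).trans ?_
  unfold HdVar_b
  split_ifs with h
  · have h1 := Y.veto H hα hη (a := 0) (t := i + 1) (k := n) (Nat.zero_le _) (by omega) le_rfl
    have h2 : (Y.P fun ω => Y.xi 0 j ω ≠ Y.xi (i + 1) j ω) ≤ _ :=
      (Y.P_mono fun ω hω => ⟨j, hij, by omega, hω⟩).trans h1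
    linarith
  · have h1 := hP.single (a := 0) (a' := i + 1) (r := j - 1 - i) (i := j) (Nat.zero_le _)
      (by omega) (by omega) (by omega)
    have h2 : (1 : ℝ) ≤ (j - 1 - i : ℕ) := by exact_mod_cast (show 1 ≤ j - 1 - i by omega)
    have h3 : 2 / ((j - 1 - i : ℕ) : ℝ) ^ γ ≤ 2 / ((j - 1 - i : ℕ) : ℝ) ^ 2 :=
      div_le_div_of_nonneg_left zero_le_two (by positivity) (pow_le_pow_right₀ h2 hγ)
    have h4 : 2 / ((j - 1 - i : ℕ) : ℝ) ^ 2 = 2 * (1 / ((j - 1 - i : ℕ) : ℝ) ^ 2) := by ring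
    linarith

theorem HdVar_succ (m : ℕ) (ω : Y.Ω) : ∑ k, ((Y.pos 0 (m + 1) ω k : ℤ) : ℝ) ^ 2 =
    ∑ k, ((Y.pos 0 m ω k : ℤ) : ℝ) ^ 2 +
      (2 * ∑ i ∈ range m, HdVar_ip (Y.xi 0 i ω) (Y.xi 0 m ω) + 1) := by
  have h1 : Y.pos 0 m ω = ∑ i ∈ range m, step (Y.xi 0 i ω) := by
    have := Y.pos_sub (a := 0) le_rfl (Nat.zero_le m) ω
    rwa [Y.pos_self, sub_zero, dsp, ← range_eq_Ico] at this
  have h2 : ∑ i ∈ range m, HdVar_ip (Y.xi 0 i ω) (Y.xi 0 m ω) =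
      ∑ k, ((Y.pos 0 m ω k : ℤ) : ℝ) * ((step (Y.xi 0 m ω) k : ℤ) : ℝ) := by
    unfold HdVar_ip
    rw [sum_comm, h1]
    refine sum_congr rfl fun k _ => ?_
    rw [← sum_mul, Finset.sum_apply]
    push_cast
    rfl
  rw [h2, Y.pos_succ (Nat.zero_le m), ← sum_step_sq (Y.xi 0 m ω), mul_sum, ← sum_add_distrib,
    ← sum_add_distrib]
  refine sum_congr rfl fun k _ => ?_
  rw [Pi.add_apply]
  push_cast
  ring

theorem var_bound {γ α : ℕ} {η : ℝ} (hγ : 2 ≤ γ) (hα : 3 ≤ α) (hη : 0 ≤ η) (hη1 : η ≤ 1 / 5000)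
    {n : ℕ} (hP : Y.Phi γ n) (H : Y.HK α η n) :
    |Y.Ex (fun ω => ∑ i, ((Y.pos 0 n ω i : ℤ) : ℝ) ^ 2) - n| ≤ n / 2 := by
  have key : ∀ m, m ≤ n → |Y.Ex (fun ω => ∑ i, ((Y.pos 0 m ω i : ℤ) : ℝ) ^ 2) - m| ≤ m / 2 := by
    intro m
    induction m with
    | zero =>
      intro _
      simp [Y.pos_self, Y.Ex_const]
    | succ m ih =>
      intro hm
      have h0 := ih (by omega)
      have l1 : Loc fun ω : Y.Ω => ∑ i, ((Y.pos 0 m ω i : ℤ) : ℝ) ^ 2 :=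
        (Y.loc_pos 0 m).comp fun x => ∑ i, ((x i : ℤ) : ℝ) ^ 2
      have l2 : Loc fun ω : Y.Ω => ∑ i ∈ range m, HdVar_ip (Y.xi 0 i ω) (Y.xi 0 m ω) :=
        Loc.sum _ fun i _ => Y.HdVar_loc 0 i 0 m
      have l3 : Loc fun ω : Y.Ω => 2 * ∑ i ∈ range m, HdVar_ip (Y.xi 0 i ω) (Y.xi 0 m ω) :=
        l2.comp fun t => 2 * t
      rw [Y.Ex_congr (Y.HdVar_succ m), Y.Ex_add l1 (l3.add (Loc.const 1)),
        Y.Ex_add l3 (Loc.const 1), Y.Ex_const, Y.Ex_const_mul,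
        Y.Ex_sum _ fun i _ => Y.HdVar_loc 0 i 0 m]
      have h1 : |∑ i ∈ range m, Y.Ex fun ω => HdVar_ip (Y.xi 0 i ω) (Y.xi 0 m ω)| ≤ 1 / 4 := by
        refine (abs_sum_le_sum_abs _ _).trans ((sum_le_sum fun i hi =>
          Y.HdVar_cov_le hγ hα hη hP H (mem_range.1 hi) (by omega)).trans ?_)
        rw [sum_range_reflect (HdVar_b η) m]
        exact HdVar_sum_b hη hη1 m
      rw [abs_le] at h0 h1 ⊢
      push_cast
      constructor <;> linarith [h0.1, h0.2, h1.1, h1.2]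
  exact key n le_rfl

end Sys

end Pool.Agent.Lib.MP_aa337a_pr.HD
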