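import Pool.Agent.Lib.MP_aa337a_pr.HdT
import Pool.Agent.Lib.MP_aa337a_pr.HdArith
import Pool.Agent.Lib.MP_aa337a_pr.HdArith2
import Pool.Agent.Lib.MP_aa337a_pr.HdVar
import Pool.Agent.Lib.MP_aa337a_pr.HdSysEx

/-! The induction over scales and the final bound. -/

set_option autoImplicit false

noncomputable section

namespace Pool.Agent.Lib.MP_aa337a_pr.HD

open MeasureTheory Finset
open scoped Classical

theorem hyp_all : ∃ (γ α d0 : ℕ) (η : ℝ), 2 ≤ γ ∧ 3 ≤ α ∧ 0 ≤ η ∧ η ≤ 1 / 5000 ∧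
    ∀ d, d0 ≤ d → ∀ (Y : Sys d) (n : ℕ), Y.Phi γ n ∧ Y.HK α η n := by
  obtain ⟨γ, hγ⟩ : ∃ γ : ℕ, 365204 ≤ γ := ⟨_, le_rfl⟩
  obtain ⟨D, hD⟩ : ∃ D : ℕ, 182434 * γ + 547310 ≤ D := ⟨_, le_rfl⟩
  obtain ⟨α, hα⟩ : ∃ α : ℕ, α = 679 := ⟨_, rfl⟩
  obtain ⟨κ, hκ⟩ : ∃ κ : ℕ, κ = 169 := ⟨_, rfl⟩
  obtain ⟨r1, hR⟩ := exists_R1 (D := D) (γ := γ) (α := α) κ (by omega) (by omega)
  obtain ⟨d1, hd1⟩ := exists_Dbig
  obtain ⟨r2, hr2⟩ := exists_par r1 hγ hD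
  have hr1 : (0 : ℝ) < r1 := by
    have := (hR r1 le_rfl).1
    exact_mod_cast (by omega : 0 < r1)
  set C : ℝ := 16 * (r1 : ℝ) ^ (κ + 1) + 2 ^ (κ + 10) + 5000 with hC
  have h1 : (0 : ℝ) < 16 * (r1 : ℝ) ^ (κ + 1) := by positivity
  have h2 : (0 : ℝ) < 2 ^ (κ + 10) := by positivity
  have hC0 : 0 < C := by positivity
  have hη : 0 < 1 / C := by positivity
  have hη1 : 16 * (r1 : ℝ) ^ (κ + 1) * (1 / C) ≤ 1 := by
    rw [mul_one_div, div_le_one hC0]; linarith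
  have hη2 : 2 ^ (κ + 10) * (1 / C) ≤ 1 := by
    rw [mul_one_div, div_le_one hC0]; linarith
  have hη3 : 1 / C ≤ 1 / 5000 := one_div_le_one_div_of_le (by norm_num) (by linarith)
  have hη4 : 1 / C ≤ 1 / 48 := hη3.trans (by norm_num)
  obtain ⟨r3, hr3⟩ := exists_nat_ge C
  obtain ⟨r0, hr0, hr0', hr0''⟩ : ∃ r0, r1 ^ 6 ≤ r0 ∧ r2 ≤ r0 ∧ r3 ≤ r0 :=
    ⟨r1 ^ 6 + r2 + r3, by omega, by omega, by omega⟩
  obtain ⟨d2, hd2⟩ := exists_nat_ge (2 * (r0 : ℝ) ^ α * C)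
  refine ⟨γ, α, d1 + d2 + D + 2 * r0 ^ (γ + 2), 1 / C, by omega, by omega, hη.le, hη3,
    fun d hd Y => ?_⟩
  have hDd : D ≤ d := by omega
  have key : ∀ n, (∀ L, 1 ≤ L → L ≤ n → Y.TT γ L) ∧ Y.HK α (1 / C) n := by
    intro n
    induction n with
    | zero => exact ⟨fun L h1 h2 => by omega, Y.HK_zero _ _⟩
    | succ n ih =>
      have hT : ∀ L, 1 ≤ L → L ≤ n + 1 → Y.TT γ L := by
        intro L hL1 hL2
        rcases Nat.lt_or_ge L (n + 1) with h | h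
        · exact ih.1 L hL1 (by omega)
        obtain rfl : L = n + 1 := by omega
        rcases Nat.lt_or_ge (n + 1) r0 with h | h
        · refine Y.base_TT hL1 ?_
          have := Nat.pow_le_pow_left h.le (γ + 2)
          omega
        · obtain ⟨q, hq⟩ := hr2 (n + 1) (by omega)
          rw [← hκ] at hq
          exact Y.TT_step hq (Y.phi_of_TT (by omega) ih.1) ih.2 hR (by omega) (by omega)
            (by omega) hη.le hη4 hη1 hη2 (by omega) hDd (hd1 d (by omega))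
      refine ⟨hT, Y.hk_step (r0 := r0) (Y.phi_of_TT (by omega) hT) ih.2 (by omega) hη.le hη4
        (by omega) hDd hR hr0 ?_ ?_⟩
      · have : (r3 : ℝ) ≤ r0 := by exact_mod_cast hr0''
        rw [one_div, inv_mul_eq_div, le_div_iff₀ hC0]
        linarith
      · have : (d2 : ℝ) ≤ d := by exact_mod_cast (by omega : d2 ≤ d)
        rw [one_div, inv_mul_eq_div, le_div_iff₀ hC0]
        linarith
  exact fun n => ⟨Y.phi_of_TT (by omega) (key n).1, (key n).2⟩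

theorem msd_bounds : ∃ d0 : ℕ, ∀ d, d0 ≤ d → ∀ β : ℝ, 0 < β → ∀ n : ℕ,
    (n : ℝ) / 2 ≤ msd β d n ∧ msd β d n ≤ 3 * n / 2 := by
  obtain ⟨γ, α, d0, η, h1, h2, h3, h4, h5⟩ := hyp_all
  refine ⟨d0 + 1, fun d hd β hβ n => ?_⟩
  obtain ⟨Y, hY⟩ := exists_sys (d := d) (by omega) hβ n
  obtain ⟨hP, H⟩ := h5 d (by omega) Y n
  have := abs_le.1 (Y.var_bound h1 h2 h3 h4 hP H)
  rw [Y.msd_eq hY le_rfl]
  constructor <;> linarith [this.1, this.2]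

end Pool.Agent.Lib.MP_aa337a_pr.HD
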