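import Pool.Agent.Lib.MP_aa337a_pr.HdStep
import Pool.Agent.Lib.MP_aa337a_pr.HdSup

/-! The drift martingale. Union bound over `τ ≤ n` and `M0 ∈ [1, n + 1]`. For fixed `τ`, `M0` apply
`azuma` (with `n = τ`) to `c i ω = a ≤ i ∧ ¬ al i ω ∧ card (dead times in [a, i)) < b ^ 2 ∧
∀ x, loc a i ω x ≤ M0` and `D i ω = ind (c i ω) * (loc a i ω (pos a (i + 1) ω) - mean)`; the
conditional mean is nonpositive by `pos_succ`, `sum_update_step`, `tr_cheb`. At most `b ^ 2`
indices are active, because `i ↦ card (dead times in [a, i))` is injective on dead times. On the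
hypotheses of `MartOK` all dead `i ∈ [a, τ)` are active (`loc_mono`), so `∑ D = drift`. -/

set_option autoImplicit false

noncomputable section

namespace Pool.Agent.Lib.MP_aa337a_pr.HD

open MeasureTheory Finset
open scoped Classical

namespace Sys

variable {d : ℕ} (Y : Sys d)

/-- Active indices. -/
def HdMart_c (al : ℕ → Y.Ω → Prop) (a b M0 i : ℕ) (ω : Y.Ω) : Prop :=
  a ≤ i ∧ ¬ al i ω ∧ ((Ico a i).filter fun t => ¬ al t ω).card < b ^ 2 ∧ ∀ x, Y.loc a i ω x ≤ M0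

/-- Centred local time of a neighbour. -/
def HdMart_g (a i : ℕ) (ω : Y.Ω) (σ : St d) : ℝ :=
  (Y.loc a i ω (Y.pos a i ω + step σ) : ℝ) -
    (∑ s : St d, (Y.loc a i ω (Y.pos a i ω + step s) : ℝ)) / (2 * d)

theorem HdMart_c_dep {al : ℕ → Y.Ω → Prop} (hal : ∀ i, DependsOn (al i) (Set.Iio i))
    (a b M0 i : ℕ) : DependsOn (Y.HdMart_c al a b M0 i) (Set.Iio i) := fun ω ω' h => by
  have h1 : ((Ico a i).filter fun t => ¬ al t ω) = (Ico a i).filter fun t => ¬ al t ω' :=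
    filter_congr fun t ht => by
      rw [(hal t).mono (Set.Iio_subset_Iio (mem_Ico.1 ht).2.le) h]
  unfold HdMart_c
  rw [h1, hal i h, (Y.loc_dep a i).mono (fun _ hj => hj.2) h]

theorem HdMart_g_dep (a i : ℕ) : DependsOn (Y.HdMart_g a i) (Set.Iio i) := fun ω ω' h => by
  funext σ
  unfold HdMart_g
  rw [Y.pos_dep' a le_rfl h, (Y.loc_dep a i).mono (fun _ hj => hj.2) h]

theorem HdMart_ssub (p : ℕ → Prop) [DecidablePred p] {a i : ℕ} {S : Finset ℕ} (hp : p i)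
    (hi : i ∈ S) (hS : Ico a i ⊆ S) : ((Ico a i).filter p).card < (S.filter p).card :=
  card_lt_card ((ssubset_iff_of_subset (filter_subset_filter _ hS)).2
    ⟨i, mem_filter.2 ⟨hi, hp⟩, fun h => lt_irrefl i (mem_Ico.1 (mem_filter.1 h).1).2⟩)

theorem HdMart_one {al : ℕ → Y.Ω → Prop} (hal : ∀ i, DependsOn (al i) (Set.Iio i))
    (a τ : ℕ) {b z M0 : ℕ} (hz : z ≤ 2 * b) (hM : 1 ≤ M0) :
    Y.P (fun ω => (M0 : ℝ) * b * z ≤ ∑ i ∈ range τ,
      ind (Y.HdMart_c al a b M0 i ω) * Y.HdMart_g a i ω (Y.xi a i ω)) ≤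
      Real.exp (-(z : ℝ) ^ 2 / 4) := by
  have hd : (0 : ℝ) < d := by exact_mod_cast Y.d_pos
  refine Y.azuma _ (Y.HdMart_c al a b M0) (by exact_mod_cast hM) (Nat.cast_nonneg z)
    (by exact_mod_cast hz) (fun i ω ω' h => ?_) (Y.HdMart_c_dep hal a b M0)
    (fun i ω h => by rw [ind_of_false h, zero_mul]) (fun i ω => ?_) (fun i ω => ?_) τ fun ω => ?_
  · have h' : ∀ j ∈ Set.Iio i, ω j = ω' j := fun j hj => h j (Nat.lt_succ_of_lt hj)
    simp only [Y.HdMart_c_dep hal a b M0 i h', Y.HdMart_g_dep a i h', Y.xi_dep' a i h]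
  · by_cases h : Y.HdMart_c al a b M0 i ω
    · have h1 : ∀ x, (Y.loc a i ω x : ℝ) ≤ M0 := fun x => by exact_mod_cast h.2.2.2 x
      have h2 : (∑ s : St d, (Y.loc a i ω (Y.pos a i ω + step s) : ℝ)) / (2 * d) ≤ M0 := by
        rw [div_le_iff₀ (by positivity)]
        refine (sum_le_sum fun s _ => h1 _).trans_eq ?_
        simp only [sum_const, card_univ, Fintype.card_prod, Fintype.card_fin, Fintype.card_bool,
          nsmul_eq_mul]
        push_cast
        ring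
      have h3 : 0 ≤ (∑ s : St d, (Y.loc a i ω (Y.pos a i ω + step s) : ℝ)) / (2 * d) := by
        positivity
      rw [ind_of_true h, one_mul, HdMart_g, abs_le]
      exact ⟨by linarith [Nat.cast_nonneg (α := ℝ) (Y.loc a i ω (Y.pos a i ω + step (Y.xi a i ω)))],
        by linarith [h1 (Y.pos a i ω + step (Y.xi a i ω))]⟩
    · rw [ind_of_false h, zero_mul, abs_zero]
      exact Nat.cast_nonneg _
  · simp only [dep_update (Y.HdMart_c_dep hal a b M0 i) (lt_irrefl i),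
      dep_update (Y.HdMart_g_dep a i) (lt_irrefl i), mul_left_comm (Y.ν _), ← mul_sum]
    refine mul_nonpos_of_nonneg_of_nonpos (ind_nonneg _) ?_
    rw [Y.sum_update_step]
    simp only [HdMart_g, mul_sub, sum_sub_distrib, ← sum_mul, Y.sum_tr, one_mul]
    exact sub_nonpos.2 (Y.tr_cheb a i ω)
  · rw [← card_range (b ^ 2)]
    have key : ∀ i j, Y.HdMart_c al a b M0 i ω → i < j →
        ((Ico a i).filter fun t => ¬ al t ω).card < ((Ico a j).filter fun t => ¬ al t ω).card :=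
      fun i j hi hij => HdMart_ssub _ hi.2.1 (mem_Ico.2 ⟨hi.1, hij⟩) (Ico_subset_Ico_right hij.le)
    refine card_le_card_of_injOn (fun i => ((Ico a i).filter fun t => ¬ al t ω).card)
      (fun i hi => mem_coe.2 (mem_range.2 (mem_filter.1 hi).2.2.2.1)) fun i hi j hj e => ?_
    rcases lt_trichotomy i j with h | h | h
    exacts [absurd e (key i j (mem_filter.1 hi).2 h).ne, h,
      absurd e (key j i (mem_filter.1 hj).2 h).ne']

theorem P_not_martOK {al : ℕ → Y.Ω → Prop} (hal : ∀ i, DependsOn (al i) (Set.Iio i))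
    (a n : ℕ) {b z : ℕ} (hz : z ≤ 2 * b) :
    Y.P (fun ω => ¬ Y.MartOK al a n b z ω) ≤ ((n : ℝ) + 1) ^ 2 * Real.exp (-(z : ℝ) ^ 2 / 4) := by
  refine (Y.P_le_sum (range (n + 1) ×ˢ Icc 1 (n + 1)) (fun k ω => (k.2 : ℝ) * b * z ≤
    ∑ i ∈ range k.1, ind (Y.HdMart_c al a b k.2 i ω) * Y.HdMart_g a i ω (Y.xi a i ω))
    fun ω h => ?_).trans ((sum_le_sum fun k hk =>
      Y.HdMart_one hal a k.1 hz (mem_Icc.1 (mem_product.1 hk).2).1).trans_eq ?_)
  · unfold MartOK at h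
    push Not at h
    obtain ⟨τ, M0, -, h2, h3, h4, h5, h6, h7⟩ := h
    refine ⟨(τ, M0), mem_product.2 ⟨mem_range.2 (Nat.lt_succ_of_le h2), mem_Icc.2 ⟨h3, h4⟩⟩,
      h7.le.trans_eq ?_⟩
    refine (sum_congr rfl fun i hi => ?_).trans (sum_subset (fun i hi =>
      mem_range.2 (mem_Ico.1 (mem_filter.1 hi).1).2) fun i hi hi' => ?_)
    · obtain ⟨h8, h9⟩ := mem_filter.1 hi
      obtain ⟨h10, h11⟩ := mem_Ico.1 h8
      rw [ind_of_true ⟨h10, h9, (HdMart_ssub _ h9 (mem_Icc.2 ⟨h10, h11.le⟩)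
        ((Ico_subset_Ico_right h11.le).trans Ico_subset_Icc_self)).trans_le h5,
        fun x => (Y.loc_mono a h11.le ω x).trans (h6 x)⟩, one_mul, HdMart_g, ← Y.pos_succ h10]
      rfl
    · rw [ind_of_false fun hc => hi' (mem_filter.2 ⟨mem_Ico.2 ⟨hc.1, mem_range.1 hi⟩, hc.2.1⟩),
        zero_mul]
  · simp [sq]

end Sys

end Pool.Agent.Lib.MP_aa337a_pr.HD
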