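import Pool.Agent.Lib.MP_aa337a_pr.HdWalk

/-! Two walks with few dead times coalesce. If `xi a i ≠ zeta l i` with `a ≤ i < n` then `i + 1` is
dead, so each walk disagrees with `zeta` at fewer than `B` times in `[a, n)`. Hence for
`a ≤ s`, `s + ℓ ≤ u ≤ n`: `nrm (pos a u - pos a s - zd l s u) ≤ 2 B` (`nrm_sum_le`), so by `Far3`
`nrm (pos a u - pos a s) > 1` and the two sites are not adjacent. Among the `2 B + 1` intervals
`[a' + i ℓ, a' + (i + 1) ℓ)` one contains no disagreement of either walk; from its end on, the walks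
agree by strong induction with `locality` (`c = u - ℓ`). -/

set_option autoImplicit false

noncomputable section

namespace Pool.Agent.Lib.MP_aa337a_pr.HD

open MeasureTheory Finset
open scoped Classical

namespace Sys

variable {d : ℕ} (Y : Sys d)

theorem HdMerge_card {l m a n : ℕ} {ω : Y.Ω} (hm : 1 ≤ m) :
    ((Ico a n).filter fun i => Y.xi a i ω ≠ Y.zeta l i ω).card ≤
      (deadT (fun t => Y.alive l m a t ω) a n).card := by
  refine card_le_card_of_injOn (fun i => i + 1) (fun i hi => ?_) fun i _ j _ h => Nat.succ_injective h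
  have hi' := mem_filter.1 (mem_coe.1 hi)
  have hi2 := mem_Ico.1 hi'.1
  beta_reduce
  refine mem_coe.2 (mem_filter.2 ⟨mem_Icc.2 ⟨by omega, by omega⟩, fun hal => ?_⟩)
  exact hi'.2 (hal.2 i (by omega) (by omega))

theorem HdMerge_far {D l B ℓ a n s u : ℕ} {ω : Y.Ω} (hF : Y.Far3 D l (2 * B + 1) ℓ n ω)
    (hB : ((Ico a n).filter fun i => Y.xi a i ω ≠ Y.zeta l i ω).card ≤ B) (hs : a ≤ s)
    (hsu : s + ℓ ≤ u) (hu : u ≤ n) (σ : St d) : Y.pos a u ω + step σ ≠ Y.pos a s ω := by
  intro he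
  have h1 := hF s u hsu hu
  have h2 : dsp (fun i => Y.xi a i ω) s u = -step σ := by
    rw [← Y.pos_sub hs (by omega), ← he]
    abel
  have h3 : Y.zd l s u ω = (∑ i ∈ Ico s u, (step (Y.zeta l i ω) - step (Y.xi a i ω))) + -step σ := by
    rw [← h2, sum_sub_distrib]
    unfold zd dsp
    abel
  have h4 : ∑ i ∈ Ico s u, nrm D (step (Y.zeta l i ω) - step (Y.xi a i ω)) ≤
      ∑ i ∈ Ico s u, if Y.xi a i ω ≠ Y.zeta l i ω then 2 else 0 := by
    refine sum_le_sum fun i _ => ?_
    split_ifs with hi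
    · have a1 := nrm_add_le D (step (Y.zeta l i ω)) (-step (Y.xi a i ω))
      rw [nrm_neg, ← sub_eq_add_neg] at a1
      have a2 := nrm_step_le D (Y.zeta l i ω)
      have a3 := nrm_step_le D (Y.xi a i ω)
      omega
    · rw [not_not.1 hi, sub_self, nrm_zero]
  rw [← sum_filter, sum_const, smul_eq_mul] at h4
  have h5 : ((Ico s u).filter fun i => Y.xi a i ω ≠ Y.zeta l i ω).card ≤ B :=
    (card_le_card (filter_subset_filter _ (Ico_subset_Ico hs hu))).trans hB
  have h6 := nrm_sum_le D (Ico s u) fun i => step (Y.zeta l i ω) - step (Y.xi a i ω)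
  have h7 := nrm_add_le D (∑ i ∈ Ico s u, (step (Y.zeta l i ω) - step (Y.xi a i ω))) (-step σ)
  rw [← h3, nrm_neg] at h7
  have h8 := nrm_step_le D σ
  omega

theorem merge {D l m B ℓ L a' : ℕ} {ω : Y.Ω} (hm : 1 ≤ m) (ha : a' ≤ L)
    (hL : (2 * B + 1) * ℓ ≤ L) (hF : Y.Far3 D l (2 * B + 1) ℓ (3 * L) ω)
    (h0 : (deadT (fun t => Y.alive l m 0 t ω) 0 (3 * L)).card < B)
    (h1 : (deadT (fun t => Y.alive l m a' t ω) a' (3 * L)).card < B) :
    ∀ u, a' + L ≤ u → u < a' + 2 * L → Y.xi 0 u ω = Y.xi a' u ω := by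
  have c0 := (Y.HdMerge_card (l := l) (a := 0) (n := 3 * L) (ω := ω) hm).trans h0.le
  have c1 := (Y.HdMerge_card (l := l) (a := a') (n := 3 * L) (ω := ω) hm).trans h1.le
  have hex : ∃ j, j < 2 * B + 1 ∧ ∀ i, a' + j * ℓ ≤ i → i < a' + (j + 1) * ℓ →
      Y.xi 0 i ω = Y.xi a' i ω := by
    by_contra hc
    push Not at hc
    choose! f hf1 hf2 hf3 using hc
    have h2 : (range (2 * B + 1)).card ≤
        (((Ico 0 (3 * L)).filter fun i => Y.xi 0 i ω ≠ Y.zeta l i ω) ∪
          ((Ico a' (3 * L)).filter fun i => Y.xi a' i ω ≠ Y.zeta l i ω)).card := by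
      refine card_le_card_of_injOn f (fun j hj => ?_) fun j hj k hk hjk => ?_
      · have hj' := mem_range.1 (mem_coe.1 hj)
        have a1 := hf1 j hj'
        have a2 := hf2 j hj'
        have a3 : (j + 1) * ℓ ≤ (2 * B + 1) * ℓ := Nat.mul_le_mul_right _ hj'
        refine mem_coe.2 (mem_union.2 ?_)
        by_cases h : Y.xi 0 (f j) ω = Y.zeta l (f j) ω
        · exact Or.inr (mem_filter.2 ⟨mem_Ico.2 ⟨by omega, by omega⟩,
            fun h' => hf3 j hj' (h.trans h'.symm)⟩)
        · exact Or.inl (mem_filter.2 ⟨mem_Ico.2 ⟨by omega, by omega⟩, h⟩)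
      · have hj' := mem_range.1 (mem_coe.1 hj)
        have hk' := mem_range.1 (mem_coe.1 hk)
        have a1 := hf1 j hj'
        have a2 := hf2 j hj'
        have a3 := hf1 k hk'
        have a4 := hf2 k hk'
        rcases lt_trichotomy j k with h | h | h
        · have : (j + 1) * ℓ ≤ k * ℓ := Nat.mul_le_mul_right _ h
          omega
        · exact h
        · have : (k + 1) * ℓ ≤ j * ℓ := Nat.mul_le_mul_right _ h
          omega
    have h3 := h2.trans (card_union_le _ _)
    rw [card_range] at h3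
    omega
  obtain ⟨j, hj, hag⟩ := hex
  have a3 : (j + 1) * ℓ ≤ (2 * B + 1) * ℓ := Nat.mul_le_mul_right _ hj
  rw [Nat.succ_mul] at a3 hag
  have key : ∀ u, a' + j * ℓ ≤ u → u ≤ 3 * L → Y.xi 0 u ω = Y.xi a' u ω := by
    intro u
    induction u using Nat.strong_induction_on with
    | _ u ih =>
      intro hu1 hu2
      by_cases hlt : u < a' + (j * ℓ + ℓ)
      · exact hag u hu1 hlt
      · exact Y.locality (c := u - ℓ) (Nat.zero_le _) (by omega) (by omega)
          (fun i hi1 hi2 => ih i hi2 (by omega) (by omega))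
          (fun s σ hs1 hs2 => Y.HdMerge_far hF c0 hs1 (by omega) hu2 σ)
          (fun s σ hs1 hs2 => Y.HdMerge_far hF c1 hs1 (by omega) hu2 σ)
  exact fun u hu1 hu2 => key u (by omega) (by omega)

end Sys

end Pool.Agent.Lib.MP_aa337a_pr.HD
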