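import Pool.Agent.Lib.MP_aa337a_pr.HdNrm

/-! Dirichlet energy of a finitely supported function dominates the square of its values. -/

set_option autoImplicit false

noncomputable section

namespace Pool.Agent.Lib.MP_aa337a_pr.HD

open MeasureTheory Finset
open scoped Classical

variable {d : ℕ}

theorem HdRay_dir (J : Finset (Pt d)) (f : Pt d → ℝ) (hf : ∀ x, x ∉ J → f x = 0) (x0 : Pt d)
    {v : Pt d} (hv : v ≠ 0) : f x0 ^ 2 ≤ 2 * J.card * ∑ x ∈ J, f x * (f x - f (x + v)) := by
  have inj : Function.Injective fun k : ℕ => x0 + k • v := fun k k' h => by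
    have h2 : (k : ℤ) • v = (k' : ℤ) • v := by
      rw [natCast_zsmul, natCast_zsmul]
      exact add_left_cancel h
    exact_mod_cast smul_left_injective ℤ hv h2
  have ex : ∃ k : ℕ, x0 + k • v ∉ J := by
    by_contra h
    push Not at h
    exact Set.infinite_of_injective_forall_mem (s := (J : Set (Pt d))) inj h J.finite_toSet
  have sub : (range (Nat.find ex)).image (fun k : ℕ => x0 + k • v) ⊆ J := fun x hx => by
    obtain ⟨k, hk, rfl⟩ := mem_image.1 hx
    exact not_not.1 (Nat.find_min ex (mem_range.1 hk))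
  have c1 : ((range (Nat.find ex)).card : ℝ) ≤ J.card := by
    rw [← card_image_of_injective _ inj]
    exact_mod_cast card_le_card sub
  have tel := sum_range_sub (fun k : ℕ => f (x0 + k • v)) (Nat.find ex)
  rw [hf _ (Nat.find_spec ex), zero_nsmul, add_zero, zero_sub] at tel
  have e1 : ∑ x ∈ J, f (x + v) ^ 2 ≤ ∑ x ∈ J, f x ^ 2 := by
    rw [← sum_image (g := fun x => x + v) (f := fun y => f y ^ 2)
      (fun _ _ _ _ h => add_right_cancel h)]
    rw [← sum_filter_ne_zero]
    exact sum_le_sum_of_subset_of_nonneg (fun y h => not_not.1 fun hy =>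
      (mem_filter.1 h).2 (by rw [hf y hy]; ring)) fun _ _ _ => sq_nonneg _
  have e2 : ∑ x ∈ J, (f (x + v) - f x) ^ 2 ≤ 2 * ∑ x ∈ J, f x * (f x - f (x + v)) := by
    have : ∑ x ∈ J, (f (x + v) - f x) ^ 2 + ∑ x ∈ J, f x ^ 2 =
        2 * ∑ x ∈ J, f x * (f x - f (x + v)) + ∑ x ∈ J, f (x + v) ^ 2 := by
      rw [mul_sum, ← sum_add_distrib, ← sum_add_distrib]
      exact sum_congr rfl fun _ _ => by ring
    linarith
  have e3 : ∑ k ∈ range (Nat.find ex), (f (x0 + (k + 1) • v) - f (x0 + k • v)) ^ 2 ≤
      ∑ x ∈ J, (f (x + v) - f x) ^ 2 := by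
    refine le_trans (le_of_eq ?_) (sum_le_sum_of_subset_of_nonneg sub fun _ _ _ => sq_nonneg _)
    rw [sum_image fun _ _ _ _ h => inj h]
    simp only [succ_nsmul, add_assoc]
  calc f x0 ^ 2 = (-f x0) ^ 2 := by ring
    _ ≤ _ := by rw [← tel]; exact sq_sum_le_card_mul_sum_sq
    _ ≤ J.card * (2 * ∑ x ∈ J, f x * (f x - f (x + v))) :=
        mul_le_mul c1 (e3.trans e2) (sum_nonneg fun _ _ => sq_nonneg _) (Nat.cast_nonneg _)
    _ = _ := by ring

/-- Let `J'` be `J` together with all neighbours. Then
`∑ x ∈ J, f x * (f x - P f x) = (1 / (4 d)) ∑ x ∈ J', ∑ s, (f (x + step s) - f x) ^ 2` (reindex by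
`ng d`; only the inequality `≥` restricted to the directed edges below is needed). For each step
`s` the ray `x0 + k • step s` leaves `J` at some first `k = ℓ s ≤ card J`; by Cauchy-Schwarz the
directed edges `(x0 + k • step s, s)`, `k < ℓ s`, contribute at least `f x0 ^ 2 / card J`. -/
theorem ray (hd : 0 < d) (J : Finset (Pt d)) (f : Pt d → ℝ) (hf : ∀ x, x ∉ J → f x = 0)
    (x0 : Pt d) :
    f x0 ^ 2 ≤ 2 * J.card * ∑ x ∈ J, f x * (f x - (∑ s : St d, f (x + step s)) / (2 * d)) := by
  have d0 : (0 : ℝ) < 2 * d := by positivity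
  have e := sum_le_sum (s := univ) fun (s : St d) _ => HdRay_dir J f hf x0 (step_ne_zero s)
  rw [sum_const, card_univ, card_St, nsmul_eq_mul, ← mul_sum, sum_comm] at e
  push_cast at e
  refine le_of_mul_le_mul_left (e.trans (le_of_eq ?_)) d0
  rw [mul_left_comm (2 * (d : ℝ)), mul_sum _ _ (2 * (d : ℝ))]
  congr 1
  refine sum_congr rfl fun x _ => ?_
  rw [← mul_sum, sum_sub_distrib, sum_const, card_univ, card_St, nsmul_eq_mul]
  push_cast
  field_simp

theorem HdRay_pairs (T : Finset ℕ) (K : ℕ → ℕ → ℝ) (hK : ∀ s t, K s t = K t s)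
    (h1 : ∀ t, K t t = 1) :
    ∑ t ∈ T, ∑ s ∈ T, K s t = ∑ t ∈ T, (2 * (∑ s ∈ T, if s < t then K s t else 0) + 1) := by
  have e : ∀ s t, K s t = (if s < t then K s t else 0) + (if t < s then K t s else 0) +
      if t = s then 1 else 0 := fun s t => by
    rcases lt_trichotomy s t with h | rfl | h
    · simp [h, h.not_gt, h.ne']
    · simp [h1]
    · simp [h, h.not_gt, h.ne, hK s t]
  rw [sum_congr rfl fun t _ => sum_congr rfl fun s _ => e s t]
  simp only [sum_add_distrib, two_mul]
  rw [sum_comm (f := fun t s => if t < s then K t s else 0)]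
  congr 1
  exact sum_congr rfl fun t ht => by rw [sum_ite_eq, if_pos ht]

/-- Energy of the occupation function of a finite set of times, as a sum over times: adding the
visit at time `t` increases the energy by `2 (W - P W) (p t) + 1`, where `W` counts the earlier
visits (induction on the maximum of `T`, or expand the double sum over pairs of times; the kernel
is symmetric by `step_ng`, and `p t` is not its own neighbour). -/
theorem energy_eq (hd : 0 < d) (p : ℕ → Pt d) (T : Finset ℕ) :
    ∑ x ∈ T.image p, ((T.filter fun s => p s = x).card : ℝ) *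
        (((T.filter fun s => p s = x).card : ℝ) -
          (∑ σ : St d, ((T.filter fun s => p s = x + step σ).card : ℝ)) / (2 * d)) =
      ∑ t ∈ T, (2 * (((T.filter fun s => s < t ∧ p s = p t).card : ℝ) -
          (∑ σ : St d, ((T.filter fun s => s < t ∧ p s = p t + step σ).card : ℝ)) / (2 * d)) + 1) := by
  have e := HdRay_pairs T (fun s t => (if p s = p t then 1 else 0) -
    (∑ σ : St d, if p s = p t + step σ then 1 else 0) / (2 * d)) (fun s t => ?_) fun t => ?_
  · rw [← sum_fiberwise_of_maps_to (g := p) (t := T.image p) fun t ht => mem_image_of_mem p ht] at e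
    refine (sum_congr rfl fun x _ => ?_).trans (e.trans (sum_congr rfl fun t _ => ?_))
    · rw [← nsmul_eq_mul, ← sum_const]
      refine sum_congr rfl fun t ht => ?_
      rw [(mem_filter.1 ht).2, sum_sub_distrib, ← sum_div, sum_comm]
      simp only [natCast_card_filter]
    · congr 2
      simp only [natCast_card_filter]
      rw [sum_comm, sum_div, ← sum_sub_distrib]
      refine sum_congr rfl fun s _ => ?_
      by_cases h : s < t <;> simp [h]
  · congr 1
    · simp only [eq_comm]
    · congr 1
      refine Fintype.sum_equiv (ng d) _ _ fun σ => ?_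
      rw [step_ng]
      exact if_congr ⟨fun h => by rw [h, add_neg_cancel_right], fun h => by
        rw [h, neg_add_cancel_right]⟩ rfl rfl
  · simp [step_ne_zero]

end Pool.Agent.Lib.MP_aa337a_pr.HD
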