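import Pool.Agent.Lib.MP_aa337a_pr.HdFlip
import Pool.Agent.Lib.MP_aa337a_pr.HdBin
import Pool.Agent.Lib.MP_aa337a_pr.HdSup

/-! Families of slots: invariances, binomial representation, number of active slots. -/

set_option autoImplicit false

noncomputable section

namespace Pool.Agent.Lib.MP_aa337a_pr.HD

open MeasureTheory Finset
open scoped Classical

namespace Sys

variable {d : ℕ} (Y : Sys d) {l b : ℕ}

/-- The displacement without the steps at the active slots. -/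
def rest (l : ℕ) {b : ℕ} (X : Y.FlipData b) (j0 M s e : ℕ) (ω : Y.Ω) : Pt d :=
  Y.zd l s e ω - ∑ j ∈ Y.actS l X j0 M ω, step (Y.first (ω (slot l b j)))

theorem HdSlot_le (l b : ℕ) {j N : ℕ} (h : j < N) : slot l b j + l ≤ b + 3 * N * l := by
  have h1 := slot_le l b j
  have h2 : 3 * (j + 1) * l ≤ 3 * N * l := Nat.mul_le_mul_right _ (by omega)
  have h3 : 3 * (j + 1) * l = 3 * j * l + 3 * l := by ring
  omega

theorem HdSlot_ne (hl : 1 ≤ l) (b : ℕ) {i j : ℕ} (h : i ≠ j) : slot l b i ≠ slot l b j := by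
  rcases lt_or_gt_of_ne h with h | h
  · have := slot_sep l b h
    omega
  · have := slot_sep l b h
    omega

theorem HdSlot_act_dep (hl : 1 ≤ l) (X : Y.FlipData b) (j : ℕ) {n : ℕ}
    (hn : slot l b j + 2 * l ≤ n) :
    DependsOn (fun ω => Y.act l (slot l b j) (X.F ω) (X.π ω) ω) (Set.Iio n) := by
  refine (Y.actX_dep hl X j).mono ?_
  have := slot_ge hl b j
  rintro i (h | h)
  · exact Set.mem_Iio.2 (by omega)
  · exact Set.mem_Iio.2 (by omega)

theorem HdSlot_past (hl : 1 ≤ l) (X : Y.FlipData b) (j : ℕ) {α : Type*} {f : Y.Ω → α}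
    (hf : DependsOn f (Set.Iio b)) (ω : Y.Ω) : f (Y.flipS l X j ω) = f ω :=
  Y.flipS_dep X j hf (fun h => by
    have h1 := slot_ge hl b j
    have h2 := Set.mem_Iio.1 h
    omega) ω

theorem actS_flipS (hl : 1 ≤ l) (X X' : Y.FlipData b) {j0 M j : ℕ} (hj : j ∉ Ico j0 (j0 + M))
    (ω : Y.Ω) : Y.actS l X' j0 M (Y.flipS l X j ω) = Y.actS l X' j0 M ω := by
  unfold actS
  exact filter_congr fun j' hj' => Y.act_flipS_ne hl X X' (fun h : j = j' => hj (h ▸ hj')) ω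

theorem actS_flipS_self (hl : 1 ≤ l) (X : Y.FlipData b) (j0 M j : ℕ) (ω : Y.Ω) :
    Y.actS l X j0 M (Y.flipS l X j ω) = Y.actS l X j0 M ω := by
  unfold actS
  refine filter_congr fun j' _ => ?_
  by_cases h : j = j'
  · rw [← h]
    exact Y.act_flipS_self hl X j ω
  · exact Y.act_flipS_ne hl X X h ω

theorem actS_dep (hl : 1 ≤ l) (X : Y.FlipData b) (j0 M : ℕ) :
    DependsOn (Y.actS l X j0 M) (Set.Iio (b + 3 * (j0 + M) * l + l)) := by
  intro ω ω' h
  unfold actS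
  refine filter_congr fun j hj => iff_of_eq (Y.HdSlot_act_dep hl X j ?_ h)
  have := HdSlot_le l b (mem_Ico.1 hj).2
  omega

theorem posS_dep (hl : 1 ≤ l) (X : Y.FlipData b) (j0 M : ℕ) :
    DependsOn (Y.posS l X j0 M) (Set.Iio (b + 3 * (j0 + M) * l + l)) := by
  intro ω ω' h
  unfold posS
  rw [Y.actS_dep hl X j0 M h]
  refine filter_congr fun j hj => ?_
  have h1 := HdSlot_le l b (mem_Ico.1 (mem_filter.1 hj).1).2
  rw [X.pl_dep.mono (Set.Iio_subset_Iio (by omega)) h, h (slot l b j) (Set.mem_Iio.2 (by omega))]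

theorem loc_rest (hl : 1 ≤ l) (X : Y.FlipData b) (j0 M s e : ℕ) : Loc (Y.rest l X j0 M s e) := by
  refine (Y.loc_zd l s e).sub ⟨b + 3 * (j0 + M) * l + l, fun ω ω' h => ?_⟩
  simp only [Y.actS_dep hl X j0 M h]
  refine sum_congr rfl fun j hj => ?_
  have h1 := HdSlot_le l b (mem_Ico.1 (mem_filter.1 hj).1).2
  rw [h (slot l b j) (Set.mem_Iio.2 (by omega))]

/-- `zd_flipS`, `actS_flipS_self`, `first_flipS_self`, `flipS_ne`. -/
theorem rest_flipS (hl : 1 ≤ l) (X : Y.FlipData b) {j0 M j s e : ℕ} (hj : j ∈ Ico j0 (j0 + M))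
    (hs : s ≤ b) (he : b + 3 * (j0 + M) * l ≤ e) (ω : Y.Ω) :
    Y.rest l X j0 M s e (Y.flipS l X j ω) = Y.rest l X j0 M s e ω := by
  have h1 := HdSlot_le l b (mem_Ico.1 hj).2
  have h2 := slot_ge hl b j
  unfold rest
  rw [Y.zd_flipS hl X j (by omega) (by omega), Y.actS_flipS_self hl]
  split_ifs with h
  · have h3 : j ∈ Y.actS l X j0 M ω := mem_filter.2 ⟨hj, h⟩
    have h4 : ∑ i ∈ (Y.actS l X j0 M ω).erase j, step (Y.first (Y.flipS l X j ω (slot l b i))) =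
        ∑ i ∈ (Y.actS l X j0 M ω).erase j, step (Y.first (ω (slot l b i))) :=
      sum_congr rfl fun i hi => by rw [Y.flipS_ne X j ω (HdSlot_ne hl b (ne_of_mem_erase hi))]
    rw [← add_sum_erase _ _ h3, ← add_sum_erase _ _ h3, Y.first_flipS_self X j h, h4]
    abel
  · rw [add_zero]
    congr 1
    refine sum_congr rfl fun i hi => ?_
    have h3 : i ≠ j := fun h4 => h (h4 ▸ (mem_filter.1 hi).2)
    rw [Y.flipS_ne X j ω (HdSlot_ne hl b h3)]

/-- `bin_rep` with `s = Ico j0 (j0 + M)`. -/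
theorem slot_bin (hl : 1 ≤ l) (X : Y.FlipData b) (j0 M : ℕ) (G : Y.Ω → ℕ → ℝ) (hG : Loc G)
    (hG' : ∀ j ∈ Ico j0 (j0 + M), ∀ ω, G (Y.flipS l X j ω) = G ω) :
    Y.Ex (fun ω => G ω (Y.posS l X j0 M ω).card) =
      Y.Ex fun ω => ∑ k ∈ range ((Y.actS l X j0 M ω).card + 1),
        bin (Y.actS l X j0 M ω).card k * G ω k := by
  refine Y.bin_rep (Ico j0 (j0 + M)) (Y.flipS l X)
    (fun j ω => Y.act l (slot l b j) (X.F ω) (X.π ω) ω)
    (fun j ω => X.pl ω (Y.first (ω (slot l b j)))) (fun j _ f hf => Y.Ex_flipS hl X j f hf)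
    (fun j _ => ⟨_, Y.HdSlot_act_dep hl X j le_rfl⟩)
    (fun j _ => Loc.apply ⟨b, X.pl_dep⟩ ((Loc.eval _).comp Y.first)) (fun i _ j _ ω => ?_)
    (fun i _ j _ hij ω => ?_) (fun j _ ω h => ?_) G hG hG'
  · by_cases h : j = i
    · rw [← h]
      exact Y.act_flipS_self hl X j ω
    · exact Y.act_flipS_ne hl X X h ω
  · rw [Y.HdSlot_past hl X j X.pl_dep, Y.flipS_ne X j ω (HdSlot_ne hl b hij)]
  · rw [Y.HdSlot_past hl X j X.pl_dep, Y.first_flipS_self X j h]
    exact X.sign ω _ h.1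

/-- `sup_lower` with `t j = slot l b (j0 + j) - l`, `q j = p`: after splicing at `t j ≥ b` the data
`F`, `π` are frozen and `act` only sees the new noise (`act_dep`); use `P_act`. -/
theorem few_act {α n : ℕ} {η : ℝ} (H : Y.HK α η n) (hα : 3 ≤ α) (hη : 0 ≤ η) (hη1 : η ≤ 1 / 48)
    (hl : 1 ≤ l) (hn : 2 * l ≤ n) (X : Y.FlipData b) (j0 M : ℕ) {p : ℝ}
    (hp : ∀ ω, p ≤ ((X.F ω).card : ℝ) / (4 * d)) (y : ℕ) :
    Y.P (fun ω => (Y.actS l X j0 M ω).card ≤ y) ≤ 2 ^ y * Real.exp (-(M * p) / 2) := by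
  have h := Y.sup_lower (fun j => slot l b (j0 + j) - l)
    (monotone_nat_of_le_succ fun j => by
      rw [← add_assoc, slot_succ]
      omega)
    (fun j ω => Y.act l (slot l b (j0 + j)) (X.F ω) (X.π ω) ω) (fun _ _ => p)
    (fun j => Y.HdSlot_act_dep hl X _ (by
      rw [← add_assoc, slot_succ]
      omega))
    (fun _ _ _ _ => rfl)
    (fun j ω => by
      have h1 := slot_ge hl b (j0 + j)
      have h2 : Set.Iio b ⊆ Set.Iio (slot l b (j0 + j) - l) := Set.Iio_subset_Iio (by omega)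
      refine ((hp ω).trans (Y.P_act H hα hη hη1 hl hn (slot l b (j0 + j)) _ (X.π ω))).trans
        (Y.P_mono fun ω' h3 => ?_)
      rwa [dep_splice_left (X.F_dep.mono h2), dep_splice_left (X.π_dep.mono h2),
        dep_splice_right ((Y.act_dep hl _ _ _).mono Set.Ico_subset_Ici_self)]) M (M * p) y
  refine le_trans (Y.P_mono fun ω h1 => ⟨by simp, le_trans ?_ h1⟩) h
  refine card_le_card_of_injOn (fun j => j0 + j) (fun j hj => ?_) fun j _ j' _ h2 =>
    Nat.add_left_cancel h2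
  have h2 := mem_filter.1 (mem_coe.1 hj)
  have h3 := mem_range.1 h2.1
  exact mem_coe.2 (mem_filter.2 ⟨mem_Ico.2 ⟨Nat.le_add_right _ _, Nat.add_lt_add_left h3 _⟩, h2.2⟩)

end Sys

end Pool.Agent.Lib.MP_aa337a_pr.HD
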