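import Pool.Agent.Lib.MP_aa337a_pr.HdSlot

/-! Smoothing: replacing one step `b'` by a step `a'` in front of the block-local displacement costs a
factor `1 + 1 / (3 n)`, off an atypical event.
First assume `a' ω ≠ b' ω` for all `ω`. Flip data at time `s1`: `F = {a', b'}`, `π = swap a' b'`,
`pl σ = (σ = a')`; slots `Ico 0 M`, `M = 8 n ^ 4`, block length `n`; `N = card actS`,
`K = card posS`, `ε = 1 / (3 n)`. Then `zd = rest + K • step a' + (N - K) • step b'` (integer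
scalars). Put `G ω k = F ω (rest + k • step a' + (N - k) • step b')`, invariant under the flips, so
that the left integrand is `G ω (K + 1)` and the right one `G ω K`. The atypical event is
`N ≤ n ^ 3 ∨ ¬ (K + 1 ≤ N / 2 + ε N / 8)`. Use `slot_bin` twice and `bin_ratio`. For its
probability: `few_act` with `p = 1 / (2 n)` gives `2 ^ (n ^ 3) exp (-2 n ^ 3) ≤ exp (-n ^ 3)`; on
`N > n ^ 3` use `slot_bin` and `bin_tail` with `s = ε N / 8` (`ε N ≥ 16`), which gives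
`exp (-ε ^ 2 N / 128) ≤ exp (-n / 1152)`.
General case: apply this to `b'' = if a' = b' then ng d a' else b'` and to
`ind (a' ω ≠ b' ω) * F ω z`; on `a' ω = b' ω` the inequality is trivial. -/

set_option autoImplicit false

noncomputable section

namespace Pool.Agent.Lib.MP_aa337a_pr.HD

open MeasureTheory Finset
open scoped Classical

theorem HdSm1_tail {n : ℕ} (hn : 100 ≤ n) (N : ℕ) :
    ∑ k ∈ range (N + 1), bin N k *
      ind (n ^ 3 < N ∧ ¬ ((k : ℝ) + 1 ≤ N / 2 + 1 / (3 * n) * N / 8)) ≤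
        Real.exp (-(n : ℝ) / 1152) := by
  by_cases hN : n ^ 3 < N
  · have h0 : (100 : ℝ) ≤ n := by exact_mod_cast hn
    have h1 : (n : ℝ) ^ 3 ≤ N := by exact_mod_cast hN.le
    have h2 : (0 : ℝ) < n := by linarith
    have h3 : (0 : ℝ) < N := lt_of_lt_of_le (by positivity) h1
    have h4 : 16 ≤ 1 / (3 * (n : ℝ)) * N := by
      rw [one_div, inv_mul_eq_div, le_div_iff₀ (by positivity)]
      have h5 : 100 * 100 * (n : ℝ) ≤ n * n * n :=
        mul_le_mul_of_nonneg_right (mul_le_mul h0 h0 (by norm_num) h2.le) h2.le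
      linarith
    refine le_trans (sum_le_sum fun k _ => mul_le_mul_of_nonneg_left (ind_mono fun h => ?_)
      (bin_nonneg N k)) ((bin_tail (N := N) (by omega) (s := 1 / (3 * n) * N / 8)
        (by positivity)).trans (Real.exp_le_exp.2 ?_))
    · have h5 := not_le.1 h.2
      linarith
    · have h5 : -(1 / (3 * (n : ℝ)) * N / 8) ^ 2 / (2 * N) = -(N / n ^ 2) / 1152 := by
        field_simp
        norm_num
      have h6 : (n : ℝ) ≤ N / n ^ 2 := by
        rw [le_div_iff₀ (by positivity)]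
        linarith
      rw [h5]
      linarith
  · rw [sum_eq_zero fun k _ => by rw [ind_of_false fun h => hN h.1, mul_zero]]
    exact (Real.exp_pos _).le

theorem HdSm1_few {n : ℕ} (hn : 100 ≤ n) :
    (2 : ℝ) ^ (n ^ 3) * Real.exp (-(((8 * n ^ 4 : ℕ) : ℝ) * (1 / (2 * n))) / 2) ≤
      Real.exp (-(n : ℝ) / 1152) := by
  have h0 : (100 : ℝ) ≤ n := by exact_mod_cast hn
  have h1 : (2 : ℝ) ^ (n ^ 3) ≤ Real.exp ((n ^ 3 : ℕ) * 1) := by
    rw [Real.exp_nat_mul]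
    exact pow_le_pow_left₀ two_pos.le (by linarith [Real.add_one_le_exp 1]) _
  have h2 : -(((8 * n ^ 4 : ℕ) : ℝ) * (1 / (2 * n))) / 2 = -2 * (n : ℝ) ^ 3 := by
    push_cast
    field_simp
    norm_num
  refine (mul_le_mul_of_nonneg_right h1 (Real.exp_pos _).le).trans ?_
  rw [← Real.exp_add, h2]
  refine Real.exp_le_exp.2 ?_
  push_cast
  have h3 : (n : ℝ) ≤ (n : ℝ) ^ 3 := le_self_pow₀ (by linarith) three_ne_zero
  linarith

namespace Sys

variable {d : ℕ} (Y : Sys d)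

theorem HdSm1_data {s1 : ℕ} {a' b' : Y.Ω → St d} (ha : DependsOn a' (Set.Iio s1))
    (hb : DependsOn b' (Set.Iio s1)) (hab : ∀ ω, a' ω ≠ b' ω) :
    ∃ X : Y.FlipData s1, (∀ ω, X.F ω = {a' ω, b' ω}) ∧ ∀ ω σ, X.pl ω σ ↔ σ = a' ω := by
  refine ⟨⟨fun ω => {a' ω, b' ω}, fun ω => Equiv.swap (a' ω) (b' ω), fun ω σ => σ = a' ω,
    dep_comp₂ ha hb fun x y => ({x, y} : Finset (St d)), dep_comp₂ ha hb Equiv.swap,
    dep_comp ha fun x σ => σ = x, fun ω => Equiv.swap_mul_self _ _, fun ω σ hσ => ?_,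
    fun ω σ hσ => ?_⟩, fun _ => rfl, fun _ _ => Iff.rfl⟩
  · rcases mem_insert.1 hσ with h | h
    · rw [h, Equiv.swap_apply_left]
      exact mem_insert_of_mem (mem_singleton_self _)
    · rw [mem_singleton.1 h, Equiv.swap_apply_right]
      exact mem_insert_self _ _
  · rcases mem_insert.1 hσ with h | h
    · rw [h, Equiv.swap_apply_left]
      exact iff_of_false (hab ω).symm fun h' => h' rfl
    · rw [mem_singleton.1 h, Equiv.swap_apply_right]
      exact iff_of_true rfl (hab ω).symm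

theorem HdSm1_zd {l b : ℕ} (X : Y.FlipData b) (M s e : ℕ) (ω : Y.Ω) {x y : St d}
    (hF : X.F ω = {x, y}) (hp : ∀ σ, X.pl ω σ ↔ σ = x) :
    Y.zd l s e ω = Y.rest l X 0 M s e ω + (Y.actS l X 0 M ω).card • step y +
      (Y.posS l X 0 M ω).card • (step x - step y) := by
  have h : ∑ j ∈ Y.actS l X 0 M ω, step (Y.first (ω (slot l b j))) =
      ∑ j ∈ Y.actS l X 0 M ω,
        (step y + if X.pl ω (Y.first (ω (slot l b j))) then step x - step y else 0) := by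
    refine sum_congr rfl fun j hj => ?_
    have h1 := (mem_filter.1 hj).2.1
    split_ifs with h2
    · rw [(hp _).1 h2, add_sub_cancel]
    · rw [hF] at h1
      rw [mem_singleton.1 ((mem_insert.1 h1).resolve_left fun h3 => h2 ((hp _).2 h3)), add_zero]
  rw [rest, h, sum_add_distrib, ← sum_filter, sum_const, sum_const, add_assoc]
  exact (sub_add_cancel _ _).symm

/-- The probabilistic part, for a family `G` that is invariant under the flips. -/
theorem HdSm1_bin {l b : ℕ} (hl : 1 ≤ l) (X : Y.FlipData b) (M : ℕ) {ε : ℝ} (hε : 0 < ε)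
    (hε2 : ε ≤ 2) (G : Y.Ω → ℕ → ℝ) (h0 : ∀ ω k, 0 ≤ G ω k) (hG : Loc G)
    (hG' : ∀ j ∈ Ico 0 (0 + M), ∀ ω, G (Y.flipS l X j ω) = G ω) :
    Y.Ex (fun ω => ind (((Y.posS l X 0 M ω).card : ℝ) + 1 ≤ (Y.actS l X 0 M ω).card / 2 +
        ε * (Y.actS l X 0 M ω).card / 8) * G ω ((Y.posS l X 0 M ω).card + 1)) ≤
      (1 + ε) * Y.Ex fun ω => G ω (Y.posS l X 0 M ω).card := by
  have hN : Loc fun ω => (Y.actS l X 0 M ω).card := Loc.comp ⟨_, Y.actS_dep hl X 0 M⟩ card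
  rw [Y.slot_bin hl X 0 M G hG hG', ← Y.Ex_const_mul,
    Y.slot_bin hl X 0 M (fun ω k => ind ((k : ℝ) + 1 ≤ (Y.actS l X 0 M ω).card / 2 +
      ε * (Y.actS l X 0 M ω).card / 8) * G ω (k + 1))
      (hN.comp₂ hG fun N g (k : ℕ) => ind ((k : ℝ) + 1 ≤ N / 2 + ε * N / 8) * g (k + 1))
      fun j hj ω => by rw [Y.actS_flipS_self hl, hG' j hj]]
  exact Y.Ex_mono
    (hN.comp₂ hG fun N g => ∑ k ∈ range (N + 1),
      bin N k * (ind ((k : ℝ) + 1 ≤ N / 2 + ε * N / 8) * g (k + 1)))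
    (hN.comp₂ hG fun N g => (1 + ε) * ∑ k ∈ range (N + 1), bin N k * g k)
    fun ω => bin_ratio _ hε hε2 (G ω) (h0 ω)

theorem HdSm1_atyp {n b : ℕ} (hn : 100 ≤ n) (X : Y.FlipData b) (M : ℕ) :
    Y.P (fun ω => n ^ 3 < (Y.actS n X 0 M ω).card ∧ ¬ (((Y.posS n X 0 M ω).card : ℝ) + 1 ≤
      (Y.actS n X 0 M ω).card / 2 + 1 / (3 * n) * (Y.actS n X 0 M ω).card / 8)) ≤
        Real.exp (-(n : ℝ) / 1152) := by
  have hl : 1 ≤ n := by omega
  have hN : Loc fun ω => (Y.actS n X 0 M ω).card := Loc.comp ⟨_, Y.actS_dep hl X 0 M⟩ card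
  have hK : Loc fun ω => (Y.posS n X 0 M ω).card := Loc.comp ⟨_, Y.posS_dep hl X 0 M⟩ card
  rw [← Y.Ex_ind (hN.comp₂ hK fun N K =>
      n ^ 3 < N ∧ ¬ ((K : ℝ) + 1 ≤ N / 2 + 1 / (3 * n) * N / 8)),
    Y.slot_bin hl X 0 M (fun ω k => ind (n ^ 3 < (Y.actS n X 0 M ω).card ∧ ¬ ((k : ℝ) + 1 ≤
      (Y.actS n X 0 M ω).card / 2 + 1 / (3 * n) * (Y.actS n X 0 M ω).card / 8)))
      (hN.comp fun N (k : ℕ) => ind (n ^ 3 < N ∧ ¬ ((k : ℝ) + 1 ≤ N / 2 + 1 / (3 * n) * N / 8)))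
      fun j _ ω => by rw [Y.actS_flipS_self hl]]
  exact Y.Ex_le_const (hN.comp fun N => ∑ k ∈ range (N + 1), bin N k *
    ind (n ^ 3 < N ∧ ¬ ((k : ℝ) + 1 ≤ N / 2 + 1 / (3 * n) * N / 8))) fun ω => HdSm1_tail hn _

theorem HdSm1_ne {α n0 : ℕ} {η : ℝ} (H : Y.HK α η n0) (hα : 3 ≤ α) (hη : 0 ≤ η)
    (hη1 : η ≤ 1 / 48) {n s1 c2 nn : ℕ} (hn : 100 ≤ n) (hdn : d ≤ n) (hn0 : 2 * n ≤ n0)
    (hc : s1 + 24 * n ^ 5 ≤ c2) {F : Y.Ω → Pt d → ℝ} (hF0 : ∀ ω z, 0 ≤ F ω z)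
    (hF : DependsOn F {i | i < s1 ∨ (c2 ≤ i ∧ i < nn)}) {a' b' : Y.Ω → St d}
    (ha : DependsOn a' (Set.Iio s1)) (hb : DependsOn b' (Set.Iio s1)) (hab : ∀ ω, a' ω ≠ b' ω) :
    ∃ At : Y.Ω → Prop, DependsOn At (Set.Iio (c2 + n)) ∧
      Y.P At ≤ 2 * Real.exp (-(n : ℝ) / 1152) ∧
      Y.Ex (fun ω => F ω (Y.zd n s1 (c2 + n) ω + step (a' ω) - step (b' ω))) ≤
        (1 + 1 / (3 * n)) * Y.Ex (fun ω => F ω (Y.zd n s1 (c2 + n) ω)) +
          Y.Ex fun ω => ind (At ω) * F ω (Y.zd n s1 (c2 + n) ω + step (a' ω) - step (b' ω)) := by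
  obtain ⟨X, hX, hp⟩ := Y.HdSm1_data ha hb hab
  have hl : 1 ≤ n := by omega
  have h0 : (100 : ℝ) ≤ n := by exact_mod_cast hn
  have hfew := (Y.few_act H hα hη hη1 hl hn0 X 0 (8 * n ^ 4) (p := 1 / (2 * n)) (fun ω => by
    have h1 : (0 : ℝ) < d := by exact_mod_cast Y.d_pos
    have h2 : (d : ℝ) ≤ n := by exact_mod_cast hdn
    rw [hX, card_pair (hab ω), div_le_div_iff₀ (by positivity) (by positivity)]
    push_cast
    linarith) (n ^ 3)).trans (HdSm1_few hn)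
  have hM : s1 + 3 * (0 + 8 * n ^ 4) * n ≤ c2 := le_trans (le_of_eq (by ring)) hc
  generalize 8 * n ^ 4 = M at hfew hM
  have hN := (Y.actS_dep hl X 0 M).mono (Set.Iio_subset_Iio (Nat.add_le_add_right hM n))
  have hK := (Y.posS_dep hl X 0 M).mono (Set.Iio_subset_Iio (Nat.add_le_add_right hM n))
  have lF : Loc F := Loc.of_dep (n := s1 + nn) hF fun i hi => by
    rcases hi with hi | hi
    · exact lt_of_lt_of_le hi (Nat.le_add_right _ _)
    · exact lt_of_lt_of_le hi.2 (Nat.le_add_left _ _)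
  have la : Loc a' := ⟨_, ha⟩
  have lb : Loc b' := ⟨_, hb⟩
  have lN : Loc fun ω => (Y.actS n X 0 M ω).card := Loc.comp ⟨_, hN⟩ card
  have lK : Loc fun ω => (Y.posS n X 0 M ω).card := Loc.comp ⟨_, hK⟩ card
  have lL : Loc fun ω => F ω (Y.zd n s1 (c2 + n) ω + step (a' ω) - step (b' ω)) :=
    lF.apply (((Y.loc_zd _ _ _).add (la.comp step)).sub (lb.comp step))
  have hbin := Y.HdSm1_bin hl X M (ε := 1 / (3 * n)) (by positivity)
    (by rw [div_le_iff₀ (by positivity)]; linarith)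
    (fun ω k => F ω (Y.rest n X 0 M s1 (c2 + n) ω + (Y.actS n X 0 M ω).card • step (b' ω) +
      k • (step (a' ω) - step (b' ω)))) (fun _ _ => hF0 _ _)
    ((lF.comp₂ ((Y.loc_rest hl X 0 M s1 (c2 + n)).add
      (lN.comp₂ lb fun N y => N • step y)) fun f z w => f (z + w)).comp₂
        ((la.comp step).sub (lb.comp step)) fun f z (k : ℕ) => f (k • z)) (fun j hj ω => by
      have h1 := slot_ge hl s1 j
      have h2 := slot_le n s1 j
      have h3 : 3 * (j + 1) * n ≤ 3 * (0 + M) * n :=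
        Nat.mul_le_mul_right _ (Nat.mul_le_mul_left _ (mem_Ico.1 hj).2)
      have h4 : 3 * (j + 1) * n = 3 * j * n + 3 * n := by ring
      have h5 : slot n s1 j ∉ Set.Iio s1 := fun h => by
        have h6 : slot n s1 j < s1 := h
        omega
      rw [Y.flipS_dep X j hF (by simp only [Set.mem_ofPred_eq]; omega), Y.flipS_dep X j ha h5,
        Y.flipS_dep X j hb h5, Y.actS_flipS_self hl,
        Y.rest_flipS hl X hj le_rfl (hM.trans (Nat.le_add_right _ _))])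
  have hz := fun ω => Y.HdSm1_zd (l := n) X M s1 (c2 + n) ω (hX ω) (hp ω)
  simp only [succ_nsmul, ← add_assoc, ← hz, ← add_sub_assoc] at hbin
  have hAt := dep_comp₂ hN hK fun A B => A.card ≤ n ^ 3 ∨
    ¬ ((B.card : ℝ) + 1 ≤ A.card / 2 + 1 / (3 * n) * A.card / 8)
  refine ⟨_, hAt, ?_, le_trans ?_ (add_le_add hbin le_rfl)⟩
  · refine (Y.P_le_add fun ω h => ?_).trans
      ((add_le_add hfew (Y.HdSm1_atyp hn X M)).trans (two_mul _).ge)
    by_cases h1 : (Y.actS n X 0 M ω).card ≤ n ^ 3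
    · exact Or.inl h1
    · exact Or.inr ⟨not_le.1 h1, h.resolve_left h1⟩
  · have l1 := (lN.comp₂ lK fun N K =>
      (K : ℝ) + 1 ≤ N / 2 + 1 / (3 * n) * N / 8).ind.mul lL
    have l2 := (Loc.ind ⟨_, hAt⟩).mul lL
    rw [← Y.Ex_add l1 l2]
    refine Y.Ex_mono lL (l1.add l2) fun ω => ?_
    rw [← add_mul]
    refine le_mul_of_one_le_left (hF0 _ _) ?_
    by_cases h1 : ((Y.posS n X 0 M ω).card : ℝ) + 1 ≤
      (Y.actS n X 0 M ω).card / 2 + 1 / (3 * n) * (Y.actS n X 0 M ω).card / 8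
    · rw [ind_of_true h1]
      exact le_add_of_nonneg_right (ind_nonneg _)
    · rw [ind_of_false h1, ind_of_true (Or.inr h1), zero_add]

theorem smooth1 {α n0 : ℕ} {η : ℝ} (H : Y.HK α η n0) (hα : 3 ≤ α) (hη : 0 ≤ η)
    (hη1 : η ≤ 1 / 48) {n s1 c2 nn : ℕ} (hn : 100 ≤ n) (hdn : d ≤ n) (hn0 : 2 * n ≤ n0)
    (hc : s1 + 24 * n ^ 5 ≤ c2) {F : Y.Ω → Pt d → ℝ} (hF0 : ∀ ω z, 0 ≤ F ω z)
    (hF : DependsOn F {i | i < s1 ∨ (c2 ≤ i ∧ i < nn)}) {a' b' : Y.Ω → St d}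
    (ha : DependsOn a' (Set.Iio s1)) (hb : DependsOn b' (Set.Iio s1)) :
    ∃ At : Y.Ω → Prop, DependsOn At (Set.Iio (c2 + n)) ∧
      Y.P At ≤ 2 * Real.exp (-(n : ℝ) / 1152) ∧
      Y.Ex (fun ω => F ω (Y.zd n s1 (c2 + n) ω + step (a' ω) - step (b' ω))) ≤
        (1 + 1 / (3 * n)) * Y.Ex (fun ω => F ω (Y.zd n s1 (c2 + n) ω)) +
          Y.Ex fun ω => ind (At ω) * F ω (Y.zd n s1 (c2 + n) ω + step (a' ω) - step (b' ω)) := by
  have hI : Set.Iio s1 ⊆ {i | i < s1 ∨ (c2 ≤ i ∧ i < nn)} := fun _ hi => Or.inl hi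
  have hb2 := dep_comp₂ ha hb fun x y => if x = y then ng d x else y
  have hne := dep_comp₂ ha hb fun x y => x ≠ y
  have hF2 := dep_comp₂ (hne.mono hI) hF fun p f z => ind p * f z
  obtain ⟨At, h1, h2, h3⟩ := Y.HdSm1_ne H hα hη hη1 hn hdn hn0 hc
    (fun ω z => mul_nonneg (ind_nonneg _) (hF0 ω z)) hF2 ha hb2 fun ω => by
      split_ifs with h
      · exact (ng_ne _).symm
      · exact h
  refine ⟨At, h1, h2, ?_⟩
  have lF : Loc F := Loc.of_dep (n := s1 + nn) hF fun i hi => by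
    rcases hi with hi | hi
    · exact lt_of_lt_of_le hi (Nat.le_add_right _ _)
    · exact lt_of_lt_of_le hi.2 (Nat.le_add_left _ _)
  have la : Loc a' := ⟨_, ha⟩
  have lb : Loc b' := ⟨_, hb⟩
  have lz := Y.loc_zd n s1 (c2 + n)
  have ln := Loc.ind ⟨_, hne⟩
  have le := (Loc.not ⟨_, hne⟩).ind
  have lA := Loc.ind ⟨_, h1⟩
  have l0 := lF.apply lz
  have l1 := lF.apply ((lz.add (la.comp step)).sub (lb.comp step))
  have l2 := lF.apply ((lz.add (la.comp step)).sub (Loc.comp ⟨_, hb2⟩ step))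
  have e1 : Y.Ex (fun ω => F ω (Y.zd n s1 (c2 + n) ω + step (a' ω) - step (b' ω))) = _ :=
    (Y.Ex_congr fun ω => ?_).trans (Y.Ex_add (ln.mul l2) (le.mul l0))
  · have e2 : Y.Ex (fun ω => F ω (Y.zd n s1 (c2 + n) ω)) = _ :=
      (Y.Ex_congr fun ω => ?_).trans (Y.Ex_add (ln.mul l0) (le.mul l0))
    · have e3 := Y.Ex_mono (lA.mul (ln.mul l2)) (lA.mul l1) fun ω =>
        mul_le_mul_of_nonneg_left (by
          by_cases h : a' ω = b' ω
          · rw [ind_of_false fun h' => h' h, zero_mul]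
            exact hF0 _ _
          · rw [ind_of_true h, if_neg h, one_mul]) (ind_nonneg _)
      have e4 := mul_nonneg (show (0 : ℝ) ≤ 1 / (3 * n) by positivity)
        (Y.Ex_nonneg (f := fun ω => ind (¬ a' ω ≠ b' ω) * F ω (Y.zd n s1 (c2 + n) ω))
          fun ω => mul_nonneg (ind_nonneg _) (hF0 _ _))
      rw [e1, e2]
      linarith
    · by_cases h : a' ω = b' ω
      · rw [ind_of_false fun h' => h' h, ind_of_true fun h' => h' h, zero_mul, zero_add, one_mul]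
      · rw [ind_of_true h, ind_of_false fun h' => h' h, zero_mul, add_zero, one_mul]
  · by_cases h : a' ω = b' ω
    · rw [ind_of_false fun h' => h' h, ind_of_true fun h' => h' h, zero_mul, zero_add, one_mul, h,
        add_sub_cancel_right]
    · rw [ind_of_true h, ind_of_false fun h' => h' h, zero_mul, add_zero, one_mul, if_neg h]

end Sys

end Pool.Agent.Lib.MP_aa337a_pr.HD
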