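import Pool.Agent.Lib.MP_aa337a_pr.HdSup
import Pool.Agent.Lib.MP_aa337a_pr.HdWalk

/-! The sum of the escape probabilities over dead times. If the sum over `Icc a n` is at least
`(2 m + 1) x`, the sum over one class `c` modulo `2 m + 1` is at least `x`. For fixed `c` apply
`sup_lower` with `t j = a + c + (2 m + 1) j`, `A j = t j ≤ n ∧ ¬ alive (t j) ∧ Succ (t j)`,
`q j = if t j ≤ n then qq (t j) else 0`, and `n + 1` trials. After splicing at `t`, the positions
`pos a s`, `s ≤ t`, are frozen and `pos t (t + i) (splice t ω ω') = pos 0 i (shift t ω')`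
(`pos_dep`, `pos_shift`), so the conditional probability of `Succ` is the `esc` in `qq`
(`P_shift`). -/

set_option autoImplicit false

noncomputable section

namespace Pool.Agent.Lib.MP_aa337a_pr.HD

open MeasureTheory Finset
open scoped Classical

namespace Sys

variable {d : ℕ} (Y : Sys d)

theorem HdW_succ_dep (m a t : ℕ) : DependsOn (Y.Succ m a t) (Set.Iio (t + (2 * m + 1))) := by
  intro ω ω' h
  have h1 := (Y.agree_of_lt h).1
  refine propext (forall_congr' fun i => forall_congr' fun s => forall_congr' fun _ =>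
    forall_congr' fun hi => forall_congr' fun _ => forall_congr' fun hs => ?_)
  rw [h1 a t (by omega), h1 t (t + i) (by omega), h1 a s (by omega)]

theorem HdW_qq_dep (l m a t : ℕ) : DependsOn (Y.qq l m a t) (Set.Iio t) := by
  intro ω ω' h
  have h1 := (Y.agree_of_lt h).1
  have h2 : ((Ico a t).image fun s => Y.pos a s ω) = (Ico a t).image fun s => Y.pos a s ω' :=
    image_congr fun s hs => h1 a s (mem_Ico.1 (mem_coe.1 hs)).2.le
  unfold qq
  rw [Y.alive_dep l m a t h, h2, h1 a t le_rfl]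

theorem HdW_qq_nonneg (l m a t : ℕ) (ω : Y.Ω) : 0 ≤ Y.qq l m a t ω := by
  unfold qq
  split_ifs
  · exact le_rfl
  · exact Y.esc_nonneg _ _ _

theorem HdW_qq_le (l m a t : ℕ) (ω : Y.Ω) : Y.qq l m a t ω ≤
    Y.P fun ω' => ¬ Y.alive l m a t (splice t ω ω') ∧ Y.Succ m a t (splice t ω ω') := by
  unfold qq
  split_ifs with h
  · exact Y.P_nonneg _
  have hl : Loc fun ω' : Y.Ω => ∀ i, 1 ≤ i → i ≤ 2 * m + 1 →
      Y.pos a t ω + Y.pos 0 i ω' ∉ (Ico a t).image fun s => Y.pos a s ω := by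
    refine ⟨2 * m + 1, fun ω₁ ω₂ h12 => ?_⟩
    refine propext (forall_congr' fun i => forall_congr' fun _ => forall_congr' fun hi => ?_)
    rw [(Y.agree_of_lt h12).1 0 i hi]
  unfold esc
  rw [← Y.P_shift t hl]
  refine Y.P_mono fun ω' h1 => ⟨?_, fun i s hi1 hi2 hs1 hs2 h2 => h1 i hi1 hi2 ?_⟩
  · rwa [dep_splice_left (Y.alive_dep l m a t)]
  · rw [dep_splice_left (Y.pos_dep' a le_rfl), dep_splice_left (Y.pos_dep' a hs2.le),
      dep_splice_right ((Y.pos_dep t (t + i)).mono Set.Ico_subset_Ici_self)] at h2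
    rw [Y.pos_shift, add_zero, h2]
    exact mem_image.2 ⟨s, mem_Ico.2 ⟨hs1, hs2⟩, rfl⟩

theorem HdW_sum (f : ℕ → ℝ) (hf : ∀ t, 0 ≤ f t) (a n : ℕ) {M : ℕ} (hM : 0 < M) :
    ∑ t ∈ Icc a n, f t ≤ ∑ c ∈ range M, ∑ j ∈ range (n + 1),
      if a + c + M * j ≤ n then f (a + c + M * j) else 0 := by
  rw [← sum_product']
  have h1 : ∀ t ∈ Icc a n, a + (t - a) % M + M * ((t - a) / M) = t := fun t ht => by
    have := Nat.mod_add_div (t - a) M
    have := (mem_Icc.1 ht).1
    omega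
  have h2 : ∑ t ∈ Icc a n, f t = ∑ p ∈ (Icc a n).image fun t => ((t - a) % M, (t - a) / M),
      if a + p.1 + M * p.2 ≤ n then f (a + p.1 + M * p.2) else 0 := by
    rw [sum_image]
    · refine sum_congr rfl fun t ht => ?_
      simp only [h1 t ht, if_pos (mem_Icc.1 ht).2]
    · intro t ht t' ht' h
      have h3 := Prod.mk.inj h
      rw [← h1 t ht, ← h1 t' ht', h3.1, h3.2]
  rw [h2]
  refine sum_le_sum_of_subset_of_nonneg ?_ fun p _ _ => ?_
  · intro p hp
    obtain ⟨t, ht, rfl⟩ := mem_image.1 hp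
    refine mem_product.2 ⟨mem_range.2 (Nat.mod_lt _ hM), mem_range.2 ?_⟩
    have h3 := Nat.div_le_self (t - a) M
    have h4 := (mem_Icc.1 ht).2
    change (t - a) / M < n + 1
    omega
  · split_ifs
    · exact hf _
    · exact le_rfl

theorem HdW_class (l m a n x y c : ℕ) :
    Y.P (fun ω => (x : ℝ) ≤ ∑ j ∈ range (n + 1), (if a + c + (2 * m + 1) * j ≤ n then
      Y.qq l m a (a + c + (2 * m + 1) * j) ω else 0) ∧ (Y.succT l m a n c ω).card ≤ y) ≤
      2 ^ y * Real.exp (-(x : ℝ) / 2) := by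
  have h := Y.sup_lower (fun j => a + c + (2 * m + 1) * j)
    (fun j j' h => Nat.add_le_add_left (Nat.mul_le_mul_left _ h) _)
    (fun j ω => a + c + (2 * m + 1) * j ≤ n ∧ ¬ Y.alive l m a (a + c + (2 * m + 1) * j) ω ∧
      Y.Succ m a (a + c + (2 * m + 1) * j) ω)
    (fun j ω => if a + c + (2 * m + 1) * j ≤ n then Y.qq l m a (a + c + (2 * m + 1) * j) ω else 0)
    (fun j ω ω' h => by
      have e : a + c + (2 * m + 1) * (j + 1) = a + c + (2 * m + 1) * j + (2 * m + 1) := by ring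
      simp only [e] at h
      have h1 := Y.HdW_succ_dep m a _ h
      have h2 := (Y.alive_dep l m a _).mono (Set.Iio_subset_Iio (Nat.le_add_right _ _)) h
      simp only [h1, h2])
    (fun j ω ω' h => by simp only [Y.HdW_qq_dep l m a _ h])
    (fun j ω => by
      split_ifs with h
      · exact (Y.HdW_qq_le l m a _ ω).trans (Y.P_mono fun ω' h' => ⟨h, h'⟩)
      · exact Y.P_nonneg _) (n + 1) x y
  refine le_trans (Y.P_mono fun ω h1 => ⟨h1.1, ?_⟩) h
  convert h1.2 using 2
  unfold succT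
  convert rfl

theorem P_not_wok (l m a n x y : ℕ) :
    Y.P (fun ω => ¬ Y.WOK l m a n x y ω) ≤
      (2 * m + 1 : ℝ) * (2 ^ y * Real.exp (-(x : ℝ) / 2)) := by
  refine (Y.P_le_sum (range (2 * m + 1)) (fun c ω => (x : ℝ) ≤ ∑ j ∈ range (n + 1),
    (if a + c + (2 * m + 1) * j ≤ n then Y.qq l m a (a + c + (2 * m + 1) * j) ω else 0) ∧
      (Y.succT l m a n c ω).card ≤ y) fun ω h => ?_).trans ?_
  · unfold WOK at h
    rw [Classical.not_imp, not_lt] at h
    have h1 := h.2.trans (HdW_sum _ (fun t => Y.HdW_qq_nonneg l m a t ω) a n (M := 2 * m + 1)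
      (Nat.succ_pos _))
    have h2 : (((2 * m + 1) * x : ℕ) : ℝ) = ∑ _c ∈ range (2 * m + 1), (x : ℝ) := by simp
    rw [h2] at h1
    obtain ⟨c, hc, h3⟩ := exists_le_of_sum_le (nonempty_range_iff.2 (Nat.succ_ne_zero _)) h1
    exact ⟨c, hc, h3, h.1 c (mem_range.1 hc)⟩
  · refine (sum_le_card_nsmul _ _ _ fun c _ => Y.HdW_class l m a n x y c).trans (le_of_eq ?_)
    simp

end Sys

end Pool.Agent.Lib.MP_aa337a_pr.HD
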