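import Pool.Agent.Lib.MP_aa337a_pr.HdDead
import Pool.Agent.Lib.MP_aa337a_pr.HdMerge
import Pool.Agent.Lib.MP_aa337a_pr.HdCut
import Pool.Agent.Lib.MP_aa337a_pr.HdW
import Pool.Agent.Lib.MP_aa337a_pr.HdMart
import Pool.Agent.Lib.MP_aa337a_pr.HdCap
import Pool.Agent.Lib.MP_aa337a_pr.HdCap2

/-! The induction step for the coalescence hypothesis. -/

set_option autoImplicit false

noncomputable section

namespace Pool.Agent.Lib.MP_aa337a_pr.HD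

open MeasureTheory Finset
open scoped Classical

namespace Sys

variable {d : ℕ} (Y : Sys d)

theorem TT_step {γ α κ D r1 L : ℕ} {η : ℝ} {q : Par} (hq : q.OK D κ r1 γ L)
    (hP : Y.Phi γ (L - 1)) (H : Y.HK α η (L - 1)) (hR : R1 D γ α κ r1) (hκ : 26 ≤ κ)
    (hα : 4 * κ + 3 ≤ α) (hγ : 73 ≤ γ) (hη : 0 ≤ η) (hη0 : η ≤ 1 / 48)
    (hη1 : 16 * (r1 : ℝ) ^ (κ + 1) * η ≤ 1) (hη2 : 2 ^ (κ + 10) * η ≤ 1) (hD : 1 ≤ D)
    (hDd : D ≤ d) (hd : Dbig d) : Y.TT γ L := by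
  refine Y.TT_of_zero fun a' ha' => ?_
  have hz := hq.z_pos
  have hzm := hq.z_le
  have hmL := hq.m_le
  have hm0 := hq.m0_lt
  have hα3 : 3 ≤ α := by omega
  have hC := Y.cap2OK (Y.capOK hP H hγ (by omega) hη hη0 hd) D
  have hTB : ∀ (A : Finset (Pt d)) x, A.card ≤ 3 * L + 1 →
      Y.hit A q.ρ' (2 * q.m + 1) x ≤ 1 / (200 * q.g2) := fun A x hA => by
    refine (Y.hit_late hP H hα3 hη hη0 hD hDd hz (by omega) hq.ac4 (by omega) A x).trans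
      (le_trans ?_ hq.tb)
    have h1 : (A.card : ℝ) ≤ 3 * L + 1 := by exact_mod_cast hA
    have h2 := acb_nonneg D q.z
    push_cast
    gcongr
  have e1 := Y.P_not_far H hα3 hη hη0 hD hDd hz (by omega) hq.ac1 (3 * L)
  have e2 := Y.P_not_far H hα3 hη hη0 hD hDd hz (by omega) hq.ac2 (3 * L)
  have e3 := Y.P_not_far3 H hα3 hη hη0 hD hDd hz (by omega) hq.ac3 (3 * L)
  have e4 := Y.P_many_bad hP hz hzm (by omega) (3 * L) q.k
  have e5 := Y.P_not_cutWin hz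
    (Y.P_not_cutz hP H hα3 hη hη0 hD hDd hR hz (by omega) hq.cut) q.z (3 * L)
  have e6 := fun a => Y.P_not_martOK (Y.alive_dep q.z q.m a) a (3 * L) hq.z_le_b
  have e7 := fun a => Y.P_not_wok q.z q.m a (3 * L) q.x0 q.y0
  have key : ∀ ω, (∃ u, a' + L ≤ u ∧ u < a' + 2 * L ∧ Y.xi 0 u ω ≠ Y.xi a' u ω) →
      ¬ Y.Far D q.z (4 * q.ρt) q.m0 (3 * L) ω ∨ ¬ Y.Far D q.z q.ρ0 q.m (3 * L) ω ∨
      ¬ Y.Far3 D q.z (2 * q.b ^ 2 + 1) q.ℓ (3 * L) ω ∨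
      (2 * q.m + 1) * q.k < (Y.badT q.z q.m (3 * L) ω).card ∨
      ¬ Y.CutWin D q.z r1 q.m0 q.z (3 * L) ω ∨
      ¬ Y.MartOK (Y.alive q.z q.m 0) 0 (3 * L) q.b q.z ω ∨
      ¬ Y.MartOK (Y.alive q.z q.m a') a' (3 * L) q.b q.z ω ∨
      ¬ Y.WOK q.z q.m 0 (3 * L) q.x0 q.y0 ω ∨ ¬ Y.WOK q.z q.m a' (3 * L) q.x0 q.y0 ω := by
    rintro ω ⟨u, h1, h2, h3⟩
    by_contra hcon
    simp only [not_or, not_not, not_lt] at hcon
    obtain ⟨f1, f2, f3, f4, f5, f6, f7, f8, f9⟩ := hcon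
    exact h3 (Y.merge (by omega) ha' hq.ℓ_le f3
      (Y.few_dead hq H hC hR hκ hα hη hη1 hη2 hTB f1 f2 f4 f5 f6 f8)
      (Y.few_dead hq H hC hR hκ hα hη hη1 hη2 hTB f1 f2 f4 f5 f7 f9) u h1 h2)
  refine (Y.P_mono key).trans (le_trans ?_ hq.total)
  refine (Y.P_or _ _).trans ((add_le_add e1 ((Y.P_or _ _).trans (add_le_add e2
    ((Y.P_or _ _).trans (add_le_add e3 ((Y.P_or _ _).trans (add_le_add e4
    ((Y.P_or _ _).trans (add_le_add e5 ((Y.P_or _ _).trans (add_le_add (e6 0)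
    ((Y.P_or _ _).trans (add_le_add (e6 a') ((Y.P_or _ _).trans
    (add_le_add (e7 0) (e7 a')))))))))))))))).trans (le_of_eq ?_))
  push_cast
  ring

end Sys

end Pool.Agent.Lib.MP_aa337a_pr.HD
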