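import Pool.Agent.Lib.MP_aa337a_pr.HdNrm

/-! A path along which the alive trail is crowded has small diameter. -/

set_option autoImplicit false

noncomputable section

namespace Pool.Agent.Lib.MP_aa337a_pr.HD

open MeasureTheory Finset
open scoped Classical

variable {d D : ℕ} {p : ℕ → Pt d} {al : ℕ → Prop} {a τ : ℕ}

theorem HdThin_window (T : Finset ℕ) (m : ℕ) (h : ∀ s ∈ T, ∀ s' ∈ T, ¬ s + m ≤ s') :
    T.card ≤ m := by
  rcases T.eq_empty_or_nonempty with rfl | hT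
  · simp
  · have : T ⊆ Ico (T.min' hT) (T.min' hT + m) := fun s hs =>
      mem_Ico.2 ⟨T.min'_le s hs, not_le.1 (h _ (T.min'_mem hT) s hs)⟩
    simpa using card_le_card this

theorem HdThin_ball {u : Pt d} {r m : ℕ}
    (h : ∀ s s', s ∈ liveT al a τ → s' ∈ liveT al a τ → nrm D (p s - u) ≤ r →
      nrm D (p s' - u) ≤ r → ¬ s + m ≤ s') :
    (ball D ((liveT al a τ).image p) u r).card ≤ m := by
  have h1 : ball D ((liveT al a τ).image p) u r ⊆
      ((liveT al a τ).filter fun s => nrm D (p s - u) ≤ r).image p := fun x hx => by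
    obtain ⟨hx1, hx2⟩ := mem_ball.1 hx
    obtain ⟨s, hs, rfl⟩ := mem_image.1 hx1
    exact mem_image.2 ⟨s, mem_filter.2 ⟨hs, hx2⟩, rfl⟩
  refine (card_le_card h1).trans (card_image_le.trans (HdThin_window _ _ fun s hs s' hs' => ?_))
  exact h s s' (mem_filter.1 hs).1 (mem_filter.1 hs').1 (mem_filter.1 hs).2 (mem_filter.1 hs').2

theorem HdThin_tri (x y u : Pt d) : nrm D (y - x) ≤ nrm D (x - u) + nrm D (y - u) := by
  have := nrm_sub_le D y u x
  rw [nrm_sub_comm D u x] at this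
  omega

/-- All alive times with position in the ball lie in a window of length `r ^ 6` starting at the
first of them. -/
theorem card_ball_of_not_crowd {r1 ρt r : ℕ} {u : Pt d} (h : ¬ Crowd D p al a τ r1 ρt u)
    (hr1 : 1 ≤ r1) (h1 : r1 ≤ r) (h2 : r ≤ ρt) :
    (ball D ((liveT al a τ).image p) u r).card ≤ r ^ 6 := by
  refine HdThin_ball fun s s' hs hs' h3 h4 h5 => h ?_
  obtain ⟨hs1, hs2⟩ := mem_filter.1 hs
  obtain ⟨hs3, hs4⟩ := mem_filter.1 hs'
  exact ⟨r, s, s', h1, h2, (mem_Icc.1 hs1).1, h5, (mem_Icc.1 hs3).2, hs2, hs4, h3, h4⟩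

/-- The same argument with `FarP`. -/
theorem card_ball_of_far {ρ0 m r : ℕ} (hm : 1 ≤ m) (h : FarP D p al a τ ρ0 m) (hr : 2 * r ≤ ρ0)
    (u : Pt d) : (ball D ((liveT al a τ).image p) u r).card ≤ m := by
  refine HdThin_ball fun s s' hs hs' h3 h4 h5 => ?_
  obtain ⟨hs1, -⟩ := mem_filter.1 hs
  obtain ⟨hs3, hs4⟩ := mem_filter.1 hs'
  have h6 := h s s' (mem_Icc.1 hs1).1 h5 (mem_Icc.1 hs3).2 hs4
  have h7 := HdThin_tri (D := D) (p s) (p s') u
  omega

theorem card_live_at {ρ0 m : ℕ} (hm : 1 ≤ m) (h : FarP D p al a τ ρ0 m) (x : Pt d) :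
    ((liveT al a τ).filter fun s => p s = x).card ≤ m := by
  refine HdThin_window _ _ fun s hs s' hs' h5 => ?_
  obtain ⟨hs, e1⟩ := mem_filter.1 hs
  obtain ⟨hs', e2⟩ := mem_filter.1 hs'
  obtain ⟨hs1, -⟩ := mem_filter.1 hs
  obtain ⟨hs3, hs4⟩ := mem_filter.1 hs'
  have h6 := h s s' (mem_Icc.1 hs1).1 h5 (mem_Icc.1 hs3).2 hs4
  rw [e1, e2, sub_self, nrm_zero] at h6
  omega

/-- For each `t ∈ [t1, t2]` choose a witness `(r, s, s')` of `Crowd`, `n = s' - s`; `n < m0` by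
`hF`. For a cut time `s0`, either `s' + n < s0` (left) or `s0 + n < s` (right). Witnesses of
consecutive times are on the same side: otherwise apply `IsCut` to the right end of the left pair
and the left end of the right pair, with `r` the larger radius (their lag is less than `m0` by
`hF`). Hence the witnesses `s` of `t1` and `t2` are on the same side of every cut time, so they
differ by less than `g` (`hcut`); conclude with `nrm_path_le`. -/
theorem diam_of_crowd {r1 ρt m0 g t1 t2 : ℕ} (hr1 : 1 ≤ r1)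
    (hp : ∀ t, a ≤ t → t < τ → nrm D (p (t + 1) - p t) ≤ 1) (hF : FarP D p al a τ (4 * ρt) m0)
    (hcut : ∀ s, a ≤ s → s + g ≤ τ → ∃ s0, s ≤ s0 ∧ s0 ≤ s + g ∧ IsCut D p al a τ r1 m0 s0)
    (h1 : a ≤ t1) (h12 : t1 ≤ t2) (h2 : t2 ≤ τ)
    (hc : ∀ t, t1 ≤ t → t ≤ t2 → Crowd D p al a τ r1 ρt (p t)) :
    nrm D (p t2 - p t1) ≤ g + 2 * ρt := by
  choose! r s s' k1 k2 k3 k4 k5 k6 k7 k8 k9 using hc
  have hlt : ∀ x y, a ≤ x → y ≤ τ → al y → nrm D (p y - p x) ≤ 4 * ρt → y < x + m0 :=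
    fun x y e1 e2 e3 e4 => not_le.1 fun e5 => absurd (hF x y e1 e5 e2 e3) (not_lt.2 e4)
  have hcutf : ∀ s0, IsCut D p al a τ r1 m0 s0 → ∀ x y R, a ≤ x → y ≤ τ → al y → r1 ≤ R →
      R ≤ ρt → x + R ^ 6 ≤ y → nrm D (p y - p x) ≤ 4 * R →
      y + (y - x) < s0 ∨ s0 + (y - x) < x := by
    intro s0 h0 x y R e1 e2 e3 e4 e5 e6 e7
    have e8 := hlt x y e1 e2 e3 (by omega)
    have e9 : x + (y - x) = y := by omega
    by_contra hcon
    have := h0 x (y - x) R e1 (by omega) (e9.symm ▸ e3) e4 (by omega) (by omega) (by omega)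
      (by omega)
    rw [e9] at this
    omega
  have hside : ∀ s0, IsCut D p al a τ r1 m0 s0 → ∀ t, t1 ≤ t → t ≤ t2 →
      s' t + (s' t - s t) < s0 ∨ s0 + (s' t - s t) < s t := by
    intro s0 h0 t e1 e2
    have := HdThin_tri (D := D) (p (s t)) (p (s' t)) (p t)
    have := k8 t e1 e2
    have := k9 t e1 e2
    exact hcutf s0 h0 _ _ (r t) (k3 t e1 e2) (k5 t e1 e2) (k7 t e1 e2) (k1 t e1 e2) (k2 t e1 e2)
      (k4 t e1 e2) (by omega)
  have hopp : ∀ s0, IsCut D p al a τ r1 m0 s0 → ∀ t u, t1 ≤ t → t ≤ t2 → t1 ≤ u → u ≤ t2 →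
      nrm D (p u - p t) ≤ 1 → s' t + (s' t - s t) < s0 → ¬ s0 + (s' u - s u) < s u := by
    intro s0 h0 t u e1 e2 e3 e4 e5 e6 e7
    have a1 := k1 t e1 e2
    have a2 := k2 t e1 e2
    have a3 := k3 t e1 e2
    have a4 := k4 t e1 e2
    have a9 := k9 t e1 e2
    have b1 := k1 u e3 e4
    have b2 := k2 u e3 e4
    have b4 := k4 u e3 e4
    have b5 := k5 u e3 e4
    have b8 := k8 u e3 e4
    have c1 := HdThin_tri (D := D) (p (s' t)) (p (s u)) (p t)
    have c2 := nrm_sub_le D (p (s u)) (p u) (p t)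
    rcases le_total (r t) (r u) with hle | hle
    · have := hcutf s0 h0 (s' t) (s u) (r u) (by omega) (by omega) (k6 u e3 e4) b1 b2 (by omega)
        (by omega)
      omega
    · have := hcutf s0 h0 (s' t) (s u) (r t) (by omega) (by omega) (k6 u e3 e4) a1 a2 (by omega)
        (by omega)
      omega
  have hsame : ∀ s0, IsCut D p al a τ r1 m0 s0 → ∀ t, t1 ≤ t → t ≤ t2 →
      (s' t + (s' t - s t) < s0 ↔ s' t1 + (s' t1 - s t1) < s0) := by
    intro s0 h0 t e1
    induction t, e1 using Nat.le_induction with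
    | base => intro _; rfl
    | succ t e1 ih =>
      intro e2
      rw [← ih (by omega)]
      have c := hp t (by omega) (by omega)
      have c' : nrm D (p t - p (t + 1)) ≤ 1 := by rwa [nrm_sub_comm]
      have d1 := hside s0 h0 t e1 (by omega)
      have d2 := hside s0 h0 (t + 1) (by omega) e2
      have d3 := hopp s0 h0 t (t + 1) e1 (by omega) (by omega) e2 c
      have d4 := hopp s0 h0 (t + 1) t (by omega) e2 e1 (by omega) c'
      tauto
  have a2 := k2 t1 le_rfl h12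
  have a3 := k3 t1 le_rfl h12
  have a4 := k4 t1 le_rfl h12
  have a5 := k5 t1 le_rfl h12
  have a8 := k8 t1 le_rfl h12
  have b2 := k2 t2 h12 le_rfl
  have b3 := k3 t2 h12 le_rfl
  have b4 := k4 t2 h12 le_rfl
  have b5 := k5 t2 h12 le_rfl
  have b8 := k8 t2 h12 le_rfl
  have hg : nrm D (p (s t2) - p (s t1)) ≤ g := by
    rcases le_total (s t1) (s t2) with hle | hle
    · refine (nrm_path_le D p hp a3 hle (by omega)).trans ?_
      by_contra hcon
      obtain ⟨s0, e1, e2, h0⟩ := hcut (s t1) a3 (by omega)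
      have d1 := hside s0 h0 t1 le_rfl h12
      have d2 := hsame s0 h0 t2 h12 le_rfl
      omega
    · rw [nrm_sub_comm]
      refine (nrm_path_le D p hp b3 hle (by omega)).trans ?_
      by_contra hcon
      obtain ⟨s0, e1, e2, h0⟩ := hcut (s t2) b3 (by omega)
      have d1 := hside s0 h0 t2 h12 le_rfl
      have d2 := hsame s0 h0 t2 h12 le_rfl
      omega
  have c1 := nrm_sub_le D (p t2) (p (s t2)) (p t1)
  have c2 := nrm_sub_le D (p (s t2)) (p (s t1)) (p t1)
  rw [nrm_sub_comm D (p t2) (p (s t2))] at c1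
  omega

end Pool.Agent.Lib.MP_aa337a_pr.HD
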