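import Pool.Agent.Lib.MP_aa337a_pr.HdDefs

/-! Basic calculus for `P`, `Ex`, `ind` and `Loc`. A function that depends on finitely many letters
factors through the finite discrete space `Fin n → E` (or `(i : Finset.range n) → E`), hence it is
measurable and has finite range, so it is integrable. -/

set_option autoImplicit false

noncomputable section

namespace Pool.Agent.Lib.MP_aa337a_pr.HD

open MeasureTheory Finset
open scoped Classical

theorem ind_nonneg (p : Prop) : 0 ≤ ind p := by unfold ind; split_ifs <;> norm_num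

theorem ind_le_one (p : Prop) : ind p ≤ 1 := by unfold ind; split_ifs <;> norm_num

theorem ind_of_true {p : Prop} (h : p) : ind p = 1 := if_pos h

theorem ind_of_false {p : Prop} (h : ¬ p) : ind p = 0 := if_neg h

theorem ind_mono {p q : Prop} (h : p → q) : ind p ≤ ind q := by
  unfold ind; split_ifs with h1 h2 <;> first | exact absurd (h h1) h2 | norm_num

theorem ind_and (p q : Prop) : ind (p ∧ q) = ind p * ind q := by
  unfold ind; by_cases hp : p <;> by_cases hq : q <;> simp [hp, hq]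

theorem ind_congr {p q : Prop} (h : p ↔ q) : ind p = ind q := by rw [propext h]

theorem card_filter_eq_sum_ind {ι : Type*} (s : Finset ι) (p : ι → Prop) [DecidablePred p] :
    ((s.filter p).card : ℝ) = ∑ i ∈ s, ind (p i) := by
  rw [card_filter]
  push_cast
  exact sum_congr rfl fun i _ => by by_cases h : p i <;> simp [ind, h]

section Dep

variable {E : Type*} {α β γ : Type*} {I : Set ℕ}

theorem dep_comp {f : (ℕ → E) → α} (h : DependsOn f I) (g : α → β) :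
    DependsOn (fun ω => g (f ω)) I := fun _ _ hh => congrArg g (h hh)

theorem dep_comp₂ {f : (ℕ → E) → α} {f' : (ℕ → E) → β} (h : DependsOn f I) (h' : DependsOn f' I)
    (g : α → β → γ) : DependsOn (fun ω => g (f ω) (f' ω)) I :=
  fun _ _ hh => by simp only [h hh, h' hh]

/-- A family of functions depending on `I` is one function depending on `I`. -/
theorem dep_pi {ι : Type*} {f : ι → (ℕ → E) → α} (h : ∀ i, DependsOn (f i) I) :
    DependsOn (fun ω i => f i ω) I := fun _ _ hh => funext fun i => h i hh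

theorem dep_eval {t : ℕ} (ht : t ∈ I) : DependsOn (fun ω : ℕ → E => ω t) I := fun _ _ hh => hh t ht

theorem Loc.of_dep {f : (ℕ → E) → α} {n : ℕ} (h : DependsOn f I) (hI : I ⊆ Set.Iio n) : Loc f :=
  ⟨n, h.mono hI⟩

theorem Loc.const (c : α) : Loc fun _ : ℕ → E => c := ⟨0, fun _ _ _ => rfl⟩

theorem Loc.comp {f : (ℕ → E) → α} (h : Loc f) (g : α → β) : Loc fun ω => g (f ω) :=
  let ⟨n, hn⟩ := h; ⟨n, dep_comp hn g⟩

theorem Loc.comp₂ {f : (ℕ → E) → α} {f' : (ℕ → E) → β} (h : Loc f) (h' : Loc f')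
    (g : α → β → γ) : Loc fun ω => g (f ω) (f' ω) := by
  obtain ⟨n, hn⟩ := h
  obtain ⟨n', hn'⟩ := h'
  exact ⟨max n n', dep_comp₂ (hn.mono (Set.Iio_subset_Iio (le_max_left _ _)))
    (hn'.mono (Set.Iio_subset_Iio (le_max_right _ _))) g⟩

theorem Loc.eval (t : ℕ) : Loc fun ω : ℕ → E => ω t := ⟨t + 1, dep_eval (by simp)⟩

/-- Finitely many local functions form one local function. -/
theorem Loc.pi {ι : Type*} (s : Finset ι) {f : ι → (ℕ → E) → α} (h : ∀ i ∈ s, Loc (f i)) :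
    Loc fun ω (i : s) => f i ω := by
  choose! n hn using h
  refine ⟨s.sup n, dep_pi fun i => (hn i i.2).mono (Set.Iio_subset_Iio ?_)⟩
  exact le_sup (f := n) i.2

theorem Loc.pi_fintype {ι : Type*} [Fintype ι] {f : ι → (ℕ → E) → α} (h : ∀ i, Loc (f i)) :
    Loc fun ω i => f i ω := by
  obtain ⟨n, hn⟩ := Loc.pi univ fun i _ => h i
  exact ⟨n, fun _ _ hh => funext fun i => congrFun (hn hh) ⟨i, mem_univ i⟩⟩

theorem Loc.sum {ι : Type*} [AddCommMonoid α] (s : Finset ι) {f : ι → (ℕ → E) → α}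
    (h : ∀ i ∈ s, Loc (f i)) : Loc fun ω => ∑ i ∈ s, f i ω := by
  obtain ⟨n, hn⟩ := Loc.pi s h
  exact ⟨n, fun _ _ hh => sum_congr rfl fun i hi => congrFun (hn hh) ⟨i, hi⟩⟩

theorem Loc.prod {ι : Type*} [CommMonoid α] (s : Finset ι) {f : ι → (ℕ → E) → α}
    (h : ∀ i ∈ s, Loc (f i)) : Loc fun ω => ∏ i ∈ s, f i ω := by
  obtain ⟨n, hn⟩ := Loc.pi s h
  exact ⟨n, fun _ _ hh => prod_congr rfl fun i hi => congrFun (hn hh) ⟨i, hi⟩⟩

theorem Loc.exists_mem {ι : Type*} (s : Finset ι) {p : ι → (ℕ → E) → Prop}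
    (h : ∀ i ∈ s, Loc (p i)) : Loc fun ω => ∃ i ∈ s, p i ω := by
  obtain ⟨n, hn⟩ := Loc.pi s h
  refine ⟨n, fun x y hh => propext (exists_congr fun i => and_congr_right fun hi => ?_)⟩
  exact iff_of_eq (congrFun (hn hh) ⟨i, hi⟩)

theorem Loc.forall_mem {ι : Type*} (s : Finset ι) {p : ι → (ℕ → E) → Prop}
    (h : ∀ i ∈ s, Loc (p i)) : Loc fun ω => ∀ i ∈ s, p i ω := by
  obtain ⟨n, hn⟩ := Loc.pi s h
  refine ⟨n, fun x y hh => propext (forall_congr' fun i => forall_congr' fun hi => ?_)⟩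
  exact iff_of_eq (congrFun (hn hh) ⟨i, hi⟩)

theorem Loc.filter {ι : Type*} (s : Finset ι) {p : ι → (ℕ → E) → Prop}
    [∀ ω, DecidablePred fun i => p i ω] (h : ∀ i ∈ s, Loc (p i)) : Loc fun ω => s.filter fun i => p i ω := by
  obtain ⟨n, hn⟩ := Loc.pi s h
  refine ⟨n, fun x y hh => filter_congr fun i hi => ?_⟩
  exact iff_of_eq (congrFun (hn hh) ⟨i, hi⟩)

theorem Loc.and {p q : (ℕ → E) → Prop} (h : Loc p) (h' : Loc q) : Loc fun ω => p ω ∧ q ω :=
  h.comp₂ h' And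

theorem Loc.or {p q : (ℕ → E) → Prop} (h : Loc p) (h' : Loc q) : Loc fun ω => p ω ∨ q ω :=
  h.comp₂ h' Or

theorem Loc.not {p : (ℕ → E) → Prop} (h : Loc p) : Loc fun ω => ¬ p ω := h.comp Not

theorem Loc.ind {p : (ℕ → E) → Prop} (h : Loc p) : Loc fun ω => ind (p ω) := h.comp HD.ind

theorem Loc.add {f g : (ℕ → E) → α} [Add α] (h : Loc f) (h' : Loc g) :
    Loc fun ω => f ω + g ω := h.comp₂ h' (· + ·)

theorem Loc.sub {f g : (ℕ → E) → α} [Sub α] (h : Loc f) (h' : Loc g) :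
    Loc fun ω => f ω - g ω := h.comp₂ h' (· - ·)

theorem Loc.mul {f g : (ℕ → E) → α} [Mul α] (h : Loc f) (h' : Loc g) :
    Loc fun ω => f ω * g ω := h.comp₂ h' (· * ·)

/-- Evaluation of a uniformly local family at a local argument. -/
theorem Loc.apply {F : (ℕ → E) → α → β} {f : (ℕ → E) → α} (hF : Loc F) (hf : Loc f) :
    Loc fun ω => F ω (f ω) := hF.comp₂ hf fun g x => g x

theorem Loc.update {f : (ℕ → E) → α} (h : Loc f) (t : ℕ) (e : E) :
    Loc fun ω => f (Function.update ω t e) := by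
  obtain ⟨n, hn⟩ := h
  refine ⟨n, fun x y hh => hn fun i hi => ?_⟩
  by_cases hit : i = t
  · subst hit; simp
  · rw [Function.update_of_ne hit, Function.update_of_ne hit]; exact hh i hi

theorem Loc.splice_left {f : (ℕ → E) → α} (t : ℕ) (ω' : ℕ → E) :
    Loc fun ω => f (splice t ω ω') := by
  refine ⟨t, fun x y hh => congrArg f (funext fun i => ?_)⟩
  unfold splice
  split_ifs with hi
  · exact hh i hi
  · rfl

theorem Loc.splice_right {f : (ℕ → E) → α} (h : Loc f) (t : ℕ) (ω : ℕ → E) :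
    Loc fun ω' => f (splice t ω ω') := by
  obtain ⟨n, hn⟩ := h
  refine ⟨n, fun x y hh => hn fun i hi => ?_⟩
  unfold splice
  split_ifs
  · rfl
  · exact hh i hi

theorem Loc.shift {f : (ℕ → E) → α} (h : Loc f) (a : ℕ) : Loc fun ω => f (shift a ω) := by
  obtain ⟨n, hn⟩ := h
  refine ⟨a + n, fun x y hh => hn fun i hi => ?_⟩
  exact hh (a + i) (Nat.add_lt_add_left hi a)

theorem dep_splice_left {f : (ℕ → E) → α} {t : ℕ} (h : DependsOn f (Set.Iio t)) (ω ω' : ℕ → E) :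
    f (splice t ω ω') = f ω := h fun _ hi => if_pos hi

theorem dep_splice_right {f : (ℕ → E) → α} {t : ℕ} (h : DependsOn f (Set.Ici t))
    (ω ω' : ℕ → E) : f (splice t ω ω') = f ω' := h fun _ hi => if_neg (not_lt.2 hi)

theorem dep_update {f : (ℕ → E) → α} (h : DependsOn f I) {t : ℕ} (ht : t ∉ I) (ω : ℕ → E)
    (e : E) : f (Function.update ω t e) = f ω :=
  h fun i hi => Function.update_of_ne (fun hh : i = t => ht (hh ▸ hi)) _ _

end Dep

namespace Sys

variable {d : ℕ} (Y : Sys d)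

theorem d_pos (Y : Sys d) : 0 < d := by
  have hne : Nonempty Y.E := by
    by_contra hh
    rw [not_nonempty_iff] at hh
    have := Y.ν_sum
    simp at this
  obtain ⟨e⟩ := hne
  exact (Y.stp e 0).1.pos

theorem HdTool_factor {α : Type*} {f : Y.Ω → α} (h : Loc f) :
    ∃ (n : ℕ) (g : (Fin n → Y.E) → α), f = fun ω => g fun i => ω i := by
  obtain ⟨n, hn⟩ := h
  have hne : Nonempty Y.E := by
    by_contra hh
    rw [not_nonempty_iff] at hh
    have := Y.ν_sum
    simp at this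
  obtain ⟨e⟩ := hne
  refine ⟨n, fun x => f fun i => if h : i < n then x ⟨i, h⟩ else e, funext fun ω => hn fun i hi => ?_⟩
  have hi' : i < n := hi
  simp [hi']

theorem measurable_of_loc {α : Type*} [MeasurableSpace α] {f : Y.Ω → α} (h : Loc f) :
    Measurable f := by
  obtain ⟨n, g, rfl⟩ := Y.HdTool_factor h
  exact (Measurable.of_discrete (f := g)).comp
    (measurable_pi_lambda _ fun i => measurable_pi_apply _)

theorem measurableSet_of_loc {p : Y.Ω → Prop} (h : Loc p) : MeasurableSet {ω | p ω} := by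
  exact measurableSet_setOf.2 (Y.measurable_of_loc h)

theorem integrable_of_loc {f : Y.Ω → ℝ} (h : Loc f) : Integrable f Y.μ := by
  have hm := Y.measurable_of_loc h
  obtain ⟨n, g, rfl⟩ := Y.HdTool_factor h
  refine Integrable.of_bound hm.aestronglyMeasurable (∑ x, ‖g x‖) (ae_of_all _ fun ω => ?_)
  exact single_le_sum (f := fun x => ‖g x‖) (fun _ _ => norm_nonneg _) (mem_univ _)

theorem P_nonneg (p : Y.Ω → Prop) : 0 ≤ Y.P p := measureReal_nonneg

theorem P_le_one (p : Y.Ω → Prop) : Y.P p ≤ 1 := measureReal_le_one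

theorem P_mono {p q : Y.Ω → Prop} (h : ∀ ω, p ω → q ω) : Y.P p ≤ Y.P q :=
  measureReal_mono (fun ω hω => h ω hω)

theorem P_congr {p q : Y.Ω → Prop} (h : ∀ ω, p ω ↔ q ω) : Y.P p = Y.P q :=
  le_antisymm (Y.P_mono fun ω => (h ω).1) (Y.P_mono fun ω => (h ω).2)

theorem P_false : Y.P (fun _ => False) = 0 := by simp [P]

theorem P_true : Y.P (fun _ => True) = 1 := by simp [P]

theorem P_eq_zero {p : Y.Ω → Prop} (h : ∀ ω, ¬ p ω) : Y.P p = 0 := by
  rw [← Y.P_false]; exact Y.P_congr fun ω => iff_false_intro (h ω)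

theorem P_or (p q : Y.Ω → Prop) : Y.P (fun ω => p ω ∨ q ω) ≤ Y.P p + Y.P q :=
  measureReal_union_le {ω | p ω} {ω | q ω}

theorem P_le_add {p q r : Y.Ω → Prop} (h : ∀ ω, p ω → q ω ∨ r ω) : Y.P p ≤ Y.P q + Y.P r :=
  (Y.P_mono h).trans (Y.P_or q r)

theorem P_exists {ι : Type*} (s : Finset ι) (p : ι → Y.Ω → Prop) :
    Y.P (fun ω => ∃ i ∈ s, p i ω) ≤ ∑ i ∈ s, Y.P (p i) := by
  have := measureReal_biUnion_finset_le (μ := Y.μ) s fun i => {ω | p i ω}
  refine le_trans (le_of_eq ?_) this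
  unfold P
  congr 1
  ext ω
  simp

theorem P_le_sum {ι : Type*} (s : Finset ι) {p : Y.Ω → Prop} (q : ι → Y.Ω → Prop)
    (h : ∀ ω, p ω → ∃ i ∈ s, q i ω) : Y.P p ≤ ∑ i ∈ s, Y.P (q i) :=
  (Y.P_mono h).trans (Y.P_exists s q)

theorem one_sub_P_le (p : Y.Ω → Prop) : 1 - Y.P p ≤ Y.P fun ω => ¬ p ω := by
  have := Y.P_le_add (p := fun _ => True) (q := p) (r := fun ω => ¬ p ω) fun ω _ => em _
  rw [Y.P_true] at this
  linarith

theorem P_not {p : Y.Ω → Prop} (h : Loc p) : Y.P (fun ω => ¬ p ω) = 1 - Y.P p := by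
  have := probReal_compl_eq_one_sub (μ := Y.μ) (Y.measurableSet_of_loc h)
  exact this

theorem Ex_ind {p : Y.Ω → Prop} (h : Loc p) : Y.Ex (fun ω => ind (p ω)) = Y.P p := by
  have := integral_indicator_one (μ := Y.μ) (Y.measurableSet_of_loc h)
  refine Eq.trans (congrArg (integral Y.μ) (funext fun ω => ?_)) this
  by_cases hp : p ω <;> simp [ind, Set.indicator, hp]

theorem Ex_const (c : ℝ) : Y.Ex (fun _ => c) = c := by simp [Ex]

theorem Ex_congr {f g : Y.Ω → ℝ} (h : ∀ ω, f ω = g ω) : Y.Ex f = Y.Ex g :=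
  congrArg Y.Ex (funext h)

theorem Ex_add {f g : Y.Ω → ℝ} (hf : Loc f) (hg : Loc g) :
    Y.Ex (fun ω => f ω + g ω) = Y.Ex f + Y.Ex g :=
  integral_add (Y.integrable_of_loc hf) (Y.integrable_of_loc hg)

theorem Ex_sub {f g : Y.Ω → ℝ} (hf : Loc f) (hg : Loc g) :
    Y.Ex (fun ω => f ω - g ω) = Y.Ex f - Y.Ex g :=
  integral_sub (Y.integrable_of_loc hf) (Y.integrable_of_loc hg)

theorem Ex_const_mul (c : ℝ) (f : Y.Ω → ℝ) : Y.Ex (fun ω => c * f ω) = c * Y.Ex f :=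
  integral_const_mul c f

theorem Ex_sum {ι : Type*} (s : Finset ι) {f : ι → Y.Ω → ℝ} (h : ∀ i ∈ s, Loc (f i)) :
    Y.Ex (fun ω => ∑ i ∈ s, f i ω) = ∑ i ∈ s, Y.Ex (f i) :=
  integral_finsetSum s fun i hi => Y.integrable_of_loc (h i hi)

theorem Ex_mono {f g : Y.Ω → ℝ} (hf : Loc f) (hg : Loc g) (h : ∀ ω, f ω ≤ g ω) :
    Y.Ex f ≤ Y.Ex g :=
  integral_mono (Y.integrable_of_loc hf) (Y.integrable_of_loc hg) h

theorem Ex_nonneg {f : Y.Ω → ℝ} (h : ∀ ω, 0 ≤ f ω) : 0 ≤ Y.Ex f := integral_nonneg h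

theorem Ex_le_const {f : Y.Ω → ℝ} (hf : Loc f) {c : ℝ} (h : ∀ ω, f ω ≤ c) : Y.Ex f ≤ c :=
  (Y.Ex_mono hf (Loc.const c) h).trans (Y.Ex_const c).le

/-- Sums of probabilities as one expectation. -/
theorem sum_P_eq {ι : Type*} (s : Finset ι) {p : ι → Y.Ω → Prop} (h : ∀ i ∈ s, Loc (p i)) :
    ∑ i ∈ s, Y.P (p i) = Y.Ex fun ω => ∑ i ∈ s, ind (p i ω) := by
  rw [Y.Ex_sum s fun i hi => (h i hi).ind]
  exact sum_congr rfl fun i hi => (Y.Ex_ind (h i hi)).symm

/-- Markov inequality. -/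
theorem markov {p : Y.Ω → Prop} {f : Y.Ω → ℝ} (hf : Loc f) (h0 : ∀ ω, 0 ≤ f ω) {c : ℝ}
    (h : ∀ ω, p ω → c ≤ f ω) : c * Y.P p ≤ Y.Ex f := by
  have hm : MeasurableSet {ω | c ≤ f ω} := Y.measurableSet_of_loc (hf.comp fun x => c ≤ x)
  by_cases hc : c ≤ 0
  · exact (mul_nonpos_of_nonpos_of_nonneg hc (Y.P_nonneg p)).trans (Y.Ex_nonneg h0)
  have h1 : Y.P p ≤ Y.P fun ω => c ≤ f ω := Y.P_mono h
  have hl : Loc fun ω => c ≤ f ω := hf.comp fun x => c ≤ x
  calc c * Y.P p ≤ c * Y.P fun ω => c ≤ f ω := mul_le_mul_of_nonneg_left h1 (not_le.1 hc).le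
    _ = Y.Ex fun ω => c * ind (c ≤ f ω) := by rw [Y.Ex_const_mul, Y.Ex_ind hl]
    _ ≤ Y.Ex f := by
      refine Y.Ex_mono ((Loc.const c).mul hl.ind) hf fun ω => ?_
      by_cases hh : c ≤ f ω
      · rw [ind_of_true hh, mul_one]; exact hh
      · rw [ind_of_false hh, mul_zero]; exact h0 ω

end Sys

end Pool.Agent.Lib.MP_aa337a_pr.HD
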